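import Mathlib

set_option autoImplicit false
open MeasureTheory Filter Topology Set
open scoped Classical

namespace Pool.Agent.H636R3.FK

/-- the adjoint element in the group ring -/
noncomputable def adj {Γ : Type*} [Group Γ] (α : MonoidAlgebra ℤ Γ) : MonoidAlgebra ℤ Γ :=
  MonoidAlgebra.ofCoeff (Finsupp.mapDomain (fun g => g⁻¹) α.coeff)

theorem adj_coeff {Γ : Type*} [Group Γ] (α : MonoidAlgebra ℤ Γ) (g : Γ) :
    (adj α).coeff g = α.coeff g⁻¹ := by
  unfold adj
  rw [MonoidAlgebra.coeff_ofCoeff]
  conv_lhs => rw [← inv_inv g]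
  exact Finsupp.mapDomain_apply (f := fun g : Γ => g⁻¹) inv_injective α.coeff (g⁻¹)

theorem mul_adj_coeff {Γ : Type*} [Group Γ] (α : MonoidAlgebra ℤ Γ) (u : Γ) :
    (α * adj α).coeff u = ∑ᶠ t : Γ, α.coeff t * α.coeff (u⁻¹ * t) := by
  rw [MonoidAlgebra.coeff_mul_apply_left, Finsupp.sum,
    finsum_eq_sum_of_support_subset (s := α.coeff.support)]
  · refine Finset.sum_congr rfl fun t _ => ?_
    rw [adj_coeff, mul_inv_rev, inv_inv]
  · intro t ht
    simp only [Function.mem_support] at ht
    simp only [Finset.mem_coe, Finsupp.mem_support_iff]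
    intro h
    apply ht
    rw [h, zero_mul]

theorem iterate_eq {Γ : Type} [Group Γ] (α : Γ →₀ ℤ) (n : ℕ) (k₁ k₂ : Fin 1) (g : Γ) :
    Nat.iterate
          (fun (X : Fin 1 → Fin 1 → Γ → ℤ) => fun (k₁ k₂ : Fin 1) (g : Γ) =>
            ∑ k' : Fin 1, ∑ᶠ h : Γ, X k₁ k' h *
              ∑ l : Fin 1, ∑ᶠ t : Γ, α t * α ((h⁻¹ * g)⁻¹ * t))
          n
          (fun (k₁ k₂ : Fin 1) (g : Γ) => if k₁ = k₂ ∧ g = 1 then (1 : ℤ) else 0)
          k₁ k₂ g =
      (((MonoidAlgebra.ofCoeff α) * adj (MonoidAlgebra.ofCoeff α)) ^ n).coeff g := by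
  induction n generalizing k₁ k₂ g with
  | zero =>
    simp only [Function.iterate_zero, id, pow_zero]
    rw [MonoidAlgebra.one_def, MonoidAlgebra.coeff_single]
    have : k₁ = k₂ := Subsingleton.elim _ _
    by_cases hg : g = 1
    · subst hg
      simp [this]
    · simp only [hg, and_false, if_false]
      rw [Finsupp.single_apply, if_neg (Ne.symm hg)]
  | succ n ih =>
    rw [Function.iterate_succ_apply']
    simp only [Finset.univ_unique, Finset.sum_singleton]
    rw [pow_succ, MonoidAlgebra.coeff_mul_apply_left, Finsupp.sum,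
      finsum_eq_sum_of_support_subset (s := (((MonoidAlgebra.ofCoeff α) * adj (MonoidAlgebra.ofCoeff α)) ^ n).coeff.support)]
    · refine Finset.sum_congr rfl fun h _ => ?_
      have := ih k₁ default h
      simp only [Finset.univ_unique, Finset.sum_singleton] at this
      rw [this, mul_adj_coeff]
    · intro h hh
      simp only [Function.mem_support] at hh
      simp only [Finset.mem_coe, Finsupp.mem_support_iff]
      intro h0
      apply hh
      have := ih k₁ default h
      simp only [Finset.univ_unique, Finset.sum_singleton] at this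
      rw [this, h0, zero_mul]

end Pool.Agent.H636R3.FK
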