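import Mathlib
import Pool.Agent.H636R3.FKIter

set_option autoImplicit false
open MeasureTheory Filter Topology Set
open scoped Classical

namespace Pool.Agent.H636R3.FK

/-- The discrete Heisenberg group. -/
@[ext] structure Heis where
  x : ℤ
  y : ℤ
  z : ℤ

namespace Heis

instance : Mul Heis := ⟨fun g h => ⟨g.x + h.x, g.y + h.y, g.z + h.z + g.x * h.y⟩⟩
instance : One Heis := ⟨⟨0, 0, 0⟩⟩
instance : Inv Heis := ⟨fun g => ⟨-g.x, -g.y, -g.z + g.x * g.y⟩⟩

@[simp] theorem mul_x (g h : Heis) : (g * h).x = g.x + h.x := rfl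
@[simp] theorem mul_y (g h : Heis) : (g * h).y = g.y + h.y := rfl
@[simp] theorem mul_z (g h : Heis) : (g * h).z = g.z + h.z + g.x * h.y := rfl
@[simp] theorem one_x : (1 : Heis).x = 0 := rfl
@[simp] theorem one_y : (1 : Heis).y = 0 := rfl
@[simp] theorem one_z : (1 : Heis).z = 0 := rfl
@[simp] theorem inv_x (g : Heis) : (g⁻¹).x = -g.x := rfl
@[simp] theorem inv_y (g : Heis) : (g⁻¹).y = -g.y := rfl
@[simp] theorem inv_z (g : Heis) : (g⁻¹).z = -g.z + g.x * g.y := rfl

instance : Group Heis := Group.ofLeftAxioms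
  (by intro a b c; ext <;> simp <;> ring)
  (by intro a; ext <;> simp)
  (by intro a; ext <;> simp)

end Heis

/-- congruence subgroup -/
def NN (n : ℕ) : Subgroup Heis where
  carrier := {g | (n : ℤ) ∣ g.x ∧ (n : ℤ) ∣ g.y ∧ (n : ℤ) ∣ g.z}
  mul_mem' := by
    rintro a b ⟨ha1, ha2, ha3⟩ ⟨hb1, hb2, hb3⟩
    refine ⟨dvd_add ha1 hb1, dvd_add ha2 hb2, dvd_add (dvd_add ha3 hb3) (ha1.mul_right _)⟩
  one_mem' := by simp
  inv_mem' := by
    rintro a ⟨ha1, ha2, ha3⟩
    refine ⟨(dvd_neg.2 ha1), (dvd_neg.2 ha2), dvd_add (dvd_neg.2 ha3) (ha1.mul_right _)⟩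

theorem mem_NN {n : ℕ} {g : Heis} :
    g ∈ NN n ↔ (n : ℤ) ∣ g.x ∧ (n : ℤ) ∣ g.y ∧ (n : ℤ) ∣ g.z := Iff.rfl

instance (n : ℕ) : (NN n).Normal := by
  constructor
  intro a ha g
  rw [mem_NN] at ha ⊢
  obtain ⟨h1, h2, h3⟩ := ha
  refine ⟨?_, ?_, ?_⟩
  · simpa using h1
  · simpa using h2
  · have : (g * a * g⁻¹).z = a.z + g.x * a.y - a.x * g.y := by
      simp; ring
    rw [this]
    exact dvd_sub (dvd_add h3 (h2.mul_left _)) (h1.mul_right _)

theorem NN_anti {m n : ℕ} (h : m ∣ n) : NN n ≤ NN m := by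
  intro g hg
  rw [mem_NN] at hg ⊢
  have : (m : ℤ) ∣ n := Int.natCast_dvd_natCast.2 h
  exact ⟨this.trans hg.1, this.trans hg.2.1, this.trans hg.2.2⟩

theorem iInf_NN : (⨅ i : ℕ, NN (3 ^ (i + 1))) = ⊥ := by
  rw [eq_bot_iff]
  intro g hg
  rw [Subgroup.mem_iInf] at hg
  rw [Subgroup.mem_bot]
  have key : ∀ c : ℤ, (∀ i : ℕ, ((3 ^ (i + 1) : ℕ) : ℤ) ∣ c) → c = 0 := by
    intro c hc
    by_contra h0
    have h1 := Int.natAbs_dvd_natAbs.2 (hc c.natAbs)
    have h2 := Nat.le_of_dvd (Int.natAbs_pos.2 h0) h1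
    have h3 : c.natAbs < 3 ^ (c.natAbs + 1) :=
      lt_of_lt_of_le (Nat.lt_pow_self (by norm_num)) (Nat.pow_le_pow_right (by norm_num) (Nat.le_succ _))
    simp only [Int.natAbs_natCast] at h2
    omega
  ext
  · exact key _ fun i => (mem_NN.1 (hg i)).1
  · exact key _ fun i => (mem_NN.1 (hg i)).2.1
  · exact key _ fun i => (mem_NN.1 (hg i)).2.2

/-- The element `1 - 3 Y + 3 X Y`. -/
noncomputable def aa : MonoidAlgebra ℤ Heis :=
  MonoidAlgebra.single 1 1 + MonoidAlgebra.single (⟨0, 1, 0⟩ : Heis) (-3) + MonoidAlgebra.single (⟨1, 1, 1⟩ : Heis) 3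

variable {n : ℕ} [NeZero n]

/-- the representations -/
noncomputable def rep (τ : ℂ) (hτ : ‖τ‖ = 1) (i j : ZMod n) : Heis →* Matrix (ZMod n) (ZMod n) ℂ where
  toFun g := Matrix.of fun a b => if a = b + (g.y : ZMod n) then
    τ ^ g.x * ZMod.stdAddChar (N := n) (i * (g.x : ZMod n) + j * (g.z : ZMod n) + j * b * (g.x : ZMod n)) else 0
  map_one' := by
    ext a b
    simp only [Heis.one_x, Heis.one_y, Heis.one_z, Int.cast_zero, Matrix.of_apply, add_zero, zpow_zero, mul_zero,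
      AddChar.map_zero_eq_one, mul_one, Matrix.one_apply]
  map_mul' g h := by
    have hτ0 : τ ≠ 0 := by
      intro h0; rw [h0] at hτ; simp at hτ
    ext a b
    rw [Matrix.mul_apply, Finset.sum_eq_single (b + (h.y : ZMod n))]
    · simp only [Matrix.of_apply, Heis.mul_x, Heis.mul_y, Heis.mul_z, if_true]
      by_cases hab : a = b + (h.y : ZMod n) + (g.y : ZMod n)
      · rw [if_pos hab, if_pos (by rw [hab]; push_cast; ring), zpow_add₀ hτ0]
        rw [mul_mul_mul_comm, ← AddChar.map_add_eq_mul]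
        congr 2
        push_cast; ring
      · rw [if_neg hab, if_neg (by rw [show b + ((g.y + h.y : ℤ) : ZMod n) = b + (h.y : ZMod n) + (g.y : ZMod n) by push_cast; ring]; exact hab), zero_mul]
    · intro c _ hc
      simp only [Matrix.of_apply]
      rw [if_neg hc, mul_zero]
    · simp

theorem rep_apply (τ : ℂ) (hτ : ‖τ‖ = 1) (i j : ZMod n) (g : Heis) (a b : ZMod n) :
    rep τ hτ i j g a b = if a = b + (g.y : ZMod n) then
    τ ^ g.x * ZMod.stdAddChar (N := n) (i * (g.x : ZMod n) + j * (g.z : ZMod n) + j * b * (g.x : ZMod n)) else 0 :=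
  rfl

theorem rep_inv (τ : ℂ) (hτ : ‖τ‖ = 1) (i j : ZMod n) (g : Heis) :
    rep τ hτ i j g⁻¹ = (rep τ hτ i j g).conjTranspose := by
  ext a b
  rw [Matrix.conjTranspose_apply, rep_apply, rep_apply]
  by_cases h : b = a + (g.y : ZMod n)
  · rw [if_pos h, if_pos (by rw [h]; simp)]
    rw [star_mul, Heis.inv_x, Heis.inv_z]
    have h1 : star (τ ^ g.x) = τ ^ (-g.x) := by
      have : star τ = τ⁻¹ := by
        rw [Complex.inv_def, Complex.normSq_eq_norm_sq, hτ]; simp
      rw [star_zpow₀, this, inv_zpow, zpow_neg]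
    have h2 : star (ZMod.stdAddChar (N := n) (i * (g.x : ZMod n) + j * (g.z : ZMod n) + j * a * (g.x : ZMod n)))
       = ZMod.stdAddChar (N := n) (-(i * (g.x : ZMod n) + j * (g.z : ZMod n) + j * a * (g.x : ZMod n))) := by
      rw [AddChar.map_neg_eq_conj]; rfl
    rw [h1, h2, mul_comm]
    congr 2
    rw [h]
    push_cast; ring
  · rw [if_neg h, if_neg (by intro h'; apply h; rw [h']; simp), star_zero]

/-- image of the group ring -/
noncomputable def repA (τ : ℂ) (hτ : ‖τ‖ = 1) (i j : ZMod n) :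
    MonoidAlgebra ℤ Heis →ₐ[ℤ] Matrix (ZMod n) (ZMod n) ℂ :=
  MonoidAlgebra.lift ℤ _ Heis (rep τ hτ i j)

theorem adj_add {Γ : Type*} [Group Γ] (α β : MonoidAlgebra ℤ Γ) : adj (α + β) = adj α + adj β := by
  ext g
  simp [adj_coeff]

theorem adj_zero {Γ : Type*} [Group Γ] : adj (0 : MonoidAlgebra ℤ Γ) = 0 := by
  ext g
  simp [adj_coeff]

theorem adj_single {Γ : Type*} [Group Γ] (g : Γ) (c : ℤ) :
    adj (MonoidAlgebra.single g c) = MonoidAlgebra.single g⁻¹ c := by
  ext h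
  rw [adj_coeff]
  simp only [MonoidAlgebra.coeff_single, Finsupp.single_apply]
  congr 1
  simp only [eq_iff_iff]
  constructor
  · rintro rfl; simp
  · rintro rfl; simp

theorem repA_adj (τ : ℂ) (hτ : ‖τ‖ = 1) (i j : ZMod n) (α : MonoidAlgebra ℤ Heis) :
    repA τ hτ i j (adj α) = (repA τ hτ i j α).conjTranspose := by
  induction α using MonoidAlgebra.induction_linear with
  | zero => simp [adj_zero]
  | add x y hx hy => rw [adj_add, map_add, map_add, hx, hy, Matrix.conjTranspose_add]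
  | single g c =>
    rw [adj_single]
    simp only [repA, MonoidAlgebra.lift_single]
    rw [rep_inv, Matrix.conjTranspose_smul]
    simp

theorem repA_trace (τ : ℂ) (hτ : ‖τ‖ = 1) (i j : ZMod n) (α : MonoidAlgebra ℤ Heis) :
    (repA τ hτ i j α).trace = ∑ g ∈ α.coeff.support, (α.coeff g : ℂ) * (rep τ hτ i j g).trace := by
  rw [repA, MonoidAlgebra.lift_apply, Finsupp.sum, Matrix.trace_sum]
  refine Finset.sum_congr rfl fun g _ => ?_
  rw [Matrix.trace_smul]
  simp

theorem rep_trace (τ : ℂ) (hτ : ‖τ‖ = 1) (i j : ZMod n) (g : Heis) :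
    (rep τ hτ i j g).trace = if (g.y : ZMod n) = 0 then
      τ ^ g.x * ∑ b : ZMod n, ZMod.stdAddChar (N := n) (i * (g.x : ZMod n) + j * (g.z : ZMod n) + j * b * (g.x : ZMod n)) else 0 := by
  rw [Matrix.trace]
  simp only [Matrix.diag_apply, rep_apply, left_eq_add]
  split_ifs
  · rw [Finset.mul_sum]
  · simp

/-- sum of traces over `i` and over `j` in a finite set `J` -/
theorem sum_rep_trace (τ : ℂ) (hτ : ‖τ‖ = 1) (J : Finset (ZMod n)) (g : Heis) :
    ∑ i : ZMod n, ∑ j ∈ J, (rep τ hτ i j g).trace = if (g.y : ZMod n) = 0 ∧ (g.x : ZMod n) = 0 then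
      τ ^ g.x * ((n : ℂ) ^ 2 * ∑ j ∈ J, ZMod.stdAddChar (N := n) (j * (g.z : ZMod n))) else 0 := by
  simp only [rep_trace]
  by_cases hy : (g.y : ZMod n) = 0
  · simp only [hy, true_and, if_true]
    by_cases hx : (g.x : ZMod n) = 0
    · simp only [hx, if_true, mul_zero, zero_add, add_zero]
      simp only [Finset.sum_const, Finset.card_univ, ZMod.card, nsmul_eq_mul]
      rw [← Finset.mul_sum, ← Finset.mul_sum]
      ring
    · rw [if_neg hx, Finset.sum_comm]
      apply Finset.sum_eq_zero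
      intro j _
      rw [← Finset.mul_sum, Finset.sum_comm]
      have : ∀ b : ZMod n, ∑ i : ZMod n, ZMod.stdAddChar (N := n) (i * (g.x : ZMod n) + j * (g.z : ZMod n) + j * b * (g.x : ZMod n)) = 0 := by
        intro b
        simp only [add_assoc, AddChar.map_add_eq_mul]
        rw [← Finset.sum_mul, AddChar.sum_mulShift _ (ZMod.isPrimitive_stdAddChar n), if_neg hx]
        simp
      simp [this]
  · simp [hy]

end Pool.Agent.H636R3.FK
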