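import Mathlib
import Pool.Agent.H636R3.FKGroup

set_option autoImplicit false
open MeasureTheory Filter Topology Set
open scoped Classical ComplexOrder

namespace Pool.Agent.H636R3.FK

section general
variable {m : Type*} [Fintype m] [DecidableEq m]

theorem trace_pow_eq {A : Matrix m m ℂ} (hA : A.IsHermitian) (k : ℕ) :
    (A ^ k).trace = ∑ i, ((hA.eigenvalues i : ℂ)) ^ k := by
  conv_lhs => rw [hA.spectral_theorem]
  rw [← map_pow, Unitary.conjStarAlgAut_apply, Matrix.trace_mul_cycle]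
  rw [Unitary.coe_star_mul_self, one_mul, Matrix.diagonal_pow, Matrix.trace_diagonal]
  rfl

open scoped Matrix.Norms.L2Operator in
theorem eigenvalues_le_norm [Nonempty m] (A : Matrix m m ℂ) (hA : A.IsHermitian) (i : m) :
    hA.eigenvalues i ≤ ‖A‖ := by
  have h1 : (hA.eigenvalues i : ℂ) ∈ spectrum ℂ A := by
    have := hA.eigenvalues_mem_spectrum_real i
    rw [← spectrum.algebraMap_mem_iff ℂ] at this
    exact this
  have h2 := spectrum.norm_le_norm_of_mem h1
  rw [Complex.norm_real] at h2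
  exact (le_abs_self _).trans h2

end general

variable {n : ℕ} [NeZero n]

theorem prod_range_natCast (f : ZMod n → ℂ) : ∏ l ∈ Finset.range n, f (l : ZMod n) = ∏ c : ZMod n, f c := by
  refine Finset.prod_bij (fun l _ => (l : ZMod n)) (fun _ _ => Finset.mem_univ _) ?_ ?_ ?_
  · intro a ha b hb h
    rw [ZMod.natCast_eq_natCast_iff] at h
    exact Nat.ModEq.eq_of_lt_of_lt h (Finset.mem_range.1 ha) (Finset.mem_range.1 hb)
  · intro b _
    exact ⟨b.val, Finset.mem_range.2 (ZMod.val_lt b), ZMod.natCast_zmod_val b⟩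
  · intro a _; rfl

theorem shift_eig (d v : ZMod n → ℂ) (hv : v ≠ 0) (lam : ℂ)
    (h : ∀ a, d a * v (a - 1) = lam * v a) : lam ^ n = ∏ a, d a := by
  have key : ∀ (m : ℕ) (a : ZMod n), lam ^ m * v a = (∏ l ∈ Finset.range m, d (a - (l : ZMod n))) * v (a - (m : ZMod n)) := by
    intro m
    induction m with
    | zero => intro a; simp
    | succ m ih =>
      intro a
      rw [pow_succ, mul_comm (lam ^ m), mul_assoc, ih, Finset.prod_range_succ, mul_left_comm, ← h]
      push_cast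
      rw [sub_sub]
      ring
  obtain ⟨a, ha⟩ : ∃ a, v a ≠ 0 := by
    by_contra hc
    push Not at hc
    exact hv (funext hc)
  have h1 := key n a
  rw [ZMod.natCast_self, sub_zero] at h1
  have h2 := mul_right_cancel₀ ha h1
  rw [h2, prod_range_natCast (fun l => d (a - l))]
  exact (Equiv.subLeft a).prod_comp d

/-- weighted cyclic shift -/
def WS (d : ZMod n → ℂ) : Matrix (ZMod n) (ZMod n) ℂ := Matrix.of fun a b => if a = b + 1 then d a else 0

theorem WS_mulVec (d v : ZMod n → ℂ) (a : ZMod n) : (WS d).mulVec v a = d a * v (a - 1) := by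
  rw [Matrix.mulVec, dotProduct, Finset.sum_eq_single (a - 1)]
  · simp [WS]
  · intro b _ hb
    simp only [WS, Matrix.of_apply]
    rw [if_neg, zero_mul]
    intro h; apply hb; rw [h]; simp
  · simp

theorem root_pow (d : ZMod n → ℂ) (r : ℂ) (hr : r ∈ (WS d).charpoly.roots) : r ^ n = ∏ a, d a := by
  rw [Polynomial.mem_roots (Matrix.charpoly_monic _).ne_zero, Polynomial.IsRoot.def, Matrix.eval_charpoly] at hr
  obtain ⟨v, hv, hv2⟩ := Matrix.exists_mulVec_eq_zero_iff.2 hr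
  refine shift_eig d v hv r fun a => ?_
  have h1 := congrFun hv2 a
  rw [Matrix.sub_mulVec, Pi.sub_apply, WS_mulVec, Pi.zero_apply, sub_eq_zero] at h1
  rw [← h1]
  simp [Matrix.scalar_apply, Matrix.mulVec_diagonal]

theorem det_one_sub (d : ZMod n → ℂ) :
    (1 - WS d).det = ((WS d).charpoly.roots.map fun r => 1 - r).prod := by
  have h1 := Matrix.eval_charpoly (WS d) 1
  rw [map_one] at h1
  rw [← h1, (IsAlgClosed.splits _).eval_eq_prod_roots_of_monic (Matrix.charpoly_monic _)]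

theorem det_eq_one (d : ZMod n → ℂ) (h : ∏ a, d a = 0) : (1 - WS d).det = 1 := by
  rw [det_one_sub]
  apply Multiset.prod_eq_one
  intro x hx
  rw [Multiset.mem_map] at hx
  obtain ⟨r, hr, rfl⟩ := hx
  have := root_pow d r hr
  rw [h] at this
  rw [pow_eq_zero_iff (NeZero.ne n)] at this
  rw [this, sub_zero]

theorem card_roots (d : ZMod n → ℂ) : (WS d).charpoly.roots.card = n := by
  rw [(Polynomial.splits_iff_card_roots.1 (IsAlgClosed.splits (WS d).charpoly)), Matrix.charpoly_natDegree_eq_dim, ZMod.card]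

theorem det_ge (d : ZMod n → ℂ) (h : (3 : ℝ) ^ n ≤ ‖∏ a, d a‖) : (2 : ℝ) ^ n ≤ ‖(1 - WS d).det‖ := by
  rw [det_one_sub]
  have h1 : ∀ s : Multiset ℂ, (∀ r ∈ s, 3 ≤ ‖r‖) → (2 : ℝ) ^ s.card ≤ ‖(s.map fun r => 1 - r).prod‖ := by
    intro s
    induction s using Multiset.induction_on with
    | empty => simp
    | cons a s ih =>
      intro hs
      rw [Multiset.map_cons, Multiset.prod_cons, norm_mul, Multiset.card_cons, pow_succ, mul_comm]
      have h2 : 2 ≤ ‖1 - a‖ := by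
        have h3 : 3 ≤ ‖a‖ := hs a (Multiset.mem_cons_self _ _)
        have h4 : ‖a‖ ≤ ‖(1 : ℂ)‖ + ‖1 - a‖ := by
          calc ‖a‖ = ‖1 - (1 - a)‖ := by ring_nf
            _ ≤ _ := norm_sub_le _ _
        rw [norm_one] at h4
        linarith
      exact mul_le_mul h2 (ih fun r hr => hs r (Multiset.mem_cons_of_mem hr)) (by positivity) (by positivity)
  have h2 := h1 (WS d).charpoly.roots (fun r hr => by
    have h3 := root_pow d r hr
    rw [← h3, norm_pow] at h
    exact le_of_pow_le_pow_left₀ (NeZero.ne n) (norm_nonneg _) h)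
  rwa [card_roots] at h2

/-- the weights -/
noncomputable def dd (τ : ℂ) (i j : ZMod n) (a : ZMod n) : ℂ := 3 * (1 - τ * ZMod.stdAddChar (N := n) (i + j * a))

theorem repA_aa (τ : ℂ) (hτ : ‖τ‖ = 1) (i j : ZMod n) : repA τ hτ i j aa = 1 - WS (dd τ i j) := by
  rw [aa, map_add, map_add, repA, MonoidAlgebra.lift_single, MonoidAlgebra.lift_single, MonoidAlgebra.lift_single,
    map_one, one_smul]
  rw [add_assoc, sub_eq_add_neg]
  congr 1
  ext a b
  simp only [Matrix.add_apply, Matrix.smul_apply, rep_apply, Matrix.neg_apply, WS, Matrix.of_apply, dd]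
  simp only [Int.cast_one, zpow_zero, Int.cast_zero, mul_zero, add_zero, AddChar.map_zero_eq_one, mul_one, zpow_one]
  by_cases h : a = b + 1
  · simp only [h, if_true]
    rw [show i + j + j * b = i + j * (b + 1) by ring]
    simp only [zsmul_eq_mul]
    push_cast
    ring
  · simp [h]

theorem prod_one_sub (τ : ℂ) : ∏ c : ZMod n, (1 - τ * ZMod.stdAddChar (N := n) c) = 1 - τ ^ n := by
  have h1 : IsPrimitiveRoot (ZMod.stdAddChar (N := n) 1) n := by
    have := Complex.isPrimitiveRoot_exp n (NeZero.ne n)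
    convert this using 1
    have := ZMod.stdAddChar_coe (N := n) 1
    rw [Int.cast_one] at this
    rw [this]
    congr 1
    push_cast
    ring
  have h2 := h1.pow_sub_pow_eq_prod_sub_mul 1 τ (Nat.pos_of_ne_zero (NeZero.ne n))
  rw [one_pow] at h2
  rw [h2]
  have h3 : Polynomial.nthRootsFinset n (1 : ℂ) = Finset.univ.image (fun c : ZMod n => ZMod.stdAddChar (N := n) c) := by
    symm
    apply Finset.eq_of_subset_of_card_le
    · intro z hz
      rw [Finset.mem_image] at hz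
      obtain ⟨c, _, rfl⟩ := hz
      rw [Polynomial.mem_nthRootsFinset (Nat.pos_of_ne_zero (NeZero.ne n))]
      rw [← AddChar.map_nsmul_eq_pow]
      simp
    · rw [h1.card_nthRootsFinset, Finset.card_image_of_injective _ ZMod.injective_stdAddChar, Finset.card_univ, ZMod.card]
  rw [h3, Finset.prod_image (fun a _ b _ h => ZMod.injective_stdAddChar h)]
  refine Finset.prod_congr rfl fun c _ => ?_
  ring

theorem prod_dd_zero (i j : ZMod n) (hj : IsUnit j) : ∏ a, dd 1 i j a = 0 := by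
  obtain ⟨u, rfl⟩ := hj
  apply Finset.prod_eq_zero (Finset.mem_univ (-(↑u⁻¹ * i)))
  rw [dd]
  have : i + ↑u * (-(↑u⁻¹ * i)) = 0 := by
    rw [mul_neg, ← mul_assoc, Units.mul_inv, one_mul, add_neg_cancel]
  rw [this]
  simp

theorem prod_dd (τ : ℂ) (i j : ZMod n) (hj : IsUnit j) : ∏ a, dd τ i j a = 3 ^ n * (1 - τ ^ n) := by
  simp only [dd]
  rw [Finset.prod_mul_distrib, Finset.prod_const, Finset.card_univ, ZMod.card]
  congr 1
  rw [← prod_one_sub τ]
  obtain ⟨u, rfl⟩ := hj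
  exact ((Equiv.addLeft i).bijective.comp (Units.mulLeft u).bijective).prod_comp (fun c => 1 - τ * ZMod.stdAddChar (N := n) c)

theorem det_unit_one (i j : ZMod n) (hj : IsUnit j) : (repA 1 norm_one i j aa).det = 1 := by
  rw [repA_aa, det_eq_one _ (prod_dd_zero i j hj)]

theorem det_unit_twist (τ : ℂ) (hτ : ‖τ‖ = 1) (hτn : τ ^ n = -1) (i j : ZMod n) (hj : IsUnit j) :
    (2 : ℝ) ^ n ≤ ‖(repA τ hτ i j aa).det‖ := by
  rw [repA_aa]
  apply det_ge
  rw [prod_dd τ i j hj, hτn, norm_mul, norm_pow]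
  norm_num

section norm
open scoped Matrix.Norms.L2Operator

theorem rep_norm (τ : ℂ) (hτ : ‖τ‖ = 1) (i j : ZMod n) (g : Heis) : ‖rep τ hτ i j g‖ = 1 := by
  have h1 : rep τ hτ i j g * star (rep τ hτ i j g) = 1 := by
    rw [Matrix.star_eq_conjTranspose, ← rep_inv, ← map_mul, mul_inv_cancel, map_one]
  have h2 := CStarRing.norm_self_mul_star (x := rep τ hτ i j g)
  rw [h1, CStarRing.norm_one] at h2
  nlinarith [norm_nonneg (rep τ hτ i j g)]

theorem repA_aa_norm (τ : ℂ) (hτ : ‖τ‖ = 1) (i j : ZMod n) : ‖repA τ hτ i j aa‖ ≤ 7 := by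
  rw [aa, map_add, map_add, repA, MonoidAlgebra.lift_single, MonoidAlgebra.lift_single, MonoidAlgebra.lift_single]
  refine (norm_add₃_le).trans ?_
  have h : ∀ (c : ℤ) (g : Heis), ‖c • rep τ hτ i j g‖ = |(c : ℝ)| := by
    intro c g
    rw [← Int.cast_smul_eq_zsmul ℂ c, norm_smul, rep_norm, mul_one]
    simp
  rw [h, h, h]
  norm_num

end norm

/-- the block `B Bᴴ` -/
noncomputable def blk (τ : ℂ) (hτ : ‖τ‖ = 1) (i j : ZMod n) : Matrix (ZMod n) (ZMod n) ℂ :=
  repA τ hτ i j (aa * adj aa)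

theorem blk_eq (τ : ℂ) (hτ : ‖τ‖ = 1) (i j : ZMod n) :
    blk τ hτ i j = repA τ hτ i j aa * (repA τ hτ i j aa).conjTranspose := by
  rw [blk, map_mul, repA_adj]

theorem blk_psd (τ : ℂ) (hτ : ‖τ‖ = 1) (i j : ZMod n) : (blk τ hτ i j).PosSemidef := by
  rw [blk_eq]
  exact Matrix.posSemidef_self_mul_conjTranspose _

/-- eigenvalues of the block -/
noncomputable def ev (τ : ℂ) (hτ : ‖τ‖ = 1) (i j : ZMod n) (a : ZMod n) : ℝ := (blk_psd τ hτ i j).1.eigenvalues a

theorem ev_nonneg (τ : ℂ) (hτ : ‖τ‖ = 1) (i j a : ZMod n) : 0 ≤ ev τ hτ i j a :=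
  (blk_psd τ hτ i j).eigenvalues_nonneg a

open scoped Matrix.Norms.L2Operator in
theorem ev_le (τ : ℂ) (hτ : ‖τ‖ = 1) (i j a : ZMod n) : ev τ hτ i j a ≤ 49 := by
  refine (eigenvalues_le_norm _ _ _).trans ?_
  rw [blk_eq, ← Matrix.star_eq_conjTranspose, CStarRing.norm_self_mul_star]
  have := repA_aa_norm τ hτ i j
  nlinarith [norm_nonneg (repA τ hτ i j aa)]

theorem sum_ev_pow (τ : ℂ) (hτ : ‖τ‖ = 1) (i j : ZMod n) (k : ℕ) :
    ((∑ a, ev τ hτ i j a ^ k : ℝ) : ℂ) = (repA τ hτ i j ((aa * adj aa) ^ k)).trace := by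
  have := trace_pow_eq (blk_psd τ hτ i j).1 k
  rw [map_pow]
  change _ = (blk τ hτ i j ^ k).trace
  rw [this]
  push_cast
  rfl

theorem prod_ev (τ : ℂ) (hτ : ‖τ‖ = 1) (i j : ZMod n) :
    ∏ a, ev τ hτ i j a = ‖(repA τ hτ i j aa).det‖ ^ 2 := by
  have h1 := (blk_psd τ hτ i j).1.det_eq_prod_eigenvalues
  have h2 : (blk τ hτ i j).det = ((‖(repA τ hτ i j aa).det‖ ^ 2 : ℝ) : ℂ) := by
    rw [blk_eq, Matrix.det_mul, Matrix.det_conjTranspose]
    rw [← Complex.normSq_eq_norm_sq, ← Complex.mul_conj]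
    rfl
  rw [h2] at h1
  have h3 : ((∏ a, ev τ hτ i j a : ℝ) : ℂ) = ((‖(repA τ hτ i j aa).det‖ ^ 2 : ℝ) : ℂ) := by
    rw [h1]
    push_cast
    rfl
  exact_mod_cast h3

end Pool.Agent.H636R3.FK
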