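import Mathlib
import Pool.Agent.H636R3.FKBlock

set_option autoImplicit false
open MeasureTheory Filter Topology Set
open scoped Classical ComplexOrder ENNReal

namespace Pool.Agent.H636R3.FK

section emp
variable {ι : Type*} [Fintype ι] {E : Type*} [MeasurableSpace E]

/-- empirical measure -/
noncomputable def emp (f : ι → E) : Measure E :=
  (Fintype.card ι : ℝ≥0∞)⁻¹ • ∑ i, Measure.dirac (f i)

instance [Nonempty ι] (f : ι → E) : IsProbabilityMeasure (emp f) := by
  constructor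
  rw [emp, Measure.smul_apply, Measure.finsetSum_apply]
  simp only [measure_univ, Finset.sum_const, Finset.card_univ, nsmul_eq_mul, mul_one, smul_eq_mul]
  exact ENNReal.inv_mul_cancel (by simp) (by simp)

theorem emp_null (f : ι → E) (s : Set E) (hs : MeasurableSet s) (h : ∀ i, f i ∉ s) : emp f s = 0 := by
  rw [emp, Measure.smul_apply, Measure.finsetSum_apply]
  rw [Finset.sum_eq_zero, smul_zero]
  intro i _
  rw [Measure.dirac_apply' _ hs]
  simp [h i]

variable [MeasurableSingletonClass E]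

theorem integrable_emp [Nonempty ι] (f : ι → E) (g : E → ℝ) : Integrable g (emp f) := by
  rw [emp]
  apply Integrable.smul_measure
  · rw [integrable_finsetSum_measure]
    intro i _
    exact integrable_dirac (by simp)
  · simp

theorem integral_emp [Nonempty ι] (f : ι → E) (g : E → ℝ) :
    ∫ x, g x ∂(emp f) = (Fintype.card ι : ℝ)⁻¹ * ∑ i, g (f i) := by
  rw [emp, integral_smul_measure, integral_finsetSum_measure]
  · simp
  · intro i _
    exact integrable_dirac (by simp)

end emp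

variable {n : ℕ} [NeZero n]

theorem sum_moments (τ : ℂ) (hτ : ‖τ‖ = 1) (J : Finset (ZMod n)) (k : ℕ) :
    ((∑ i : ZMod n, ∑ j ∈ J, ∑ a, ev τ hτ i j a ^ k : ℝ) : ℂ) =
      ∑ g ∈ ((aa * adj aa) ^ k).coeff.support, (((aa * adj aa) ^ k).coeff g : ℂ) *
        (if (g.y : ZMod n) = 0 ∧ (g.x : ZMod n) = 0 then
      τ ^ g.x * ((n : ℂ) ^ 2 * ∑ j ∈ J, ZMod.stdAddChar (N := n) (j * (g.z : ZMod n))) else 0) := by
  have h1 : ((∑ i : ZMod n, ∑ j ∈ J, ∑ a, ev τ hτ i j a ^ k : ℝ) : ℂ) =
      ∑ i : ZMod n, ∑ j ∈ J, (repA τ hτ i j ((aa * adj aa) ^ k)).trace := by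
    rw [Complex.ofReal_sum]
    refine Finset.sum_congr rfl fun i _ => ?_
    rw [Complex.ofReal_sum]
    refine Finset.sum_congr rfl fun j _ => ?_
    exact sum_ev_pow τ hτ i j k
  rw [h1]
  simp only [repA_trace]
  have h2 : ∀ i : ZMod n, ∑ j ∈ J, ∑ g ∈ ((aa * adj aa) ^ k).coeff.support,
        (((aa * adj aa) ^ k).coeff g : ℂ) * (rep τ hτ i j g).trace =
      ∑ g ∈ ((aa * adj aa) ^ k).coeff.support, (((aa * adj aa) ^ k).coeff g : ℂ) * ∑ j ∈ J, (rep τ hτ i j g).trace := by
    intro i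
    rw [Finset.sum_comm]
    refine Finset.sum_congr rfl fun g _ => ?_
    rw [Finset.mul_sum]
  simp only [h2]
  rw [Finset.sum_comm]
  refine Finset.sum_congr rfl fun g _ => ?_
  rw [← Finset.mul_sum, sum_rep_trace]

/-- the spectral measure of the quotient `mod n` -/
noncomputable def nu (n : ℕ) [NeZero n] : Measure ℝ :=
  emp (fun p : ZMod n × ZMod n × ZMod n => ev (n := n) 1 norm_one p.1 p.2.1 p.2.2)

instance (n : ℕ) [NeZero n] : IsProbabilityMeasure (nu n) := by
  unfold nu; infer_instance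

theorem nu_moment (n : ℕ) [NeZero n] (k : ℕ) :
    ∫ x, x ^ k ∂(nu n) = ((∑ g ∈ ((aa * adj aa) ^ k).coeff.support with g ∈ NN n, ((aa * adj aa) ^ k).coeff g : ℤ) : ℝ) := by
  rw [nu, integral_emp]
  have h1 := sum_moments (n := n) 1 norm_one Finset.univ k
  have hn : (n : ℂ) ≠ 0 := by exact_mod_cast NeZero.ne n
  have hn' : (n : ℝ) ≠ 0 := by exact_mod_cast NeZero.ne n
  have h2 : ∀ g : Heis, (if (g.y : ZMod n) = 0 ∧ (g.x : ZMod n) = 0 then
      (1 : ℂ) ^ g.x * ((n : ℂ) ^ 2 * ∑ j : ZMod n, ZMod.stdAddChar (N := n) (j * (g.z : ZMod n))) else 0) =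
      if g ∈ NN n then (n : ℂ) ^ 3 else 0 := by
    intro g
    rw [AddChar.sum_mulShift _ (ZMod.isPrimitive_stdAddChar n)]
    rw [mem_NN, ← ZMod.intCast_zmod_eq_zero_iff_dvd, ← ZMod.intCast_zmod_eq_zero_iff_dvd, ← ZMod.intCast_zmod_eq_zero_iff_dvd]
    by_cases hx : (g.x : ZMod n) = 0 <;> by_cases hy : (g.y : ZMod n) = 0 <;> by_cases hz : (g.z : ZMod n) = 0 <;>
      simp [hx, hy, hz]
    ring
  simp only [h2] at h1
  have h3 : (∑ i : ZMod n × ZMod n × ZMod n, ev (n := n) 1 norm_one i.1 i.2.1 i.2.2 ^ k) =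
      ∑ i : ZMod n, ∑ j : ZMod n, ∑ a, ev (n := n) 1 norm_one i j a ^ k := by
    rw [Fintype.sum_prod_type]
    refine Finset.sum_congr rfl fun i _ => ?_
    rw [Fintype.sum_prod_type]
  rw [h3]
  have h4 : (∑ i : ZMod n, ∑ j : ZMod n, ∑ a, ev (n := n) 1 norm_one i j a ^ k) =
      (n : ℝ) ^ 3 * ((∑ g ∈ ((aa * adj aa) ^ k).coeff.support with g ∈ NN n, ((aa * adj aa) ^ k).coeff g : ℤ) : ℝ) := by
    apply Complex.ofReal_injective
    rw [h1]
    push_cast
    rw [Finset.sum_filter, Finset.mul_sum]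
    refine Finset.sum_congr rfl fun g _ => ?_
    split_ifs <;> ring
  rw [h4]
  simp only [Fintype.card_prod, ZMod.card]
  push_cast
  field_simp

theorem nu_supp (n : ℕ) [NeZero n] : nu n (Icc 0 49)ᶜ = 0 := by
  apply emp_null _ _ measurableSet_Icc.compl
  intro p
  simp only [mem_compl_iff, not_not]
  exact ⟨ev_nonneg _ _ _ _ _, ev_le _ _ _ _ _⟩

theorem nu_log_le (q : ℕ) :
    ∫ x in Ioi 0, Real.log x ∂(nu (3 ^ (q + 1))) ≤ (1 / 3) * Real.log 49 := by
  rw [← integral_indicator measurableSet_Ioi, nu, integral_emp]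
  set n := 3 ^ (q + 1) with hn
  have h3 : (∑ p : ZMod n × ZMod n × ZMod n, (Ioi (0:ℝ)).indicator Real.log (ev (n := n) 1 norm_one p.1 p.2.1 p.2.2)) =
      ∑ i : ZMod n, ∑ j : ZMod n, ∑ a, (Ioi (0:ℝ)).indicator Real.log (ev (n := n) 1 norm_one i j a) := by
    rw [Fintype.sum_prod_type]
    refine Finset.sum_congr rfl fun i _ => ?_
    rw [Fintype.sum_prod_type]
  have h49 : 0 ≤ Real.log 49 := Real.log_nonneg (by norm_num)
  have h4 : ∀ i j : ZMod n, ∑ a, (Ioi (0:ℝ)).indicator Real.log (ev (n := n) 1 norm_one i j a) ≤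
      if IsUnit j then 0 else (n : ℝ) * Real.log 49 := by
    intro i j
    split_ifs with hj
    · have h5 := prod_ev (n := n) 1 norm_one i j
      rw [det_unit_one i j hj, norm_one, one_pow] at h5
      have h6 : ∀ a, ev (n := n) 1 norm_one i j a ≠ 0 := by
        intro a ha
        rw [Finset.prod_eq_zero (Finset.mem_univ a) ha] at h5
        exact zero_ne_one h5
      have h7 : ∀ a, (Ioi (0:ℝ)).indicator Real.log (ev (n := n) 1 norm_one i j a) = Real.log (ev (n := n) 1 norm_one i j a) := by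
        intro a
        rw [indicator_of_mem]
        exact lt_of_le_of_ne (ev_nonneg _ _ _ _ _) (h6 a).symm
      rw [Finset.sum_congr rfl fun a _ => h7 a, ← Real.log_prod fun a _ => h6 a, h5, Real.log_one]
    · have h5 : ∀ a ∈ Finset.univ, (Ioi (0:ℝ)).indicator Real.log (ev (n := n) 1 norm_one i j a) ≤ Real.log 49 := by
        intro a _
        by_cases h : ev (n := n) 1 norm_one i j a ∈ Ioi (0:ℝ)
        · rw [indicator_of_mem h]
          exact Real.log_le_log h (ev_le _ _ _ _ _)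
        · rw [indicator_of_notMem h]
          exact h49
      have := Finset.sum_le_card_nsmul _ _ _ h5
      rw [Finset.card_univ, ZMod.card, nsmul_eq_mul] at this
      exact this
  have h5 : (∑ j : ZMod n, if IsUnit j then (0:ℝ) else (n : ℝ) * Real.log 49) = (3 ^ q) * ((n : ℝ) * Real.log 49) := by
    rw [Finset.sum_ite, Finset.sum_const_zero, zero_add, Finset.sum_const, nsmul_eq_mul]
    congr 1
    have h6 : (Finset.univ.filter fun j : ZMod n => IsUnit j).card = Nat.totient n := by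
      rw [← ZMod.card_units_eq_totient, ← Fintype.card_subtype]
      exact Fintype.card_congr (Equiv.ofBijective (fun u : (ZMod n)ˣ => (⟨(u : ZMod n), u.isUnit⟩ : {j : ZMod n // IsUnit j}))
        ⟨fun u v h => Units.ext (congrArg Subtype.val h), fun ⟨j, u, hu⟩ => ⟨u, Subtype.ext hu⟩⟩).symm
    have h7 := Finset.card_filter_add_card_filter_not (s := (Finset.univ : Finset (ZMod n))) (fun j => IsUnit j)
    rw [h6, Finset.card_univ, ZMod.card] at h7
    have h7' : n.totient = 3 ^ q * (3 - 1) := by rw [hn, Nat.totient_prime_pow_succ Nat.prime_three]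
    have h8 : (Finset.univ.filter fun j : ZMod n => ¬ IsUnit j).card = 3 ^ q := by
      rw [h7'] at h7
      rw [pow_succ] at hn
      omega
    rw [h8]
    push_cast
    rfl
  rw [h3]
  have hnpos : (0 : ℝ) < n := by rw [hn]; positivity
  have h6 : ∑ i : ZMod n, ∑ j : ZMod n, ∑ a, (Ioi (0:ℝ)).indicator Real.log (ev (n := n) 1 norm_one i j a)
      ≤ (n : ℝ) * ((3 ^ q) * ((n : ℝ) * Real.log 49)) := by
    have h7 : ∀ i ∈ (Finset.univ : Finset (ZMod n)), ∑ j : ZMod n, ∑ a, (Ioi (0:ℝ)).indicator Real.log (ev (n := n) 1 norm_one i j a)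
       ≤ (3 ^ q) * ((n : ℝ) * Real.log 49) := by
      intro i _
      rw [← h5]
      exact Finset.sum_le_sum fun j _ => h4 i j
    have := Finset.sum_le_card_nsmul _ _ _ h7
    rw [Finset.card_univ, ZMod.card, nsmul_eq_mul] at this
    exact this
  simp only [Fintype.card_prod, ZMod.card]
  push_cast
  rw [inv_mul_le_iff₀ (by positivity)]
  refine h6.trans (le_of_eq ?_)
  have h8 : (n : ℝ) = 3 ^ q * 3 := by rw [hn]; push_cast; ring
  rw [h8]
  ring

theorem nu_det_le (q : ℕ) :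
    (if IntegrableOn Real.log (Ioi 0) (nu (3 ^ (q + 1)))
        then Real.exp ((1 / 2 : ℝ) * ∫ x in Ioi 0, Real.log x ∂(nu (3 ^ (q + 1)))) else 0) ≤ Real.exp ((1 / 3) * Real.log 7) := by
  split_ifs
  · apply Real.exp_le_exp.2
    have h1 := nu_log_le q
    have h2 : Real.log 49 = 2 * Real.log 7 := by
      rw [show (49 : ℝ) = 7 ^ 2 by norm_num, Real.log_pow]; norm_num
    rw [h2] at h1
    linarith
  · positivity

/-- the twisting scalar -/
noncomputable def tw (n : ℕ) : ℂ := Complex.exp (((Real.pi / n : ℝ) : ℂ) * Complex.I)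

theorem tw_norm (n : ℕ) : ‖tw n‖ = 1 := Complex.norm_exp_ofReal_mul_I _

theorem tw_pow (n : ℕ) [NeZero n] : tw n ^ n = -1 := by
  rw [tw, ← Complex.exp_nat_mul, ← Complex.exp_pi_mul_I]
  congr 1
  have : (n : ℂ) ≠ 0 := by exact_mod_cast NeZero.ne n
  push_cast
  field_simp

/-- the approximating measures -/
noncomputable def nut (n : ℕ) [NeZero n] : Measure (Icc (0:ℝ) 49) :=
  emp (fun p : ZMod n × {j : ZMod n // j ≠ 0} × ZMod n =>
    (⟨ev (n := n) (tw n) (tw_norm n) p.1 p.2.1 p.2.2, ev_nonneg _ _ _ _ _, ev_le _ _ _ _ _⟩ : Icc (0:ℝ) 49))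

theorem nut_int (n : ℕ) [NeZero n] [Fact (1 < n)] (g : ℝ → ℝ) :
    ∫ x, g (x : ℝ) ∂(nut n) = ((n : ℝ) ^ 2 * ((n : ℝ) - 1))⁻¹ *
      ∑ i : ZMod n, ∑ j ∈ (Finset.univ.filter fun j : ZMod n => j ≠ 0), ∑ a, g (ev (n := n) (tw n) (tw_norm n) i j a) := by
  have : Nontrivial (ZMod n) := ZMod.nontrivial n
  have : Nonempty {j : ZMod n // j ≠ 0} := ⟨⟨1, one_ne_zero⟩⟩
  rw [nut, integral_emp]
  congr 1
  · congr 1
    simp only [Fintype.card_prod, ZMod.card]
    rw [Fintype.card_subtype_compl, Fintype.card_subtype_eq, ZMod.card]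
    have : 1 ≤ n := NeZero.one_le
    push_cast [Nat.cast_sub this]
    ring
  · rw [Fintype.sum_prod_type]
    refine Finset.sum_congr rfl fun i _ => ?_
    rw [Fintype.sum_prod_type]
    rw [Finset.sum_subtype (p := fun j : ZMod n => j ≠ 0)]
    intro x
    simp

theorem nut_prob (n : ℕ) [NeZero n] [Fact (1 < n)] : IsProbabilityMeasure (nut n) := by
  have : Nontrivial (ZMod n) := ZMod.nontrivial n
  have : Nonempty {j : ZMod n // j ≠ 0} := ⟨⟨1, one_ne_zero⟩⟩
  unfold nut
  infer_instance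

theorem nut_log (n : ℕ) [hp : Fact n.Prime] [NeZero n] [Fact (1 < n)] (δ : ℝ) (hδ : 0 < δ) :
    2 * Real.log 2 ≤ ∫ x, Real.log ((x : ℝ) + δ) ∂(nut n) := by
  rw [nut_int n (fun x => Real.log (x + δ))]
  have hn1 : (1 : ℝ) < n := by exact_mod_cast hp.out.one_lt
  have h1 : ∀ i j : ZMod n, j ≠ 0 → (n : ℝ) * (2 * Real.log 2) ≤ ∑ a, Real.log (ev (n := n) (tw n) (tw_norm n) i j a + δ) := by
    intro i j hj
    have h2 := det_unit_twist (tw n) (tw_norm n) (tw_pow n) i j (isUnit_iff_ne_zero.2 hj)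
    have h3 := prod_ev (n := n) (tw n) (tw_norm n) i j
    have h4 : (0 : ℝ) < ∏ a, ev (n := n) (tw n) (tw_norm n) i j a := by
      rw [h3]
      have : (0 : ℝ) < 2 ^ n := by positivity
      have := lt_of_lt_of_le this h2
      positivity
    have h5 : ∀ a, ev (n := n) (tw n) (tw_norm n) i j a ≠ 0 := by
      intro a ha
      rw [Finset.prod_eq_zero (Finset.mem_univ a) ha] at h4
      exact lt_irrefl _ h4
    calc (n : ℝ) * (2 * Real.log 2) = Real.log ((2 ^ n) ^ 2) := by
            rw [Real.log_pow, Real.log_pow]; push_cast; ring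
      _ ≤ Real.log (∏ a, ev (n := n) (tw n) (tw_norm n) i j a) := by
            apply Real.log_le_log (by positivity)
            rw [h3]
            exact pow_le_pow_left₀ (by positivity) h2 2
      _ = ∑ a, Real.log (ev (n := n) (tw n) (tw_norm n) i j a) := Real.log_prod fun a _ => h5 a
      _ ≤ _ := by
            refine Finset.sum_le_sum fun a _ => ?_
            apply Real.log_le_log (lt_of_le_of_ne (ev_nonneg _ _ _ _ _) (h5 a).symm)
            linarith
  rw [le_inv_mul_iff₀ (mul_pos (by positivity) (by linarith))]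
  have h2 : ∀ i : ZMod n, ((n : ℝ) - 1) * ((n : ℝ) * (2 * Real.log 2)) ≤
      ∑ j ∈ (Finset.univ.filter fun j : ZMod n => j ≠ 0), ∑ a, Real.log (ev (n := n) (tw n) (tw_norm n) i j a + δ) := by
    intro i
    have h3 := Finset.card_nsmul_le_sum (Finset.univ.filter fun j : ZMod n => j ≠ 0)
      (fun j => ∑ a, Real.log (ev (n := n) (tw n) (tw_norm n) i j a + δ)) ((n : ℝ) * (2 * Real.log 2))
      (fun j hj => h1 i j (by simpa using hj))
    have h4 : (Finset.univ.filter fun j : ZMod n => j ≠ 0).card = n - 1 := by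
      rw [Finset.filter_ne', Finset.card_erase_of_mem (Finset.mem_univ _), Finset.card_univ, ZMod.card]
    rw [h4, nsmul_eq_mul, Nat.cast_sub hp.out.one_lt.le, Nat.cast_one] at h3
    exact h3
  have h3 := Finset.card_nsmul_le_sum Finset.univ _ _ (fun (i : ZMod n) _ => h2 i)
  rw [Finset.card_univ, ZMod.card, nsmul_eq_mul] at h3
  refine le_trans (le_of_eq ?_) h3
  ring

end Pool.Agent.H636R3.FK
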