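import Mathlib
import Pool.Agent.H636R3.FKMeas

set_option autoImplicit false
open MeasureTheory Filter Topology Set
open scoped Classical ComplexOrder ENNReal

namespace Pool.Agent.H636R3.FK

/-- a sequence of primes -/
noncomputable def P (m : ℕ) : ℕ := Classical.choose (Nat.exists_infinite_primes (m + 2))

theorem P_ge (m : ℕ) : m + 2 ≤ P m := (Classical.choose_spec (Nat.exists_infinite_primes (m + 2))).1

theorem P_prime (m : ℕ) : (P m).Prime := (Classical.choose_spec (Nat.exists_infinite_primes (m + 2))).2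

instance (m : ℕ) : Fact (P m).Prime := ⟨P_prime m⟩
instance (m : ℕ) : NeZero (P m) := ⟨(P_prime m).ne_zero⟩
instance (m : ℕ) : Fact (1 < P m) := ⟨(P_prime m).one_lt⟩

theorem P_tendsto : Tendsto (fun m => (P m : ℝ)) atTop atTop := by
  refine tendsto_atTop_mono (fun m => ?_) tendsto_natCast_atTop_atTop
  have := P_ge m
  exact_mod_cast (by omega : m ≤ P m)

/-- normalised traces -/
noncomputable def tt (m : ℕ) (g : Heis) : ℂ := ((P m : ℂ) ^ 2 * ((P m : ℂ) - 1))⁻¹ *
   (if (g.y : ZMod (P m)) = 0 ∧ (g.x : ZMod (P m)) = 0 then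
      tw (P m) ^ g.x * ((P m : ℂ) ^ 2 * ∑ j ∈ (Finset.univ.filter fun j : ZMod (P m) => j ≠ 0),
        ZMod.stdAddChar (N := P m) (j * (g.z : ZMod (P m)))) else 0)

theorem cast_zero_iff (c : ℤ) : ∀ᶠ m in atTop, ((c : ZMod (P m)) = 0 ↔ c = 0) := by
  filter_upwards [eventually_ge_atTop c.natAbs] with m hm
  rw [ZMod.intCast_zmod_eq_zero_iff_dvd]
  constructor
  · intro h
    by_contra h0
    have h1 := Int.natAbs_dvd_natAbs.2 h
    have h2 := Nat.le_of_dvd (Int.natAbs_pos.2 h0) h1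
    rw [Int.natAbs_natCast] at h2
    have := P_ge m
    omega
  · rintro rfl
    exact dvd_zero _

theorem tt_tendsto (g : Heis) : Tendsto (fun m => tt m g) atTop (𝓝 (if g = 1 then 1 else 0)) := by
  have hsum : ∀ m, ∑ j ∈ (Finset.univ.filter fun j : ZMod (P m) => j ≠ 0),
        ZMod.stdAddChar (N := P m) (j * (g.z : ZMod (P m))) = (if (g.z : ZMod (P m)) = 0 then (P m : ℂ) else 0) - 1 := by
    intro m
    have h1 := AddChar.sum_mulShift (g.z : ZMod (P m)) (ZMod.isPrimitive_stdAddChar (P m))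
    rw [← Finset.sum_filter_add_sum_filter_not Finset.univ (fun j : ZMod (P m) => j ≠ 0)] at h1
    have h2 : (Finset.univ.filter fun j : ZMod (P m) => ¬ (j ≠ 0)) = {0} := by
      ext j; simp
    rw [h2, Finset.sum_singleton, zero_mul, AddChar.map_zero_eq_one, ZMod.card] at h1
    rw [eq_sub_iff_add_eq, h1]
    split_ifs <;> simp
  have hP : ∀ m, ((P m : ℂ) ^ 2 * ((P m : ℂ) - 1)) ≠ 0 := by
    intro m
    have h1 : (P m : ℂ) ≠ 0 := by exact_mod_cast (P_prime m).ne_zero
    have h2 : (P m : ℂ) - 1 ≠ 0 := by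
      rw [sub_ne_zero]
      exact_mod_cast (P_prime m).one_lt.ne'
    positivity
  by_cases hxy : g.y = 0 ∧ g.x = 0
  · obtain ⟨hy, hx⟩ := hxy
    by_cases hz : g.z = 0
    · have hg : g = 1 := by ext <;> simp [hx, hy, hz]
      rw [if_pos hg]
      refine tendsto_const_nhds.congr fun m => ?_
      unfold tt
      rw [hsum, hx, hy, hz]
      simp only [Int.cast_zero, and_self, if_true, zpow_zero, one_mul]
      rw [inv_mul_cancel₀ (hP m)]
    · have hg : g ≠ 1 := by rintro rfl; exact hz rfl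
      rw [if_neg hg]
      have h1 : Tendsto (fun m => ((-((P m : ℝ) - 1)⁻¹ : ℝ) : ℂ)) atTop (𝓝 0) := by
        have h2 : Tendsto (fun m => (-((P m : ℝ) - 1)⁻¹ : ℝ)) atTop (𝓝 0) := by
          have := (tendsto_inv_atTop_zero.comp (tendsto_atTop_add_const_right atTop (-1) P_tendsto)).neg
          simpa [Function.comp_def, sub_eq_add_neg] using this
        have := (Complex.continuous_ofReal.tendsto 0).comp h2
        simpa [Function.comp_def] using this
      refine h1.congr' ?_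
      filter_upwards [cast_zero_iff g.z] with m hm
      unfold tt
      rw [hsum, hx, hy, if_neg (fun h => hz (hm.1 h))]
      simp only [Int.cast_zero, and_self, if_true, zpow_zero, one_mul]
      have h1 : (P m : ℂ) ≠ 0 := by exact_mod_cast (P_prime m).ne_zero
      have h2 : (P m : ℂ) - 1 ≠ 0 := by
        rw [sub_ne_zero]
        exact_mod_cast (P_prime m).one_lt.ne'
      push_cast
      field_simp
      simp
  · have hg : g ≠ 1 := by rintro rfl; exact hxy ⟨rfl, rfl⟩
    rw [if_neg hg]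
    refine tendsto_const_nhds.congr' ?_
    filter_upwards [cast_zero_iff g.x, cast_zero_iff g.y] with m h1 h2
    unfold tt
    rw [if_neg, mul_zero]
    rintro ⟨h3, h4⟩
    exact hxy ⟨h2.1 h3, h1.1 h4⟩

theorem nut_moment_eq (m k : ℕ) : ((∫ x, (x : ℝ) ^ k ∂(nut (P m)) : ℝ) : ℂ) =
    ∑ g ∈ ((aa * adj aa) ^ k).coeff.support, (((aa * adj aa) ^ k).coeff g : ℂ) * tt m g := by
  rw [nut_int (P m) (fun x => x ^ k), Complex.ofReal_mul, sum_moments, Finset.mul_sum]
  refine Finset.sum_congr rfl fun g _ => ?_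
  rw [tt]
  push_cast
  ring

theorem nut_moment_tendsto (k : ℕ) : Tendsto (fun m => ∫ x, (x : ℝ) ^ k ∂(nut (P m))) atTop
    (𝓝 ((((aa * adj aa) ^ k).coeff 1 : ℤ) : ℝ)) := by
  have h1 : Tendsto (fun m => ((∫ x, (x : ℝ) ^ k ∂(nut (P m)) : ℝ) : ℂ)) atTop (𝓝 ((((aa * adj aa) ^ k).coeff 1 : ℤ) : ℂ)) := by
    simp only [nut_moment_eq]
    have h2 : ((((aa * adj aa) ^ k).coeff 1 : ℤ) : ℂ) =
       ∑ g ∈ ((aa * adj aa) ^ k).coeff.support, (((aa * adj aa) ^ k).coeff g : ℂ) * (if g = 1 then 1 else 0) := by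
      simp only [mul_ite, mul_one, mul_zero]
      rw [Finset.sum_ite_eq']
      split_ifs with h
      · rfl
      · simp only [Finsupp.mem_support_iff, not_not] at h
        rw [h]; simp
    rw [h2]
    exact tendsto_finsetSum _ fun g _ => (tt_tendsto g).const_mul _
  have h2 := (Complex.continuous_re.tendsto _).comp h1
  simpa [Function.comp_def] using h2

/-- the limit measure -/
theorem exists_limit : ∃ μ : Measure ℝ, IsProbabilityMeasure μ ∧ μ (Icc 0 49)ᶜ = 0 ∧
    (∀ k : ℕ, ∫ x, x ^ k ∂μ = ((((aa * adj aa) ^ k).coeff 1 : ℤ) : ℝ)) ∧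
    ∀ δ : ℝ, 0 < δ → 2 * Real.log 2 ≤ ∫ x, Real.log (x + δ) ∂μ := by
  let μs : ℕ → ProbabilityMeasure (Icc (0:ℝ) 49) := fun m => ⟨nut (P m), nut_prob _⟩
  obtain ⟨μ₀, -, hμ₀⟩ := isCompact_univ.ultrafilter_le_nhds ((hyperfilter ℕ).map μs) (by simp)
  have hlim : Tendsto μs (hyperfilter ℕ : Filter ℕ) (𝓝 μ₀) := hμ₀
  have hle : (hyperfilter ℕ : Filter ℕ) ≤ atTop := by
    rw [← Nat.cofinite_eq_atTop]; exact hyperfilter_le_cofinite
  have hint : ∀ g : ℝ → ℝ, ContinuousOn g (Icc 0 49) →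
      Tendsto (fun m => ∫ x, g (x : ℝ) ∂(nut (P m))) (hyperfilter ℕ : Filter ℕ) (𝓝 (∫ x, g (x : ℝ) ∂(μ₀ : Measure (Icc (0:ℝ) 49)))) := by
    intro g hg
    have h1 := ProbabilityMeasure.tendsto_iff_forall_integral_tendsto.1 hlim
      (BoundedContinuousFunction.mkOfCompact ⟨fun x : Icc (0:ℝ) 49 => g x, continuousOn_iff_continuous_domRestrict.1 hg⟩)
    exact h1
  have hmap : ∀ g : ℝ → ℝ, ∫ x, g x ∂((μ₀ : Measure (Icc (0:ℝ) 49)).map Subtype.val) = ∫ x, g (x : ℝ) ∂(μ₀ : Measure (Icc (0:ℝ) 49)) :=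
    fun g => (MeasurableEmbedding.subtype_coe measurableSet_Icc).integral_map g
  refine ⟨(μ₀ : Measure (Icc (0:ℝ) 49)).map Subtype.val, ?_, ?_, ?_, ?_⟩
  · exact Measure.isProbabilityMeasure_map measurable_subtype_coe.aemeasurable
  · rw [Measure.map_apply measurable_subtype_coe measurableSet_Icc.compl]
    simp
  · intro k
    rw [hmap fun x => x ^ k]
    exact tendsto_nhds_unique (hint (fun x => x ^ k) (by fun_prop)) ((nut_moment_tendsto k).mono_left hle)
  · intro δ hδ
    rw [hmap fun x => Real.log (x + δ)]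
    refine ge_of_tendsto' (hint (fun x => Real.log (x + δ)) ?_) fun m => nut_log (P m) δ hδ
    refine ContinuousOn.log (by fun_prop) ?_
    intro x hx
    have := hx.1
    have : 0 < x + δ := by linarith
    exact this.ne'

theorem log_lower (μ : Measure ℝ) [IsProbabilityMeasure μ] (hC : μ (Icc 0 49)ᶜ = 0)
    (h : ∀ δ : ℝ, 0 < δ → 2 * Real.log 2 ≤ ∫ x, Real.log (x + δ) ∂μ) :
    IntegrableOn Real.log (Ioi 0) μ ∧ 2 * Real.log 2 ≤ ∫ x in Ioi 0, Real.log x ∂μ := by
  set ρ := μ.restrict (Ioi 0) with hρ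
  have hae : ∀ᵐ x ∂μ, x ∈ Icc (0:ℝ) 49 := by
    rw [ae_iff]; exact hC
  have haeρ : ∀ᵐ x ∂ρ, x ∈ Ioc (0:ℝ) 49 := by
    have h1 : ∀ᵐ x ∂ρ, x ∈ Icc (0:ℝ) 49 := ae_restrict_of_ae hae
    have h2 : ∀ᵐ x ∂ρ, x ∈ Ioi (0:ℝ) := ae_restrict_mem measurableSet_Ioi
    filter_upwards [h1, h2] with x hx1 hx2
    exact ⟨hx2, hx1.2⟩
  have hbound : ∀ δ : ℝ, 0 < δ → δ < 1 → ∀ x ∈ Icc (0:ℝ) 49, ‖Real.log (x + δ)‖ ≤ Real.log 50 - Real.log δ := by
    intro δ hδ hδ1 x hx
    rw [Real.norm_eq_abs, abs_le]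
    have h1 : Real.log δ ≤ Real.log (x + δ) := Real.log_le_log hδ (by linarith [hx.1])
    have h2 : Real.log (x + δ) ≤ Real.log 50 := Real.log_le_log (by linarith [hx.1]) (by linarith [hx.2])
    have h3 : 0 ≤ Real.log 50 := Real.log_nonneg (by norm_num)
    have h4 : Real.log δ ≤ 0 := Real.log_nonpos hδ.le hδ1.le
    constructor <;> linarith
  have hintg : ∀ δ : ℝ, 0 < δ → δ < 1 → Integrable (fun x => Real.log (x + δ)) μ := by
    intro δ hδ hδ1
    refine Integrable.of_bound (Measurable.aestronglyMeasurable (by fun_prop)) (Real.log 50 - Real.log δ) ?_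
    filter_upwards [hae] with x hx
    exact hbound δ hδ hδ1 x hx
  have hlow : ∀ δ : ℝ, 0 < δ → δ < 1 → 2 * Real.log 2 ≤ ∫ x, Real.log (x + δ) ∂ρ := by
    intro δ hδ hδ1
    have h1 := h δ hδ
    rw [← integral_add_compl measurableSet_Ioi (hintg δ hδ hδ1)] at h1
    have h2 : ∫ x in (Ioi (0:ℝ))ᶜ, Real.log (x + δ) ∂μ ≤ 0 := by
      apply integral_nonpos_of_ae
      have h3 : ∀ᵐ x ∂(μ.restrict (Ioi (0:ℝ))ᶜ), x ∈ Icc (0:ℝ) 49 := ae_restrict_of_ae hae
      have h4 : ∀ᵐ x ∂(μ.restrict (Ioi (0:ℝ))ᶜ), x ∈ (Ioi (0:ℝ))ᶜ := ae_restrict_mem measurableSet_Ioi.compl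
      filter_upwards [h3, h4] with x hx1 hx2
      have : x = 0 := le_antisymm (not_lt.1 hx2) hx1.1
      rw [this, zero_add]
      exact Real.log_nonpos hδ.le hδ1.le
    exact h1.trans (by linarith)
  -- Fatou
  let δs : ℕ → ℝ := fun k => 1 / ((k : ℝ) + 2)
  have hδpos : ∀ k, 0 < δs k := fun k => by positivity
  have hδlt : ∀ k, δs k < 1 := fun k => by
    simp only [δs]
    rw [div_lt_one (by positivity)]
    linarith [(Nat.cast_nonneg k : (0:ℝ) ≤ k)]
  have hδlim : Tendsto δs atTop (𝓝 0) := by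
    have := tendsto_const_div_atTop_nhds_zero_nat (1 : ℝ)
    have h2 := (tendsto_add_atTop_iff_nat 2).2 this
    refine h2.congr fun k => ?_
    simp only [δs]
    push_cast
    rfl
  have hfatou : ∫⁻ x, ENNReal.ofReal (Real.log 50 - Real.log x) ∂ρ ≤
      ENNReal.ofReal (Real.log 50 * ρ.real univ - 2 * Real.log 2) := by
    have h1 : ∫⁻ x, liminf (fun k => ENNReal.ofReal (Real.log 50 - Real.log (x + δs k))) atTop ∂ρ ≤
        liminf (fun k => ∫⁻ x, ENNReal.ofReal (Real.log 50 - Real.log (x + δs k)) ∂ρ) atTop :=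
      lintegral_liminf_le fun k => by fun_prop
    have h2 : ∫⁻ x, liminf (fun k => ENNReal.ofReal (Real.log 50 - Real.log (x + δs k))) atTop ∂ρ =
        ∫⁻ x, ENNReal.ofReal (Real.log 50 - Real.log x) ∂ρ := by
      apply lintegral_congr_ae
      filter_upwards [haeρ] with x hx
      apply Tendsto.liminf_eq
      apply (ENNReal.continuous_ofReal.tendsto _).comp
      apply Tendsto.const_sub
      have h3 : Tendsto (fun k => x + δs k) atTop (𝓝 x) := by
        simpa using hδlim.const_add x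
      exact h3.log hx.1.ne'
    rw [h2] at h1
    refine h1.trans ?_
    have h4 : ∀ k, ∫⁻ x, ENNReal.ofReal (Real.log 50 - Real.log (x + δs k)) ∂ρ ≤
       ENNReal.ofReal (Real.log 50 * ρ.real univ - 2 * Real.log 2) := by
      intro k
      have h5 : Integrable (fun x => Real.log 50 - Real.log (x + δs k)) ρ :=
        (integrable_const _).sub ((hintg _ (hδpos k) (hδlt k)).restrict)
      rw [← ofReal_integral_eq_lintegral_ofReal h5]
      · apply ENNReal.ofReal_le_ofReal
        rw [integral_sub (integrable_const _) ((hintg _ (hδpos k) (hδlt k)).restrict), integral_const, smul_eq_mul, mul_comm]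
        linarith [hlow _ (hδpos k) (hδlt k)]
      · filter_upwards [haeρ] with x hx
        have : Real.log (x + δs k) ≤ Real.log 50 :=
          Real.log_le_log (by linarith [hx.1, hδpos k]) (by linarith [hx.2, hδlt k])
        simp only [Pi.zero_apply]
        linarith
    calc liminf (fun k => ∫⁻ x, ENNReal.ofReal (Real.log 50 - Real.log (x + δs k)) ∂ρ) atTop
        ≤ liminf (fun _ : ℕ => ENNReal.ofReal (Real.log 50 * ρ.real univ - 2 * Real.log 2)) atTop :=
          liminf_le_liminf (Eventually.of_forall h4)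
      _ = _ := by simp
  have hnn : 0 ≤ᵐ[ρ] fun x => Real.log 50 - Real.log x := by
    filter_upwards [haeρ] with x hx
    have : Real.log x ≤ Real.log 50 := Real.log_le_log hx.1 (by linarith [hx.2])
    simp only [Pi.zero_apply]
    linarith
  have hint2 : Integrable (fun x => Real.log 50 - Real.log x) ρ := by
    refine ⟨Measurable.aestronglyMeasurable (by fun_prop), ?_⟩
    rw [hasFiniteIntegral_iff_ofReal hnn]
    exact lt_of_le_of_lt hfatou ENNReal.ofReal_lt_top
  have hint3 : Integrable Real.log ρ := by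
    have := (integrable_const (Real.log 50) (μ := ρ)).sub hint2
    refine this.congr (Eventually.of_forall fun x => ?_)
    simp
  refine ⟨hint3, ?_⟩
  have h6 : ∫ x, (Real.log 50 - Real.log x) ∂ρ ≤ Real.log 50 * ρ.real univ - 2 * Real.log 2 := by
    rw [integral_eq_lintegral_of_nonneg_ae hnn (Measurable.aestronglyMeasurable (by fun_prop))]
    apply ENNReal.toReal_le_of_le_ofReal _ hfatou
    have h7 := hlow _ (hδpos 0) (hδlt 0)
    have h8 : ∫ x, Real.log (x + δs 0) ∂ρ ≤ Real.log 50 * ρ.real univ := by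
      have h9 : ∫ x, Real.log (x + δs 0) ∂ρ ≤ ∫ x, Real.log 50 ∂ρ := by
        apply integral_mono_ae ((hintg _ (hδpos 0) (hδlt 0)).restrict) (integrable_const _)
        filter_upwards [haeρ] with x hx
        exact Real.log_le_log (by linarith [hx.1, hδpos 0]) (by linarith [hx.2, hδlt 0])
      rw [integral_const, smul_eq_mul, mul_comm] at h9
      exact h9
    linarith
  rw [integral_sub (integrable_const _) hint3, integral_const, smul_eq_mul, mul_comm] at h6
  linarith

theorem adj_mapDomain {Γ Δ : Type*} [Group Γ] [Group Δ] (f : Γ →* Δ) (α : MonoidAlgebra ℤ Γ) :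
    adj (MonoidAlgebra.mapDomainRingHom ℤ f α) = MonoidAlgebra.mapDomainRingHom ℤ f (adj α) := by
  induction α using MonoidAlgebra.induction_linear with
  | zero => simp [adj_zero]
  | add x y hx hy => rw [adj_add, map_add, map_add, adj_add, hx, hy]
  | single g c =>
    rw [adj_single]
    simp [MonoidAlgebra.mapDomainRingHom, adj_single]

theorem quot_coeff (N : Subgroup Heis) [N.Normal] (n : ℕ) :
    ∑ g ∈ ((aa * adj aa) ^ n).coeff.support with g ∈ N, ((aa * adj aa) ^ n).coeff g =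
    ((MonoidAlgebra.ofCoeff (Finsupp.mapDomain (QuotientGroup.mk' N) aa.coeff) *
      adj (MonoidAlgebra.ofCoeff (Finsupp.mapDomain (QuotientGroup.mk' N) aa.coeff))) ^ n).coeff 1 := by
  have h1 : (MonoidAlgebra.ofCoeff (Finsupp.mapDomain (QuotientGroup.mk' N) aa.coeff) : MonoidAlgebra ℤ (Heis ⧸ N)) =
      MonoidAlgebra.mapDomainRingHom ℤ (QuotientGroup.mk' N) aa := rfl
  rw [h1, adj_mapDomain, ← map_mul, ← map_pow]
  set γ := (aa * adj aa) ^ n with hγ
  have h2 : (MonoidAlgebra.mapDomainRingHom ℤ (QuotientGroup.mk' N) γ).coeff =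
      Finsupp.mapDomain (QuotientGroup.mk' N) γ.coeff := rfl
  rw [h2, Finsupp.mapDomain, Finsupp.sum_apply, Finsupp.sum, Finset.sum_filter]
  refine Finset.sum_congr rfl fun g _ => ?_
  rw [Finsupp.single_apply]
  congr 1
  simp only [QuotientGroup.mk'_apply, eq_iff_iff]
  exact (QuotientGroup.eq_one_iff g).symm

end Pool.Agent.H636R3.FK
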