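import Mathlib

set_option autoImplicit false

open MeasureTheory Set Filter Topology

namespace Pool.Agent.H636R3.Lacunary

lemma abs_int_cos {w : ℝ} (hw : 0 < w) (a b : ℝ) :
    |∫ x in a..b, Real.cos (w * x)| ≤ 2 / w := by
  rw [intervalIntegral.integral_comp_mul_left (fun x => Real.cos x) hw.ne', integral_cos]
  rw [smul_eq_mul, abs_mul, abs_inv, abs_of_pos hw, div_eq_inv_mul]
  apply mul_le_mul_of_nonneg_left _ (inv_nonneg.2 hw.le)
  have h1 := abs_le.1 (Real.abs_sin_le_one (w * b))
  have h2 := abs_le.1 (Real.abs_sin_le_one (w * a))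
  rw [abs_le]; constructor <;> linarith [h1.1, h1.2, h2.1, h2.2]

/-- functions whose integral against high frequency cosines is small -/
def Band (A R : ℝ) (f : ℝ → ℝ) : Prop :=
  ∀ N, R < N → ∀ a b : ℝ, |∫ x in a..b, f x * Real.cos (N * x)| ≤ 2 * A / (N - R)

lemma band_one : Band 1 0 (fun _ => 1) := by
  intro N hN a b
  have := abs_int_cos hN a b
  simpa using this

lemma Band.mul_cos {A R : ℝ} {f : ℝ → ℝ} (hA : 0 ≤ A) (hf : Continuous f) (h : Band A R f)
    {w W : ℝ} (hw : 0 ≤ w) (hwW : w ≤ W) (N : ℝ) (hN : R + W < N) (a b : ℝ) :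
    |∫ x in a..b, (f x * Real.cos (w * x)) * Real.cos (N * x)| ≤ 2 * A / (N - (R + W)) := by
  have h1 : ∀ x, (f x * Real.cos (w * x)) * Real.cos (N * x)
      = (1 / 2) * (f x * Real.cos ((N - w) * x) + f x * Real.cos ((N + w) * x)) := by
    intro x
    rw [show (N - w) * x = N * x - w * x by ring, show (N + w) * x = N * x + w * x by ring,
      Real.cos_add, Real.cos_sub]
    ring
  simp_rw [h1]
  rw [intervalIntegral.integral_const_mul, intervalIntegral.integral_add
    (Continuous.intervalIntegrable (by fun_prop) _ _)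
    (Continuous.intervalIntegrable (by fun_prop) _ _)]
  have e1 := h (N - w) (by linarith) a b
  have e2 := h (N + w) (by linarith) a b
  have e3 : 2 * A / (N - w - R) ≤ 2 * A / (N - (R + W)) :=
    div_le_div_of_nonneg_left (by linarith) (by linarith) (by linarith)
  have e4 : 2 * A / (N + w - R) ≤ 2 * A / (N - (R + W)) :=
    div_le_div_of_nonneg_left (by linarith) (by linarith) (by linarith)
  rw [abs_mul, abs_of_pos (by norm_num : (0 : ℝ) < 1 / 2)]
  have e5 := abs_add_le (∫ x in a..b, f x * Real.cos ((N - w) * x))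
    (∫ x in a..b, f x * Real.cos ((N + w) * x))
  linarith

/-- the partial sums -/
noncomputable def S (n : ℕ → ℝ) (m : ℕ) (x : ℝ) : ℝ := ∑ k ∈ Finset.range m, Real.cos (n k * x)

lemma continuous_S (n : ℕ → ℝ) (m : ℕ) : Continuous (S n m) := by
  unfold S; fun_prop

lemma S_succ (n : ℕ → ℝ) (m : ℕ) (x : ℝ) : S n (m + 1) x = S n m x + Real.cos (n m * x) := by
  unfold S; rw [Finset.sum_range_succ]

lemma Band.mul_S {A R : ℝ} {f : ℝ → ℝ} (hA : 0 ≤ A) (hf : Continuous f) (h : Band A R f)
    {n : ℕ → ℝ} {m : ℕ} {W : ℝ} (hn : ∀ k, k < m → 0 ≤ n k ∧ n k ≤ W) :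
    Band (m * A) (R + W) (fun x => f x * S n m x) := by
  intro N hN a b
  have h1 : ∀ x, (f x * S n m x) * Real.cos (N * x)
      = ∑ k ∈ Finset.range m, (f x * Real.cos (n k * x)) * Real.cos (N * x) := by
    intro x
    unfold S
    rw [Finset.mul_sum, Finset.sum_mul]
  simp_rw [h1]
  rw [intervalIntegral.integral_finsetSum
    (fun k _ => Continuous.intervalIntegrable (by fun_prop) _ _)]
  calc |∑ k ∈ Finset.range m, ∫ x in a..b, (f x * Real.cos (n k * x)) * Real.cos (N * x)|
      ≤ ∑ k ∈ Finset.range m, |∫ x in a..b, (f x * Real.cos (n k * x)) * Real.cos (N * x)| :=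
        Finset.abs_sum_le_sum_abs _ _
    _ ≤ ∑ k ∈ Finset.range m, 2 * A / (N - (R + W)) := by
        apply Finset.sum_le_sum
        intro k hk
        have hk' := hn k (Finset.mem_range.1 hk)
        exact h.mul_cos hA hf hk'.1 hk'.2 N hN a b
    _ = 2 * (m * A) / (N - (R + W)) := by
        rw [Finset.sum_const, Finset.card_range, nsmul_eq_mul]; ring

/-- Hadamard gap sequences of reals -/
structure Had (n : ℕ → ℝ) (q : ℝ) : Prop where
  hq : 1 < q
  h0 : 1 ≤ n 0
  hs : ∀ k, q * n k ≤ n (k + 1)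

lemma Had.pow_le {n : ℕ → ℝ} {q : ℝ} (h : Had n q) (k : ℕ) : q ^ k ≤ n k := by
  induction k with
  | zero => simpa using h.h0
  | succ k ih =>
    have := h.hs k
    have hq := h.hq
    calc q ^ (k + 1) = q * q ^ k := by ring
      _ ≤ q * n k := by apply mul_le_mul_of_nonneg_left ih; linarith
      _ ≤ n (k + 1) := this

lemma Had.pos {n : ℕ → ℝ} {q : ℝ} (h : Had n q) (k : ℕ) : 0 < n k :=
  lt_of_lt_of_le (pow_pos (by linarith [h.hq]) k) (h.pow_le k)

lemma Had.one_le {n : ℕ → ℝ} {q : ℝ} (h : Had n q) (k : ℕ) : 1 ≤ n k :=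
  le_trans (one_le_pow₀ h.hq.le) (h.pow_le k)

lemma Had.lt {n : ℕ → ℝ} {q : ℝ} (h : Had n q) {j k : ℕ} (hjk : j < k) : q * n j ≤ n k := by
  induction k with
  | zero => omega
  | succ k ih =>
    rcases Nat.lt_succ_iff_lt_or_eq.1 hjk with h1 | h1
    · have h2 := ih h1
      have h3 := h.hs k
      have h4 := h.pos k
      have h5 := h.hq
      nlinarith
    · rw [h1]; exact h.hs k

lemma Had.le_div {n : ℕ → ℝ} {q : ℝ} (h : Had n q) {j k : ℕ} (hjk : j < k) : n j ≤ n k / q := by
  rw [le_div_iff₀ (by linarith [h.hq]), mul_comm]; exact h.lt hjk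

lemma Had.int_S_mul_cos {n : ℕ → ℝ} {q : ℝ} (h : Had n q) (m : ℕ) (a b : ℝ) :
    |∫ x in a..b, S n m x * Real.cos (n m * x)| ≤ 2 * m / (1 - 1 / q) * (1 / q) ^ m := by
  have hq := h.hq
  have hq0 : 0 < q := by linarith
  have h1 : Band (m * 1) (0 + n m / q) (fun x => 1 * S n m x) :=
    band_one.mul_S zero_le_one continuous_const (fun k hk => ⟨(h.pos k).le, h.le_div hk⟩)
  have hpos := h.pos m
  have hlt : 0 + n m / q < n m := by
    rw [zero_add, div_lt_iff₀ hq0]; nlinarith
  have h2 := h1 (n m) hlt a b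
  simp only [one_mul, mul_one, zero_add] at h2
  refine h2.trans ?_
  have h3 : n m - n m / q = n m * (1 - 1 / q) := by ring
  have h4 : 0 < 1 - 1 / q := by
    rw [sub_pos, div_lt_one hq0]; exact hq
  rw [h3]
  have h5 : 2 * (m : ℝ) / (n m * (1 - 1 / q)) = 2 * m / (1 - 1 / q) * (1 / n m) := by
    field_simp
  rw [h5]
  apply mul_le_mul_of_nonneg_left _ (by positivity)
  rw [one_div_pow]
  exact one_div_le_one_div_of_le (by positivity) (h.pow_le m)

lemma Had.first {n : ℕ → ℝ} {q : ℝ} (h : Had n q) :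
    ∃ C : ℝ, 0 ≤ C ∧ ∀ (a b : ℝ) (m : ℕ), |∫ x in a..b, S n m x| ≤ C := by
  have hq := h.hq
  have hq0 : 0 < q := by linarith
  have hsum : Summable (fun k : ℕ => 2 * (1 / q) ^ k) :=
    (summable_geometric_of_lt_one (by positivity) (by rw [div_lt_one hq0]; exact hq)).mul_left 2
  refine ⟨∑' k : ℕ, 2 * (1 / q) ^ k, tsum_nonneg (fun k => by positivity), fun a b m => ?_⟩
  unfold S
  rw [intervalIntegral.integral_finsetSum
    (fun k _ => Continuous.intervalIntegrable (by fun_prop) _ _)]
  calc |∑ k ∈ Finset.range m, ∫ x in a..b, Real.cos (n k * x)|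
      ≤ ∑ k ∈ Finset.range m, |∫ x in a..b, Real.cos (n k * x)| := Finset.abs_sum_le_sum_abs _ _
    _ ≤ ∑ k ∈ Finset.range m, 2 * (1 / q) ^ k := by
        apply Finset.sum_le_sum
        intro k _
        refine (abs_int_cos (h.pos k) a b).trans ?_
        rw [div_eq_mul_one_div]
        apply mul_le_mul_of_nonneg_left _ (by norm_num)
        rw [one_div_pow]
        exact one_div_le_one_div_of_le (by positivity) (h.pow_le k)
    _ ≤ ∑' k : ℕ, 2 * (1 / q) ^ k := hsum.sum_le_tsum _ (fun k _ => by positivity)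

lemma Had.second {n : ℕ → ℝ} {q : ℝ} (h : Had n q) :
    ∃ C : ℝ, 0 ≤ C ∧ ∀ (a b : ℝ) (m : ℕ), |(∫ x in a..b, (S n m x) ^ 2) - m * (b - a) / 2| ≤ C := by
  have hq := h.hq
  have hq0 : 0 < q := by linarith
  have hqi : 1 / q < 1 := by rw [div_lt_one hq0]; exact hq
  have hqi0 : 0 < 1 / q := by positivity
  have h4 : 0 < 1 - 1 / q := by linarith
  have hsum : Summable (fun k : ℕ => 2 * (2 * k / (1 - 1 / q) * (1 / q) ^ k) + (1 / q) ^ k) := by
    apply Summable.add
    · have := summable_pow_mul_geometric_of_norm_lt_one 1 (r := 1 / q)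
        (by rw [Real.norm_of_nonneg hqi0.le]; exact hqi)
      have h5 := this.mul_left (4 / (1 - 1 / q))
      refine h5.congr (fun k => ?_)
      rw [pow_one]; ring
    · exact summable_geometric_of_lt_one hqi0.le hqi
  refine ⟨_, tsum_nonneg (fun k => ?_), fun a b m => le_trans ?_ (hsum.sum_le_tsum (Finset.range m)
    (fun k _ => ?_))⟩
  · positivity
  · induction m with
    | zero => simp [S]
    | succ m ih =>
      rw [Finset.sum_range_succ]
      have e1 : ∀ x, (S n (m + 1) x) ^ 2
          = (S n m x) ^ 2 + 2 * (S n m x * Real.cos (n m * x))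
            + (1 / 2 + (1 / 2) * Real.cos ((2 * n m) * x)) := by
        intro x
        rw [S_succ, show (2 * n m) * x = 2 * (n m * x) by ring, Real.cos_two_mul]
        ring
      simp_rw [e1]
      have c1 := continuous_S n m
      rw [intervalIntegral.integral_add (Continuous.intervalIntegrable (by fun_prop) _ _)
        (Continuous.intervalIntegrable (by fun_prop) _ _),
        intervalIntegral.integral_add (Continuous.intervalIntegrable (by fun_prop) _ _)
        (Continuous.intervalIntegrable (by fun_prop) _ _),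
        intervalIntegral.integral_add (Continuous.intervalIntegrable (by fun_prop) _ _)
        (Continuous.intervalIntegrable (by fun_prop) _ _),
        intervalIntegral.integral_const_mul, intervalIntegral.integral_const_mul,
        intervalIntegral.integral_const]
      have e2 := h.int_S_mul_cos m a b
      have e3 := abs_int_cos (w := 2 * n m) (by have := h.pos m; positivity) a b
      have e4 : 2 / (2 * n m) ≤ (1 / q) ^ m := by
        rw [one_div_pow]
        have := one_div_le_one_div_of_le (pow_pos hq0 m) (h.pow_le m)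
        have e5 : 2 / (2 * n m) = 1 / n m := by have := h.pos m; field_simp
        rw [e5]; exact this
      have e6 := abs_le.1 ih
      have e7 := abs_le.1 e2
      have e8 := abs_le.1 (e3.trans e4)
      have e9 : (0 : ℝ) ≤ (1 / q) ^ m := by positivity
      push_cast
      rw [abs_le, smul_eq_mul]
      constructor
      · nlinarith [e6.1, e7.1, e8.1]
      · nlinarith [e6.2, e7.2, e8.2]
  · positivity

lemma cube_le_four_pow (J : ℕ) : (J : ℝ) ^ 3 ≤ 4 ^ J := by
  have h : J ^ 3 ≤ 4 ^ J := by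
    induction J with
    | zero => norm_num
    | succ J ih =>
      rcases Nat.lt_or_ge J 2 with h | h
      · interval_cases J <;> norm_num
      · have h1 : (J + 1) ^ 3 ≤ 4 * J ^ 3 := by nlinarith [mul_self_nonneg (J : ℤ), h, Nat.mul_le_mul h h, Nat.mul_le_mul (Nat.mul_le_mul h h) h, Nat.mul_le_mul (Nat.le_refl (J*J)) h]
        calc (J + 1) ^ 3 ≤ 4 * J ^ 3 := h1
          _ ≤ 4 * 4 ^ J := by omega
          _ = 4 ^ (J + 1) := by ring
  exact_mod_cast h

lemma Had.fourth {n : ℕ → ℝ} (h : Had n 4) :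
    ∃ C : ℝ, 0 ≤ C ∧ ∀ (a b : ℝ), a ≤ b → ∀ m : ℕ,
      (∫ x in a..b, (S n m x) ^ 4) ≤ 2 * (b - a) * m ^ 2 + C * (1 + (b - a)) * m := by
  obtain ⟨C2, hC20, hC2⟩ := h.second
  refine ⟨8 * C2 + 35, by positivity, fun a b hab m => ?_⟩
  induction m with
  | zero => simp [S]
  | succ m ih =>
    have c1 := continuous_S n m
    -- the T³ c term
    have hb : Band (m * (m * (m * 1))) (0 + n m / 4 + n m / 4 + n m / 4)
        (fun x => ((1 * S n m x) * S n m x) * S n m x) := by
      have hh : ∀ k, k < m → 0 ≤ n k ∧ n k ≤ n m / 4 := fun k hk => ⟨(h.pos k).le, h.le_div hk⟩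
      apply Band.mul_S (by positivity) (by fun_prop) _ hh
      apply Band.mul_S (by positivity) (by fun_prop) _ hh
      exact Band.mul_S zero_le_one continuous_const band_one hh
    have hpos := h.pos m
    have hb2 := hb (n m) (by linarith) a b
    have e0 : 2 * ((m : ℝ) * (m * (m * 1))) / (n m - (0 + n m / 4 + n m / 4 + n m / 4)) ≤ 8 := by
      rw [show n m - (0 + n m / 4 + n m / 4 + n m / 4) = n m / 4 by ring]
      rw [div_le_iff₀ (by positivity)]
      have h1 := h.pow_le m
      have h2 := cube_le_four_pow m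
      nlinarith
    have e1 : ∀ x, ((1 * S n m x) * S n m x) * S n m x * Real.cos (n m * x)
        = (S n m x) ^ 3 * Real.cos (n m * x) := by intro x; ring
    simp_rw [e1] at hb2
    have e2 := abs_le.1 (hb2.trans e0)
    -- pointwise bound
    have e3 : ∀ x, (S n (m + 1) x) ^ 4 ≤ (S n m x) ^ 4 + 4 * ((S n m x) ^ 3 * Real.cos (n m * x))
        + (8 * (S n m x) ^ 2 + 3) := by
      intro x
      rw [S_succ]
      set s := S n m x
      set c := Real.cos (n m * x)
      have hc : |c| ≤ 1 := Real.abs_cos_le_one _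
      have hc2 : c ^ 2 ≤ 1 := by rw [← sq_abs]; exact pow_le_one₀ (abs_nonneg _) hc
      have hc4 : c ^ 4 ≤ 1 := by
        rw [show c ^ 4 = (c ^ 2) ^ 2 by ring]
        exact pow_le_one₀ (sq_nonneg _) hc2
      have hsc : s ^ 2 * c ^ 2 ≤ s ^ 2 := by nlinarith [sq_nonneg s]
      have h3 : 4 * s * c ^ 3 ≤ 2 * s ^ 2 + 2 := by
        have h5 : 0 ≤ 2 * (s - c ^ 3) ^ 2 := by positivity
        have h6 : (c ^ 3) ^ 2 ≤ 1 := by
          rw [show (c ^ 3) ^ 2 = (c ^ 2) ^ 3 by ring]
          exact pow_le_one₀ (sq_nonneg _) hc2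
        nlinarith
      have expand : (s + c) ^ 4 = s ^ 4 + 4 * (s ^ 3 * c) + (6 * (s ^ 2 * c ^ 2) + 4 * s * c ^ 3 + c ^ 4) := by
        ring
      rw [expand]
      linarith
    have e4 : (∫ x in a..b, (S n (m + 1) x) ^ 4) ≤ ∫ x in a..b, ((S n m x) ^ 4
        + 4 * ((S n m x) ^ 3 * Real.cos (n m * x)) + (8 * (S n m x) ^ 2 + 3)) := by
      apply intervalIntegral.integral_mono_on hab
      · exact Continuous.intervalIntegrable (by have := continuous_S n (m + 1); fun_prop) _ _
      · exact Continuous.intervalIntegrable (by fun_prop) _ _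
      · intro x _; exact e3 x
    rw [intervalIntegral.integral_add (Continuous.intervalIntegrable (by fun_prop) _ _)
        (Continuous.intervalIntegrable (by fun_prop) _ _),
        intervalIntegral.integral_add (Continuous.intervalIntegrable (by fun_prop) _ _)
        (Continuous.intervalIntegrable (by fun_prop) _ _),
        intervalIntegral.integral_add (Continuous.intervalIntegrable (by fun_prop) _ _)
        (Continuous.intervalIntegrable (by fun_prop) _ _),
        intervalIntegral.integral_const_mul, intervalIntegral.integral_const_mul,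
        intervalIntegral.integral_const, smul_eq_mul] at e4
    have e5 := (abs_le.1 (hC2 a b m)).2
    push_cast
    have hba : 0 ≤ b - a := by linarith
    have hm0 : (0 : ℝ) ≤ m := Nat.cast_nonneg m
    nlinarith [e2.2, mul_nonneg hba hm0, mul_nonneg hC20 hba]

end Pool.Agent.H636R3.Lacunary
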