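import Pool.Agent.H636R3.Lacunary

set_option autoImplicit false

open MeasureTheory Set Filter Topology

namespace Pool.Agent.H636R3.Lacunary

lemma Had.pow_mul_le {n : ℕ → ℝ} {q : ℝ} (h : Had n q) (p k : ℕ) : q ^ p * n k ≤ n (k + p) := by
  induction p with
  | zero => simp
  | succ p ih =>
    have h1 := h.hs (k + p)
    have hq := h.hq
    calc q ^ (p + 1) * n k = q * (q ^ p * n k) := by ring
      _ ≤ q * n (k + p) := by apply mul_le_mul_of_nonneg_left ih; linarith
      _ ≤ n (k + p + 1) := h1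

lemma S_mul (n : ℕ → ℝ) (p J : ℕ) (x : ℝ) :
    S n (p * J) x = ∑ i ∈ Finset.range p, S (fun j => n (p * j + i)) J x := by
  induction J with
  | zero => simp [S]
  | succ J ih =>
    have h1 : S n (p * (J + 1)) x = S n (p * J) x
        + ∑ i ∈ Finset.range p, Real.cos (n (p * J + i) * x) := by
      unfold S
      rw [show p * (J + 1) = p * J + p by ring, Finset.sum_range_add]
    rw [h1, ih, ← Finset.sum_add_distrib]
    apply Finset.sum_congr rfl
    intro i _
    rw [S_succ]

lemma Had.fourth_gen {n : ℕ → ℝ} {q : ℝ} (h : Had n q) :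
    ∃ p : ℕ, 1 ≤ p ∧ ∃ C : ℝ, 0 ≤ C ∧ ∀ (a b : ℝ), a ≤ b → ∀ J : ℕ,
      (∫ x in a..b, (S n (p * J) x) ^ 4)
        ≤ (p : ℝ) ^ 4 * (2 * (b - a) * (J : ℝ) ^ 2 + C * (1 + (b - a)) * J) := by
  obtain ⟨p, hp⟩ := pow_unbounded_of_one_lt (4 : ℝ) h.hq
  have hp1 : 1 ≤ p := by
    rcases Nat.eq_zero_or_pos p with h0 | h0
    · subst h0; norm_num at hp
    · exact h0
  refine ⟨p, hp1, ?_⟩
  have hHad : ∀ i : ℕ, Had (fun j => n (p * j + i)) 4 := by
    intro i
    refine ⟨by norm_num, h.one_le _, fun k => ?_⟩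
    have h1 := h.pow_mul_le p (p * k + i)
    have h2 := h.pos (p * k + i)
    have h3 : p * (k + 1) + i = p * k + i + p := by ring
    show 4 * n (p * k + i) ≤ n (p * (k + 1) + i)
    rw [h3]
    nlinarith
  have hex : ∀ i : ℕ, ∃ C : ℝ, 0 ≤ C ∧ ∀ (a b : ℝ), a ≤ b → ∀ m : ℕ,
      (∫ x in a..b, (S (fun j => n (p * j + i)) m x) ^ 4)
        ≤ 2 * (b - a) * m ^ 2 + C * (1 + (b - a)) * m := fun i => (hHad i).fourth
  choose C hC0 hC using hex
  refine ⟨∑ i ∈ Finset.range p, C i, Finset.sum_nonneg (fun i _ => hC0 i), fun a b hab J => ?_⟩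
  have hcont : ∀ i, Continuous (S (fun j => n (p * j + i)) J) := fun i => continuous_S _ _
  have hpt : ∀ x, (S n (p * J) x) ^ 4
      ≤ (p : ℝ) ^ 3 * ∑ i ∈ Finset.range p, (S (fun j => n (p * j + i)) J x) ^ 4 := by
    intro x
    rw [S_mul]
    have e1 := sq_sum_le_card_mul_sum_sq (s := Finset.range p)
      (f := fun i => S (fun j => n (p * j + i)) J x)
    have e2 := sq_sum_le_card_mul_sum_sq (s := Finset.range p)
      (f := fun i => (S (fun j => n (p * j + i)) J x) ^ 2)
    rw [Finset.card_range] at e1 e2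
    have e3 : 0 ≤ (∑ i ∈ Finset.range p, S (fun j => n (p * j + i)) J x) ^ 2 := sq_nonneg _
    calc (∑ i ∈ Finset.range p, S (fun j => n (p * j + i)) J x) ^ 4
        = ((∑ i ∈ Finset.range p, S (fun j => n (p * j + i)) J x) ^ 2) ^ 2 := by ring
      _ ≤ ((p : ℝ) * ∑ i ∈ Finset.range p, (S (fun j => n (p * j + i)) J x) ^ 2) ^ 2 :=
          pow_le_pow_left₀ e3 e1 2
      _ = (p : ℝ) ^ 2 * (∑ i ∈ Finset.range p, (S (fun j => n (p * j + i)) J x) ^ 2) ^ 2 := by ring
      _ ≤ (p : ℝ) ^ 2 * ((p : ℝ) * ∑ i ∈ Finset.range p,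
            ((S (fun j => n (p * j + i)) J x) ^ 2) ^ 2) := by
          apply mul_le_mul_of_nonneg_left e2 (by positivity)
      _ = (p : ℝ) ^ 3 * ∑ i ∈ Finset.range p, (S (fun j => n (p * j + i)) J x) ^ 4 := by
          have e4 : ∀ i, ((S (fun j => n (p * j + i)) J x) ^ 2) ^ 2
              = (S (fun j => n (p * j + i)) J x) ^ 4 := fun i => by ring
          simp_rw [e4]
          ring
  calc (∫ x in a..b, (S n (p * J) x) ^ 4)
      ≤ ∫ x in a..b, (p : ℝ) ^ 3 * ∑ i ∈ Finset.range p, (S (fun j => n (p * j + i)) J x) ^ 4 := by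
        apply intervalIntegral.integral_mono_on hab
        · exact Continuous.intervalIntegrable (by have := continuous_S n (p * J); fun_prop) _ _
        · exact Continuous.intervalIntegrable (by fun_prop) _ _
        · intro x _; exact hpt x
    _ = (p : ℝ) ^ 3 * ∑ i ∈ Finset.range p, ∫ x in a..b, (S (fun j => n (p * j + i)) J x) ^ 4 := by
        rw [intervalIntegral.integral_const_mul, intervalIntegral.integral_finsetSum
          (fun i _ => Continuous.intervalIntegrable (by have := hcont i; fun_prop) _ _)]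
    _ ≤ (p : ℝ) ^ 3 * ∑ i ∈ Finset.range p, (2 * (b - a) * (J : ℝ) ^ 2
          + (∑ i ∈ Finset.range p, C i) * (1 + (b - a)) * J) := by
        apply mul_le_mul_of_nonneg_left _ (by positivity)
        apply Finset.sum_le_sum
        intro i hi
        refine (hC i a b hab J).trans ?_
        have h1 : C i ≤ ∑ i ∈ Finset.range p, C i :=
          Finset.single_le_sum (fun i _ => hC0 i) hi
        have hba : 0 ≤ b - a := by linarith
        have hJ : (0 : ℝ) ≤ J := Nat.cast_nonneg J
        have h2 : C i * (1 + (b - a)) * J ≤ (∑ i ∈ Finset.range p, C i) * (1 + (b - a)) * J := by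
          apply mul_le_mul_of_nonneg_right _ hJ
          exact mul_le_mul_of_nonneg_right h1 (by linarith)
        linarith
    _ = (p : ℝ) ^ 4 * (2 * (b - a) * (J : ℝ) ^ 2 + (∑ i ∈ Finset.range p, C i) * (1 + (b - a)) * J) := by
        rw [Finset.sum_const, Finset.card_range, nsmul_eq_mul]; ring

/-- density points -/
lemma exists_density {B : Set ℝ} (hB : MeasurableSet B) (hpos : volume B ≠ 0) {P : ℝ → Prop}
    (hP : ∀ᵐ x, P x) : ∃ x ∈ B, P x ∧ ∀ δ : ℝ, 0 < δ → ∃ r0 : ℝ, 0 < r0 ∧ ∀ r, 0 < r → r < r0 →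
      volume.real (Ioc (x - r) (x + r) \ B) ≤ δ * (2 * r) := by
  have h1 := Besicovitch.ae_tendsto_measure_inter_div (volume : Measure ℝ) B
  have h2 : ∀ᵐ x ∂(volume.restrict B), P x := ae_restrict_of_ae hP
  have h3 : ∀ᵐ x ∂(volume.restrict B), x ∈ B := ae_restrict_mem hB
  have hne : (ae (volume.restrict B)).NeBot := by
    rw [ae_neBot]
    intro h
    apply hpos
    rwa [Measure.restrict_eq_zero] at h
  obtain ⟨x, hx1, hx2, hx3⟩ := (h1.and (h2.and h3)).exists
  refine ⟨x, hx3, hx2, fun δ hδ => ?_⟩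
  by_cases hδ1 : 1 ≤ δ
  · refine ⟨1, one_pos, fun r hr _ => ?_⟩
    calc volume.real (Ioc (x - r) (x + r) \ B) ≤ volume.real (Ioc (x - r) (x + r)) :=
          measureReal_mono sdiff_subset (by rw [Real.volume_Ioc]; exact ENNReal.ofReal_ne_top)
      _ = 2 * r := by rw [Measure.real, Real.volume_Ioc, ENNReal.toReal_ofReal (by linarith)]; ring
      _ ≤ δ * (2 * r) := by nlinarith
  push Not at hδ1
  have hlt : ENNReal.ofReal (1 - δ) < 1 := by
    rw [← ENNReal.ofReal_one]
    exact (ENNReal.ofReal_lt_ofReal_iff one_pos).2 (by linarith)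
  have hev := hx1.eventually (lt_mem_nhds hlt)
  rw [eventually_nhdsWithin_iff, Metric.eventually_nhds_iff] at hev
  obtain ⟨r0, hr0, hball⟩ := hev
  refine ⟨r0, hr0, fun r hr hrr => ?_⟩
  have h4 := hball (y := r) (by rw [Real.dist_eq, sub_zero, abs_of_pos hr]; exact hrr) hr
  rw [Real.volume_closedBall] at h4
  have hfin : volume (B ∩ Metric.closedBall x r) ≠ ⊤ := by
    apply ne_top_of_le_ne_top _ (measure_mono inter_subset_right)
    rw [Real.volume_closedBall]; exact ENNReal.ofReal_ne_top
  have h5 : ENNReal.ofReal (1 - δ) * ENNReal.ofReal (2 * r) ≤ volume (B ∩ Metric.closedBall x r) := by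
    have h6 := h4.le
    rwa [ENNReal.le_div_iff_mul_le (Or.inl (by simpa using hr)) (Or.inl ENNReal.ofReal_ne_top)]
      at h6
  rw [← ENNReal.ofReal_mul (by linarith)] at h5
  have h7 : (1 - δ) * (2 * r) ≤ volume.real (B ∩ Metric.closedBall x r) := by
    rw [Measure.real]
    exact (ENNReal.ofReal_le_iff_le_toReal hfin).1 h5
  have h8 : volume.real (Metric.closedBall x r ∩ B) + volume.real (Metric.closedBall x r \ B)
      = volume.real (Metric.closedBall x r) :=
    measureReal_inter_add_sdiff hB (by rw [Real.volume_closedBall]; exact ENNReal.ofReal_ne_top)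
  have h9 : volume.real (Metric.closedBall x r) = 2 * r := by
    rw [Measure.real, Real.volume_closedBall, ENNReal.toReal_ofReal (by linarith)]
  have h10 : volume.real (Ioc (x - r) (x + r) \ B) ≤ volume.real (Metric.closedBall x r \ B) := by
    apply measureReal_mono
    · apply sdiff_subset_sdiff_left
      rw [Real.closedBall_eq_Icc]
      exact Ioc_subset_Icc_self
    · apply ne_top_of_le_ne_top _ (measure_mono sdiff_subset)
      rw [Real.volume_closedBall]; exact ENNReal.ofReal_ne_top
  rw [inter_comm] at h7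
  linarith

/-- the set where the partial sums are bounded below is null -/
lemma Had.null_lower' {n : ℕ → ℝ} {q : ℝ} (h : Had n q) {σ : ℝ} (hσ : σ = 1 ∨ σ = -1)
    {K : ℝ} (hK : 0 ≤ K) (M : ℕ) : volume {x : ℝ | ∀ m, M ≤ m → -K ≤ σ * S n m x} = 0 := by
  set B : Set ℝ := {x : ℝ | ∀ m, M ≤ m → -K ≤ σ * S n m x} with hBdef
  have hBcl : IsClosed B := by
    have : B = ⋂ m : ℕ, ⋂ (_ : M ≤ m), {x | -K ≤ σ * S n m x} := by
      ext x; simp [hBdef]
    rw [this]
    apply isClosed_iInter; intro m
    apply isClosed_iInter; intro _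
    exact isClosed_le continuous_const (continuous_const.mul (continuous_S n m))
  by_contra hne
  obtain ⟨x0, -, -, hdens⟩ := exists_density hBcl.measurableSet hne (P := fun _ => True)
    (Filter.Eventually.of_forall (fun _ => trivial))
  obtain ⟨C1, hC10, hC1⟩ := h.first
  obtain ⟨C2, hC20, hC2⟩ := h.second
  obtain ⟨p, hp1, C4, hC40, hC4⟩ := h.fourth_gen
  have hP : (1 : ℝ) ≤ p := by exact_mod_cast hp1
  have hP0 : (0 : ℝ) < p := by linarith
  obtain ⟨r0, hr0, hr⟩ := hdens (1 / (512 * (p : ℝ) ^ 4)) (by positivity)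
  set r := r0 / 2 with hrdef
  have hrpos : 0 < r := by positivity
  have hmeas := hr r hrpos (by rw [hrdef]; linarith)
  set a := x0 - r with ha
  set b := x0 + r with hb
  have hab : a ≤ b := by rw [ha, hb]; linarith
  set l := b - a with hl
  have hl2 : l = 2 * r := by rw [hl, ha, hb]; ring
  have hlpos : 0 < l := by rw [hl2]; positivity
  have hσ2 : σ ^ 2 = 1 := by rcases hσ with h | h <;> rw [h] <;> norm_num
  have hσabs : |σ| = 1 := by rcases hσ with h | h <;> rw [h] <;> norm_num
  -- the main inequality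
  have main : ∀ j : ℕ, 1 ≤ j → M ≤ j →
      (j : ℝ) ^ 2 * l / 8 ≤ (4 * (p : ℝ) ^ 2 * C1 + 8 * K * (p : ℝ) ^ 2 * l) * j
        + ((3 / 4) * C2 + C4 * (1 + l) / 16) := by
    intro j hj1 hjM
    have hj0 : (0 : ℝ) < j := by exact_mod_cast hj1
    set m := p * j ^ 2 with hm
    have hmM : M ≤ m := by
      calc M ≤ j := hjM
        _ ≤ p * j ^ 2 := by nlinarith [Nat.mul_le_mul hp1 (Nat.mul_le_mul hj1 (le_refl j))]
    set lam : ℝ := 4 * (p : ℝ) ^ 2 * j with hlam
    set t : ℝ := 16 * (p : ℝ) ^ 2 * j with ht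
    have hlam0 : 0 < lam := by positivity
    have ht0 : 0 < t := by positivity
    have htl : t = 4 * lam := by rw [ht, hlam]; ring
    have hpt : ∀ x : ℝ, (3 / 4) * (S n m x) ^ 2 ≤ lam * (σ * S n m x) + 2 * K * lam
        + lam * (Bᶜ.indicator (fun _ => t) x) + (S n m x) ^ 4 / lam ^ 2 := by
      intro x
      set s := σ * S n m x with hs
      have hs2 : (S n m x) ^ 2 = s ^ 2 := by rw [hs, mul_pow, hσ2, one_mul]
      have hs4 : (S n m x) ^ 4 = s ^ 4 := by
        rw [hs, mul_pow, show σ ^ 4 = (σ ^ 2) ^ 2 by ring, hσ2]; ring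
      rw [hs2, hs4]
      -- first
      have f1 : |s| ≤ s + 2 * K + Bᶜ.indicator (fun _ => t) x + s ^ 2 / t := by
        by_cases hx : x ∈ B
        · rw [indicator_of_notMem (by simpa using hx)]
          have h1 : -K ≤ s := hx m hmM
          have h2 : 0 ≤ s ^ 2 / t := by positivity
          rcases abs_cases s with h3 | h3 <;> linarith [h3.1, h3.2]
        · rw [indicator_of_mem (by simpa using hx)]
          have h2 : 2 * |s| ≤ t + s ^ 2 / t := by
            have h3 : t + s ^ 2 / t - 2 * |s| = (t - |s|) ^ 2 / t := by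
              rw [← sq_abs s]; field_simp; ring
            have h4 : 0 ≤ (t - |s|) ^ 2 / t := by positivity
            linarith
          have h5 : -|s| ≤ s := neg_abs_le s
          linarith
      have f2 : s ^ 2 ≤ lam * |s| + s ^ 4 / lam ^ 2 := by
        rw [← sq_abs s, show s ^ 4 = |s| ^ 4 by rw [show |s| ^ 4 = (|s| ^ 2) ^ 2 by ring, sq_abs]; ring]
        set u := |s| with hu
        have hu0 : 0 ≤ u := abs_nonneg s
        rcases le_or_gt u lam with h1 | h1
        · have h2 : u ^ 2 ≤ lam * u := by nlinarith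
          have h3 : 0 ≤ u ^ 4 / lam ^ 2 := by positivity
          linarith
        · have h2 : u ^ 2 ≤ u ^ 4 / lam ^ 2 := by
            rw [le_div_iff₀ (by positivity)]
            have h3 : lam ^ 2 ≤ u ^ 2 := pow_le_pow_left₀ hlam0.le h1.le 2
            nlinarith [sq_nonneg u]
          have h3 : 0 ≤ lam * u := by positivity
          linarith
      have f3 : lam * (s ^ 2 / t) = s ^ 2 / 4 := by rw [htl]; field_simp
      nlinarith [mul_le_mul_of_nonneg_left f1 hlam0.le]
    -- integrate
    have c1 := continuous_S n m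
    have hind : IntervalIntegrable (fun x => Bᶜ.indicator (fun _ => t) x) volume a b := by
      rw [intervalIntegrable_iff_integrableOn_Ioc_of_le hab]
      apply IntegrableOn.indicator _ hBcl.measurableSet.compl
      exact integrableOn_const (by rw [Real.volume_Ioc]; exact ENNReal.ofReal_ne_top)
    have hI : (∫ x in a..b, (3 / 4) * (S n m x) ^ 2) ≤ ∫ x in a..b, (lam * (σ * S n m x) + 2 * K * lam
        + lam * (Bᶜ.indicator (fun _ => t) x) + (S n m x) ^ 4 / lam ^ 2) := by
      apply intervalIntegral.integral_mono_on hab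
      · exact Continuous.intervalIntegrable (by fun_prop) _ _
      · apply IntervalIntegrable.add
        · apply IntervalIntegrable.add
          · exact Continuous.intervalIntegrable (by fun_prop) _ _
          · exact hind.const_mul _
        · exact Continuous.intervalIntegrable (by fun_prop) _ _
      · intro x _; exact hpt x
    rw [intervalIntegral.integral_add
        ((Continuous.intervalIntegrable (by fun_prop) _ _).add (hind.const_mul _))
        (Continuous.intervalIntegrable (by fun_prop) _ _),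
      intervalIntegral.integral_add
        (Continuous.intervalIntegrable (by fun_prop) _ _) (hind.const_mul _),
      intervalIntegral.integral_add
        (Continuous.intervalIntegrable (by fun_prop) _ _)
        (Continuous.intervalIntegrable (by fun_prop) _ _)] at hI
    have i1 : (∫ x in a..b, lam * (σ * S n m x)) = lam * (σ * ∫ x in a..b, S n m x) := by
      rw [intervalIntegral.integral_const_mul, intervalIntegral.integral_const_mul]
    have i2 : (∫ _ in a..b, 2 * K * lam) = (b - a) * (2 * K * lam) := by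
      rw [intervalIntegral.integral_const, smul_eq_mul]
    have i3 : (∫ x in a..b, lam * (Bᶜ.indicator (fun _ => t) x))
        = lam * ∫ x in a..b, Bᶜ.indicator (fun _ => t) x := by
      rw [intervalIntegral.integral_const_mul]
    have i4 : (∫ x in a..b, (3 / 4) * (S n m x) ^ 2) = (3 / 4) * ∫ x in a..b, (S n m x) ^ 2 := by
      rw [intervalIntegral.integral_const_mul]
    have i5 : (∫ x in a..b, (S n m x) ^ 4 / lam ^ 2) = (∫ x in a..b, (S n m x) ^ 4) / lam ^ 2 := by
      rw [intervalIntegral.integral_div]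
    rw [i1, i2, i3, i4, i5] at hI
    have hindv : (∫ x in a..b, Bᶜ.indicator (fun _ => t) x)
        = volume.real (Ioc a b \ B) * t := by
      rw [intervalIntegral.integral_of_le hab, integral_indicator hBcl.measurableSet.compl,
        Measure.restrict_restrict hBcl.measurableSet.compl, integral_const, smul_eq_mul,
        inter_comm, ← sdiff_eq, Measure.real, Measure.restrict_apply_univ]
      rfl
    rw [hindv] at hI
    have g1 := (abs_le.1 (hC1 a b m)).2
    have g1' := (abs_le.1 (hC1 a b m)).1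
    have g2 := (abs_le.1 (hC2 a b m)).1
    have g4 := hC4 a b hab (j ^ 2)
    rw [← hm] at g4
    have hmr : (m : ℝ) = p * (j : ℝ) ^ 2 := by rw [hm]; push_cast; ring
    rw [hmr] at g2
    push_cast at g4
    have hg1 : σ * (∫ x in a..b, S n m x) ≤ C1 := by
      have := le_abs_self (σ * (∫ x in a..b, S n m x))
      rw [abs_mul, hσabs, one_mul] at this
      exact this.trans (hC1 a b m)
    have hterm1 : lam * (σ * ∫ x in a..b, S n m x) ≤ lam * C1 :=
      mul_le_mul_of_nonneg_left hg1 hlam0.le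
    have hterm3 : lam * (volume.real (Ioc a b \ B) * t) ≤ (j : ℝ) ^ 2 * l / 8 := by
      have e1 : lam * (volume.real (Ioc a b \ B) * t) = (lam * t) * volume.real (Ioc a b \ B) := by ring
      rw [e1]
      calc (lam * t) * volume.real (Ioc a b \ B)
          ≤ (lam * t) * (1 / (512 * (p : ℝ) ^ 4) * (2 * r)) :=
            mul_le_mul_of_nonneg_left hmeas (by positivity)
        _ = (j : ℝ) ^ 2 * l / 8 := by
            rw [hl2, hlam, ht]; field_simp; ring
    have hterm4 : (∫ x in a..b, (S n m x) ^ 4) / lam ^ 2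
        ≤ l * (j : ℝ) ^ 2 / 8 + C4 * (1 + l) / 16 := by
      rw [div_le_iff₀ (by positivity)]
      refine g4.trans (le_of_eq ?_)
      rw [hlam]; ring
    have hlower : (3 / 4) * (j : ℝ) ^ 2 * l / 2 - (3 / 4) * C2
        ≤ (3 / 4) * ∫ x in a..b, (S n m x) ^ 2 := by
      have e1 : (j : ℝ) ^ 2 * l / 2 ≤ (p : ℝ) * (j : ℝ) ^ 2 * (b - a) / 2 := by
        rw [← hl]
        have : 0 ≤ (j : ℝ) ^ 2 * l := by positivity
        nlinarith
      linarith
    have e2 : lam * C1 = 4 * (p : ℝ) ^ 2 * C1 * j := by rw [hlam]; ring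
    have e3 : (b - a) * (2 * K * lam) = 8 * K * (p : ℝ) ^ 2 * l * j := by rw [← hl, hlam]; ring
    rw [e2] at hterm1
    rw [e3] at hI
    nlinarith
  -- contradiction
  set α := 4 * (p : ℝ) ^ 2 * C1 + 8 * K * (p : ℝ) ^ 2 * l with hα
  set β := (3 / 4) * C2 + C4 * (1 + l) / 16 with hβ
  have hα0 : 0 ≤ α := by positivity
  have hβ0 : 0 ≤ β := by positivity
  obtain ⟨j, hj⟩ := exists_nat_gt (8 * (α + β) / l + M + 1)
  have hd0 : 0 ≤ 8 * (α + β) / l := by positivity
  have hM0 : (0 : ℝ) ≤ M := Nat.cast_nonneg M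
  have hj1 : (1 : ℝ) ≤ j := by linarith
  have hjM : (M : ℝ) ≤ j := by linarith
  have hmain := main j (by exact_mod_cast hj1) (by exact_mod_cast hjM)
  have h1 : 8 * (α + β) / l < j := by linarith
  rw [div_lt_iff₀ hlpos] at h1
  nlinarith

lemma Had.null_lower {n : ℕ → ℝ} {q : ℝ} (h : Had n q) {σ : ℝ} (hσ : σ = 1 ∨ σ = -1)
    (K : ℝ) (M : ℕ) : volume {x : ℝ | ∀ m, M ≤ m → -K ≤ σ * S n m x} = 0 := by
  apply measure_mono_null _ (h.null_lower' hσ (le_max_right K 0) M)
  intro x hx m hm
  have := hx m hm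
  have h2 := le_max_left K 0
  linarith

end Pool.Agent.H636R3.Lacunary
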