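import Pool.Agent.H636R3.Lacunary2

set_option autoImplicit false

open MeasureTheory Set Filter Topology

namespace Pool.Agent.H636R3.Lacunary

lemma Had.sum_le {n : ℕ → ℝ} {q : ℝ} (h : Had n q) (m : ℕ) :
    ∑ k ∈ Finset.range m, n k ≤ n m / (q - 1) := by
  have hq := h.hq
  induction m with
  | zero => simp; exact div_nonneg (h.pos 0).le (by linarith)
  | succ m ih =>
    rw [Finset.sum_range_succ]
    have h1 := h.hs m
    have h2 : 0 < q - 1 := by linarith
    rw [le_div_iff₀ h2]
    rw [le_div_iff₀ h2] at ih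
    nlinarith

lemma S_lip {n : ℕ → ℝ} {q : ℝ} (h : Had n q) (m : ℕ) (x y : ℝ) :
    |S n m x - S n m y| ≤ (∑ k ∈ Finset.range m, n k) * |x - y| := by
  unfold S
  rw [← Finset.sum_sub_distrib, Finset.sum_mul]
  refine (Finset.abs_sum_le_sum_abs _ _).trans (Finset.sum_le_sum (fun k _ => ?_))
  have h1 : |Real.cos (n k * x) - Real.cos (n k * y)| ≤ |n k * x - n k * y| :=
    Real.abs_cos_sub_cos_le _ _
  rwa [← mul_sub, abs_mul, abs_of_pos (h.pos k)] at h1

/-- no crossing on an interval where the gap set is dense -/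
lemma persist {f : ℝ → ℝ} {L : ℝ} (hL : 0 < L) (hf : Continuous f)
    (hlip : ∀ x y, |f x - f y| ≤ L * |x - y|) {B : Set ℝ} {ξ ε : ℝ} (hε : 0 < ε)
    (hB : ∀ x ∈ B, ε ≤ |f x - ξ|) {x0 r : ℝ} (hr : 0 < r)
    (hmeas : volume.real (Ioc (x0 - r) (x0 + r) \ B) < ε / L) (hx0 : ξ + ε ≤ f x0) :
    ∀ x ∈ Icc (x0 - r) (x0 + r), ξ < f x := by
  intro x1 hx1
  by_contra hcon
  push Not at hcon
  have hd : 0 < ε / L := by positivity
  -- general contradiction
  have key : ∀ u v : ℝ, u ≤ v → v - u = ε / L → Ioo u v ⊆ Ioc (x0 - r) (x0 + r) →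
      (∀ y ∈ Ioo u v, |f y - ξ| < ε) → False := by
    intro u v huv hlen hsub hy
    have h1 : Ioo u v ⊆ Ioc (x0 - r) (x0 + r) \ B := by
      intro y hyI
      exact ⟨hsub hyI, fun hyB => absurd (hy y hyI) (not_lt.2 (hB y hyB))⟩
    have h2 : volume.real (Ioo u v) ≤ volume.real (Ioc (x0 - r) (x0 + r) \ B) := by
      refine measureReal_mono h1 ?_
      apply ne_top_of_le_ne_top _ (measure_mono sdiff_subset)
      rw [Real.volume_Ioc]; exact ENNReal.ofReal_ne_top
    have h3 : volume.real (Ioo u v) = v - u := by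
      rw [Measure.real, Real.volume_Ioo, ENNReal.toReal_ofReal (by linarith)]
    linarith
  rcases le_total x0 x1 with hle | hle
  · obtain ⟨z, hz, hfz⟩ := intermediate_value_Icc' hle hf.continuousOn
      (show ξ ∈ Icc (f x1) (f x0) from ⟨hcon, by linarith⟩)
    have h1 := hlip x0 z
    rw [hfz] at h1
    have h2 : ε ≤ f x0 - ξ := by linarith
    have h3 : ε ≤ L * |x0 - z| := h2.trans ((le_abs_self _).trans h1)
    have h4 : |x0 - z| = z - x0 := by rw [abs_sub_comm]; exact abs_of_nonneg (by linarith [hz.1])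
    rw [h4] at h3
    have h5 : ε / L ≤ z - x0 := by rw [div_le_iff₀ hL]; linarith
    refine key (z - ε / L) z (by linarith) (by ring) ?_ ?_
    · intro y hy
      exact ⟨by linarith [hy.1], by linarith [hy.2, hz.2, hx1.2]⟩
    · intro y hy
      have h6 := hlip y z
      rw [hfz] at h6
      have h7 : |y - z| < ε / L := by rw [abs_lt]; constructor <;> linarith [hy.1, hy.2]
      calc |f y - ξ| ≤ L * |y - z| := h6
        _ < L * (ε / L) := mul_lt_mul_of_pos_left h7 hL
        _ = ε := by field_simp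
  · obtain ⟨z, hz, hfz⟩ := intermediate_value_Icc hle hf.continuousOn
      (show ξ ∈ Icc (f x1) (f x0) from ⟨hcon, by linarith⟩)
    have h1 := hlip x0 z
    rw [hfz] at h1
    have h2 : ε ≤ f x0 - ξ := by linarith
    have h3 : ε ≤ L * |x0 - z| := h2.trans ((le_abs_self _).trans h1)
    have h4 : |x0 - z| = x0 - z := abs_of_nonneg (by linarith [hz.2])
    rw [h4] at h3
    have h5 : ε / L ≤ x0 - z := by rw [div_le_iff₀ hL]; linarith
    refine key z (z + ε / L) (by linarith) (by ring) ?_ ?_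
    · intro y hy
      exact ⟨by linarith [hy.1, hz.1, hx1.1], by linarith [hy.2]⟩
    · intro y hy
      have h6 := hlip y z
      rw [hfz] at h6
      have h7 : |y - z| < ε / L := by rw [abs_lt]; constructor <;> linarith [hy.1, hy.2]
      calc |f y - ξ| ≤ L * |y - z| := h6
        _ < L * (ε / L) := mul_lt_mul_of_pos_left h7 hL
        _ = ε := by field_simp

/-- near every point there is a point where `σ cos (w x) = 1` -/
lemma exists_peak {w : ℝ} (hw : 0 < w) {σ : ℝ} (hσ : σ = 1 ∨ σ = -1) (x0 : ℝ) :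
    ∃ x ∈ Icc (x0 - Real.pi / w) (x0 + Real.pi / w), σ * Real.cos (w * x) = 1 := by
  have hpi := Real.pi_pos
  rcases hσ with h | h
  · set k := round (w * x0 / (2 * Real.pi)) with hk
    refine ⟨k * (2 * Real.pi) / w, ?_, ?_⟩
    · have h1 := abs_sub_round (w * x0 / (2 * Real.pi))
      rw [← hk] at h1
      have h2 := abs_le.1 h1
      have e1 : x0 - k * (2 * Real.pi) / w = (2 * Real.pi / w) * (w * x0 / (2 * Real.pi) - k) := by
        field_simp
      have e2 : 0 < 2 * Real.pi / w := by positivity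
      constructor
      · have : x0 - k * (2 * Real.pi) / w ≤ (2 * Real.pi / w) * (1 / 2) := by
          rw [e1]; exact mul_le_mul_of_nonneg_left h2.2 e2.le
        have e3 : (2 * Real.pi / w) * (1 / 2) = Real.pi / w := by ring
        linarith
      · have : (2 * Real.pi / w) * (-(1 / 2)) ≤ x0 - k * (2 * Real.pi) / w := by
          rw [e1]; exact mul_le_mul_of_nonneg_left h2.1 e2.le
        have e3 : (2 * Real.pi / w) * (-(1 / 2)) = -(Real.pi / w) := by ring
        linarith
    · rw [h, one_mul]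
      have : w * (k * (2 * Real.pi) / w) = k * (2 * Real.pi) := by field_simp
      rw [this, Real.cos_int_mul_two_pi]
  · set k := round ((w * x0 - Real.pi) / (2 * Real.pi)) with hk
    refine ⟨(k * (2 * Real.pi) + Real.pi) / w, ?_, ?_⟩
    · have h1 := abs_sub_round ((w * x0 - Real.pi) / (2 * Real.pi))
      rw [← hk] at h1
      have h2 := abs_le.1 h1
      have e1 : x0 - (k * (2 * Real.pi) + Real.pi) / w
          = (2 * Real.pi / w) * ((w * x0 - Real.pi) / (2 * Real.pi) - k) := by
        field_simp; ring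
      have e2 : 0 < 2 * Real.pi / w := by positivity
      constructor
      · have : x0 - (k * (2 * Real.pi) + Real.pi) / w ≤ (2 * Real.pi / w) * (1 / 2) := by
          rw [e1]; exact mul_le_mul_of_nonneg_left h2.2 e2.le
        have e3 : (2 * Real.pi / w) * (1 / 2) = Real.pi / w := by ring
        linarith
      · have : (2 * Real.pi / w) * (-(1 / 2)) ≤ x0 - (k * (2 * Real.pi) + Real.pi) / w := by
          rw [e1]; exact mul_le_mul_of_nonneg_left h2.1 e2.le
        have e3 : (2 * Real.pi / w) * (-(1 / 2)) = -(Real.pi / w) := by ring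
        linarith
    · rw [h]
      have : w * ((k * (2 * Real.pi) + Real.pi) / w) = k * (2 * Real.pi) + Real.pi := by field_simp
      rw [this, Real.cos_int_mul_two_pi_add_pi]
      norm_num

/-- the sets where the partial sums avoid an interval are null -/
lemma Had.null_gap {n : ℕ → ℝ} {q : ℝ} (h : Had n q) (ξ : ℝ) {ε : ℝ} (hε : 0 < ε) (M : ℕ) :
    volume {x : ℝ | ∀ m, M ≤ m → ε ≤ |S n m x - ξ|} = 0 := by
  set B : Set ℝ := {x : ℝ | ∀ m, M ≤ m → ε ≤ |S n m x - ξ|} with hBdef
  have hBcl : IsClosed B := by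
    have : B = ⋂ m : ℕ, ⋂ (_ : M ≤ m), {x | ε ≤ |S n m x - ξ|} := by
      ext x; simp [hBdef]
    rw [this]
    apply isClosed_iInter; intro m
    apply isClosed_iInter; intro _
    exact isClosed_le continuous_const (((continuous_S n m).sub continuous_const).abs)
  by_contra hne
  -- almost every point oscillates
  have hosc : ∀ᵐ x : ℝ, ∀ (σ : ℝ), (σ = 1 ∨ σ = -1) → ∀ (K M' : ℕ),
      ¬ (∀ m, M' ≤ m → -(K : ℝ) ≤ σ * S n m x) := by
    have h1 : ∀ (σ : ℝ), (σ = 1 ∨ σ = -1) → ∀ᵐ x : ℝ, ∀ (K M' : ℕ),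
        ¬ (∀ m, M' ≤ m → -(K : ℝ) ≤ σ * S n m x) := by
      intro σ hσ
      rw [ae_all_iff]; intro K
      rw [ae_all_iff]; intro M'
      rw [ae_iff]
      simp only [not_not]
      exact h.null_lower hσ K M'
    filter_upwards [h1 1 (Or.inl rfl), h1 (-1) (Or.inr rfl)] with x hx1 hx2
    intro σ hσ
    rcases hσ with h | h <;> rw [h]
    · exact hx1
    · exact hx2
  obtain ⟨x0, hx0B, hx0, hdens⟩ := exists_density hBcl.measurableSet hne hosc
  have hq := h.hq
  have hq1 : 0 < q - 1 := by linarith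
  set C : ℝ := q / (q - 1) with hC
  have hC0 : 0 < C := by positivity
  have hpi := Real.pi_pos
  obtain ⟨r0, hr0, hr⟩ := hdens (ε / (4 * Real.pi * C)) (by positivity)
  -- eventually small radius
  have hlim : Tendsto (fun m => Real.pi / n m) atTop (𝓝 0) := by
    apply Tendsto.div_atTop tendsto_const_nhds
    apply tendsto_atTop_mono h.pow_le
    exact tendsto_pow_atTop_atTop_of_one_lt hq
  obtain ⟨m0, hm0⟩ := eventually_atTop.1 ((hlim.eventually (gt_mem_nhds hr0)).and
    (eventually_ge_atTop M))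
  -- persistence on the ball of radius π / n m
  have hpers : ∀ (σ : ℝ), (σ = 1 ∨ σ = -1) → ∀ m, m0 ≤ m → ∀ m', (m' = m ∨ m' = m + 1) →
      σ * ξ + ε ≤ σ * S n m' x0 →
      ∀ x ∈ Icc (x0 - Real.pi / n m) (x0 + Real.pi / n m), σ * ξ < σ * S n m' x := by
    intro σ hσ m hm m' hm' hge
    have hnm := h.pos m
    have hσabs : |σ| = 1 := by rcases hσ with h | h <;> rw [h] <;> norm_num
    have hLip : ∑ k ∈ Finset.range m', n k ≤ C * n m := by
      have h1 := h.sum_le m
      have h2 : ∑ k ∈ Finset.range m', n k ≤ n m / (q - 1) + n m := by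
        rcases hm' with h3 | h3
        · rw [h3]; linarith
        · rw [h3, Finset.sum_range_succ]; linarith
      refine h2.trans (le_of_eq ?_)
      rw [hC]; field_simp; ring
    apply persist (f := fun x => σ * S n m' x) (L := C * n m) (by positivity)
      (continuous_const.mul (continuous_S n m')) _ hε (B := B) _ (by positivity) _ hge
    · intro x y
      rw [← mul_sub, abs_mul, hσabs, one_mul]
      exact (S_lip h m' x y).trans (mul_le_mul_of_nonneg_right hLip (abs_nonneg _))
    · intro x hx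
      have h1 : ε ≤ |S n m' x - ξ| := hx m' (by have := (hm0 m hm).2; omega)
      rw [← mul_sub, abs_mul, hσabs, one_mul]
      exact h1
    · have h1 := hr (Real.pi / n m) (by positivity) (hm0 m hm).1
      refine lt_of_le_of_lt h1 ?_
      have e1 : ε / (4 * Real.pi * C) * (2 * (Real.pi / n m)) = (ε / (C * n m)) / 2 := by
        field_simp; ring
      rw [e1]
      have : 0 < ε / (C * n m) := by positivity
      linarith
  -- the sign does not change
  have hstep : ∀ (σ : ℝ), (σ = 1 ∨ σ = -1) → ∀ m, m0 ≤ m → σ * ξ + ε ≤ σ * S n m x0 →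
      σ * ξ + ε ≤ σ * S n (m + 1) x0 := by
    intro σ hσ m hm hge
    by_contra hcon
    have hσabs : |σ| = 1 := by rcases hσ with h | h <;> rw [h] <;> norm_num
    have h1 : ε ≤ |S n (m + 1) x0 - ξ| := hx0B (m + 1) (by have := (hm0 m hm).2; omega)
    have h1' : ε ≤ |σ * S n (m + 1) x0 - σ * ξ| := by
      rw [← mul_sub, abs_mul, hσabs, one_mul]; exact h1
    have h2 : σ * S n (m + 1) x0 ≤ σ * ξ - ε := by
      rcases abs_cases (σ * S n (m + 1) x0 - σ * ξ) with h3 | h3
      · exfalso; apply hcon; linarith [h3.1]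
      · linarith [h3.1]
    have hσ' : -σ = 1 ∨ -σ = -1 := by rcases hσ with h | h <;> rw [h] <;> norm_num
    have h3 := hpers σ hσ m hm m (Or.inl rfl) hge
    have h4 := hpers (-σ) hσ' m hm (m + 1) (Or.inr rfl) (by linarith)
    obtain ⟨x, hx, hpeak⟩ := exists_peak (h.pos m) hσ x0
    have h5 := h3 x hx
    have h6 := h4 x hx
    rw [S_succ] at h6
    nlinarith
  have hall : ∀ (σ : ℝ), (σ = 1 ∨ σ = -1) → ∀ m1, m0 ≤ m1 → σ * ξ + ε ≤ σ * S n m1 x0 → False := by
    intro σ hσ m1 hm1 hge
    have h1 : ∀ m, m1 ≤ m → σ * ξ + ε ≤ σ * S n m x0 := by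
      intro m hm
      induction m, hm using Nat.le_induction with
      | base => exact hge
      | succ m hm ih => exact hstep σ hσ m (hm1.trans hm) ih
    obtain ⟨K, hK⟩ := exists_nat_ge (-(σ * ξ + ε))
    exact hx0 σ hσ K m1 (fun m hm => by have := h1 m hm; linarith)
  have h1 : ε ≤ |S n m0 x0 - ξ| := hx0B m0 (hm0 m0 le_rfl).2
  rcases abs_cases (S n m0 x0 - ξ) with h3 | h3
  · exact hall 1 (Or.inl rfl) m0 le_rfl (by linarith [h3.1])
  · exact hall (-1) (Or.inr rfl) m0 le_rfl (by linarith [h3.1])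

theorem Had.ae_dense {n : ℕ → ℝ} {q : ℝ} (h : Had n q) :
    ∀ᵐ x : ℝ, ∀ ξ ε : ℝ, 0 < ε → ∃ᶠ m in atTop, |S n m x - ξ| < ε := by
  have h1 : ∀ᵐ x : ℝ, ∀ (a : ℚ) (j : ℕ), ∃ᶠ m in atTop, |S n m x - a| < 1 / ((j : ℝ) + 1) := by
    rw [ae_all_iff]; intro a
    rw [ae_all_iff]; intro j
    have h2 : ∀ᵐ x : ℝ, ∀ M : ℕ, ¬ (∀ m, M ≤ m → 1 / ((j : ℝ) + 1) ≤ |S n m x - a|) := by
      rw [ae_all_iff]; intro M
      rw [ae_iff]
      simp only [not_not]
      exact h.null_gap a (by positivity) M
    filter_upwards [h2] with x hx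
    rw [frequently_atTop]
    intro M
    have := hx M
    push Not at this
    exact this
  filter_upwards [h1] with x hx
  intro ξ ε hε
  obtain ⟨j, hj⟩ := exists_nat_one_div_lt (show 0 < ε / 2 by linarith)
  obtain ⟨a, ha1, ha2⟩ := exists_rat_btwn (show ξ - ε / 2 < ξ by linarith)
  apply (hx a j).mono
  intro m hm
  have h3 : |(a : ℝ) - ξ| < ε / 2 := by rw [abs_lt]; constructor <;> linarith
  calc |S n m x - ξ| = |(S n m x - a) + (a - ξ)| := by ring_nf
    _ ≤ |S n m x - a| + |(a : ℝ) - ξ| := abs_add_le _ _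
    _ < ε := by linarith

end Pool.Agent.H636R3.Lacunary
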