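import Mathlib

/-! Spaces `ℓ^q` over `ℤ` in an abstract form, gliding hump arguments. -/

set_option autoImplicit false
set_option linter.unusedSectionVars false
open scoped Topology
open Filter

namespace Pool.Agent.H636R3.Lx

/-- `E` is (a copy of) `ℓ^q(ℤ)` -/
structure EllQ (q : ℝ) (E : Type) [NormedAddCommGroup E] [NormedSpace ℂ E] where
  c : ℤ → (E →ₗ[ℂ] ℂ)
  hnorm : ∀ ξ, HasSum (fun k => ‖c k ξ‖ ^ q) (‖ξ‖ ^ q)
  trunc : ∀ (S : Finset ℤ) (ξ : E), ∃ ξ' : E, ∀ k, c k ξ' = if k ∈ S then c k ξ else 0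

theorem ultra_lim {I : Type} (U : Ultrafilter I) (f : I → ℝ) (a b : ℝ) (h : ∀ i, f i ∈ Set.Icc a b) :
    ∃ l ∈ Set.Icc a b, Tendsto f U (𝓝 l) := by
  obtain ⟨l, hl, h1⟩ := isCompact_Icc.ultrafilter_le_nhds (U.map f) (s := Set.Icc a b) (by
    rw [le_principal_iff]
    exact Filter.mem_map.2 (Filter.univ_mem' h))
  exact ⟨l, hl, h1⟩

variable {q : ℝ} {E : Type} [NormedAddCommGroup E] [NormedSpace ℂ E] (L : EllQ q E)

theorem EllQ.c_le (hq : 1 ≤ q) (k : ℤ) (ξ : E) : ‖L.c k ξ‖ ≤ ‖ξ‖ := by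
  have h1 := le_hasSum (L.hnorm ξ) k (fun j _ => Real.rpow_nonneg (norm_nonneg _) _)
  exact (Real.rpow_le_rpow_iff (norm_nonneg _) (norm_nonneg _) (by linarith)).1 h1

theorem EllQ.trunc_norm (hq : 1 ≤ q) (S : Finset ℤ) (ξ ξ' : E) (h : ∀ k, L.c k ξ' = if k ∈ S then L.c k ξ else 0) :
    ‖ξ - ξ'‖ ^ q = ‖ξ‖ ^ q - ∑ k ∈ S, ‖L.c k ξ‖ ^ q := by
  have h1 := L.hnorm (ξ - ξ')
  have h2 : HasSum (fun k => ‖L.c k ξ‖ ^ q - (if k ∈ S then ‖L.c k ξ‖ ^ q else 0))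
      (‖ξ‖ ^ q - ∑ k ∈ S, ‖L.c k ξ‖ ^ q) := by
    apply (L.hnorm ξ).sub
    have : HasSum (fun k => if k ∈ S then ‖L.c k ξ‖ ^ q else 0)
        (∑ k ∈ S, if k ∈ S then ‖L.c k ξ‖ ^ q else 0) :=
      hasSum_sum_of_ne_finset_zero (by intro b hb; simp [hb])
    have h0 : (∑ k ∈ S, if k ∈ S then ‖L.c k ξ‖ ^ q else 0) = ∑ k ∈ S, ‖L.c k ξ‖ ^ q :=
      Finset.sum_congr rfl fun k hk => if_pos hk
    rw [h0] at this
    exact this
  have h3 : (fun k => ‖L.c k (ξ - ξ')‖ ^ q) = fun k => ‖L.c k ξ‖ ^ q - (if k ∈ S then ‖L.c k ξ‖ ^ q else 0) := by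
    funext k
    rw [map_sub, h k]
    split_ifs
    · rw [sub_self, norm_zero, Real.zero_rpow (by linarith), sub_self]
    · rw [sub_zero, sub_zero]
  rw [h3] at h1
  exact h1.unique h2

theorem EllQ.exists_trunc (hq : 1 ≤ q) (ξ : E) (ε : ℝ) (hε : 0 < ε) :
    ∃ (S : Finset ℤ) (ξ' : E), (∀ k, L.c k ξ' = if k ∈ S then L.c k ξ else 0) ∧ ‖ξ - ξ'‖ < ε := by
  have h1 : Tendsto (fun S : Finset ℤ => ‖ξ‖ ^ q - ∑ k ∈ S, ‖L.c k ξ‖ ^ q) atTop (𝓝 (‖ξ‖ ^ q - ‖ξ‖ ^ q)) :=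
    tendsto_const_nhds.sub (L.hnorm ξ)
  rw [sub_self] at h1
  have h2 := (h1.eventually (gt_mem_nhds (show (0:ℝ) < ε ^ q by positivity))).exists
  obtain ⟨S, hS⟩ := h2
  obtain ⟨ξ', hξ'⟩ := L.trunc S ξ
  refine ⟨S, ξ', hξ', ?_⟩
  rw [← L.trunc_norm hq S ξ ξ' hξ'] at hS
  exact (Real.rpow_lt_rpow_iff (norm_nonneg _) hε.le (by linarith)).1 hS

/-- Brezis–Lieb along an ultrafilter -/
theorem EllQ.brezis_lieb (hq : 1 ≤ q) {I : Type} (U : Ultrafilter I) (y : I → E) (D : ℝ) (hD : ∀ i, ‖y i‖ ≤ D)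
    (hc : ∀ k, Tendsto (fun i => L.c k (y i)) U (𝓝 0)) (l : ℝ) (hl : Tendsto (fun i => ‖y i‖ ^ q) U (𝓝 l))
    (z : E) : Tendsto (fun i => ‖z + y i‖ ^ q) U (𝓝 (‖z‖ ^ q + l)) := by
  have hq0 : 0 < q := by linarith
  have hl0 : 0 ≤ l := ge_of_tendsto' hl fun i => Real.rpow_nonneg (norm_nonneg _) _
  -- finitely supported case
  have fin : ∀ (S : Finset ℤ) (z' : E), (∀ k, k ∉ S → L.c k z' = 0) →
      Tendsto (fun i => ‖z' + y i‖ ^ q) U (𝓝 (‖z'‖ ^ q + l)) := by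
    intro S z' hz'
    have h1 : ∀ i, ‖z' + y i‖ ^ q = (∑ k ∈ S, (‖L.c k z' + L.c k (y i)‖ ^ q - ‖L.c k (y i)‖ ^ q)) + ‖y i‖ ^ q := by
      intro i
      have h2 := (L.hnorm (z' + y i)).sub (L.hnorm (y i))
      have h3 : HasSum (fun k => ‖L.c k (z' + y i)‖ ^ q - ‖L.c k (y i)‖ ^ q)
          (∑ k ∈ S, (‖L.c k (z' + y i)‖ ^ q - ‖L.c k (y i)‖ ^ q)) := by
        apply hasSum_sum_of_ne_finset_zero
        intro k hk
        rw [map_add, hz' k hk, zero_add, sub_self]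
      have h4 := h2.unique h3
      simp only [map_add] at h4
      linarith
    have h5 : ‖z'‖ ^ q = ∑ k ∈ S, ‖L.c k z'‖ ^ q := by
      refine (L.hnorm z').unique (hasSum_sum_of_ne_finset_zero ?_)
      intro k hk
      rw [hz' k hk, norm_zero, Real.zero_rpow hq0.ne']
    simp only [h1]
    refine Tendsto.add ?_ hl
    rw [h5]
    apply tendsto_finsetSum
    intro k _
    have h6 : Tendsto (fun i => ‖L.c k z' + L.c k (y i)‖ ^ q - ‖L.c k (y i)‖ ^ q) U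
        (𝓝 (‖L.c k z' + 0‖ ^ q - ‖(0:ℂ)‖ ^ q)) :=
      ((tendsto_const_nhds.add (hc k)).norm.rpow_const (Or.inr hq0.le)).sub ((hc k).norm.rpow_const (Or.inr hq0.le))
    rwa [add_zero, norm_zero, Real.zero_rpow hq0.ne', sub_zero] at h6
  -- general case
  obtain ⟨lam, _, hlam⟩ := ultra_lim U (fun i => ‖z + y i‖) 0 (‖z‖ + D) (fun i =>
    ⟨norm_nonneg _, (norm_add_le _ _).trans (by linarith [hD i])⟩)
  have hlam0 : 0 ≤ lam := ge_of_tendsto' hlam fun i => norm_nonneg _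
  have key : lam = (‖z‖ ^ q + l) ^ (1 / q) := by
    have h1 : ∀ n : ℕ, ∃ z' : E, ‖z - z'‖ < 1 / ((n : ℝ) + 1) ∧ |lam - (‖z'‖ ^ q + l) ^ (1 / q)| ≤ 1 / ((n : ℝ) + 1) := by
      intro n
      obtain ⟨S, z', hz', hn⟩ := L.exists_trunc hq z (1 / ((n : ℝ) + 1)) (by positivity)
      refine ⟨z', hn, ?_⟩
      have h2 := fin S z' (fun k hk => by rw [hz' k, if_neg hk])
      have h3 : Tendsto (fun i => ‖z' + y i‖) U (𝓝 ((‖z'‖ ^ q + l) ^ (1 / q))) := by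
        have := h2.rpow_const (p := 1 / q) (Or.inr (by positivity))
        refine this.congr fun i => ?_
        rw [← Real.rpow_mul (norm_nonneg _), mul_one_div_cancel hq0.ne', Real.rpow_one]
      have h4 := (hlam.sub h3).abs
      refine le_of_tendsto' h4 fun i => ?_
      refine (abs_norm_sub_norm_le _ _).trans ?_
      rw [add_sub_add_right_eq_sub]
      exact hn.le
    choose z' hz1 hz2 using h1
    have h5 : Tendsto z' atTop (𝓝 z) := by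
      rw [tendsto_iff_norm_sub_tendsto_zero]
      refine squeeze_zero (fun _ => norm_nonneg _) (fun n => ?_) tendsto_one_div_add_atTop_nhds_zero_nat
      rw [norm_sub_rev]
      exact (hz1 n).le
    have h6 : Tendsto (fun n => (‖z' n‖ ^ q + l) ^ (1 / q)) atTop (𝓝 ((‖z‖ ^ q + l) ^ (1 / q))) :=
      ((h5.norm.rpow_const (Or.inr hq0.le)).add_const l).rpow_const (Or.inr (by positivity))
    have h7 : Tendsto (fun n => (‖z' n‖ ^ q + l) ^ (1 / q)) atTop (𝓝 lam) := by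
      rw [tendsto_iff_norm_sub_tendsto_zero]
      refine squeeze_zero (fun _ => norm_nonneg _) (fun n => ?_) tendsto_one_div_add_atTop_nhds_zero_nat
      rw [Real.norm_eq_abs, abs_sub_comm]
      exact hz2 n
    exact tendsto_nhds_unique h7 h6
  have h8 := hlam.rpow_const (p := q) (Or.inr hq0.le)
  rw [key, ← Real.rpow_mul (by positivity), one_div_mul_cancel hq0.ne', Real.rpow_one] at h8
  exact h8

/-- selection of almost disjoint vectors -/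
theorem EllQ.select (hq : 1 ≤ q) {I : Type} [DecidableEq I] (U : Ultrafilter I) (y : I → E) (D : ℝ) (hD : ∀ i, ‖y i‖ ≤ D)
    (hc : ∀ k, Tendsto (fun i => L.c k (y i)) U (𝓝 0)) (l : ℝ) (hl : Tendsto (fun i => ‖y i‖ ^ q) U (𝓝 l))
    (hl0 : 0 < l) (R : I → I → Prop) (Q : I → Prop) (hR : ∀ i, ∀ᶠ j in (U : Filter I), R i j ∧ j ≠ i)
    (hQ : ∀ᶠ j in (U : Filter I), Q j) (M : ℕ) :
    ∃ S : Finset I, S.card = M ∧ (∀ i ∈ S, Q i) ∧ (∀ i ∈ S, ∀ j ∈ S, i ≠ j → R i j ∨ R j i) ∧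
      M * (l / 2) ≤ ‖∑ i ∈ S, y i‖ ^ q ∧ ‖∑ i ∈ S, y i‖ ^ q ≤ M * (2 * l) := by
  induction M with
  | zero =>
    refine ⟨∅, rfl, by simp, by simp, ?_, ?_⟩
    · simp [Real.zero_rpow (show q ≠ 0 by linarith)]
    · simp [Real.zero_rpow (show q ≠ 0 by linarith)]
  | succ M ih =>
    obtain ⟨S, hS, hSQ, hSR, h1, h2⟩ := ih
    have h3 := L.brezis_lieb hq U y D hD hc l hl (∑ i ∈ S, y i)
    have h4 : ∀ᶠ j in (U : Filter I), ((M : ℝ) + 1) * (l / 2) < ‖∑ i ∈ S, y i + y j‖ ^ q :=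
      h3.eventually (lt_mem_nhds (by linarith))
    have h5 : ∀ᶠ j in (U : Filter I), ‖∑ i ∈ S, y i + y j‖ ^ q < ((M : ℝ) + 1) * (2 * l) :=
      h3.eventually (gt_mem_nhds (by linarith))
    have h6 : ∀ᶠ j in (U : Filter I), ∀ i ∈ S, R i j ∧ j ≠ i := by
      rw [Filter.eventually_all_finset]
      exact fun i _ => hR i
    obtain ⟨j, h4, h5, h6, h7⟩ := (h4.and (h5.and (h6.and hQ))).exists
    have hj : j ∉ S := fun hj => (h6 j hj).2 rfl
    refine ⟨insert j S, by rw [Finset.card_insert_of_notMem hj, hS], ?_, ?_, ?_, ?_⟩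
    · intro i hi
      rw [Finset.mem_insert] at hi
      rcases hi with rfl | hi
      · exact h7
      · exact hSQ i hi
    · intro i hi i' hi' hne
      rw [Finset.mem_insert] at hi hi'
      rcases hi with rfl | hi <;> rcases hi' with rfl | hi'
      · exact absurd rfl hne
      · exact Or.inr (h6 i' hi').1
      · exact Or.inl (h6 i hi).1
      · exact hSR i hi i' hi' hne
    · rw [Finset.sum_insert hj, add_comm (y j)]
      push_cast
      exact h4.le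
    · rw [Finset.sum_insert hj, add_comm (y j)]
      push_cast
      exact h5.le

end Pool.Agent.H636R3.Lx
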