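import Mathlib
import Pool.Agent.H636R3.LxEll

/-! Bounded homomorphisms `C(X) → B(ℓ^q)`, `q ≠ 2`, have atoms. -/

set_option autoImplicit false
set_option linter.unusedSectionVars false
open scoped Topology
open Filter

namespace Pool.Agent.H636R3.Lx

variable {X : Type} [MetricSpace X] [CompactSpace X]
variable {q : ℝ} {E : Type} [NormedAddCommGroup E] [NormedSpace ℂ E]

/-- functions of norm at most one living on `V` move `ξ` by at most `δ` -/
def Small (Φ : C(X, ℂ) →ₙₐ[ℂ] (E →L[ℂ] E)) (ξ : E) (V : Set X) (δ : ℝ) : Prop :=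
  ∀ f : C(X, ℂ), (∀ x ∉ V, f x = 0) → ‖f‖ ≤ 1 → ‖Φ f ξ‖ ≤ δ

theorem Small.nonneg {Φ : C(X, ℂ) →ₙₐ[ℂ] (E →L[ℂ] E)} {ξ : E} {V : Set X} {δ : ℝ} (h : Small Φ ξ V δ) : 0 ≤ δ :=
  (norm_nonneg _).trans (h 0 (fun _ _ => rfl) (by simp))

theorem Small.bound {Φ : C(X, ℂ) →ₙₐ[ℂ] (E →L[ℂ] E)} {ξ : E} {V : Set X} {δ : ℝ} (h : Small Φ ξ V δ)
    (f : C(X, ℂ)) (hf : ∀ x ∉ V, f x = 0) {R : ℝ} (hR : 0 < R) (hfR : ‖f‖ ≤ R) : ‖Φ f ξ‖ ≤ R * δ := by
  have h1 := h (((R : ℂ)⁻¹) • f) (fun x hx => by simp [hf x hx]) (by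
    rw [norm_smul, norm_inv, Complex.norm_real, Real.norm_of_nonneg hR.le, inv_mul_le_iff₀ hR]
    linarith)
  rw [map_smul, smul_apply, norm_smul, norm_inv, Complex.norm_real,
    Real.norm_of_nonneg hR.le, inv_mul_le_iff₀ hR] at h1
  exact h1

theorem norm_sum_disjoint {ι : Type} (S : Finset ι) (f : ι → C(X, ℂ)) (hf : ∀ i ∈ S, ‖f i‖ ≤ 1)
    (hd : ∀ i ∈ S, ∀ j ∈ S, i ≠ j → ∀ x, f i x = 0 ∨ f j x = 0) : ‖∑ i ∈ S, f i‖ ≤ 1 := by
  rw [ContinuousMap.norm_le _ zero_le_one]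
  intro x
  rw [ContinuousMap.sum_apply]
  by_cases h : ∃ i ∈ S, f i x ≠ 0
  · obtain ⟨i, hi, hix⟩ := h
    rw [Finset.sum_eq_single_of_mem i hi]
    · exact ((f i).norm_coe_le_norm x).trans (hf i hi)
    · intro j hj hji
      rcases hd i hi j hj hji.symm x with h1 | h1
      · exact absurd h1 hix
      · exact h1
  · push Not at h
    rw [Finset.sum_eq_zero h, norm_zero]
    exact zero_le_one

/-- unimodular number turning `a` into `|a|` -/
theorem exists_phase (a : ℂ) : ∃ t : ℂ, ‖t‖ = 1 ∧ t * a = (‖a‖ : ℂ) := by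
  by_cases h : a = 0
  · exact ⟨1, by simp, by simp [h]⟩
  · refine ⟨(starRingEnd ℂ) a / ‖a‖, ?_, ?_⟩
    · rw [norm_div, RCLike.norm_conj, Complex.norm_real, norm_norm, div_self (norm_ne_zero_iff.2 h)]
    · rw [div_mul_eq_mul_div, mul_comm, Complex.mul_conj, Complex.normSq_eq_norm_sq]
      push_cast
      rw [sq, mul_div_assoc, div_self, mul_one]
      exact_mod_cast norm_ne_zero_iff.2 h

section
variable (L : EllQ q E) (Φ : C(X, ℂ) →ₙₐ[ℂ] (E →L[ℂ] E)) (K : ℝ) (hK : ∀ f, ‖Φ f‖ ≤ K * ‖f‖) (ξ : E)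

include hK in
theorem Phi_le (f : C(X, ℂ)) (R : ℝ) (hf : ‖f‖ ≤ R) (hK0 : 0 ≤ K) (ζ : E) : ‖Φ f ζ‖ ≤ K * R * ‖ζ‖ := by
  refine ((Φ f).le_opNorm ζ).trans ?_
  exact mul_le_mul_of_nonneg_right ((hK f).trans (mul_le_mul_of_nonneg_left hf hK0)) (norm_nonneg _)

include hK L in
/-- pairwise disjoint sets cannot all be big -/
theorem exists_small (hq : 1 ≤ q) (hK0 : 0 ≤ K) (V : ℕ → Set X) (hV : ∀ i j, i ≠ j → Disjoint (V i) (V j))
    (δ : ℝ) (hδ : 0 < δ) : ∃ i, Small Φ ξ (V i) δ := by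
  classical
  by_contra hcon
  push Not at hcon
  have hq0 : 0 < q := by linarith
  have h1 : ∀ i, ∃ f : C(X, ℂ), (∀ x ∉ V i, f x = 0) ∧ ‖f‖ ≤ 1 ∧ δ < ‖Φ f ξ‖ := by
    intro i
    have := hcon i
    unfold Small at this
    push Not at this
    obtain ⟨f, h1, h2, h3⟩ := this
    exact ⟨f, h1, h2, h3⟩
  choose f hf1 hf2 hf3 using h1
  have hsum : ∀ (S : Finset ℕ) (t : ℕ → ℂ), (∀ i, ‖t i‖ ≤ 1) → ‖∑ i ∈ S, t i • Φ (f i) ξ‖ ≤ K * ‖ξ‖ := by
    intro S t ht
    have h2 : ∑ i ∈ S, t i • Φ (f i) ξ = Φ (∑ i ∈ S, t i • f i) ξ := by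
      rw [map_sum, sum_apply]
      refine Finset.sum_congr rfl fun i _ => ?_
      rw [map_smul, smul_apply]
    rw [h2]
    have h3 : ‖∑ i ∈ S, t i • f i‖ ≤ 1 := by
      apply norm_sum_disjoint
      · intro i _
        rw [norm_smul]
        exact mul_le_one₀ (ht i) (norm_nonneg _) (hf2 i)
      · intro i _ j _ hij x
        by_cases hx : x ∈ V i
        · right
          have : x ∉ V j := fun h => Set.disjoint_left.1 (hV i j hij) hx h
          simp [hf1 j x this]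
        · left
          simp [hf1 i x hx]
    have := Phi_le Φ K hK _ 1 h3 hK0 ξ
    rwa [mul_one] at this
  have hcoord : ∀ k, Tendsto (fun i => L.c k (Φ (f i) ξ)) atTop (𝓝 0) := by
    intro k
    have h2 : Summable (fun i => ‖L.c k (Φ (f i) ξ)‖) := by
      refine summable_of_sum_le (c := K * ‖ξ‖) (fun _ => norm_nonneg _) fun S => ?_
      choose t ht1 ht2 using fun i => exists_phase (L.c k (Φ (f i) ξ))
      have h3 := (L.c_le hq k (∑ i ∈ S, t i • Φ (f i) ξ)).trans (hsum S t fun i => (ht1 i).le)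
      rw [map_sum] at h3
      have h4 : ∑ i ∈ S, L.c k (t i • Φ (f i) ξ) = ((∑ i ∈ S, ‖L.c k (Φ (f i) ξ)‖ : ℝ) : ℂ) := by
        rw [Complex.ofReal_sum]
        refine Finset.sum_congr rfl fun i _ => ?_
        rw [map_smul, smul_eq_mul, ht2]
      rw [h4, Complex.norm_real, Real.norm_of_nonneg (Finset.sum_nonneg fun _ _ => norm_nonneg _)] at h3
      exact h3
    have h3 := h2.tendsto_atTop_zero
    exact tendsto_zero_iff_norm_tendsto_zero.2 h3
  have hU : (hyperfilter ℕ : Filter ℕ) ≤ atTop := by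
    rw [← Nat.cofinite_eq_atTop]; exact hyperfilter_le_cofinite
  have hb : ∀ i, ‖Φ (f i) ξ‖ ≤ K * ‖ξ‖ := fun i => by
    have := Phi_le Φ K hK _ 1 (hf2 i) hK0 ξ
    rwa [mul_one] at this
  obtain ⟨l, hl, hl2⟩ := ultra_lim (hyperfilter ℕ) (fun i => ‖Φ (f i) ξ‖ ^ q) (δ ^ q) ((K * ‖ξ‖) ^ q) (fun i =>
    ⟨Real.rpow_le_rpow hδ.le (hf3 i).le hq0.le, Real.rpow_le_rpow (norm_nonneg _) (hb i) hq0.le⟩)
  have hl0 : 0 < l := lt_of_lt_of_le (by positivity) hl.1
  have hne : ∀ i : ℕ, ∀ᶠ j in (hyperfilter ℕ : Filter ℕ), True ∧ j ≠ i := by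
    intro i
    refine hU ?_
    filter_upwards [eventually_gt_atTop i] with j hj
    exact ⟨trivial, hj.ne'⟩
  obtain ⟨M, hM⟩ := exists_nat_gt ((K * ‖ξ‖) ^ q / (l / 2))
  obtain ⟨S, -, -, -, h5, -⟩ := L.select hq (hyperfilter ℕ) (fun i => Φ (f i) ξ) (K * ‖ξ‖) hb
    (fun k => (hcoord k).mono_left hU) l hl2 hl0 (fun _ _ => True) (fun _ => True) hne (Eventually.of_forall fun _ => trivial) M
  have h6 := hsum S (fun _ => 1) (fun _ => by simp)
  simp only [one_smul] at h6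
  have h7 := Real.rpow_le_rpow (norm_nonneg _) h6 hq0.le
  rw [div_lt_iff₀ (by positivity)] at hM
  linarith

theorem exists_signs {ι κ : Type} (T : Finset ι) (S : Finset κ) (w : ι → κ → ℂ) :
    ∃ ε : ι → ℝ, (∀ i, ε i = 1 ∨ ε i = -1) ∧
      ∑ k ∈ S, ‖∑ i ∈ T, (ε i : ℂ) * w i k‖ ^ 2 ≤ ∑ k ∈ S, ∑ i ∈ T, ‖w i k‖ ^ 2 := by
  classical
  induction T using Finset.induction_on with
  | empty => exact ⟨fun _ => 1, fun _ => Or.inl rfl, by simp⟩
  | insert a T ha ih =>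
    obtain ⟨ε, hε, h1⟩ := ih
    have hpar : ∀ k, ‖∑ i ∈ T, (ε i : ℂ) * w i k + w a k‖ ^ 2 + ‖∑ i ∈ T, (ε i : ℂ) * w i k - w a k‖ ^ 2 =
        2 * (‖∑ i ∈ T, (ε i : ℂ) * w i k‖ ^ 2 + ‖w a k‖ ^ 2) := by
      intro k
      exact parallelogram_law_with_norm ℝ (∑ i ∈ T, (ε i : ℂ) * w i k) (w a k)
    have hpar2 : ∑ k ∈ S, ‖∑ i ∈ T, (ε i : ℂ) * w i k + w a k‖ ^ 2 + ∑ k ∈ S, ‖∑ i ∈ T, (ε i : ℂ) * w i k - w a k‖ ^ 2 =
        2 * (∑ k ∈ S, ‖∑ i ∈ T, (ε i : ℂ) * w i k‖ ^ 2 + ∑ k ∈ S, ‖w a k‖ ^ 2) := by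
      rw [← Finset.sum_add_distrib, ← Finset.sum_add_distrib, Finset.mul_sum]
      exact Finset.sum_congr rfl fun k _ => hpar k
    have hsplit : ∑ k ∈ S, ∑ i ∈ insert a T, ‖w i k‖ ^ 2 = ∑ k ∈ S, ‖w a k‖ ^ 2 + ∑ k ∈ S, ∑ i ∈ T, ‖w i k‖ ^ 2 := by
      rw [← Finset.sum_add_distrib]
      exact Finset.sum_congr rfl fun k _ => Finset.sum_insert ha
    have hupd : ∀ (s : ℝ) (k : κ), ∑ i ∈ insert a T, ((Function.update ε a s i : ℝ) : ℂ) * w i k =
        s * w a k + ∑ i ∈ T, (ε i : ℂ) * w i k := by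
      intro s k
      rw [Finset.sum_insert ha, Function.update_self]
      congr 1
      refine Finset.sum_congr rfl fun i hi => ?_
      have hne : i ≠ a := fun h => ha (h ▸ hi)
      rw [Function.update_of_ne hne]
    have hpm : ∀ (s : ℝ), (s = 1 ∨ s = -1) → ∀ i, Function.update ε a s i = 1 ∨ Function.update ε a s i = -1 := by
      intro s hs i
      by_cases h : i = a
      · rw [h, Function.update_self]; exact hs
      · rw [Function.update_of_ne h]; exact hε i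
    rw [hsplit]
    by_cases hc : ∑ k ∈ S, ‖∑ i ∈ T, (ε i : ℂ) * w i k + w a k‖ ^ 2 ≤
        ∑ k ∈ S, ‖∑ i ∈ T, (ε i : ℂ) * w i k‖ ^ 2 + ∑ k ∈ S, ‖w a k‖ ^ 2
    · refine ⟨Function.update ε a 1, hpm 1 (Or.inl rfl), ?_⟩
      simp only [hupd]
      have h2 : ∀ k, ((1 : ℝ) : ℂ) * w a k + ∑ i ∈ T, (ε i : ℂ) * w i k = ∑ i ∈ T, (ε i : ℂ) * w i k + w a k := by
        intro k; push_cast; ring
      simp only [h2]
      linarith
    · refine ⟨Function.update ε a (-1), hpm (-1) (Or.inr rfl), ?_⟩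
      simp only [hupd]
      have h2 : ∀ k, ((-1 : ℝ) : ℂ) * w a k + ∑ i ∈ T, (ε i : ℂ) * w i k = ∑ i ∈ T, (ε i : ℂ) * w i k - w a k := by
        intro k; push_cast; ring
      simp only [h2]
      push Not at hc
      linarith

/-- real functions as complex functions -/
noncomputable def cs (s : C(X, ℝ)) : C(X, ℂ) := ⟨fun x => (s x : ℂ), Complex.continuous_ofReal.comp s.continuous⟩

@[simp] theorem cs_apply (s : C(X, ℝ)) (x : X) : cs s x = (s x : ℂ) := rfl

/-- the cut-off function of an annulus -/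
noncomputable def cut (z : X) (t t' : ℝ) : C(X, ℝ) :=
  ⟨fun x => max 0 (min 1 ((t' - dist x z) / (t' - t))), by fun_prop⟩

theorem cut_nonneg (z : X) (t t' : ℝ) (x : X) : 0 ≤ cut z t t' x := le_max_left _ _

theorem cut_le_one (z : X) (t t' : ℝ) (x : X) : cut z t t' x ≤ 1 :=
  max_le zero_le_one (min_le_left _ _)

theorem cut_eq_one (z : X) (t t' : ℝ) (h : t < t') (x : X) (hx : dist x z ≤ t) : cut z t t' x = 1 := by
  change max 0 (min 1 ((t' - dist x z) / (t' - t))) = 1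
  rw [min_eq_left, max_eq_right zero_le_one]
  rw [le_div_iff₀ (by linarith)]
  linarith

theorem cut_eq_zero (z : X) (t t' : ℝ) (h : t < t') (x : X) (hx : t' ≤ dist x z) : cut z t t' x = 0 := by
  change max 0 (min 1 ((t' - dist x z) / (t' - t))) = 0
  apply max_eq_left
  apply (min_le_right _ _).trans
  exact div_nonpos_of_nonpos_of_nonneg (by linarith) (by linarith)

include hK L in
theorem exists_annulus (hq : 1 ≤ q) (hK0 : 0 ≤ K) (z : X) (r : ℝ) (hr : 0 < r) (δ : ℝ) (hδ : 0 < δ) :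
    ∃ t t' : ℝ, r < t ∧ t < t' ∧ t' ≤ 2 * r ∧ Small Φ ξ {x | t < dist x z ∧ dist x z < t'} δ := by
  obtain ⟨n, hn⟩ := exists_small L Φ K hK ξ hq hK0
    (fun n : ℕ => {x | r * (1 + 1 / ((n : ℝ) + 2)) < dist x z ∧ dist x z < r * (1 + 1 / ((n : ℝ) + 1))}) (by
      have key : ∀ i j : ℕ, i < j → r * (1 + 1 / ((j : ℝ) + 1)) ≤ r * (1 + 1 / ((i : ℝ) + 2)) := by
        intro i j hij
        apply mul_le_mul_of_nonneg_left _ hr.le
        have : (i : ℝ) + 1 ≤ j := by exact_mod_cast hij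
        have := one_div_le_one_div_of_le (show (0:ℝ) < (i : ℝ) + 2 by positivity) (show (i : ℝ) + 2 ≤ (j : ℝ) + 1 by linarith)
        linarith
      intro i j hij
      rw [Set.disjoint_left]
      rintro x ⟨h1, h2⟩ ⟨h3, h4⟩
      rcases lt_or_gt_of_ne hij with h | h
      · have := key i j h
        linarith
      · have := key j i h
        linarith) δ hδ
  refine ⟨r * (1 + 1 / ((n : ℝ) + 2)), r * (1 + 1 / ((n : ℝ) + 1)), ?_, ?_, ?_, hn⟩
  · have : 0 < 1 / ((n : ℝ) + 2) := by positivity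
    nlinarith
  · apply mul_lt_mul_of_pos_left _ hr
    have := one_div_lt_one_div_of_lt (show (0:ℝ) < (n : ℝ) + 1 by positivity) (show (n : ℝ) + 1 < (n : ℝ) + 2 by linarith)
    linarith
  · have : 1 / ((n : ℝ) + 1) ≤ 1 := by
      rw [div_le_one (by positivity)]
      linarith [(Nat.cast_nonneg n : (0:ℝ) ≤ n)]
    nlinarith

include hK in
theorem step (hq : 1 ≤ q) (hK0 : 0 ≤ K) (hna : ∀ x : X, ∀ δ > 0, ∃ V ∈ 𝓝 x, Small Φ ξ V δ)
    (g : C(X, ℂ)) (hg : ‖g‖ ≤ 1) (S : Finset ℤ) (η : ℝ) (hη : 0 < η) (α β : ℝ) (hα : 0 < α) (hβ : 0 < β)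
    (hαβ : α ^ 2 + β ^ 2 = 1) :
    ∃ (s : C(X, ℝ)) (m : C(X, ℂ)), (∀ x, |s x| ≤ 1) ∧ (∀ x, ‖m x‖ = 1) ∧
      (∀ k ∈ S, ‖L.c k (Φ (cs s * g) ξ)‖ ≤ η) ∧ ‖Φ ((1 - cs s * cs s) * g) ξ‖ ≤ η ∧
      ‖Φ ((m - ((α : ℂ) • 1 + (Complex.I * β) • cs s)) * g) ξ‖ ≤ η := by
  classical
  set δ1 : ℝ := η ^ 2 / (((S.card : ℝ) + 1) * (K * ‖ξ‖ + 1)) with hδ1
  have hKξ : 0 ≤ K * ‖ξ‖ := by positivity
  have hδ1pos : 0 < δ1 := by positivity
  have h1 : ∀ x : X, ∃ r > 0, Small Φ ξ (Metric.ball x (2 * r)) δ1 := by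
    intro x
    obtain ⟨V, hV, hs⟩ := hna x δ1 hδ1pos
    obtain ⟨ε, hε, hb⟩ := Metric.mem_nhds_iff.1 hV
    refine ⟨ε / 2, by positivity, fun f hf hf1 => hs f (fun y hy => hf y fun h => hy (hb ?_)) hf1⟩
    rwa [mul_div_cancel₀ _ (two_ne_zero)] at h
  choose r hr hrs using h1
  obtain ⟨t, -, ht⟩ := isCompact_univ.elim_nhds_subcover (fun x => Metric.ball x (r x)) (fun x _ => Metric.ball_mem_nhds x (hr x))
  set D := t.card with hD
  let e : Fin D ≃ t := t.equivFin.symm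
  let z : Fin D → X := fun i => (e i).1
  set δ2 : ℝ := η / (2 * (D : ℝ) ^ 2 + 1) with hδ2
  have hδ2pos : 0 < δ2 := by positivity
  choose a a' ha1 ha2 ha3 ha4 using fun i : Fin D => exists_annulus L Φ K hK ξ hq hK0 (z i) (r (z i)) (hr _) δ2 hδ2pos
  let χ : Fin D → C(X, ℝ) := fun i => cut (z i) (a i) (a' i)
  have hχ0 : ∀ i x, 0 ≤ χ i x := fun i x => cut_nonneg _ _ _ _
  have hχ1 : ∀ i x, χ i x ≤ 1 := fun i x => cut_le_one _ _ _ _
  let f : Fin D → C(X, ℝ) := fun i => χ i * ∏ j ∈ Finset.univ.filter (fun j => j < i), (1 - χ j)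
  have hfx : ∀ i x, f i x = χ i x * ∏ j ∈ Finset.univ.filter (fun j => j < i), (1 - χ j x) := by
    intro i x
    simp only [f, ContinuousMap.mul_apply, ContinuousMap.prod_apply, ContinuousMap.sub_apply, ContinuousMap.one_apply]
  have hf0 : ∀ i x, 0 ≤ f i x := by
    intro i x
    rw [hfx]
    exact mul_nonneg (hχ0 i x) (Finset.prod_nonneg fun j _ => by linarith [hχ1 j x])
  have hfsum : ∀ x, ∑ i, f i x = 1 := by
    intro x
    have h2 := Finset.prod_one_sub_ordered (Finset.univ : Finset (Fin D)) (fun i => χ i x)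
    have h3 : ∏ i : Fin D, (1 - χ i x) = 0 := by
      obtain ⟨y, hy, hxy⟩ := Set.mem_iUnion₂.1 (ht (Set.mem_univ x))
      refine Finset.prod_eq_zero (Finset.mem_univ (e.symm ⟨y, hy⟩)) ?_
      have hz : z (e.symm ⟨y, hy⟩) = y := by simp [z]
      have : χ (e.symm ⟨y, hy⟩) x = 1 := by
        apply cut_eq_one _ _ _ (ha2 _)
        have h5 := ha1 (e.symm ⟨y, hy⟩)
        rw [hz] at h5 ⊢
        rw [Metric.mem_ball] at hxy
        linarith
      rw [this, sub_self]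
    rw [h3] at h2
    simp only [hfx]
    linarith
  have hf1 : ∀ i x, f i x ≤ 1 := by
    intro i x
    rw [← hfsum x]
    exact Finset.single_le_sum (f := fun i => f i x) (fun j _ => hf0 j x) (Finset.mem_univ i)
  -- cells
  have hcellnorm : ∀ i, ‖cs (f i) * g‖ ≤ 1 := by
    intro i
    rw [ContinuousMap.norm_le _ zero_le_one]
    intro x
    rw [ContinuousMap.mul_apply, norm_mul, cs_apply, Complex.norm_real, Real.norm_of_nonneg (hf0 i x)]
    exact mul_le_one₀ (hf1 i x) (norm_nonneg _) ((g.norm_coe_le_norm x).trans hg)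
  have hcell : ∀ i, ‖Φ (cs (f i) * g) ξ‖ ≤ δ1 := by
    intro i
    refine hrs (z i) _ (fun x hx => ?_) (hcellnorm i)
    have h5 : χ i x = 0 := by
      apply cut_eq_zero _ _ _ (ha2 _)
      rw [Metric.mem_ball, not_lt] at hx
      exact (ha3 i).trans hx
    rw [ContinuousMap.mul_apply, cs_apply, hfx, h5, zero_mul, Complex.ofReal_zero, zero_mul]
  obtain ⟨ε, hε, hsg⟩ := exists_signs (Finset.univ : Finset (Fin D)) S (fun i k => L.c k (Φ (cs (f i) * g) ξ))
  let s : C(X, ℝ) := ∑ i, ε i • f i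
  have hsx : ∀ x, s x = ∑ i, ε i * f i x := by
    intro x
    simp only [s, ContinuousMap.sum_apply, ContinuousMap.smul_apply, smul_eq_mul]
  have hεabs : ∀ i, |ε i| = 1 := by
    intro i
    rcases hε i with h | h <;> rw [h] <;> simp
  have hs1 : ∀ x, |s x| ≤ 1 := by
    intro x
    rw [hsx, ← hfsum x]
    refine (Finset.abs_sum_le_sum_abs _ _).trans (Finset.sum_le_sum fun i _ => ?_)
    rw [abs_mul, hεabs, one_mul, abs_of_nonneg (hf0 i x)]
  have hsq : ∀ x, s x ^ 2 ≤ 1 := fun x => by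
    have := hs1 x
    rw [← sq_abs]
    nlinarith [abs_nonneg (s x)]
  -- the error terms
  have hH : ∀ w : C(X, ℂ), ‖w‖ ≤ 1 → ‖Φ ((1 - cs s * cs s) * w) ξ‖ ≤ η := by
    intro w hw
    have hdec : (1 - cs s * cs s) * w = ∑ i, ∑ j, (((1 - ε i * ε j : ℝ) : ℂ) • (cs (f i) * cs (f j))) * w := by
      ext x
      simp only [ContinuousMap.mul_apply, ContinuousMap.sub_apply, ContinuousMap.one_apply, cs_apply,
        ContinuousMap.sum_apply, ContinuousMap.smul_apply, smul_eq_mul]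
      have h5 : (1 : ℝ) - s x * s x = ∑ i, ∑ j, (1 - ε i * ε j) * (f i x * f j x) := by
        have h6 : (1 : ℝ) = (∑ i, f i x) * (∑ j, f j x) := by rw [hfsum]; ring
        rw [hsx]
        nth_rewrite 1 [h6]
        rw [Finset.sum_mul_sum, Finset.sum_mul_sum, ← Finset.sum_sub_distrib]
        refine Finset.sum_congr rfl fun i _ => ?_
        rw [← Finset.sum_sub_distrib]
        refine Finset.sum_congr rfl fun j _ => ?_
        ring
      have h7 : (1 : ℂ) - (s x : ℂ) * (s x : ℂ) = ((1 - s x * s x : ℝ) : ℂ) := by push_cast; ring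
      rw [h7, h5]
      push_cast
      rw [Finset.sum_mul]
      refine Finset.sum_congr rfl fun i _ => ?_
      rw [Finset.sum_mul]
    rw [hdec, map_sum, sum_apply]
    have hterm : ∀ i j, ‖Φ ((((1 - ε i * ε j : ℝ) : ℂ) • (cs (f i) * cs (f j))) * w) ξ‖ ≤ 2 * δ2 := by
      intro i j
      by_cases hij : i = j
      · have : 1 - ε i * ε j = 0 := by
          rw [hij]
          rcases hε j with h | h <;> rw [h] <;> norm_num
        rw [this]
        simp
        positivity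
      · have h8 : ‖(((1 - ε i * ε j : ℝ) : ℂ) • (cs (f i) * cs (f j))) * w‖ ≤ 2 := by
          rw [ContinuousMap.norm_le _ zero_le_two]
          intro x
          simp only [ContinuousMap.mul_apply, ContinuousMap.smul_apply, smul_eq_mul, norm_mul, cs_apply,
            Complex.norm_real]
          have h9 : ‖(1 - ε i * ε j : ℝ)‖ ≤ 2 := by
            rcases hε i with h | h <;> rcases hε j with h' | h' <;> rw [h, h'] <;> norm_num
          have h10 : ‖f i x‖ ≤ 1 := by rw [Real.norm_of_nonneg (hf0 i x)]; exact hf1 i x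
          have h11 : ‖f j x‖ ≤ 1 := by rw [Real.norm_of_nonneg (hf0 j x)]; exact hf1 j x
          have h12 : ‖w x‖ ≤ 1 := (w.norm_coe_le_norm x).trans hw
          calc ‖(1 - ε i * ε j : ℝ)‖ * (‖f i x‖ * ‖f j x‖) * ‖w x‖ ≤ 2 * (1 * 1) * 1 := by gcongr
            _ = 2 := by norm_num
        have h13 : ∀ (i j : Fin D), i < j → ∀ x, x ∉ {x | a i < dist x (z i) ∧ dist x (z i) < a' i} → f i x * f j x = 0 := by
          intro i j hij x hx
          by_cases h14 : dist x (z i) ≤ a i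
          · have h15 : χ i x = 1 := cut_eq_one _ _ _ (ha2 i) x h14
            have h16 : f j x = 0 := by
              rw [hfx, Finset.prod_eq_zero (i := i) (by simp [hij]) (by rw [h15, sub_self]), mul_zero]
            rw [h16, mul_zero]
          · have h15 : a' i ≤ dist x (z i) := by
              by_contra h17
              exact hx ⟨not_le.1 h14, not_le.1 h17⟩
            have h16 : χ i x = 0 := cut_eq_zero _ _ _ (ha2 i) x h15
            rw [hfx i, h16, zero_mul, zero_mul]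
        rcases lt_or_gt_of_ne hij with hlt | hlt
        · refine (ha4 i).bound _ (fun x hx => ?_) two_pos h8
          have h14 : ((f i x : ℝ) : ℂ) * (f j x : ℂ) = 0 := by
            rw [← Complex.ofReal_mul, h13 i j hlt x hx, Complex.ofReal_zero]
          simp only [ContinuousMap.mul_apply, ContinuousMap.smul_apply, smul_eq_mul, cs_apply]
          rw [h14, mul_zero, zero_mul]
        · refine (ha4 j).bound _ (fun x hx => ?_) two_pos h8
          have h14 : ((f i x : ℝ) : ℂ) * (f j x : ℂ) = 0 := by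
            rw [← Complex.ofReal_mul, mul_comm (f i x), h13 j i hlt x hx, Complex.ofReal_zero]
          simp only [ContinuousMap.mul_apply, ContinuousMap.smul_apply, smul_eq_mul, cs_apply]
          rw [h14, mul_zero, zero_mul]
    calc ‖∑ i, Φ (∑ j, (((1 - ε i * ε j : ℝ) : ℂ) • (cs (f i) * cs (f j))) * w) ξ‖
        ≤ ∑ i : Fin D, ∑ j : Fin D, 2 * δ2 := by
          refine (norm_sum_le _ _).trans (Finset.sum_le_sum fun i _ => ?_)
          rw [map_sum, sum_apply]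
          exact (norm_sum_le _ _).trans (Finset.sum_le_sum fun j _ => hterm i j)
      _ = (2 * (D : ℝ) ^ 2) * δ2 := by
          simp only [Finset.sum_const, Finset.card_univ, Fintype.card_fin, nsmul_eq_mul]
          ring
      _ ≤ (2 * (D : ℝ) ^ 2 + 1) * δ2 := by nlinarith
      _ = η := by rw [hδ2, mul_div_cancel₀]; positivity
  -- the unimodular function
  have hρpos : ∀ x, 0 < Real.sqrt (α ^ 2 + β ^ 2 * s x ^ 2) := fun x => Real.sqrt_pos.2 (by positivity)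
  let ρ : C(X, ℝ) := ⟨fun x => Real.sqrt (α ^ 2 + β ^ 2 * s x ^ 2), by fun_prop⟩
  have hρx : ∀ x, ρ x = Real.sqrt (α ^ 2 + β ^ 2 * s x ^ 2) := fun x => rfl
  have hρ0 : ∀ x, 0 < ρ x := hρpos
  have hρsq : ∀ x, ρ x ^ 2 = α ^ 2 + β ^ 2 * s x ^ 2 := fun x => Real.sq_sqrt (by positivity)
  have hnum : ∀ x, ‖((α : ℂ) + Complex.I * β * s x)‖ = ρ x := by
    intro x
    rw [hρx, show ((α : ℂ) + Complex.I * β * s x) = ((α : ℝ) : ℂ) + ((β * s x : ℝ) : ℂ) * Complex.I by push_cast; ring,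
      Complex.norm_add_mul_I]
    congr 1
    ring
  let m : C(X, ℂ) := ⟨fun x => ((α : ℂ) + Complex.I * β * s x) / (ρ x : ℂ), by
    refine Continuous.div (by fun_prop) (by fun_prop) fun x => ?_
    exact_mod_cast (hρ0 x).ne'⟩
  have hmx : ∀ x, m x = ((α : ℂ) + Complex.I * β * s x) / (ρ x : ℂ) := fun x => rfl
  let R : C(X, ℂ) := ⟨fun x => (β : ℂ) ^ 2 * ((α : ℂ) + Complex.I * β * s x) / ((ρ x : ℂ) * (1 + ρ x)), by
    refine Continuous.div (by fun_prop) (by fun_prop) fun x => ?_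
    have h1 := hρ0 x
    have h2 : (ρ x) * (1 + ρ x) ≠ 0 := by positivity
    exact_mod_cast h2⟩
  have hRx : ∀ x, R x = (β : ℂ) ^ 2 * ((α : ℂ) + Complex.I * β * s x) / ((ρ x : ℂ) * (1 + ρ x)) := fun x => rfl
  have hR1 : ‖R * g‖ ≤ 1 := by
    rw [ContinuousMap.norm_le _ zero_le_one]
    intro x
    rw [ContinuousMap.mul_apply, norm_mul]
    refine mul_le_one₀ ?_ (norm_nonneg _) ((g.norm_coe_le_norm x).trans hg)
    rw [hRx, norm_div, norm_mul, hnum, norm_mul, norm_pow, Complex.norm_real, Complex.norm_real,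
      Real.norm_of_nonneg hβ.le, Real.norm_of_nonneg (hρ0 x).le,
      show (1 + (ρ x : ℂ)) = ((1 + ρ x : ℝ) : ℂ) by push_cast; ring, Complex.norm_real,
      Real.norm_of_nonneg (by linarith [hρ0 x])]
    rw [div_le_one (mul_pos (hρ0 x) (by linarith [hρ0 x]))]
    have h5 : β ^ 2 ≤ 1 := by nlinarith
    nlinarith [hρ0 x]
  refine ⟨s, m, hs1, ?_, ?_, hH g hg, ?_⟩
  · intro x
    rw [hmx, norm_div, hnum, Complex.norm_real, Real.norm_of_nonneg (hρ0 x).le, div_self (hρ0 x).ne']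
  · intro k hk
    have hlin : L.c k (Φ (cs s * g) ξ) = ∑ i, (ε i : ℂ) * L.c k (Φ (cs (f i) * g) ξ) := by
      have h5 : cs s * g = ∑ i, (ε i : ℂ) • (cs (f i) * g) := by
        ext x
        simp only [ContinuousMap.mul_apply, cs_apply, ContinuousMap.sum_apply, ContinuousMap.smul_apply, smul_eq_mul]
        rw [hsx]
        push_cast
        rw [Finset.sum_mul]
        refine Finset.sum_congr rfl fun i _ => ?_
        ring
      rw [h5, map_sum, sum_apply, map_sum]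
      refine Finset.sum_congr rfl fun i _ => ?_
      rw [map_smul, smul_apply, map_smul, smul_eq_mul]
    have hcol : ∀ k, ∑ i, ‖L.c k (Φ (cs (f i) * g) ξ)‖ ≤ K * ‖ξ‖ := by
      intro k
      choose τ hτ1 hτ2 using fun i => exists_phase (L.c k (Φ (cs (f i) * g) ξ))
      have h5 : ‖∑ i, τ i • (cs (f i) * g)‖ ≤ 1 := by
        rw [ContinuousMap.norm_le _ zero_le_one]
        intro x
        rw [ContinuousMap.sum_apply, ← hfsum x]
        refine (norm_sum_le _ _).trans (Finset.sum_le_sum fun i _ => ?_)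
        simp only [ContinuousMap.smul_apply, ContinuousMap.mul_apply, smul_eq_mul, norm_mul, cs_apply, hτ1, one_mul,
          Complex.norm_real, Real.norm_of_nonneg (hf0 i x)]
        exact mul_le_of_le_one_right (hf0 i x) ((g.norm_coe_le_norm x).trans hg)
      have h6 := Phi_le Φ K hK _ 1 h5 hK0 ξ
      rw [mul_one] at h6
      have h7 := (L.c_le hq k _).trans h6
      have h8 : L.c k (Φ (∑ i, τ i • (cs (f i) * g)) ξ) = ((∑ i, ‖L.c k (Φ (cs (f i) * g) ξ)‖ : ℝ) : ℂ) := by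
        rw [map_sum, sum_apply, map_sum, Complex.ofReal_sum]
        refine Finset.sum_congr rfl fun i _ => ?_
        rw [map_smul, smul_apply, map_smul, smul_eq_mul, hτ2]
      rw [h8, Complex.norm_real, Real.norm_of_nonneg (Finset.sum_nonneg fun _ _ => norm_nonneg _)] at h7
      exact h7
    have htot : ‖L.c k (Φ (cs s * g) ξ)‖ ^ 2 ≤ η ^ 2 := by
      calc ‖L.c k (Φ (cs s * g) ξ)‖ ^ 2 ≤ ∑ k ∈ S, ‖∑ i, (ε i : ℂ) * L.c k (Φ (cs (f i) * g) ξ)‖ ^ 2 := by
            rw [hlin]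
            exact Finset.single_le_sum (f := fun k => ‖∑ i, (ε i : ℂ) * L.c k (Φ (cs (f i) * g) ξ)‖ ^ 2)
              (fun _ _ => by positivity) hk
        _ ≤ ∑ k ∈ S, ∑ i, ‖L.c k (Φ (cs (f i) * g) ξ)‖ ^ 2 := hsg
        _ ≤ ∑ k ∈ S, δ1 * (K * ‖ξ‖) := by
            refine Finset.sum_le_sum fun k _ => ?_
            calc ∑ i, ‖L.c k (Φ (cs (f i) * g) ξ)‖ ^ 2 ≤ ∑ i, δ1 * ‖L.c k (Φ (cs (f i) * g) ξ)‖ := by
                  refine Finset.sum_le_sum fun i _ => ?_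
                  rw [sq]
                  exact mul_le_mul_of_nonneg_right ((L.c_le hq k _).trans (hcell i)) (norm_nonneg _)
              _ = δ1 * ∑ i, ‖L.c k (Φ (cs (f i) * g) ξ)‖ := by rw [Finset.mul_sum]
              _ ≤ _ := mul_le_mul_of_nonneg_left (hcol k) hδ1pos.le
        _ = δ1 * ((S.card : ℝ) * (K * ‖ξ‖)) := by
            rw [Finset.sum_const, nsmul_eq_mul]; ring
        _ ≤ δ1 * (((S.card : ℝ) + 1) * (K * ‖ξ‖ + 1)) := by
            apply mul_le_mul_of_nonneg_left _ hδ1pos.le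
            have : (0 : ℝ) ≤ S.card := Nat.cast_nonneg _
            nlinarith
        _ = η ^ 2 := by rw [hδ1, div_mul_cancel₀]; positivity
    exact (abs_le_of_sq_le_sq' htot hη.le).2
  · have h5 : (m - ((α : ℂ) • 1 + (Complex.I * β) • cs s)) * g = (1 - cs s * cs s) * (R * g) := by
      ext x
      simp only [ContinuousMap.mul_apply, ContinuousMap.sub_apply, ContinuousMap.add_apply, ContinuousMap.smul_apply,
        ContinuousMap.one_apply, smul_eq_mul, cs_apply, mul_one]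
      rw [hmx, hRx]
      have h6 : (ρ x : ℂ) ≠ 0 := by exact_mod_cast (hρ0 x).ne'
      have h7 : (1 + (ρ x : ℂ)) ≠ 0 := by
        have : 1 + ρ x ≠ 0 := by linarith [hρ0 x]
        exact_mod_cast this
      have h8 : (ρ x : ℂ) ^ 2 = (α : ℂ) ^ 2 + (β : ℂ) ^ 2 * (s x : ℂ) ^ 2 := by
        have := hρsq x
        exact_mod_cast this
      have h9 : (α : ℂ) ^ 2 + (β : ℂ) ^ 2 = 1 := by exact_mod_cast hαβ
      have h10 : (β : ℂ) ^ 2 * (1 - (s x : ℂ) * s x) = (1 - (ρ x : ℂ)) * (1 + ρ x) := by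
        linear_combination h9 + h8
      have h11 : ((α : ℂ) + Complex.I * β * s x) / (ρ x : ℂ) - (α + Complex.I * β * s x) =
          (1 - (s x : ℂ) * s x) * ((β : ℂ) ^ 2 * ((α : ℂ) + Complex.I * β * s x) / ((ρ x : ℂ) * (1 + ρ x))) := by
        rw [mul_div_assoc', eq_div_iff (mul_ne_zero h6 h7)]
        rw [show (1 - (s x : ℂ) * s x) * ((β : ℂ) ^ 2 * ((α : ℂ) + Complex.I * β * s x)) =
          ((β : ℂ) ^ 2 * (1 - (s x : ℂ) * s x)) * ((α : ℂ) + Complex.I * β * s x) by ring, h10]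
        field_simp
      rw [← mul_assoc, ← h11]
    rw [h5]
    exact hH _ hR1

end

end Pool.Agent.H636R3.Lx
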