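import Mathlib
import Pool.Agent.H636R3.LxDiff

/-! Existence of atoms and of joint eigenvectors. -/

set_option autoImplicit false
set_option linter.unusedSectionVars false
open scoped Topology
open Filter

namespace Pool.Agent.H636R3.Lx

variable {X : Type} [MetricSpace X] [CompactSpace X]
variable {q : ℝ} {E : Type} [NormedAddCommGroup E] [NormedSpace ℂ E]
variable (L : EllQ q E) (Φ : C(X, ℂ) →ₙₐ[ℂ] (E →L[ℂ] E)) (K : ℝ) (hK : ∀ f, ‖Φ f‖ ≤ K * ‖f‖) (ξ : E)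

theorem exists_beta (r c : ℝ) (hr : 0 < r) (hc : 0 < c) : ∃ b : ℝ, 0 < b ∧ b < 1 ∧ b ^ r < c := by
  have h1 : 0 < (c / 2) ^ (1 / r) := by positivity
  refine ⟨min (1 / 2) ((c / 2) ^ (1 / r)), lt_min (by norm_num) h1, lt_of_le_of_lt (min_le_left _ _) (by norm_num), ?_⟩
  calc (min (1 / 2) ((c / 2) ^ (1 / r))) ^ r ≤ ((c / 2) ^ (1 / r)) ^ r :=
        Real.rpow_le_rpow (le_min (by norm_num) h1.le) (min_le_right _ _) hr.le
    _ = c / 2 := by rw [← Real.rpow_mul (by positivity), one_div_mul_cancel hr.ne', Real.rpow_one]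
    _ < c := by linarith

theorem uni_norm (g : C(X, ℂ)) (hg : ∀ x, ‖g x‖ = 1) : ‖g‖ ≤ 1 := by
  rw [ContinuousMap.norm_le _ zero_le_one]
  exact fun x => (hg x).le

include hK L in
/-- the limit computation -/
theorem limit_step (hq : 1 ≤ q) (hK0 : 0 < K) (hna : ∀ x : X, ∀ δ > 0, ∃ V ∈ 𝓝 x, Small Φ ξ V δ)
    (g : C(X, ℂ)) (hg : ∀ x, ‖g x‖ = 1) (α β : ℝ) (hα : 0 < α) (hβ : 0 < β)
    (hαβ : α ^ 2 + β ^ 2 = 1) :
    ∃ (m : ℕ → C(X, ℂ)) (l : ℝ), (∀ n x, ‖m n x‖ = 1) ∧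
      Tendsto (fun n => ‖Φ (m n * g) ξ‖ ^ q) (hyperfilter ℕ : Filter ℕ) (𝓝 (α ^ q * ‖Φ g ξ‖ ^ q + β ^ q * l)) ∧
      (‖Φ g ξ‖ / K) ^ q ≤ l ∧ l ≤ (K * ‖Φ g ξ‖) ^ q := by
  have hq0 : 0 < q := by linarith
  have hg1 : ‖g‖ ≤ 1 := uni_norm g hg
  choose s m hs hm h1 h2 h3 using fun n : ℕ => step L Φ K hK ξ hq hK0.le hna g hg1
    (Finset.Icc (-(n : ℤ)) n) (1 / ((n : ℝ) + 1)) (by positivity) α β hα hβ hαβ
  have hU : (hyperfilter ℕ : Filter ℕ) ≤ atTop := by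
    rw [← Nat.cofinite_eq_atTop]; exact hyperfilter_le_cofinite
  have hcs : ∀ n, ‖cs (s n)‖ ≤ 1 := by
    intro n
    rw [ContinuousMap.norm_le _ zero_le_one]
    intro x
    rw [cs_apply, Complex.norm_real]
    exact hs n x
  have hy : ∀ n, ‖Φ (cs (s n) * g) ξ‖ ≤ K * ‖Φ g ξ‖ := by
    intro n
    rw [map_mul]
    have := Phi_le Φ K hK _ 1 (hcs n) hK0.le (Φ g ξ)
    rwa [mul_one] at this
  have hone : Tendsto (fun n : ℕ => 1 / ((n : ℝ) + 1)) (hyperfilter ℕ : Filter ℕ) (𝓝 0) :=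
    tendsto_one_div_add_atTop_nhds_zero_nat.mono_left hU
  obtain ⟨l, hl, hl2⟩ := ultra_lim (hyperfilter ℕ) (fun n => ‖Φ (cs (s n) * g) ξ‖ ^ q) 0 ((K * ‖Φ g ξ‖) ^ q) (fun n =>
    ⟨Real.rpow_nonneg (norm_nonneg _) _, Real.rpow_le_rpow (norm_nonneg _) (hy n) hq0.le⟩)
  refine ⟨m, l, hm, ?_, ?_, hl.2⟩
  · -- Brezis–Lieb
    have hcoord : ∀ k, Tendsto (fun n => L.c k ((Complex.I * β) • Φ (cs (s n) * g) ξ)) (hyperfilter ℕ : Filter ℕ) (𝓝 0) := by
      intro k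
      have h4 : Tendsto (fun n => L.c k (Φ (cs (s n) * g) ξ)) (hyperfilter ℕ : Filter ℕ) (𝓝 0) := by
        rw [tendsto_zero_iff_norm_tendsto_zero]
        refine squeeze_zero' (Eventually.of_forall fun _ => norm_nonneg _) ?_ hone
        refine hU ?_
        filter_upwards [eventually_ge_atTop k.natAbs] with n hn
        exact h1 n k (Finset.mem_Icc.2 ⟨by omega, by omega⟩)
      have h5 := h4.const_mul (Complex.I * β)
      rw [mul_zero] at h5
      refine h5.congr fun n => ?_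
      rw [map_smul, smul_eq_mul]
    have hl3 : Tendsto (fun n => ‖(Complex.I * β) • Φ (cs (s n) * g) ξ‖ ^ q) (hyperfilter ℕ : Filter ℕ) (𝓝 (β ^ q * l)) := by
      refine (hl2.const_mul (β ^ q)).congr fun n => ?_
      rw [norm_smul, norm_mul, Complex.norm_I, one_mul, Complex.norm_real, Real.norm_of_nonneg hβ.le,
        Real.mul_rpow hβ.le (norm_nonneg _)]
    have h6 := L.brezis_lieb hq (hyperfilter ℕ) (fun n => (Complex.I * β) • Φ (cs (s n) * g) ξ) (β * (K * ‖Φ g ξ‖))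
      (fun n => by
        rw [norm_smul, norm_mul, Complex.norm_I, one_mul, Complex.norm_real, Real.norm_of_nonneg hβ.le]
        exact mul_le_mul_of_nonneg_left (hy n) hβ.le) hcoord _ hl3 ((α : ℂ) • Φ g ξ)
    rw [norm_smul, Complex.norm_real, Real.norm_of_nonneg hα.le, Real.mul_rpow hα.le (norm_nonneg _)] at h6
    -- compare with `Φ (m n * g) ξ`
    have h7 : ∀ n, ‖Φ (m n * g) ξ - ((α : ℂ) • Φ g ξ + (Complex.I * β) • Φ (cs (s n) * g) ξ)‖ ≤ 1 / ((n : ℝ) + 1) := by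
      intro n
      have h8 : Φ (m n * g) ξ - ((α : ℂ) • Φ g ξ + (Complex.I * β) • Φ (cs (s n) * g) ξ) =
          Φ ((m n - ((α : ℂ) • 1 + (Complex.I * β) • cs (s n))) * g) ξ := by
        rw [sub_mul, add_mul, smul_mul_assoc, smul_mul_assoc, one_mul, map_sub, map_add, map_smul, map_smul]
        rfl
      rw [h8]
      exact h3 n
    have h9 : Tendsto (fun n => ‖(α : ℂ) • Φ g ξ + (Complex.I * β) • Φ (cs (s n) * g) ξ‖) (hyperfilter ℕ : Filter ℕ)
        (𝓝 ((α ^ q * ‖Φ g ξ‖ ^ q + β ^ q * l) ^ (1 / q))) := by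
      refine (h6.rpow_const (p := 1 / q) (Or.inr (by positivity))).congr fun n => ?_
      rw [← Real.rpow_mul (norm_nonneg _), mul_one_div_cancel hq0.ne', Real.rpow_one]
    have h10 : Tendsto (fun n => ‖Φ (m n * g) ξ‖) (hyperfilter ℕ : Filter ℕ)
        (𝓝 ((α ^ q * ‖Φ g ξ‖ ^ q + β ^ q * l) ^ (1 / q))) := by
      have h11 : Tendsto (fun n => ‖Φ (m n * g) ξ‖ - ‖(α : ℂ) • Φ g ξ + (Complex.I * β) • Φ (cs (s n) * g) ξ‖)
          (hyperfilter ℕ : Filter ℕ) (𝓝 0) := by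
        rw [tendsto_zero_iff_norm_tendsto_zero]
        refine squeeze_zero (fun _ => norm_nonneg _) (fun n => ?_) hone
        exact (abs_norm_sub_norm_le _ _).trans (h7 n)
      have := h11.add h9
      rw [zero_add] at this
      refine this.congr fun n => ?_
      ring
    have h12 := h10.rpow_const (p := q) (Or.inr hq0.le)
    have hl0 : 0 ≤ l := hl.1
    rw [← Real.rpow_mul (by positivity), one_div_mul_cancel hq0.ne', Real.rpow_one] at h12
    exact h12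
  · -- lower bound for `l`
    have h4 : ∀ n : ℕ, ‖Φ g ξ‖ - 1 / ((n : ℝ) + 1) ≤ K * ‖Φ (cs (s n) * g) ξ‖ := by
      intro n
      have h5 : Φ g ξ = Φ (cs (s n)) (Φ (cs (s n) * g) ξ) + Φ ((1 - cs (s n) * cs (s n)) * g) ξ := by
        have h6 : g = cs (s n) * (cs (s n) * g) + (1 - cs (s n) * cs (s n)) * g := by ring
        nth_rewrite 1 [h6]
        rw [map_add, map_mul Φ (cs (s n)) (cs (s n) * g)]
        rfl
      have h7 : ‖Φ g ξ‖ ≤ ‖Φ (cs (s n)) (Φ (cs (s n) * g) ξ)‖ + ‖Φ ((1 - cs (s n) * cs (s n)) * g) ξ‖ := by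
        nth_rewrite 1 [h5]
        exact norm_add_le _ _
      have h8 := Phi_le Φ K hK _ 1 (hcs n) hK0.le (Φ (cs (s n) * g) ξ)
      rw [mul_one] at h8
      linarith [h2 n]
    have h9 : Tendsto (fun n => ‖Φ (cs (s n) * g) ξ‖) (hyperfilter ℕ : Filter ℕ) (𝓝 (l ^ (1 / q))) := by
      refine (hl2.rpow_const (p := 1 / q) (Or.inr (by positivity))).congr fun n => ?_
      rw [← Real.rpow_mul (norm_nonneg _), mul_one_div_cancel hq0.ne', Real.rpow_one]
    have h10 : ‖Φ g ξ‖ - 0 ≤ K * l ^ (1 / q) :=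
      le_of_tendsto_of_tendsto' (tendsto_const_nhds.sub hone) (h9.const_mul K) h4
    rw [sub_zero] at h10
    have h11 : ‖Φ g ξ‖ / K ≤ l ^ (1 / q) := by
      rw [div_le_iff₀ hK0]; linarith
    have h12 := Real.rpow_le_rpow (by positivity) h11 hq0.le
    rwa [← Real.rpow_mul hl.1, one_div_mul_cancel hq0.ne', Real.rpow_one] at h12

include hK L in
/-- atoms exist for `q ≠ 2` -/
theorem exists_atom (hq : 1 ≤ q) (hq2 : q ≠ 2) (hK0 : 0 < K) (hξ : Φ 1 ξ ≠ 0) :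
    ∃ x : X, ∃ δ > 0, ∀ V ∈ 𝓝 x, ¬ Small Φ ξ V δ := by
  by_contra hcon
  push Not at hcon
  have hna : ∀ x : X, ∀ δ > 0, ∃ V ∈ 𝓝 x, Small Φ ξ V δ := hcon
  have hq0 : 0 < q := by linarith
  let A : Set ℝ := {a | ∃ g : C(X, ℂ), (∀ x, ‖g x‖ = 1) ∧ a = ‖Φ g ξ‖}
  have hA1 : ‖Φ 1 ξ‖ ∈ A := ⟨1, fun x => by simp, rfl⟩
  have hAlow : ∀ a ∈ A, ‖Φ 1 ξ‖ / K ≤ a := by
    rintro a ⟨g, hg, rfl⟩
    rw [div_le_iff₀ hK0]
    have h1 : (1 : C(X, ℂ)) = star g * g := by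
      ext x
      simp only [ContinuousMap.one_apply, ContinuousMap.mul_apply, ContinuousMap.star_apply]
      rw [mul_comm]
      have := Complex.mul_conj (g x)
      rw [Complex.normSq_eq_norm_sq, hg x] at this
      simpa using this.symm
    have h2 : Φ 1 ξ = Φ (star g) (Φ g ξ) := by
      nth_rewrite 1 [h1]
      rw [map_mul]; rfl
    rw [h2]
    have h3 := Phi_le Φ K hK (star g) 1 (by
      rw [ContinuousMap.norm_le _ zero_le_one]
      intro x
      rw [ContinuousMap.star_apply, norm_star, hg x]) hK0.le (Φ g ξ)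
    rw [mul_one] at h3
    linarith
  have hAup : ∀ a ∈ A, a ≤ K * ‖ξ‖ := by
    rintro a ⟨g, hg, rfl⟩
    have := Phi_le Φ K hK g 1 (uni_norm g hg) hK0.le ξ
    rwa [mul_one] at this
  have hpos : 0 < ‖Φ 1 ξ‖ / K := div_pos (norm_pos_iff.2 hξ) hK0
  have hmul : ∀ (m g : C(X, ℂ)), (∀ x, ‖m x‖ = 1) → (∀ x, ‖g x‖ = 1) → ‖Φ (m * g) ξ‖ ∈ A := by
    intro m g hm hg
    exact ⟨m * g, fun x => by rw [ContinuousMap.mul_apply, norm_mul, hm, hg, mul_one], rfl⟩
  rcases lt_or_gt_of_ne hq2 with hlt | hgt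
  · -- q < 2 : supremum
    obtain ⟨β, hβ0, hβ1, hβ⟩ := exists_beta (2 - q) ((1 / K) ^ q) (by linarith) (by positivity)
    set α := Real.sqrt (1 - β ^ 2) with hα
    have hβ2 : β ^ 2 < 1 := by nlinarith
    have hα0 : 0 < α := Real.sqrt_pos.2 (by linarith)
    have hα2 : α ^ 2 = 1 - β ^ 2 := Real.sq_sqrt (by linarith)
    have hα1 : α ≤ 1 := by nlinarith
    have hαβ : α ^ 2 + β ^ 2 = 1 := by linarith
    have hc : 1 < α ^ q + β ^ q * (1 / K) ^ q := by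
      have h1 : α ^ (2:ℝ) ≤ α ^ q := Real.rpow_le_rpow_of_exponent_ge hα0 hα1 hlt.le
      have h2 : β ^ (2 : ℝ) = β ^ q * β ^ (2 - q) := by rw [← Real.rpow_add hβ0]; congr 1; ring
      have h3 : β ^ (2:ℝ) < β ^ q * (1 / K) ^ q := by
        rw [h2]; exact mul_lt_mul_of_pos_left hβ (by positivity)
      rw [Real.rpow_two] at h1 h3
      linarith
    set c := α ^ q + β ^ q * (1 / K) ^ q with hcdef
    have hsup : IsLUB A (sSup A) := isLUB_csSup ⟨_, hA1⟩ ⟨_, hAup⟩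
    have hσ0 : 0 < sSup A := lt_of_lt_of_le (norm_pos_iff.2 hξ) (hsup.1 hA1)
    have hkey : ∀ a ∈ A, c * a ^ q ≤ (sSup A) ^ q := by
      rintro a ⟨g, hg, rfl⟩
      obtain ⟨m, l, hm, hlim, hl1, hl2⟩ := limit_step L Φ K hK ξ hq hK0 hna g hg α β hα0 hβ0 hαβ
      have h4 : α ^ q * ‖Φ g ξ‖ ^ q + β ^ q * l ≤ (sSup A) ^ q := by
        refine le_of_tendsto' hlim fun n => ?_
        exact Real.rpow_le_rpow (norm_nonneg _) (hsup.1 (hmul _ _ (hm n) hg)) hq0.le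
      have h5 : (1 / K) ^ q * ‖Φ g ξ‖ ^ q ≤ l := by
        rw [← Real.mul_rpow (by positivity) (norm_nonneg _), one_div_mul_eq_div]; exact hl1
      have h6 : β ^ q * ((1 / K) ^ q * ‖Φ g ξ‖ ^ q) ≤ β ^ q * l := mul_le_mul_of_nonneg_left h5 (by positivity)
      rw [hcdef]
      nlinarith
    have hle : sSup A ≤ sSup A / c ^ (1 / q) := by
      apply hsup.2
      intro a ha
      have ha0 : 0 ≤ a := hpos.le.trans (hAlow a ha)
      have hc0 : 0 < c := by linarith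
      rw [le_div_iff₀ (by positivity)]
      have h7 := Real.rpow_le_rpow (by positivity) (hkey a ha) (show 0 ≤ 1 / q by positivity)
      rw [Real.mul_rpow hc0.le (by positivity), ← Real.rpow_mul ha0, ← Real.rpow_mul hσ0.le,
        mul_one_div_cancel hq0.ne', Real.rpow_one, Real.rpow_one] at h7
      linarith
    have h8 : 1 < c ^ (1 / q) := Real.one_lt_rpow hc (by positivity)
    rw [le_div_iff₀ (by linarith)] at hle
    nlinarith
  · -- q > 2 : infimum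
    obtain ⟨β, hβ0, hβ1, hβ⟩ := exists_beta (q - 2) ((1 / K) ^ q) (by linarith) (by positivity)
    set α := Real.sqrt (1 - β ^ 2) with hα
    have hβ2 : β ^ 2 < 1 := by nlinarith
    have hα0 : 0 < α := Real.sqrt_pos.2 (by linarith)
    have hα2 : α ^ 2 = 1 - β ^ 2 := Real.sq_sqrt (by linarith)
    have hα1 : α ≤ 1 := by nlinarith
    have hαβ : α ^ 2 + β ^ 2 = 1 := by linarith
    have hc : α ^ q + β ^ q * K ^ q < 1 := by
      have h1 : α ^ q ≤ α ^ (2:ℝ) := Real.rpow_le_rpow_of_exponent_ge hα0 hα1 hgt.le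
      have h2 : β ^ q = β ^ (2 : ℝ) * β ^ (q - 2) := by rw [← Real.rpow_add hβ0]; congr 1; ring
      have h3 : β ^ q * K ^ q < β ^ (2:ℝ) := by
        rw [h2, mul_assoc]
        have h4 : β ^ (q - 2) * K ^ q < 1 := by
          rw [Real.div_rpow zero_le_one hK0.le, Real.one_rpow, lt_div_iff₀ (by positivity)] at hβ
          exact hβ
        have : 0 < β ^ (2:ℝ) := by positivity
        nlinarith
      rw [Real.rpow_two] at h1 h3
      linarith
    set c := α ^ q + β ^ q * K ^ q with hcdef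
    have hc0 : 0 < c := by positivity
    have hinf : IsGLB A (sInf A) := isGLB_csInf ⟨_, hA1⟩ ⟨_, hAlow⟩
    have hι0 : 0 < sInf A := lt_of_lt_of_le hpos (hinf.2 hAlow)
    have hkey : ∀ a ∈ A, (sInf A) ^ q ≤ c * a ^ q := by
      rintro a ⟨g, hg, rfl⟩
      obtain ⟨m, l, hm, hlim, hl1, hl2⟩ := limit_step L Φ K hK ξ hq hK0 hna g hg α β hα0 hβ0 hαβ
      have h4 : (sInf A) ^ q ≤ α ^ q * ‖Φ g ξ‖ ^ q + β ^ q * l := by
        refine ge_of_tendsto' hlim fun n => ?_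
        exact Real.rpow_le_rpow hι0.le (hinf.1 (hmul _ _ (hm n) hg)) hq0.le
      rw [Real.mul_rpow hK0.le (norm_nonneg _)] at hl2
      have h6 : β ^ q * l ≤ β ^ q * (K ^ q * ‖Φ g ξ‖ ^ q) := mul_le_mul_of_nonneg_left hl2 (by positivity)
      rw [hcdef]
      nlinarith
    have hge : sInf A / c ^ (1 / q) ≤ sInf A := by
      apply hinf.2
      intro a ha
      have ha0 : 0 ≤ a := hpos.le.trans (hAlow a ha)
      rw [div_le_iff₀ (by positivity)]
      have h7 := Real.rpow_le_rpow (by positivity) (hkey a ha) (show 0 ≤ 1 / q by positivity)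
      rw [Real.mul_rpow hc0.le (by positivity), ← Real.rpow_mul ha0, ← Real.rpow_mul hι0.le,
        mul_one_div_cancel hq0.ne', Real.rpow_one, Real.rpow_one] at h7
      linarith
    have h8 : c ^ (1 / q) < 1 := Real.rpow_lt_one hc0.le hc (by positivity)
    rw [div_le_iff₀ (by positivity)] at hge
    nlinarith

end Pool.Agent.H636R3.Lx
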