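import Mathlib

/-! `L^p` crossed products of a compact metric space by a homeomorphism: definitions. -/

set_option autoImplicit false
set_option linter.unusedSectionVars false
open scoped Topology ENNReal
open MeasureTheory

namespace Pool.Agent.H636R3.Lx

variable {X : Type} [MetricSpace X] [CompactSpace X]

/-- The automorphism `α^n` of `C(X)`, `α^n (f) = f ∘ h⁻ⁿ`. -/
noncomputable def alpha (h : X ≃ₜ X) (n : ℤ) (f : C(X, ℂ)) : C(X, ℂ) :=
  ⟨fun x => f ((h ^ (-n)) x), f.continuous.comp (h ^ (-n)).continuous⟩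

@[simp] theorem alpha_apply (h : X ≃ₜ X) (n : ℤ) (f : C(X, ℂ)) (x : X) :
    alpha h n f x = f ((h ^ (-n)) x) := rfl

/-- The group `ℤ` (written multiplicatively), acting on `C(X)` through `α`. -/
def ZZ (_h : X ≃ₜ X) : Type := Multiplicative ℤ

instance (h : X ≃ₜ X) : CommGroup (ZZ h) := inferInstanceAs (CommGroup (Multiplicative ℤ))

/-- the integer `n` as an element of `ZZ h` -/
def zz (h : X ≃ₜ X) (n : ℤ) : ZZ h := Multiplicative.ofAdd n

/-- the integer given by an element of `ZZ h` -/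
def ti {h : X ≃ₜ X} (n : ZZ h) : ℤ := Multiplicative.toAdd n

@[simp] theorem ti_zz (h : X ≃ₜ X) (n : ℤ) : ti (zz h n) = n := rfl
@[simp] theorem zz_ti (h : X ≃ₜ X) (n : ZZ h) : zz h (ti n) = n := rfl
theorem ti_mul {h : X ≃ₜ X} (m n : ZZ h) : ti (m * n) = ti m + ti n := rfl
theorem ti_one {h : X ≃ₜ X} : ti (1 : ZZ h) = 0 := rfl
theorem zz_add (h : X ≃ₜ X) (m n : ℤ) : zz h (m + n) = zz h m * zz h n := rfl
theorem zz_zero (h : X ≃ₜ X) : zz h 0 = 1 := rfl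

theorem hpow_add (h : X ≃ₜ X) (m n : ℤ) (x : X) : (h ^ (m + n)) x = (h ^ m) ((h ^ n) x) := by
  rw [zpow_add]; rfl

theorem hpow_zero (h : X ≃ₜ X) (x : X) : (h ^ (0 : ℤ)) x = x := by
  rw [zpow_zero]; rfl

noncomputable instance (h : X ≃ₜ X) : MulSemiringAction (ZZ h) C(X, ℂ) where
  smul n f := alpha h (ti n) f
  one_smul f := by
    ext x
    change f ((h ^ (-(0:ℤ))) x) = f x
    rw [neg_zero, hpow_zero]
  mul_smul m n f := by
    ext x
    change f ((h ^ (-(ti m + ti n))) x) = f ((h ^ (-(ti n))) ((h ^ (-(ti m))) x))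
    rw [← hpow_add, neg_add, add_comm]
  smul_zero n := by ext x; rfl
  smul_add n f g := by ext x; rfl
  smul_one n := by ext x; rfl
  smul_mul n f g := by ext x; rfl

theorem smul_def' (h : X ≃ₜ X) (n : ZZ h) (f : C(X, ℂ)) : n • f = alpha h (ti n) f := rfl

instance (h : X ≃ₜ X) : SMulCommClass (ZZ h) ℂ C(X, ℂ) where
  smul_comm n c f := by ext x; rfl

/-- `C_c(ℤ, C(X), α)`: finitely supported functions `ℤ → C(X)` with the twisted product
`(a b)(n) = ∑ k, a k * α^k (b (n - k))`. -/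
abbrev Alg (h : X ≃ₜ X) : Type := SkewMonoidAlgebra C(X, ℂ) (ZZ h)

/-- the element `f u^n` -/
noncomputable def mono (h : X ≃ₜ X) (n : ℤ) (f : C(X, ℂ)) : Alg h := SkewMonoidAlgebra.single (zz h n) f

theorem mono_mul (h : X ≃ₜ X) (m n : ℤ) (f g : C(X, ℂ)) :
    mono h m f * mono h n g = mono h (m + n) (f * alpha h m g) := by
  rw [mono, mono, SkewMonoidAlgebra.single_mul_single]; rfl

section reps
variable (h : X ≃ₜ X) (E : Type) [NormedAddCommGroup E] [NormedSpace ℂ E]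

/-- A contractive covariant representation of `(C(X), ℤ, α)` on the Banach space `E`: a unital
contractive homomorphism `π` from `C(X)` to the bounded operators on `E` (for a compact space
`X`, nondegenerate means unital) and an invertible isometry `v` with `v π(f) v⁻¹ = π(f ∘ h⁻¹)`. -/
structure CovRep where
  π : C(X, ℂ) →ₐ[ℂ] (E →L[ℂ] E)
  contr : ∀ f, ‖π f‖ ≤ ‖f‖
  v : E ≃ₗᵢ[ℂ] E
  cov : ∀ (f : C(X, ℂ)) (ξ : E), v (π f (v.symm ξ)) = π (alpha h 1 f) ξ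

variable {h E}

/-- the powers of the isometry as a homomorphism to the bounded operators -/
noncomputable def vhom (h : X ≃ₜ X) (v : E ≃ₗᵢ[ℂ] E) : ZZ h →* (E →L[ℂ] E) where
  toFun n := ((v ^ (ti n) : E ≃ₗᵢ[ℂ] E).toContinuousLinearEquiv : E →L[ℂ] E)
  map_one' := by
    ext ξ
    change (v ^ (0 : ℤ) : E ≃ₗᵢ[ℂ] E) ξ = ξ
    rw [zpow_zero]; rfl
  map_mul' m n := by
    ext ξ
    change (v ^ (ti m + ti n) : E ≃ₗᵢ[ℂ] E) ξ = (v ^ (ti m) : E ≃ₗᵢ[ℂ] E) ((v ^ (ti n) : E ≃ₗᵢ[ℂ] E) ξ)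
    rw [zpow_add]; rfl

theorem vhom_apply (v : E ≃ₗᵢ[ℂ] E) (n : ZZ h) (ξ : E) : vhom h v n ξ = (v ^ (ti n) : E ≃ₗᵢ[ℂ] E) ξ := rfl

theorem CovRep.cov' (ρ : CovRep h E) (f : C(X, ℂ)) (ξ : E) : ρ.v (ρ.π f ξ) = ρ.π (alpha h 1 f) (ρ.v ξ) := by
  have := ρ.cov f (ρ.v ξ)
  rwa [LinearIsometryEquiv.symm_apply_apply] at this

theorem alpha_alpha (h : X ≃ₜ X) (m n : ℤ) (f : C(X, ℂ)) : alpha h m (alpha h n f) = alpha h (m + n) f := by
  ext x
  simp only [alpha_apply]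
  rw [← hpow_add]
  congr 2
  congr 1
  ring

theorem alpha_zero (h : X ≃ₜ X) (f : C(X, ℂ)) : alpha h 0 f = f := by
  ext x
  simp only [alpha_apply, neg_zero, hpow_zero]

theorem CovRep.cov_zpow (ρ : CovRep h E) (n : ℤ) (f : C(X, ℂ)) (ξ : E) :
    (ρ.v ^ n : E ≃ₗᵢ[ℂ] E) (ρ.π f ξ) = ρ.π (alpha h n f) ((ρ.v ^ n : E ≃ₗᵢ[ℂ] E) ξ) := by
  induction n using Int.induction_on generalizing ξ with
  | zero => simp [alpha_zero]
  | succ n ih =>
    rw [add_comm, zpow_add, zpow_one]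
    change ρ.v ((ρ.v ^ (n : ℤ) : E ≃ₗᵢ[ℂ] E) (ρ.π f ξ)) = ρ.π (alpha h (1 + (n : ℤ)) f) (ρ.v ((ρ.v ^ (n : ℤ) : E ≃ₗᵢ[ℂ] E) ξ))
    rw [ih, ρ.cov', alpha_alpha]
  | pred n ih =>
    have key : ∀ (g : C(X, ℂ)) (ζ : E), ρ.v⁻¹ (ρ.π g ζ) = ρ.π (alpha h (-1) g) (ρ.v⁻¹ ζ) := by
      intro g ζ
      have h1 := ρ.cov (alpha h (-1) g) ζ
      rw [alpha_alpha, add_neg_cancel, alpha_zero] at h1
      rw [← h1]
      change ρ.v.symm (ρ.v _) = _
      rw [LinearIsometryEquiv.symm_apply_apply]; rfl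
    rw [show (-(n : ℤ) - 1) = -1 + -(n : ℤ) by ring, zpow_add, zpow_neg_one]
    change ρ.v⁻¹ ((ρ.v ^ (-(n : ℤ)) : E ≃ₗᵢ[ℂ] E) (ρ.π f ξ)) =
      ρ.π (alpha h (-1 + -(n : ℤ)) f) (ρ.v⁻¹ ((ρ.v ^ (-(n : ℤ)) : E ≃ₗᵢ[ℂ] E) ξ))
    rw [ih, key, alpha_alpha]

/-- The integrated form `a ↦ ∑ π(a n) v^n` of a covariant representation. -/
noncomputable def CovRep.int (ρ : CovRep h E) : Alg h →ₐ[ℂ] (E →L[ℂ] E) :=
  SkewMonoidAlgebra.liftNCAlgHom ρ.π (vhom h ρ.v) (by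
    intro f n
    ext ξ
    change ρ.π (alpha h (ti n) f) ((ρ.v ^ (ti n) : E ≃ₗᵢ[ℂ] E) ξ) = (ρ.v ^ (ti n) : E ≃ₗᵢ[ℂ] E) (ρ.π f ξ)
    rw [ρ.cov_zpow])

theorem CovRep.int_apply (ρ : CovRep h E) (a : Alg h) :
    ρ.int a = a.sum fun n f => ρ.π f * vhom h ρ.v n := rfl

end reps

section seminorms
variable {h : X ≃ₜ X}

/-- `∑ ‖a n‖` -/
noncomputable def l1 (a : Alg h) : ℝ := a.sum fun _ f => ‖f‖

theorem CovRep.int_norm_le {E : Type} [NormedAddCommGroup E] [NormedSpace ℂ E] (ρ : CovRep h E) (a : Alg h) :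
    ‖ρ.int a‖ ≤ l1 a := by
  rw [ρ.int_apply, l1, SkewMonoidAlgebra.sum_def, SkewMonoidAlgebra.sum_def, Finsupp.sum, Finsupp.sum]
  refine (norm_sum_le _ _).trans (Finset.sum_le_sum fun n _ => ?_)
  refine (norm_mul_le _ _).trans ?_
  have h1 : ‖vhom h ρ.v n‖ ≤ 1 := by
    refine ContinuousLinearMap.opNorm_le_bound _ zero_le_one fun ξ => ?_
    rw [vhom_apply, LinearIsometryEquiv.norm_map, one_mul]
  calc ‖ρ.π (a.coeff n)‖ * ‖vhom h ρ.v n‖ ≤ ‖a.coeff n‖ * 1 :=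
        mul_le_mul (ρ.contr _) h1 (norm_nonneg _) (norm_nonneg _)
    _ = _ := mul_one _

/-- `N` is of the form `a ↦ ‖ρ(a)‖` for a contractive covariant representation -/
def IsRepNorm (h : X ≃ₜ X) (N : Alg h → ℝ) : Prop :=
  ∃ (E : Type) (_ : NormedAddCommGroup E) (_ : NormedSpace ℂ E) (ρ : CovRep h E), N = fun a => ‖ρ.int a‖

/-- A complex algebra seminorm on `C_c(ℤ, C(X), α)`. -/
structure CNorm (h : X ≃ₜ X) extends RingSeminorm (Alg h) where
  smul_le' : ∀ (c : ℂ) (a : Alg h), toFun (c • a) ≤ ‖c‖ * toFun a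

theorem bddAbove_vals {T : Set (Alg h → ℝ)} (hT : ∀ N ∈ T, IsRepNorm h N) (a : Alg h) :
    BddAbove {r | ∃ N ∈ T, r = N a} := by
  refine ⟨l1 a, ?_⟩
  rintro r ⟨N, hN, rfl⟩
  obtain ⟨E, _, _, ρ, rfl⟩ := hT N hN
  exact ρ.int_norm_le a

theorem le_supN {T : Set (Alg h → ℝ)} (hT : ∀ N ∈ T, IsRepNorm h N) {N : Alg h → ℝ} (hN : N ∈ T) (a : Alg h) :
    N a ≤ sSup {r | ∃ N ∈ T, r = N a} :=
  le_csSup (bddAbove_vals hT a) ⟨N, hN, rfl⟩

theorem supN_nonneg {T : Set (Alg h → ℝ)} (hT : ∀ N ∈ T, IsRepNorm h N) (a : Alg h) :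
    0 ≤ sSup {r | ∃ N ∈ T, r = N a} := by
  apply Real.sSup_nonneg
  rintro r ⟨N, hN, rfl⟩
  obtain ⟨E, _, _, ρ, rfl⟩ := hT N hN
  exact norm_nonneg _

/-- The supremum of a family of seminorms given by contractive covariant representations. -/
noncomputable def supN (T : Set (Alg h → ℝ)) (hT : ∀ N ∈ T, IsRepNorm h N) : CNorm h where
  toFun a := sSup {r | ∃ N ∈ T, r = N a}
  map_zero' := by
    apply le_antisymm
    · apply Real.sSup_le _ le_rfl
      rintro r ⟨N, hN, rfl⟩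
      obtain ⟨E, _, _, ρ, rfl⟩ := hT N hN
      simp
    · exact supN_nonneg hT 0
  add_le' a b := by
    apply Real.sSup_le _ (add_nonneg (supN_nonneg hT a) (supN_nonneg hT b))
    rintro r ⟨N, hN, rfl⟩
    have h1 := le_supN hT hN a
    have h2 := le_supN hT hN b
    obtain ⟨E, _, _, ρ, rfl⟩ := hT N hN
    simp only [map_add]
    exact (norm_add_le _ _).trans (add_le_add h1 h2)
  neg' a := by
    congr 1
    ext r
    constructor
    · rintro ⟨N, hN, rfl⟩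
      refine ⟨N, hN, ?_⟩
      obtain ⟨E, _, _, ρ, rfl⟩ := hT N hN
      simp only [map_neg, norm_neg]
    · rintro ⟨N, hN, rfl⟩
      refine ⟨N, hN, ?_⟩
      obtain ⟨E, _, _, ρ, rfl⟩ := hT N hN
      simp only [map_neg, norm_neg]
  mul_le' a b := by
    apply Real.sSup_le _ (mul_nonneg (supN_nonneg hT a) (supN_nonneg hT b))
    rintro r ⟨N, hN, rfl⟩
    have h1 := le_supN hT hN a
    have h2 := le_supN hT hN b
    obtain ⟨E, _, _, ρ, rfl⟩ := hT N hN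
    simp only [map_mul]
    exact (norm_mul_le _ _).trans (mul_le_mul h1 h2 (norm_nonneg _) (supN_nonneg hT a))
  smul_le' c a := by
    apply Real.sSup_le _ (mul_nonneg (norm_nonneg _) (supN_nonneg hT a))
    rintro r ⟨N, hN, rfl⟩
    have h1 := le_supN hT hN a
    obtain ⟨E, _, _, ρ, rfl⟩ := hT N hN
    simp only [map_smul]
    refine (norm_smul_le _ _).trans (mul_le_mul_of_nonneg_left h1 (norm_nonneg _))

theorem supN_apply (T : Set (Alg h → ℝ)) (hT : ∀ N ∈ T, IsRepNorm h N) (a : Alg h) :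
    (supN T hT).toFun a = sSup {r | ∃ N ∈ T, r = N a} := rfl

/-- The algebra `C_c(ℤ, C(X), α)` with the seminorm `N`. -/
def Sy (_N : CNorm h) : Type := Alg h

noncomputable instance (N : CNorm h) : SeminormedRing (Sy N) :=
  @RingSeminorm.toSeminormedRing (Alg h) _ N.toRingSeminorm
noncomputable instance (N : CNorm h) : NormedSpace ℂ (Sy N) where
  __ := (inferInstanceAs (Module ℂ (Alg h)) : Module ℂ (Alg h))
  norm_smul_le c a := N.smul_le' c a

/-- `a` as an element of `Sy N` -/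
def toSy (N : CNorm h) (a : Alg h) : Sy N := a

theorem norm_toSy (N : CNorm h) (a : Alg h) : ‖toSy N a‖ = N.toFun a := rfl

end seminorms

section full
variable (p : ℝ≥0∞) [Fact (1 ≤ p)] (h : X ≃ₜ X)

/-- The seminorms `a ↦ ‖∑ π(a n) v^n‖` for all contractive covariant representations `(π, v)` on
`L^p` spaces of `σ`-finite measures. -/
def fullT : Set (Alg h → ℝ) :=
  {N | ∃ (Ω : Type) (_ : MeasurableSpace Ω) (μ : Measure Ω) (_ : SigmaFinite μ) (ρ : CovRep h (Lp ℂ p μ)),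
    N = fun a => ‖ρ.int a‖}

theorem fullT_isRepNorm : ∀ N ∈ fullT p h, IsRepNorm h N := by
  rintro N ⟨Ω, _, μ, _, ρ, rfl⟩
  exact ⟨_, _, _, ρ, rfl⟩

/-- The norm of the full `L^p` crossed product. -/
noncomputable def fullN : CNorm h := supN (fullT p h) (fullT_isRepNorm p h)

/-- The full `L^p` crossed product `F^p(ℤ, X, h)`. -/
abbrev FullCP : Type := UniformSpace.Completion (Sy (fullN p h))

end full

end Pool.Agent.H636R3.Lx
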