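import Mathlib
import Pool.Agent.H636R3.LxAtom
import Pool.Agent.H636R3.LxDefs

/-! Joint eigenvectors and the contradiction for `q ≠ 2`. -/

set_option autoImplicit false
set_option linter.unusedSectionVars false
open scoped Topology
open Filter

namespace Pool.Agent.H636R3.Lx

variable {X : Type} [MetricSpace X] [CompactSpace X]
variable {q : ℝ} {E : Type} [NormedAddCommGroup E] [NormedSpace ℂ E]

section eig
variable (L : EllQ q E) (Φ : C(X, ℂ) →ₙₐ[ℂ] (E →L[ℂ] E)) (K : ℝ) (hK : ∀ f, ‖Φ f‖ ≤ K * ‖f‖) (ξ : E)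

theorem cut_norm_sub (z : X) (a a' b b' : ℝ) : ‖cs (cut z a a') - cs (cut z b b')‖ ≤ 1 := by
  rw [ContinuousMap.norm_le _ zero_le_one]
  intro x
  rw [ContinuousMap.sub_apply, cs_apply, cs_apply, ← Complex.ofReal_sub, Complex.norm_real, Real.norm_eq_abs, abs_le]
  have h1 := cut_nonneg z a a' x
  have h2 := cut_le_one z a a' x
  have h3 := cut_nonneg z b b' x
  have h4 := cut_le_one z b b' x
  constructor <;> linarith

theorem cut_norm (z : X) (a a' : ℝ) : ‖cs (cut z a a')‖ ≤ 1 := by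
  rw [ContinuousMap.norm_le _ zero_le_one]
  intro x
  rw [cs_apply, Complex.norm_real, Real.norm_of_nonneg (cut_nonneg z a a' x)]
  exact cut_le_one z a a' x

include hK L in
theorem exists_eigenvector [CompleteSpace E] (hq : 1 ≤ q) (hq2 : q ≠ 2) (hK0 : 0 < K) (hξ : Φ 1 ξ ≠ 0) :
    ∃ (x : X) (η : E), η ≠ 0 ∧ ∀ f : C(X, ℂ), Φ f η = f x • η := by
  obtain ⟨x, δ, hδ, hx⟩ := exists_atom L Φ K hK ξ hq hq2 hK0 hξ
  let ρ : ℕ → ℝ := fun k => 1 / ((k : ℝ) + 1)
  have hρ0 : ∀ k, 0 < ρ k := fun k => by positivity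
  have hρanti : ∀ i j, i ≤ j → ρ j ≤ ρ i := by
    intro i j hij
    apply one_div_le_one_div_of_le (by positivity)
    have : (i : ℝ) ≤ j := by exact_mod_cast hij
    linarith
  have hρlt : ∀ k, ρ (k + 1) < ρ k := by
    intro k
    apply one_div_lt_one_div_of_lt (by positivity)
    push_cast; linarith
  let f : ℕ → C(X, ℂ) := fun k => cs (cut x (ρ (k + 1)) (ρ k))
  have hf1 : ∀ k y, dist y x ≤ ρ (k + 1) → f k y = 1 := by
    intro k y hy
    simp only [f, cs_apply]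
    rw [cut_eq_one x _ _ (hρlt k) y hy, Complex.ofReal_one]
  have hf0 : ∀ k y, ρ k ≤ dist y x → f k y = 0 := by
    intro k y hy
    simp only [f, cs_apply]
    rw [cut_eq_zero x _ _ (hρlt k) y hy, Complex.ofReal_zero]
  have hfn : ∀ k, ‖f k‖ ≤ 1 := fun k => cut_norm _ _ _
  have hcauchy : CauchySeq (fun k => Φ (f k) ξ) := by
    rw [Metric.cauchySeq_iff]
    by_contra hcon
    push Not at hcon
    obtain ⟨ε, hε, hcon⟩ := hcon
    choose k hk l hl hkl using hcon
    let N : ℕ → ℕ := fun i => Nat.rec 0 (fun _ n => max (k n) (l n) + 1) i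
    have hN : ∀ i, N (i + 1) = max (k (N i)) (l (N i)) + 1 := fun i => rfl
    have hNk : ∀ i, k (N i) < N (i + 1) := fun i => by rw [hN]; omega
    have hNl : ∀ i, l (N i) < N (i + 1) := fun i => by rw [hN]; omega
    have hNmono : ∀ i j, i < j → N (i + 1) ≤ N j := by
      intro i j hij
      have hm : Monotone N := monotone_nat_of_le_succ fun i => by
        have h1 := hNk i
        have h2 := hk (N i)
        omega
      exact hm hij
    obtain ⟨i, hi⟩ := exists_small L Φ K hK ξ hq hK0.le (fun i => {y | ρ (N (i + 1)) < dist y x ∧ dist y x < ρ (N i)}) (by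
      intro i j hij
      rw [Set.disjoint_left]
      rintro y ⟨h1, h2⟩ ⟨h3, h4⟩
      rcases lt_or_gt_of_ne hij with h | h
      · have := hρanti _ _ (hNmono i j h)
        linarith
      · have := hρanti _ _ (hNmono j i h)
        linarith) (ε / 2) (by positivity)
    have h5 := hi (f (k (N i)) - f (l (N i))) (by
      intro y hy
      rw [ContinuousMap.sub_apply]
      by_cases h6 : dist y x ≤ ρ (N (i + 1))
      · rw [hf1 _ y (h6.trans (hρanti _ _ (hNk i))), hf1 _ y (h6.trans (hρanti _ _ (hNl i))), sub_self]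
      · have h7 : ρ (N i) ≤ dist y x := by
          by_contra h8
          exact hy ⟨not_le.1 h6, not_le.1 h8⟩
        rw [hf0 _ y ((hρanti _ _ (hk (N i))).trans h7), hf0 _ y ((hρanti _ _ (hl (N i))).trans h7), sub_self])
      (cut_norm_sub _ _ _ _ _)
    rw [map_sub, sub_apply] at h5
    have h6 := hkl (N i)
    rw [dist_eq_norm] at h6
    linarith
  obtain ⟨η, hη⟩ := cauchySeq_tendsto_of_complete hcauchy
  have hlow : ∀ k, δ / K ≤ ‖Φ (f k) ξ‖ := by
    intro k
    have h1 := hx (Metric.ball x (ρ (k + 1))) (Metric.ball_mem_nhds x (hρ0 _))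
    unfold Small at h1
    push Not at h1
    obtain ⟨g, hg1, hg2, hg3⟩ := h1
    have h2 : g = g * f k := by
      ext y
      rw [ContinuousMap.mul_apply]
      by_cases hy : y ∈ Metric.ball x (ρ (k + 1))
      · rw [hf1 k y (Metric.mem_ball.1 hy).le, mul_one]
      · rw [hg1 y hy, zero_mul]
    rw [h2, map_mul] at hg3
    have h3 := Phi_le Φ K hK g 1 hg2 hK0.le (Φ (f k) ξ)
    rw [mul_one] at h3
    rw [div_le_iff₀ hK0]
    have h4 : (Φ g * Φ (f k)) ξ = Φ g (Φ (f k) ξ) := rfl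
    rw [h4] at hg3
    linarith
  refine ⟨x, η, ?_, ?_⟩
  · have h1 : δ / K ≤ ‖η‖ := ge_of_tendsto' hη.norm hlow
    have h2 : 0 < δ / K := by positivity
    exact norm_pos_iff.1 (h2.trans_le h1)
  · intro g
    have h1 : Tendsto (fun k => Φ g (Φ (f k) ξ)) atTop (𝓝 (Φ g η)) := ((Φ g).continuous.tendsto η).comp hη
    have h2 : Tendsto (fun k => g x • Φ (f k) ξ) atTop (𝓝 (g x • η)) := hη.const_smul _
    have h3 : Tendsto (fun k => Φ g (Φ (f k) ξ) - g x • Φ (f k) ξ) atTop (𝓝 0) := by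
      have h4 : ∀ k, Φ g (Φ (f k) ξ) - g x • Φ (f k) ξ = Φ ((g - g x • 1) * f k) ξ := by
        intro k
        rw [sub_mul, smul_mul_assoc, one_mul, map_sub, map_smul, map_mul]
        rfl
      simp only [h4]
      rw [Metric.tendsto_atTop]
      intro ε hε
      have hcont := g.continuous.continuousAt (x := x)
      obtain ⟨r, hr, hgr⟩ := Metric.continuousAt_iff.1 hcont (ε / (K * (‖ξ‖ + 1) + 1)) (by positivity)
      obtain ⟨N, hN⟩ := exists_nat_one_div_lt hr
      refine ⟨N, fun k hk => ?_⟩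
      have h5 : ‖(g - g x • 1) * f k‖ ≤ ε / (K * (‖ξ‖ + 1) + 1) := by
        rw [ContinuousMap.norm_le _ (by positivity)]
        intro y
        rw [ContinuousMap.mul_apply, norm_mul]
        by_cases hy : ρ k ≤ dist y x
        · rw [hf0 k y hy, norm_zero, mul_zero]; positivity
        · have h6 : dist y x < r := (not_le.1 hy).trans_le ((hρanti N k hk).trans hN.le)
          have h7 := hgr h6
          rw [dist_eq_norm] at h7
          have h8 : ‖(g - g x • (1 : C(X, ℂ))) y‖ ≤ ε / (K * (‖ξ‖ + 1) + 1) := by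
            simp only [ContinuousMap.sub_apply, ContinuousMap.smul_apply, ContinuousMap.one_apply, smul_eq_mul, mul_one]
            exact h7.le
          calc ‖(g - g x • (1 : C(X, ℂ))) y‖ * ‖f k y‖ ≤ (ε / (K * (‖ξ‖ + 1) + 1)) * 1 :=
                mul_le_mul h8 (((f k).norm_coe_le_norm y).trans (hfn k)) (norm_nonneg _) (by positivity)
            _ = _ := mul_one _
      rw [dist_zero_right]
      refine lt_of_le_of_lt (Phi_le Φ K hK _ _ h5 hK0.le ξ) ?_
      have h6 : K * (ε / (K * (‖ξ‖ + 1) + 1)) * ‖ξ‖ = ε * ((K * ‖ξ‖) / (K * (‖ξ‖ + 1) + 1)) := by ring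
      rw [h6]
      have h7 : (K * ‖ξ‖) / (K * (‖ξ‖ + 1) + 1) < 1 := by
        rw [div_lt_one (by positivity)]
        nlinarith
      nlinarith
    have h5 := tendsto_nhds_unique h3 (h1.sub h2)
    exact (sub_eq_zero.1 h5.symm)

end eig

/-- The hypotheses on a representation of the crossed product algebra used below. -/
structure Sys (h : X ≃ₜ X) (p : ℝ) (E : Type) [NormedAddCommGroup E] [NormedSpace ℂ E] where
  Φ : C(X, ℂ) →ₙₐ[ℂ] (E →L[ℂ] E)
  K : ℝ
  K0 : 0 < K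
  hK : ∀ f, ‖Φ f‖ ≤ K * ‖f‖
  U : ℤ → (E →L[ℂ] E)
  U0 : U 0 = Φ 1
  Uadd : ∀ m n, U m * U n = U (m + n)
  cov : ∀ n f, U n * Φ f = Φ (alpha h n f) * U n
  n1 : ∀ (F : Finset ℤ) (ε : ℤ → ℂ), (∀ n, ‖ε n‖ = 1) → ∀ (C : Set X), IsClosed C →
    (∀ m ∈ F, ∀ n ∈ F, m ≠ n → Disjoint ((h ^ m) '' C) ((h ^ n) '' C)) →
    ∀ g : C(X, ℂ), (∀ x ∉ C, g x = 0) → ‖g‖ ≤ 1 → ‖∑ n ∈ F, ε n • (U n * Φ g)‖ ≤ K * (F.card : ℝ) ^ (1 / p)
  n2 : ∀ (F : Finset ℤ) (ε : ℤ → ℂ), (∀ n, ‖ε n‖ = 1) → ∀ (C : Set X), IsClosed C →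
    (∀ m ∈ F, ∀ n ∈ F, m ≠ n → Disjoint ((h ^ m) '' C) ((h ^ n) '' C)) →
    ∀ g : C(X, ℂ), (∀ x ∉ C, g x = 0) → ‖g‖ ≤ 1 → ‖∑ n ∈ F, ε n • (Φ g * U (-n))‖ ≤ K * (F.card : ℝ) ^ (1 - 1 / p)

theorem exists_disjoint_nhd (h : X ≃ₜ X) (hper : ∀ (x : X) (n : ℤ), n ≠ 0 → (h ^ n) x ≠ x) (x : X) (F : Finset ℤ) :
    ∃ V ∈ 𝓝 x, ∀ m ∈ F, ∀ n ∈ F, m ≠ n → Disjoint ((h ^ m) '' V) ((h ^ n) '' V) := by
  classical
  have h1 : ∀ m n : ℤ, m ≠ n → ∀ᶠ V in (𝓝 x).smallSets, Disjoint ((h ^ m) '' V) ((h ^ n) '' V) := by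
    intro m n hmn
    have hne : (h ^ m) x ≠ (h ^ n) x := by
      intro heq
      apply hper x (-n + m) (by omega)
      rw [hpow_add, heq, ← hpow_add, neg_add_cancel, hpow_zero]
    obtain ⟨A, B, hA, hB, hxA, hxB, hAB⟩ := t2_separation hne
    rw [eventually_smallSets]
    refine ⟨(h ^ m) ⁻¹' A ∩ (h ^ n) ⁻¹' B, inter_mem ((h ^ m).continuous.continuousAt.preimage_mem_nhds (hA.mem_nhds hxA))
      ((h ^ n).continuous.continuousAt.preimage_mem_nhds (hB.mem_nhds hxB)), ?_⟩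
    intro V hV
    refine Set.disjoint_of_subset ?_ ?_ hAB
    · rintro _ ⟨y, hy, rfl⟩; exact (hV hy).1
    · rintro _ ⟨y, hy, rfl⟩; exact (hV hy).2
  have h2 : ∀ᶠ V in (𝓝 x).smallSets, ∀ m ∈ F, ∀ n ∈ F, m ≠ n → Disjoint ((h ^ m) '' V) ((h ^ n) '' V) := by
    rw [Filter.eventually_all_finset]
    intro m _
    rw [Filter.eventually_all_finset]
    intro n _
    by_cases hmn : m = n
    · exact Eventually.of_forall fun V h => absurd hmn h
    · filter_upwards [h1 m n hmn] with V hV _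
      exact hV
  obtain ⟨V, hV, hV2⟩ := eventually_smallSets.1 h2
  exact ⟨V, hV, hV2 V le_rfl⟩

section
variable {h : X ≃ₜ X} {p : ℝ} (W : Sys h p E)

theorem Sys.estimates (hper : ∀ (x : X) (n : ℤ), n ≠ 0 → (h ^ n) x ≠ x) (hp : 1 ≤ p) (x : X) (η : E)
    (hη : ∀ f : C(X, ℂ), W.Φ f η = f x • η) (F : Finset ℤ) (ε : ℤ → ℂ) (hε : ∀ n, ‖ε n‖ = 1) :
    ‖∑ n ∈ F, ε n • W.U n η‖ ≤ W.K * (F.card : ℝ) ^ (1 / p) * ‖η‖ ∧
    (F.card : ℝ) ^ (1 / p) * ‖η‖ ≤ W.K * ‖∑ n ∈ F, ε n • W.U n η‖ := by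
  classical
  obtain ⟨V, hV, hdisj⟩ := exists_disjoint_nhd h hper x F
  obtain ⟨r, hr, hrV⟩ := Metric.nhds_basis_closedBall.mem_iff.1 hV
  have hdisj' : ∀ m ∈ F, ∀ n ∈ F, m ≠ n → Disjoint ((h ^ m) '' (Metric.closedBall x r)) ((h ^ n) '' (Metric.closedBall x r)) :=
    fun m hm n hn hmn => Set.disjoint_of_subset (Set.image_mono hrV) (Set.image_mono hrV) (hdisj m hm n hn hmn)
  set g : C(X, ℂ) := cs (cut x (r / 2) r) with hg
  have hgx : g x = 1 := by
    rw [hg, cs_apply, cut_eq_one x _ _ (by linarith) x (by rw [dist_self]; positivity), Complex.ofReal_one]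
  have hg0 : ∀ y ∉ Metric.closedBall x r, g y = 0 := by
    intro y hy
    rw [Metric.mem_closedBall, not_le] at hy
    rw [hg, cs_apply, cut_eq_zero x _ _ (by linarith) y hy.le, Complex.ofReal_zero]
  have hgn : ‖g‖ ≤ 1 := cut_norm _ _ _
  have hgη : W.Φ g η = η := by rw [hη, hgx, one_smul]
  constructor
  · have h1 := W.n1 F ε hε _ Metric.isClosed_closedBall hdisj' g hg0 hgn
    have h2 : ∑ n ∈ F, ε n • W.U n η = (∑ n ∈ F, ε n • (W.U n * W.Φ g)) η := by
      rw [sum_apply]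
      refine Finset.sum_congr rfl fun n _ => ?_
      change _ = ε n • W.U n (W.Φ g η)
      rw [hgη]
    rw [h2]
    exact (ContinuousLinearMap.le_opNorm _ _).trans (mul_le_mul_of_nonneg_right h1 (norm_nonneg _))
  · have h1 := W.n2 F (fun n => star (ε n)) (fun n => by rw [norm_star, hε]) _ Metric.isClosed_closedBall hdisj' g hg0 hgn
    have h2 : (∑ m ∈ F, star (ε m) • (W.Φ g * W.U (-m))) (∑ n ∈ F, ε n • W.U n η) = (F.card : ℂ) • η := by
      have h3 : ∀ m ∈ F, (star (ε m) • (W.Φ g * W.U (-m))) (∑ n ∈ F, ε n • W.U n η) = η := by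
        intro m hm
        have h4 : ∀ n, (W.Φ g * W.U (-m)) (W.U n η) = g ((h ^ (n - m)) x) • W.U (n - m) η := by
          intro n
          change W.Φ g ((W.U (-m) * W.U n) η) = _
          rw [W.Uadd, show -m + n = n - m by ring]
          have h5 := W.cov (n - m) (alpha h (-(n - m)) g)
          rw [alpha_alpha, add_neg_cancel, alpha_zero] at h5
          change (W.Φ g * W.U (n - m)) η = _
          rw [← h5]
          change W.U (n - m) (W.Φ (alpha h (-(n - m)) g) η) = _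
          rw [hη, map_smul, alpha_apply, neg_neg]
        rw [map_sum, Finset.sum_eq_single m]
        · rw [map_smul, smul_apply, h4, sub_self, hpow_zero, hgx, one_smul, W.U0, hη]
          rw [smul_smul, ContinuousMap.one_apply, one_smul]
          have : ε m * star (ε m) = 1 := by
            have := Complex.mul_conj (ε m)
            rw [Complex.normSq_eq_norm_sq, hε] at this
            simpa using this
          rw [this, one_smul]
        · intro n hn hnm
          rw [map_smul, smul_apply, h4]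
          have h6 : g ((h ^ (n - m)) x) = 0 := by
            apply hg0
            intro h7
            have h8 := hdisj' m hm n hn hnm.symm
            rw [Set.disjoint_left] at h8
            refine h8 ⟨_, h7, rfl⟩ ⟨x, Metric.mem_closedBall_self hr.le, ?_⟩
            rw [← hpow_add]; congr 2; ring
          rw [h6, zero_smul, smul_zero, smul_zero]
        · intro h; exact absurd hm h
      rw [sum_apply, Finset.sum_congr rfl h3, Finset.sum_const, Nat.cast_smul_eq_nsmul]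
    have h3 := (∑ m ∈ F, star (ε m) • (W.Φ g * W.U (-m))).le_opNorm (∑ n ∈ F, ε n • W.U n η)
    rw [h2, norm_smul, Complex.norm_natCast] at h3
    have h4 : (F.card : ℝ) * ‖η‖ ≤ W.K * (F.card : ℝ) ^ (1 - 1 / p) * ‖∑ n ∈ F, ε n • W.U n η‖ :=
      h3.trans (mul_le_mul_of_nonneg_right h1 (norm_nonneg _))
    by_cases hF : F.card = 0
    · rw [hF]
      have : ((0 : ℕ) : ℝ) ^ (1 / p) = 0 := by
        rw [Nat.cast_zero, Real.zero_rpow]; positivity
      rw [this, zero_mul]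
      exact mul_nonneg W.K0.le (norm_nonneg _)
    · have hF0 : (0 : ℝ) < F.card := by exact_mod_cast Nat.pos_of_ne_zero hF
      have h5 : (F.card : ℝ) = (F.card : ℝ) ^ (1 / p) * (F.card : ℝ) ^ (1 - 1 / p) := by
        rw [← Real.rpow_add hF0, add_sub_cancel, Real.rpow_one]
      have h6 : 0 < (F.card : ℝ) ^ (1 - 1 / p) := Real.rpow_pos_of_pos hF0 _
      have h7 : (F.card : ℝ) ^ (1 - 1 / p) * ((F.card : ℝ) ^ (1 / p) * ‖η‖) ≤
          (F.card : ℝ) ^ (1 - 1 / p) * (W.K * ‖∑ n ∈ F, ε n • W.U n η‖) := by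
        calc (F.card : ℝ) ^ (1 - 1 / p) * ((F.card : ℝ) ^ (1 / p) * ‖η‖) = (F.card : ℝ) * ‖η‖ := by
              nth_rewrite 3 [h5]; ring
          _ ≤ _ := h4
          _ = _ := by ring
      exact le_of_mul_le_mul_left h7 h6

end

end Pool.Agent.H636R3.Lx
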