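import Mathlib
import Pool.Agent.H636R3.LxEig

/-! A representation of the `p` crossed product on `ℓ^q` is zero for `p ≠ q`. -/

set_option autoImplicit false
set_option linter.unusedSectionVars false
open scoped Topology
open Filter

namespace Pool.Agent.H636R3.Lx

variable {X : Type} [MetricSpace X] [CompactSpace X]
variable {q : ℝ} {E : Type} [NormedAddCommGroup E] [NormedSpace ℂ E]
variable {h : X ≃ₜ X} {p : ℝ} (W : Sys h p E)

theorem exists_nat_rpow_gt (r C : ℝ) (hr : 0 < r) : ∃ M : ℕ, 0 < M ∧ C < (M : ℝ) ^ r := by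
  have h1 := (tendsto_rpow_atTop hr).comp tendsto_natCast_atTop_atTop (α := ℕ)
  obtain ⟨M, hM1, hM2⟩ := ((h1.eventually_gt_atTop C).and (eventually_gt_atTop 0)).exists
  exact ⟨M, hM2, hM1⟩

theorem Sys.contra [CompleteSpace E] (L : EllQ q E) (hper : ∀ (x : X) (n : ℤ), n ≠ 0 → (h ^ n) x ≠ x)
    (hp : 1 ≤ p) (hq : 1 ≤ q) (hq2 : q ≠ 2) (hpq : p ≠ q) : W.Φ 1 = 0 := by
  classical
  by_contra hne
  have hp0 : 0 < p := by linarith
  have hq0 : 0 < q := by linarith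
  obtain ⟨ξ, hξ⟩ : ∃ ξ, W.Φ 1 ξ ≠ 0 := by
    by_contra hc
    push Not at hc
    exact hne (ContinuousLinearMap.ext hc)
  obtain ⟨x, η, hη0, hη⟩ := exists_eigenvector L W.Φ W.K W.hK ξ hq hq2 W.K0 hξ
  have est := fun (F : Finset ℤ) (ε : ℤ → ℂ) (hε : ∀ n, ‖ε n‖ = 1) => W.estimates hper hp x η hη F ε hε
  have hηn : 0 < ‖η‖ := norm_pos_iff.2 hη0
  have hK0 := W.K0
  have hxn : ∀ n, ‖W.U n η‖ ≤ W.K * ‖η‖ := by
    intro n
    have h1 := (est {n} (fun _ => 1) (fun _ => by simp)).1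
    simpa using h1
  let U0 : Ultrafilter ℤ := hyperfilter ℤ
  let C0 : Filter (ℤ × ℤ) := (U0 : Filter ℤ).curry (U0 : Filter ℤ)
  have hC0 : C0.NeBot := by
    rw [Filter.neBot_iff]
    intro hbot
    have h1 : ∀ᶠ i in C0, False := by rw [hbot]; exact Filter.eventually_bot
    rw [Filter.eventually_curry_iff] at h1
    obtain ⟨n, hn⟩ := h1.exists
    obtain ⟨m, hm⟩ := hn.exists
    exact hm
  let V : Ultrafilter (ℤ × ℤ) := Ultrafilter.of C0
  have hV : (V : Filter (ℤ × ℤ)) ≤ C0 := Ultrafilter.of_le C0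
  let y : ℤ × ℤ → E := fun i => W.U i.1 η - W.U i.2 η
  have hyD : ∀ i, ‖y i‖ ≤ 2 * (W.K * ‖η‖) := fun i => (norm_sub_le _ _).trans (by linarith [hxn i.1, hxn i.2])
  have hcoord : ∀ k, Tendsto (fun i => L.c k (y i)) V (𝓝 0) := by
    intro k
    obtain ⟨a, -, ha⟩ := (isCompact_closedBall (0 : ℂ) (W.K * ‖η‖)).ultrafilter_le_nhds (U0.map (fun n => L.c k (W.U n η))) (by
      rw [le_principal_iff]
      refine Filter.mem_map.2 (Filter.univ_mem' fun n => ?_)
      rw [Set.mem_preimage, mem_closedBall_zero_iff]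
      exact (L.c_le hq k _).trans (hxn n))
    have ha' : Tendsto (fun n => L.c k (W.U n η)) U0 (𝓝 a) := ha
    refine Tendsto.mono_left ?_ hV
    rw [Metric.tendsto_nhds]
    intro ε hε
    rw [Filter.eventually_curry_iff]
    have h1 := (Metric.tendsto_nhds.1 ha') (ε / 2) (by positivity)
    filter_upwards [h1] with n hn
    filter_upwards [h1] with m hm
    rw [dist_eq_norm] at hn hm ⊢
    simp only [y]
    rw [map_sub, sub_zero]
    calc ‖L.c k (W.U n η) - L.c k (W.U m η)‖ = ‖(L.c k (W.U n η) - a) - (L.c k (W.U m η) - a)‖ := by ring_nf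
      _ ≤ _ := norm_sub_le _ _
      _ < ε := by linarith
  have hcof : ∀ a : ℤ, ∀ᶠ n in (U0 : Filter ℤ), n ≠ a := by
    intro a
    have : (U0 : Filter ℤ) ≤ cofinite := hyperfilter_le_cofinite
    refine this ?_
    exact (Set.finite_singleton a).compl_mem_cofinite
  obtain ⟨l, hl, hl2⟩ := ultra_lim V (fun i => ‖y i‖ ^ q) 0 ((2 * (W.K * ‖η‖)) ^ q) (fun i =>
    ⟨Real.rpow_nonneg (norm_nonneg _) _, Real.rpow_le_rpow (norm_nonneg _) (hyD i) hq0.le⟩)
  have hsum2 : ∀ (S : Finset (ℤ × ℤ)), (∀ i ∈ S, i.1 ≠ i.2) →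
      (∀ i ∈ S, ∀ j ∈ S, i ≠ j → (j.1 ≠ i.1 ∧ j.1 ≠ i.2 ∧ j.2 ≠ i.1 ∧ j.2 ≠ i.2) ∨ (i.1 ≠ j.1 ∧ i.1 ≠ j.2 ∧ i.2 ≠ j.1 ∧ i.2 ≠ j.2)) →
      ‖∑ i ∈ S, y i‖ ≤ W.K * (2 * (S.card : ℝ)) ^ (1 / p) * ‖η‖ ∧ (2 * (S.card : ℝ)) ^ (1 / p) * ‖η‖ ≤ W.K * ‖∑ i ∈ S, y i‖ := by
    intro S hS1 hS2
    let F : Finset ℤ := S.biUnion (fun i => {i.1, i.2})
    let ε : ℤ → ℂ := fun j => if j ∈ S.image Prod.fst then 1 else -1
    have hε : ∀ n, ‖ε n‖ = 1 := by
      intro n
      simp only [ε]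
      split_ifs <;> simp
    have hpd : (S : Set (ℤ × ℤ)).PairwiseDisjoint (fun i => ({i.1, i.2} : Finset ℤ)) := by
      intro i hi j hj hij
      rw [Function.onFun, Finset.disjoint_left]
      intro a ha hb
      simp only [Finset.mem_insert, Finset.mem_singleton] at ha hb
      rcases hS2 i hi j hj hij with ⟨h1, h2, h3, h4⟩ | ⟨h1, h2, h3, h4⟩ <;>
        rcases ha with rfl | rfl <;> rcases hb with hb | hb <;> simp_all
    have hcard : F.card = 2 * S.card := by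
      rw [Finset.card_biUnion (fun i hi j hj hij => hpd hi hj hij)]
      rw [Finset.sum_congr rfl (fun i hi => Finset.card_pair (hS1 i hi)), Finset.sum_const, smul_eq_mul, mul_comm]
    have hsumF : ∑ j ∈ F, ε j • W.U j η = ∑ i ∈ S, y i := by
      rw [Finset.sum_biUnion hpd]
      refine Finset.sum_congr rfl fun i hi => ?_
      rw [Finset.sum_pair (hS1 i hi)]
      have h1 : ε i.1 = 1 := if_pos (Finset.mem_image_of_mem _ hi)
      have h2 : ε i.2 = -1 := by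
        refine if_neg ?_
        intro h3
        obtain ⟨j, hj, hji⟩ := Finset.mem_image.1 h3
        by_cases hij : i = j
        · rw [hij] at hji; exact hS1 j hj hji
        · rcases hS2 i hi j hj hij with ⟨_, h5, _, _⟩ | ⟨_, _, h6, _⟩
          · exact h5 hji
          · exact h6 hji.symm
      rw [h1, h2, one_smul, neg_one_smul, ← sub_eq_add_neg]
    have h1 := est F ε hε
    rw [hsumF, hcard] at h1
    push_cast at h1
    exact h1
  have hl0 : 0 < l := by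
    have h1 : ∀ᶠ i in (V : Filter (ℤ × ℤ)), ((2:ℝ) ^ (1 / p) * ‖η‖ / W.K) ^ q ≤ ‖y i‖ ^ q := by
      refine hV ?_
      change ∀ᶠ i in C0, _
      rw [Filter.eventually_curry_iff]
      refine Eventually.of_forall fun n => ?_
      filter_upwards [hcof n] with m hm
      apply Real.rpow_le_rpow (by positivity) _ hq0.le
      have h2 := (hsum2 {(n, m)} (by simpa using hm.symm) (by
        intro i hi j hj hij
        rw [Finset.mem_singleton] at hi hj
        exact absurd (hi.trans hj.symm) hij)).2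
      rw [Finset.sum_singleton, Finset.card_singleton, Nat.cast_one, mul_one] at h2
      rw [div_le_iff₀ hK0]
      linarith
    have h2 : ((2:ℝ) ^ (1 / p) * ‖η‖ / W.K) ^ q ≤ l := ge_of_tendsto hl2 h1
    exact lt_of_lt_of_le (by positivity) h2
  have hsel : ∀ M : ℕ, ∃ S : Finset (ℤ × ℤ), S.card = M ∧
      ‖∑ i ∈ S, y i‖ ≤ W.K * (2 * (M : ℝ)) ^ (1 / p) * ‖η‖ ∧ (2 * (M : ℝ)) ^ (1 / p) * ‖η‖ ≤ W.K * ‖∑ i ∈ S, y i‖ ∧
      M * (l / 2) ≤ ‖∑ i ∈ S, y i‖ ^ q ∧ ‖∑ i ∈ S, y i‖ ^ q ≤ M * (2 * l) := by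
    intro M
    obtain ⟨S, hS, hQ, hR, h1, h2⟩ := L.select hq V y _ hyD hcoord l hl2 hl0
      (fun i j => j.1 ≠ i.1 ∧ j.1 ≠ i.2 ∧ j.2 ≠ i.1 ∧ j.2 ≠ i.2) (fun i => i.1 ≠ i.2) (by
        intro i
        refine hV ?_
        change ∀ᶠ j in C0, _
        rw [Filter.eventually_curry_iff]
        filter_upwards [hcof i.1, hcof i.2] with n h1 h2
        filter_upwards [hcof i.1, hcof i.2] with m h3 h4
        exact ⟨⟨h1, h2, h3, h4⟩, fun heq => h1 (congrArg Prod.fst heq)⟩) (by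
        refine hV ?_
        change ∀ᶠ j in C0, _
        rw [Filter.eventually_curry_iff]
        refine Eventually.of_forall fun n => ?_
        filter_upwards [hcof n] with m hm
        exact hm.symm) M
    have h3 := hsum2 S hQ hR
    rw [hS] at h3
    exact ⟨S, hS, h3.1, h3.2, h1, h2⟩
  rcases lt_or_gt_of_ne hpq with hlt | hgt
  · -- p < q : lower bound from `p`, upper bound from `q`
    have hr : 0 < 1 / p - 1 / q := by
      have := one_div_lt_one_div_of_lt hp0 hlt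
      linarith
    obtain ⟨M, hM0, hM⟩ := exists_nat_rpow_gt (1 / p - 1 / q) (W.K * (2 * l) ^ (1 / q) / (2 ^ (1 / p) * ‖η‖)) hr
    obtain ⟨S, -, -, h2, -, h4⟩ := hsel M
    have hMr : (0 : ℝ) < M := by exact_mod_cast hM0
    have h5 : ‖∑ i ∈ S, y i‖ ≤ (M : ℝ) ^ (1 / q) * (2 * l) ^ (1 / q) := by
      have h6 := Real.rpow_le_rpow (Real.rpow_nonneg (norm_nonneg _) _) h4 (show 0 ≤ 1 / q by positivity)
      rw [← Real.rpow_mul (norm_nonneg _), mul_one_div_cancel hq0.ne', Real.rpow_one,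
        Real.mul_rpow hMr.le (by positivity)] at h6
      exact h6
    rw [div_lt_iff₀ (by positivity)] at hM
    have h7 : (M : ℝ) ^ (1 / p) = (M : ℝ) ^ (1 / p - 1 / q) * (M : ℝ) ^ (1 / q) := by
      rw [← Real.rpow_add hMr]; congr 1; ring
    rw [Real.mul_rpow (by norm_num) hMr.le, h7] at h2
    have h8 : 0 < (M : ℝ) ^ (1 / q) := Real.rpow_pos_of_pos hMr _
    have h9 : (M : ℝ) ^ (1 / q) * ((M : ℝ) ^ (1 / p - 1 / q) * (2 ^ (1 / p) * ‖η‖)) ≤
        (M : ℝ) ^ (1 / q) * (W.K * (2 * l) ^ (1 / q)) := by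
      calc (M : ℝ) ^ (1 / q) * ((M : ℝ) ^ (1 / p - 1 / q) * (2 ^ (1 / p) * ‖η‖))
          = 2 ^ (1 / p) * ((M : ℝ) ^ (1 / p - 1 / q) * (M : ℝ) ^ (1 / q)) * ‖η‖ := by ring
        _ ≤ W.K * ‖∑ i ∈ S, y i‖ := h2
        _ ≤ W.K * ((M : ℝ) ^ (1 / q) * (2 * l) ^ (1 / q)) := mul_le_mul_of_nonneg_left h5 hK0.le
        _ = _ := by ring
    have h10 := le_of_mul_le_mul_left h9 h8
    linarith
  · -- q < p
    have hr : 0 < 1 / q - 1 / p := by
      have := one_div_lt_one_div_of_lt hq0 hgt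
      linarith
    obtain ⟨M, hM0, hM⟩ := exists_nat_rpow_gt (1 / q - 1 / p) (W.K * 2 ^ (1 / p) * ‖η‖ / (l / 2) ^ (1 / q)) hr
    obtain ⟨S, -, h2, -, h4, -⟩ := hsel M
    have hMr : (0 : ℝ) < M := by exact_mod_cast hM0
    have h5 : (M : ℝ) ^ (1 / q) * (l / 2) ^ (1 / q) ≤ ‖∑ i ∈ S, y i‖ := by
      have h6 := Real.rpow_le_rpow (by positivity) h4 (show 0 ≤ 1 / q by positivity)
      rw [← Real.rpow_mul (norm_nonneg _), mul_one_div_cancel hq0.ne', Real.rpow_one,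
        Real.mul_rpow hMr.le (by positivity)] at h6
      exact h6
    rw [div_lt_iff₀ (by positivity)] at hM
    have h7 : (M : ℝ) ^ (1 / q) = (M : ℝ) ^ (1 / q - 1 / p) * (M : ℝ) ^ (1 / p) := by
      rw [← Real.rpow_add hMr]; congr 1; ring
    rw [Real.mul_rpow (by norm_num) hMr.le] at h2
    have h8 : 0 < (M : ℝ) ^ (1 / p) := Real.rpow_pos_of_pos hMr _
    have h9 : (M : ℝ) ^ (1 / p) * ((M : ℝ) ^ (1 / q - 1 / p) * (l / 2) ^ (1 / q)) ≤
        (M : ℝ) ^ (1 / p) * (W.K * 2 ^ (1 / p) * ‖η‖) := by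
      calc (M : ℝ) ^ (1 / p) * ((M : ℝ) ^ (1 / q - 1 / p) * (l / 2) ^ (1 / q))
          = (M : ℝ) ^ (1 / q) * (l / 2) ^ (1 / q) := by rw [h7]; ring
        _ ≤ W.K * (2 ^ (1 / p) * (M : ℝ) ^ (1 / p)) * ‖η‖ := h5.trans h2
        _ = _ := by ring
    have h10 := le_of_mul_le_mul_left h9 h8
    linarith

theorem Sys.estimates' (hp : 1 ≤ p) (η : E) (F : Finset ℤ) (C : Set X) (hC : IsClosed C)
    (hdisj : ∀ m ∈ F, ∀ n ∈ F, m ≠ n → Disjoint ((h ^ m) '' C) ((h ^ n) '' C))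
    (g : C(X, ℂ)) (hg0 : ∀ x ∉ C, g x = 0) (hgn : ‖g‖ ≤ 1) (hgη : W.Φ g η = η) (ε : ℤ → ℂ) (hε : ∀ n, ‖ε n‖ = 1) :
    ‖∑ n ∈ F, ε n • W.U n η‖ ≤ W.K * (F.card : ℝ) ^ (1 / p) * ‖η‖ ∧
    (F.card : ℝ) ^ (1 / p) * ‖η‖ ≤ W.K * ‖∑ n ∈ F, ε n • W.U n η‖ := by
  classical
  constructor
  · have h1 := W.n1 F ε hε _ hC hdisj g hg0 hgn
    have h2 : ∑ n ∈ F, ε n • W.U n η = (∑ n ∈ F, ε n • (W.U n * W.Φ g)) η := by
      rw [sum_apply]
      refine Finset.sum_congr rfl fun n _ => ?_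
      change _ = ε n • W.U n (W.Φ g η)
      rw [hgη]
    rw [h2]
    exact (ContinuousLinearMap.le_opNorm _ _).trans (mul_le_mul_of_nonneg_right h1 (norm_nonneg _))
  · have h1 := W.n2 F (fun n => star (ε n)) (fun n => by rw [norm_star, hε]) _ hC hdisj g hg0 hgn
    have h2 : (∑ m ∈ F, star (ε m) • (W.Φ g * W.U (-m))) (∑ n ∈ F, ε n • W.U n η) = (F.card : ℂ) • η := by
      have h3 : ∀ m ∈ F, (star (ε m) • (W.Φ g * W.U (-m))) (∑ n ∈ F, ε n • W.U n η) = η := by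
        intro m hm
        have h4 : ∀ n, (W.Φ g * W.U (-m)) (W.U n η) = W.Φ (g * alpha h (n - m) g) (W.U (n - m) η) := by
          intro n
          change W.Φ g ((W.U (-m) * W.U n) η) = _
          rw [W.Uadd, show -m + n = n - m by ring, map_mul]
          change W.Φ g (W.U (n - m) η) = W.Φ g ((W.Φ (alpha h (n - m) g) * W.U (n - m)) η)
          rw [← W.cov]
          change _ = W.Φ g (W.U (n - m) (W.Φ g η))
          rw [hgη]
        rw [map_sum, Finset.sum_eq_single m]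
        · have h5 : (W.Φ g * W.U (-m)) (W.U m η) = η := by
            change W.Φ g ((W.U (-m) * W.U m) η) = _
            rw [W.Uadd, neg_add_cancel, W.U0]
            change (W.Φ g * W.Φ 1) η = _
            rw [← map_mul, mul_one, hgη]
          rw [map_smul, smul_apply, h5, smul_smul]
          have : ε m * star (ε m) = 1 := by
            have := Complex.mul_conj (ε m)
            rw [Complex.normSq_eq_norm_sq, hε] at this
            simpa using this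
          rw [this, one_smul]
        · intro n hn hnm
          rw [map_smul, smul_apply, h4]
          have h6 : g * alpha h (n - m) g = 0 := by
            ext y
            rw [ContinuousMap.mul_apply, alpha_apply, ContinuousMap.zero_apply]
            by_cases hy : y ∈ C
            · have h7 : g ((h ^ (-(n - m))) y) = 0 := by
                apply hg0
                intro h7
                have h8 := hdisj m hm n hn hnm.symm
                rw [Set.disjoint_left] at h8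
                refine h8 ⟨y, hy, rfl⟩ ⟨_, h7, ?_⟩
                rw [← hpow_add]; congr 2; ring
              rw [h7, mul_zero]
            · rw [hg0 y hy, zero_mul]
          rw [h6, map_zero, ContinuousLinearMap.zero_apply, smul_zero, smul_zero]
        · intro h; exact absurd hm h
      rw [sum_apply, Finset.sum_congr rfl h3, Finset.sum_const, Nat.cast_smul_eq_nsmul]
    have h3 := (∑ m ∈ F, star (ε m) • (W.Φ g * W.U (-m))).le_opNorm (∑ n ∈ F, ε n • W.U n η)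
    rw [h2, norm_smul, Complex.norm_natCast] at h3
    have h4 : (F.card : ℝ) * ‖η‖ ≤ W.K * (F.card : ℝ) ^ (1 - 1 / p) * ‖∑ n ∈ F, ε n • W.U n η‖ :=
      h3.trans (mul_le_mul_of_nonneg_right h1 (norm_nonneg _))
    by_cases hF : F.card = 0
    · rw [hF]
      have : ((0 : ℕ) : ℝ) ^ (1 / p) = 0 := by
        rw [Nat.cast_zero, Real.zero_rpow]; positivity
      rw [this, zero_mul]
      exact mul_nonneg W.K0.le (norm_nonneg _)
    · have hF0 : (0 : ℝ) < F.card := by exact_mod_cast Nat.pos_of_ne_zero hF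
      have h5 : (F.card : ℝ) = (F.card : ℝ) ^ (1 / p) * (F.card : ℝ) ^ (1 - 1 / p) := by
        rw [← Real.rpow_add hF0, add_sub_cancel, Real.rpow_one]
      have h6 : 0 < (F.card : ℝ) ^ (1 - 1 / p) := Real.rpow_pos_of_pos hF0 _
      have h7 : (F.card : ℝ) ^ (1 - 1 / p) * ((F.card : ℝ) ^ (1 / p) * ‖η‖) ≤
          (F.card : ℝ) ^ (1 - 1 / p) * (W.K * ‖∑ n ∈ F, ε n • W.U n η‖) := by
        calc (F.card : ℝ) ^ (1 - 1 / p) * ((F.card : ℝ) ^ (1 / p) * ‖η‖) = (F.card : ℝ) * ‖η‖ := by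
              nth_rewrite 3 [h5]; ring
          _ ≤ _ := h4
          _ = _ := by ring
      exact le_of_mul_le_mul_left h7 h6

theorem EllQ.parallelogram (L : EllQ 2 E) (a b : E) : ‖a + b‖ ^ 2 + ‖a - b‖ ^ 2 = 2 * (‖a‖ ^ 2 + ‖b‖ ^ 2) := by
  have h1 := ((L.hnorm (a + b)).add (L.hnorm (a - b)))
  have h2 := ((L.hnorm a).add (L.hnorm b)).mul_left 2
  have h3 : (fun k => ‖L.c k (a + b)‖ ^ (2:ℝ) + ‖L.c k (a - b)‖ ^ (2:ℝ)) = fun k => 2 * (‖L.c k a‖ ^ (2:ℝ) + ‖L.c k b‖ ^ (2:ℝ)) := by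
    funext k
    rw [map_add, map_sub, Real.rpow_two, Real.rpow_two, Real.rpow_two, Real.rpow_two]
    exact parallelogram_law_with_norm ℝ (L.c k a) (L.c k b)
  rw [h3] at h1
  have := h1.unique h2
  simpa only [Real.rpow_two] using this

theorem signs_le (L : EllQ 2 E) (x : ℤ → E) (F : Finset ℤ) :
    ∃ ε : ℤ → ℂ, (∀ n, ‖ε n‖ = 1) ∧ ‖∑ n ∈ F, ε n • x n‖ ^ 2 ≤ ∑ n ∈ F, ‖x n‖ ^ 2 := by
  classical
  induction F using Finset.induction_on with
  | empty => exact ⟨fun _ => 1, by simp, by simp⟩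
  | insert a F ha ih =>
    obtain ⟨ε, hε, h1⟩ := ih
    have hpar := L.parallelogram (∑ n ∈ F, ε n • x n) (x a)
    have hupd : ∀ s : ℂ, ∑ n ∈ insert a F, (Function.update ε a s n) • x n = s • x a + ∑ n ∈ F, ε n • x n := by
      intro s
      rw [Finset.sum_insert ha, Function.update_self]
      congr 1
      refine Finset.sum_congr rfl fun i hi => ?_
      have hne : i ≠ a := fun h => ha (h ▸ hi)
      rw [Function.update_of_ne hne]
    have hn : ∀ s : ℂ, ‖s‖ = 1 → ∀ n, ‖Function.update ε a s n‖ = 1 := by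
      intro s hs n
      by_cases h : n = a
      · rw [h, Function.update_self]; exact hs
      · rw [Function.update_of_ne h]; exact hε n
    rw [Finset.sum_insert ha]
    by_cases hc : ‖∑ n ∈ F, ε n • x n + x a‖ ^ 2 ≤ ‖∑ n ∈ F, ε n • x n‖ ^ 2 + ‖x a‖ ^ 2
    · refine ⟨Function.update ε a 1, hn 1 (by simp), ?_⟩
      rw [hupd, one_smul, add_comm (x a)]
      linarith
    · refine ⟨Function.update ε a (-1), hn (-1) (by simp), ?_⟩
      rw [hupd, neg_one_smul, neg_add_eq_sub]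
      push Not at hc
      linarith

theorem signs_ge (L : EllQ 2 E) (x : ℤ → E) (F : Finset ℤ) :
    ∃ ε : ℤ → ℂ, (∀ n, ‖ε n‖ = 1) ∧ ∑ n ∈ F, ‖x n‖ ^ 2 ≤ ‖∑ n ∈ F, ε n • x n‖ ^ 2 := by
  classical
  induction F using Finset.induction_on with
  | empty => exact ⟨fun _ => 1, by simp, by simp⟩
  | insert a F ha ih =>
    obtain ⟨ε, hε, h1⟩ := ih
    have hpar := L.parallelogram (∑ n ∈ F, ε n • x n) (x a)
    have hupd : ∀ s : ℂ, ∑ n ∈ insert a F, (Function.update ε a s n) • x n = s • x a + ∑ n ∈ F, ε n • x n := by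
      intro s
      rw [Finset.sum_insert ha, Function.update_self]
      congr 1
      refine Finset.sum_congr rfl fun i hi => ?_
      have hne : i ≠ a := fun h => ha (h ▸ hi)
      rw [Function.update_of_ne hne]
    have hn : ∀ s : ℂ, ‖s‖ = 1 → ∀ n, ‖Function.update ε a s n‖ = 1 := by
      intro s hs n
      by_cases h : n = a
      · rw [h, Function.update_self]; exact hs
      · rw [Function.update_of_ne h]; exact hε n
    rw [Finset.sum_insert ha]
    by_cases hc : ‖∑ n ∈ F, ε n • x n‖ ^ 2 + ‖x a‖ ^ 2 ≤ ‖∑ n ∈ F, ε n • x n + x a‖ ^ 2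
    · refine ⟨Function.update ε a 1, hn 1 (by simp), ?_⟩
      rw [hupd, one_smul, add_comm (x a)]
      linarith
    · refine ⟨Function.update ε a (-1), hn (-1) (by simp), ?_⟩
      rw [hupd, neg_one_smul, neg_add_eq_sub]
      push Not at hc
      linarith

theorem Sys.exists_local (hper : ∀ (x : X) (n : ℤ), n ≠ 0 → (h ^ n) x ≠ x) (hne : W.Φ 1 ≠ 0) (F : Finset ℤ) :
    ∃ (η : E) (C : Set X) (g : C(X, ℂ)), η ≠ 0 ∧ IsClosed C ∧
      (∀ m ∈ F, ∀ n ∈ F, m ≠ n → Disjoint ((h ^ m) '' C) ((h ^ n) '' C)) ∧ (∀ x ∉ C, g x = 0) ∧ ‖g‖ ≤ 1 ∧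
      W.Φ g η = η := by
  classical
  have h1 : ∀ x : X, ∃ r > 0, ∀ m ∈ F, ∀ n ∈ F, m ≠ n →
      Disjoint ((h ^ m) '' (Metric.closedBall x (3 * r))) ((h ^ n) '' (Metric.closedBall x (3 * r))) := by
    intro x
    obtain ⟨V, hV, hd⟩ := exists_disjoint_nhd h hper x F
    obtain ⟨r, hr, hrV⟩ := Metric.nhds_basis_closedBall.mem_iff.1 hV
    refine ⟨r / 3, by positivity, fun m hm n hn hmn => ?_⟩
    rw [mul_div_cancel₀ _ (by norm_num : (3:ℝ) ≠ 0)]
    exact Set.disjoint_of_subset (Set.image_mono hrV) (Set.image_mono hrV) (hd m hm n hn hmn)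
  choose r hr hd using h1
  obtain ⟨t, -, ht⟩ := isCompact_univ.elim_nhds_subcover (fun x => Metric.ball x (r x)) (fun x _ => Metric.ball_mem_nhds x (hr x))
  let χ : X → C(X, ℂ) := fun z => cs (cut z (r z) (2 * r z))
  obtain ⟨z, -, hz⟩ : ∃ z ∈ t, W.Φ (χ z) ≠ 0 := by
    by_contra hcon
    push Not at hcon
    apply hne
    have h2 : ∀ s : Finset X, s ⊆ t → W.Φ (∏ z ∈ s, (1 - χ z)) = W.Φ 1 := by
      intro s
      induction s using Finset.induction_on with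
      | empty => intro _; simp
      | insert a s ha ih =>
        intro hs
        rw [Finset.prod_insert ha, sub_mul, one_mul, map_sub, ih (fun x hx => hs (Finset.mem_insert_of_mem hx)), map_mul,
          hcon a (hs (Finset.mem_insert_self _ _)), zero_mul, sub_zero]
    rw [← h2 t le_rfl]
    have h3 : ∏ z ∈ t, (1 - χ z) = 0 := by
      ext x
      rw [ContinuousMap.prod_apply, ContinuousMap.zero_apply]
      obtain ⟨y, hy, hxy⟩ := Set.mem_iUnion₂.1 (ht (Set.mem_univ x))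
      apply Finset.prod_eq_zero hy
      rw [ContinuousMap.sub_apply, ContinuousMap.one_apply]
      simp only [χ, cs_apply]
      rw [cut_eq_one y _ _ (by linarith [hr y]) x (Metric.mem_ball.1 hxy).le, Complex.ofReal_one, sub_self]
    rw [h3, map_zero]
  obtain ⟨ζ, hζ⟩ : ∃ ζ, W.Φ (χ z) ζ ≠ 0 := by
    by_contra hc
    push Not at hc
    exact hz (ContinuousLinearMap.ext hc)
  refine ⟨W.Φ (χ z) ζ, Metric.closedBall z (3 * r z), cs (cut z (2 * r z) (3 * r z)), hζ, Metric.isClosed_closedBall,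
    hd z, ?_, cut_norm _ _ _, ?_⟩
  · intro y hy
    rw [Metric.mem_closedBall, not_le] at hy
    rw [cs_apply, cut_eq_zero z _ _ (by linarith [hr z]) y hy.le, Complex.ofReal_zero]
  · change (W.Φ (cs (cut z (2 * r z) (3 * r z))) * W.Φ (χ z)) ζ = _
    rw [← map_mul]
    congr 2
    ext y
    rw [ContinuousMap.mul_apply]
    simp only [χ, cs_apply]
    by_cases hy : dist y z ≤ 2 * r z
    · rw [cut_eq_one z (2 * r z) _ (by linarith [hr z]) y hy, Complex.ofReal_one, one_mul]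
    · rw [cut_eq_zero z (r z) (2 * r z) (by linarith [hr z]) y (not_le.1 hy).le, Complex.ofReal_zero, mul_zero]

theorem Sys.contra2 (L : EllQ 2 E) (hper : ∀ (x : X) (n : ℤ), n ≠ 0 → (h ^ n) x ≠ x)
    (hp : 1 ≤ p) (hp2 : p ≠ 2) : W.Φ 1 = 0 := by
  classical
  by_contra hne
  have hp0 : 0 < p := by linarith
  have hK0 := W.K0
  have key : ∀ N : ℕ, 0 < N → (N : ℝ) ^ (1 / p) ≤ W.K ^ 2 * (N : ℝ) ^ ((1:ℝ) / 2) ∧ (N : ℝ) ^ ((1:ℝ) / 2) ≤ W.K ^ 2 * (N : ℝ) ^ (1 / p) := by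
    intro N hN
    have hNr : (0 : ℝ) < N := by exact_mod_cast hN
    let F : Finset ℤ := (Finset.range N).image (fun n : ℕ => (n : ℤ))
    have hF : F.card = N := by
      rw [Finset.card_image_of_injective _ Nat.cast_injective, Finset.card_range]
    obtain ⟨η, C, g, hη, hC, hdisj, hg0, hgn, hgη⟩ := W.exists_local hper hne F
    have hηn : 0 < ‖η‖ := norm_pos_iff.2 hη
    have est := fun ε hε => W.estimates' hp η F C hC hdisj g hg0 hgn hgη ε hε
    have hone : ∀ n ∈ F, ‖W.U n η‖ ≤ W.K * ‖η‖ ∧ ‖η‖ ≤ W.K * ‖W.U n η‖ := by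
      intro n _
      have := W.estimates' hp η {n} C hC (by
        intro m hm n hn hmn
        rw [Finset.mem_singleton] at hm hn
        exact absurd (hm.trans hn.symm) hmn) g hg0 hgn hgη (fun _ => 1) (by simp)
      simpa using this
    obtain ⟨ε1, hε1, h1⟩ := signs_le L (fun n => W.U n η) F
    obtain ⟨ε2, hε2, h2⟩ := signs_ge L (fun n => W.U n η) F
    have hNsq : (N : ℝ) = ((N : ℝ) ^ ((1:ℝ) / 2)) ^ 2 := by
      rw [← Real.rpow_natCast, ← Real.rpow_mul hNr.le]; norm_num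
    constructor
    · have h3 : ‖∑ n ∈ F, ε1 n • W.U n η‖ ^ 2 ≤ ((N : ℝ) ^ ((1:ℝ) / 2) * (W.K * ‖η‖)) ^ 2 := by
        refine h1.trans ?_
        calc ∑ n ∈ F, ‖W.U n η‖ ^ 2 ≤ ∑ n ∈ F, (W.K * ‖η‖) ^ 2 :=
              Finset.sum_le_sum fun n hn => pow_le_pow_left₀ (norm_nonneg _) (hone n hn).1 2
          _ = (N : ℝ) * (W.K * ‖η‖) ^ 2 := by rw [Finset.sum_const, hF, nsmul_eq_mul]
          _ = _ := by nth_rewrite 1 [hNsq]; ring
      have h4 := abs_le_of_sq_le_sq' h3 (by positivity)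
      have h5 := (est ε1 hε1).2
      rw [hF] at h5
      have h6 : (N : ℝ) ^ (1 / p) * ‖η‖ ≤ W.K ^ 2 * (N : ℝ) ^ ((1:ℝ) / 2) * ‖η‖ := by
        calc (N : ℝ) ^ (1 / p) * ‖η‖ ≤ W.K * ‖∑ n ∈ F, ε1 n • W.U n η‖ := h5
          _ ≤ W.K * ((N : ℝ) ^ ((1:ℝ) / 2) * (W.K * ‖η‖)) := mul_le_mul_of_nonneg_left h4.2 hK0.le
          _ = _ := by ring
      exact le_of_mul_le_mul_right h6 hηn
    · have h3 : ((N : ℝ) ^ ((1:ℝ) / 2) * (‖η‖ / W.K)) ^ 2 ≤ ‖∑ n ∈ F, ε2 n • W.U n η‖ ^ 2 := by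
        refine le_trans ?_ h2
        calc ((N : ℝ) ^ ((1:ℝ) / 2) * (‖η‖ / W.K)) ^ 2 = (N : ℝ) * (‖η‖ / W.K) ^ 2 := by
              nth_rewrite 2 [hNsq]; ring
          _ = ∑ n ∈ F, (‖η‖ / W.K) ^ 2 := by rw [Finset.sum_const, hF, nsmul_eq_mul]
          _ ≤ _ := Finset.sum_le_sum fun n hn => pow_le_pow_left₀ (by positivity) (by
              rw [div_le_iff₀ hK0]; linarith [(hone n hn).2]) 2
      have h4 := (abs_le_of_sq_le_sq' h3 (norm_nonneg _)).2
      have h5 := (est ε2 hε2).1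
      rw [hF] at h5
      have h6 : (N : ℝ) ^ ((1:ℝ) / 2) * ‖η‖ ≤ W.K ^ 2 * (N : ℝ) ^ (1 / p) * ‖η‖ := by
        have h7 : (N : ℝ) ^ ((1:ℝ) / 2) * (‖η‖ / W.K) ≤ W.K * (N : ℝ) ^ (1 / p) * ‖η‖ := h4.trans h5
        rw [mul_div_assoc', div_le_iff₀ hK0] at h7
        calc (N : ℝ) ^ ((1:ℝ) / 2) * ‖η‖ ≤ W.K * (N : ℝ) ^ (1 / p) * ‖η‖ * W.K := h7
          _ = _ := by ring
      exact le_of_mul_le_mul_right h6 hηn
  rcases lt_or_gt_of_ne hp2 with hlt | hgt
  · have hr : 0 < 1 / p - 1 / 2 := by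
      have := one_div_lt_one_div_of_lt hp0 hlt
      linarith
    obtain ⟨N, hN0, hN⟩ := exists_nat_rpow_gt (1 / p - 1 / 2) (W.K ^ 2) hr
    have hNr : (0 : ℝ) < N := by exact_mod_cast hN0
    have h1 := (key N hN0).1
    have h2 : (N : ℝ) ^ (1 / p) = (N : ℝ) ^ (1 / p - 1 / 2) * (N : ℝ) ^ ((1:ℝ) / 2) := by
      rw [← Real.rpow_add hNr]; congr 1; ring
    rw [h2] at h1
    have h3 := le_of_mul_le_mul_right h1 (Real.rpow_pos_of_pos hNr _)
    linarith
  · have hr : 0 < 1 / 2 - 1 / p := by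
      have := one_div_lt_one_div_of_lt (by norm_num : (0:ℝ) < 2) hgt
      linarith
    obtain ⟨N, hN0, hN⟩ := exists_nat_rpow_gt (1 / 2 - 1 / p) (W.K ^ 2) hr
    have hNr : (0 : ℝ) < N := by exact_mod_cast hN0
    have h1 := (key N hN0).2
    have h2 : (N : ℝ) ^ ((1:ℝ) / 2) = (N : ℝ) ^ (1 / 2 - 1 / p) * (N : ℝ) ^ (1 / p) := by
      rw [← Real.rpow_add hNr]; congr 1; ring
    rw [h2] at h1
    have h3 := le_of_mul_le_mul_right h1 (Real.rpow_pos_of_pos hNr _)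
    linarith

end Pool.Agent.H636R3.Lx
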