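import Pool.Agent.H636R3.LxGood

/-! The full and the reduced norm satisfy `Good`. -/

set_option autoImplicit false
set_option linter.unusedSectionVars false
open scoped Topology ENNReal
open MeasureTheory

namespace Pool.Agent.H636R3.Lx

variable {X : Type} [MetricSpace X] [CompactSpace X] {h : X ≃ₜ X}

section
variable {q : ℝ≥0∞} [hq1 : Fact (1 ≤ q)] {F : Type} [NormedAddCommGroup F] [NormedSpace ℂ F]

theorem reg_int_coe (π₀ : C(X, ℂ) →ₐ[ℂ] (F →L[ℂ] F)) (hπ₀ : ∀ f, ‖π₀ f‖ ≤ ‖f‖) (a : Alg h) (S : Finset (ZZ h))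
    (hS : a.support ⊆ S) (ξ : lp (fun _ : ℤ => F) q) (k : ℤ) :
    (regRep h q π₀ hπ₀).int a ξ k = ∑ n ∈ S, π₀ (alpha h (-k) (a.coeff n)) (ξ (k - ti n)) := by
  rw [int_sum _ _ S hS, lp.coeFn_sum, Finset.sum_apply]
  refine Finset.sum_congr rfl fun n _ => ?_
  rw [regRep_π]
  congr 1
  exact shift_zpow (ti n) ξ k

theorem zk_norm (z : ℂ) (hz : ‖z‖ = 1) (k : ℤ) : ‖z ^ k • (1 : F →L[ℂ] F)‖ ≤ 1 := by
  rw [norm_smul, norm_zpow, hz, one_zpow, one_mul]
  exact ContinuousLinearMap.norm_id_le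

theorem reg_gauge (π₀ : C(X, ℂ) →ₐ[ℂ] (F →L[ℂ] F)) (hπ₀ : ∀ f, ‖π₀ f‖ ≤ ‖f‖) (z : ℂ) (hz : ‖z‖ = 1) (a : Alg h) :
    ‖(regRep h q π₀ hπ₀).int (mulW (fun n => z ^ n) a)‖ ≤ ‖(regRep h q π₀ hπ₀).int a‖ := by
  have hz0 : z ≠ 0 := by rintro rfl; simp at hz
  have hz' : ‖z⁻¹‖ = 1 := by rw [norm_inv, hz, inv_one]
  set G : lp (fun _ : ℤ => F) q →L[ℂ] lp (fun _ : ℤ => F) q := diag (fun k => z ^ k • (1 : F →L[ℂ] F)) 1 (zk_norm z hz) with hG
  set G' : lp (fun _ : ℤ => F) q →L[ℂ] lp (fun _ : ℤ => F) q :=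
    diag (fun k => z⁻¹ ^ k • (1 : F →L[ℂ] F)) 1 (zk_norm z⁻¹ hz') with hG'
  have h1 : (regRep h q π₀ hπ₀).int (mulW (fun n => z ^ n) a) = G * (regRep h q π₀ hπ₀).int a * G' := by
    ext ξ k
    change (regRep h q π₀ hπ₀).int (mulW (fun n => z ^ n) a) ξ k = z ^ k • ((regRep h q π₀ hπ₀).int a (G' ξ) k)
    rw [reg_int_coe _ _ _ a.support (support_mulW _ a), reg_int_coe _ _ _ a.support le_rfl, Finset.smul_sum]
    refine Finset.sum_congr rfl fun n _ => ?_
    have h2 : (G' ξ) (k - ti n) = z⁻¹ ^ (k - ti n) • ξ (k - ti n) := rfl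
    have h3 : alpha h (-k) ((mulW (fun n => z ^ n) a).coeff n) = z ^ (ti n) • alpha h (-k) (a.coeff n) := rfl
    rw [h2, h3, map_smul, map_smul, smul_smul, inv_zpow, ← zpow_neg, ← zpow_add₀ hz0]
    rw [show k + -(k - ti n) = ti n by ring]; rfl
  rw [h1]
  calc ‖G * (regRep h q π₀ hπ₀).int a * G'‖ ≤ ‖G‖ * ‖(regRep h q π₀ hπ₀).int a‖ * ‖G'‖ :=
        (norm_mul_le _ _).trans (mul_le_mul_of_nonneg_right (norm_mul_le _ _) (norm_nonneg _))
    _ ≤ 1 * ‖(regRep h q π₀ hπ₀).int a‖ * 1 := by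
        have hGn : ‖G‖ ≤ 1 := diag_norm _ _ _
        have hGn' : ‖G'‖ ≤ 1 := diag_norm _ _ _
        gcongr
    _ = _ := by ring

theorem memlp_vec (e : F) (he : ‖e‖ = 1) (ξ : lp (fun _ : ℤ => ℂ) q) : Memℓp (fun k => ξ k • e) q :=
  Memℓp.mono' (g := fun k => ξ k) (lp.memℓp ξ) fun k => by rw [norm_smul, he, mul_one]

/-- `ξ ↦ (ξ k • e)_k` -/
noncomputable def vec (e : F) (he : ‖e‖ = 1) : lp (fun _ : ℤ => ℂ) q →ₗᵢ[ℂ] lp (fun _ : ℤ => F) q where
  toFun ξ := ⟨fun k => ξ k • e, memlp_vec e he ξ⟩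
  map_add' ξ η := by
    apply lp.ext
    funext k
    exact add_smul _ _ _
  map_smul' c ξ := by
    apply lp.ext
    funext k
    exact (smul_smul c (ξ k) e).symm
  norm_map' ξ := by
    have h0 : q ≠ 0 := (zero_lt_one.trans_le hq1.out).ne'
    apply le_antisymm
    · refine lp.norm_mono h0 fun k => ?_
      change ‖ξ k • e‖ ≤ ‖ξ k‖
      rw [norm_smul, he, mul_one]
    · refine lp.norm_mono h0 fun k => ?_
      change ‖ξ k‖ ≤ ‖ξ k • e‖
      rw [norm_smul, he, mul_one]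

theorem vec_apply (e : F) (he : ‖e‖ = 1) (ξ : lp (fun _ : ℤ => ℂ) q) (k : ℤ) : vec e he ξ k = ξ k • e := rfl

theorem lam_le_reg (e : F) (he : ‖e‖ = 1) (x : X) (a : Alg h) :
    ‖(lam h q x).int a‖ ≤ ‖(regRep h q (evF F x) (evF_contr x)).int a‖ := by
  refine intertwine _ _ (vec e he) ?_ ?_ a
  · intro f ξ
    apply lp.ext
    funext k
    change (alpha h (-k) f x • ξ k) • e = alpha h (-k) f x • (ξ k • e)
    exact smul_assoc _ _ _
  · intro ξ
    rfl

end

theorem good_red (q : ℝ≥0∞) [hq1 : Fact (1 ≤ q)] : Good q (redN h q) where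
  gauge z hz a := by
    rw [redN, supN_apply]
    apply Real.sSup_le _ (supN_nonneg (redT_isRepNorm h q) a)
    rintro r ⟨N, hN, rfl⟩
    have h1 := le_supN (redT_isRepNorm h q) hN a
    obtain ⟨Ω, _, μ, _, π₀, hπ₀, rfl⟩ := hN
    exact (reg_gauge π₀ hπ₀ z hz a).trans h1
  mono_le n f := supN_mono _ _ n f
  lam_le x a := by
    have h0 : q ≠ 0 := (zero_lt_one.trans_le hq1.out).ne'
    set μ : Measure Unit := Measure.dirac () with hμ
    have he : ‖Lp.const q μ (1 : ℂ)‖ = 1 := by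
      rw [Lp.norm_const (E := ℂ) (μ := μ) (p := q) (c := 1) h0]; simp
    refine (lam_le_reg (Lp.const q μ (1 : ℂ)) he x a).trans ?_
    exact le_supN (redT_isRepNorm h q) (N := fun a => ‖(regRep h q (evF (Lp ℂ q μ) x) (evF_contr x)).int a‖)
      ⟨Unit, _, μ, inferInstance, _, _, rfl⟩ a

section transport
variable {E E' : Type} [NormedAddCommGroup E] [NormedSpace ℂ E] [NormedAddCommGroup E'] [NormedSpace ℂ E']

/-- transport of operators along an isometric isomorphism -/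
noncomputable def conjE (e : E ≃ₗᵢ[ℂ] E') (T : E →L[ℂ] E) : E' →L[ℂ] E' :=
  (e.toContinuousLinearEquiv : E →L[ℂ] E').comp (T.comp (e.symm.toContinuousLinearEquiv : E' →L[ℂ] E))

theorem conjE_apply (e : E ≃ₗᵢ[ℂ] E') (T : E →L[ℂ] E) (ξ : E') : conjE e T ξ = e (T (e.symm ξ)) := rfl

/-- transport of a representation along an isometric isomorphism -/
noncomputable def CovRep.transport (ρ : CovRep h E) (e : E ≃ₗᵢ[ℂ] E') : CovRep h E' where
  π :=
    { toFun := fun f => conjE e (ρ.π f)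
      map_one' := by
        ext ξ
        rw [conjE_apply, map_one]
        exact e.apply_symm_apply ξ
      map_mul' := fun f g => by
        ext ξ
        change conjE e (ρ.π (f * g)) ξ = conjE e (ρ.π f) (conjE e (ρ.π g) ξ)
        rw [conjE_apply, conjE_apply, conjE_apply, map_mul, e.symm_apply_apply]; rfl
      map_zero' := by
        ext ξ
        rw [conjE_apply, map_zero]
        exact map_zero e
      map_add' := fun f g => by
        ext ξ
        change conjE e (ρ.π (f + g)) ξ = conjE e (ρ.π f) ξ + conjE e (ρ.π g) ξ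
        rw [conjE_apply, conjE_apply, conjE_apply, map_add ρ.π, ← map_add e]; rfl
      commutes' := fun c => by
        ext ξ
        rw [conjE_apply, AlgHomClass.commutes]
        change e (c • e.symm ξ) = c • ξ
        rw [map_smul, e.apply_symm_apply] }
  contr f := by
    refine ContinuousLinearMap.opNorm_le_bound _ (norm_nonneg _) fun ξ => ?_
    change ‖e (ρ.π f (e.symm ξ))‖ ≤ _
    rw [e.norm_map]
    refine ((ρ.π f).le_opNorm _).trans ?_
    rw [e.symm.norm_map]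
    exact mul_le_mul_of_nonneg_right (ρ.contr f) (norm_nonneg _)
  v := (e.symm.trans ρ.v).trans e
  cov f ξ := by
    change e (ρ.v (e.symm (e (ρ.π f (e.symm (e (ρ.v.symm (e.symm ξ)))))))) = e (ρ.π (alpha h 1 f) (e.symm ξ))
    rw [e.symm_apply_apply, e.symm_apply_apply, ρ.cov]

theorem le_transport (ρ : CovRep h E) (e : E ≃ₗᵢ[ℂ] E') (a : Alg h) : ‖ρ.int a‖ ≤ ‖(ρ.transport e).int a‖ := by
  refine intertwine _ _ e.toLinearIsometry ?_ ?_ a
  · intro f ξ
    change e (ρ.π f ξ) = e (ρ.π f (e.symm (e ξ)))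
    rw [e.symm_apply_apply]
  · intro ξ
    change e (ρ.v ξ) = e (ρ.v (e.symm (e ξ)))
    rw [e.symm_apply_apply]

end transport

section count
variable {q : ℝ≥0∞} [hq1 : Fact (1 ≤ q)]

theorem eLpNorm_count_int (hq : q ≠ ∞) (f : ℤ → ℂ) :
    eLpNorm f q (Measure.count : Measure ℤ) = (∑' k, ‖f k‖ₑ ^ q.toReal) ^ (1 / q.toReal) := by
  rw [eLpNorm_eq_lintegral_rpow_enorm_toReal (zero_lt_one.trans_le hq1.out).ne' hq, lintegral_count]

theorem memLp_count (hq : q ≠ ∞) (ξ : lp (fun _ : ℤ => ℂ) q) : MemLp (fun k => ξ k) q (Measure.count : Measure ℤ) := by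
  have h0 : 0 < q.toReal := ENNReal.toReal_pos (zero_lt_one.trans_le hq1.out).ne' hq
  refine ⟨(measurable_from_top).aestronglyMeasurable, ?_⟩
  rw [eLpNorm_count_int hq]
  apply ENNReal.rpow_lt_top_of_nonneg (by positivity)
  have h1 := (lp.memℓp ξ).summable h0
  have h2 : ∀ k : ℤ, ‖ξ k‖ₑ ^ q.toReal = ENNReal.ofReal (‖ξ k‖ ^ q.toReal) := by
    intro k
    rw [← ofReal_norm, ENNReal.ofReal_rpow_of_nonneg (norm_nonneg _) h0.le]
  simp_rw [h2]
  rw [← ENNReal.ofReal_tsum_of_nonneg (fun k => by positivity) h1]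
  exact ENNReal.ofReal_ne_top

theorem norm_count (hq : q ≠ ∞) (ξ : lp (fun _ : ℤ => ℂ) q) : ‖(memLp_count hq ξ).toLp‖ = ‖ξ‖ := by
  have h0 : 0 < q.toReal := ENNReal.toReal_pos (zero_lt_one.trans_le hq1.out).ne' hq
  rw [Lp.norm_toLp, eLpNorm_count_int hq, lp.norm_eq_tsum_rpow h0]
  have h1 := (lp.memℓp ξ).summable h0
  have h2 : ∀ k : ℤ, ‖ξ k‖ₑ ^ q.toReal = ENNReal.ofReal (‖ξ k‖ ^ q.toReal) := by
    intro k
    rw [← ofReal_norm, ENNReal.ofReal_rpow_of_nonneg (norm_nonneg _) h0.le]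
  simp_rw [h2]
  rw [← ENNReal.ofReal_tsum_of_nonneg (fun k => by positivity) h1, ← ENNReal.toReal_rpow,
    ENNReal.toReal_ofReal (tsum_nonneg fun k => by positivity)]

theorem count_surj (hq : q ≠ ∞) (f : Lp ℂ q (Measure.count : Measure ℤ)) :
    ∃ ξ : lp (fun _ : ℤ => ℂ) q, (memLp_count hq ξ).toLp = f := by
  have h0 : 0 < q.toReal := ENNReal.toReal_pos (zero_lt_one.trans_le hq1.out).ne' hq
  have h1 : Memℓp (fun k => f k) q := by
    rw [memℓp_gen_iff h0]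
    have h2 := (Lp.memLp f).2
    rw [eLpNorm_count_int hq] at h2
    have h3 : (∑' k, ‖f k‖ₑ ^ q.toReal) ≠ ∞ := by
      intro h4
      rw [h4, ENNReal.top_rpow_of_pos (by positivity)] at h2
      exact lt_irrefl _ h2
    have h5 := ENNReal.summable_toReal h3
    refine h5.congr fun k => ?_
    rw [← ENNReal.toReal_rpow, toReal_enorm]
  refine ⟨⟨fun k => f k, h1⟩, ?_⟩
  exact Lp.toLp_coeFn f _

/-- `ℓ^q(ℤ)` is `L^q` of the counting measure -/
noncomputable def lpCount (hq : q ≠ ∞) : lp (fun _ : ℤ => ℂ) q ≃ₗᵢ[ℂ] Lp ℂ q (Measure.count : Measure ℤ) :=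
  LinearIsometryEquiv.ofSurjective
    { toFun := fun ξ => (memLp_count hq ξ).toLp
      map_add' := fun _ _ => rfl
      map_smul' := fun _ _ => rfl
      norm_map' := fun ξ => norm_count hq ξ } (fun f => count_surj hq f)

end count

theorem good_full (q : ℝ≥0∞) [hq1 : Fact (1 ≤ q)] (hq : q ≠ ∞) : Good q (fullN q h) where
  gauge z hz a := by
    rw [fullN, supN_apply]
    apply Real.sSup_le _ (supN_nonneg (fullT_isRepNorm q h) a)
    rintro r ⟨N, hN, rfl⟩
    obtain ⟨Ω, _, μ, _, ρ, rfl⟩ := hN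
    have h1 := le_supN (fullT_isRepNorm q h) (N := fun a => ‖(ρ.twist z hz).int a‖) ⟨Ω, _, μ, inferInstance, _, rfl⟩ a
    change ‖(ρ.twist z hz).int a‖ ≤ _ at h1
    rw [int_twist] at h1
    exact h1
  mono_le n f := supN_mono _ _ n f
  lam_le x a := by
    refine (le_transport (lam h q x) (lpCount hq) a).trans ?_
    exact le_supN (fullT_isRepNorm q h) (N := fun a => ‖((lam h q x).transport (lpCount hq)).int a‖)
      ⟨ℤ, _, Measure.count, inferInstance, _, rfl⟩ a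

end Pool.Agent.H636R3.Lx
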