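import Mathlib
import Pool.Agent.H636R3.LxDiff

/-! Contractive representations of `C(X)` on `L^p`: disjoint functions have orthogonal ranges. -/

set_option autoImplicit false
set_option linter.unusedSectionVars false
open scoped Topology ENNReal
open MeasureTheory Filter

namespace Pool.Agent.H636R3.Lx

section scalar

theorem rpow_add_lt {r s t : ℝ} (hr : 1 < r) (hs : 0 < s) (ht : 0 < t) : s ^ r + t ^ r < (s + t) ^ r := by
  have h1 : ∀ a b : ℝ, 0 < a → 0 < b → a ^ r < a * (a + b) ^ (r - 1) := by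
    intro a b ha hb
    have : a ^ r = a * a ^ (r - 1) := by
      rw [← Real.rpow_one_add' ha.le (by linarith)]; congr 1; ring
    rw [this]
    exact mul_lt_mul_of_pos_left (Real.rpow_lt_rpow ha.le (by linarith) (by linarith)) ha
  have h2 := h1 s t hs ht
  have h3 := h1 t s ht hs
  rw [add_comm t s] at h3
  have h4 : (s + t) ^ r = s * (s + t) ^ (r - 1) + t * (s + t) ^ (r - 1) := by
    rw [← add_mul, ← Real.rpow_one_add' (by positivity) (by linarith)]; congr 1; ring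
  linarith

theorem lt_rpow_add {r s t : ℝ} (hr0 : 0 < r) (hr : r < 1) (hs : 0 < s) (ht : 0 < t) : (s + t) ^ r < s ^ r + t ^ r := by
  have h1 : ∀ a b : ℝ, 0 < a → 0 < b → a * (a + b) ^ (r - 1) < a ^ r := by
    intro a b ha hb
    have : a ^ r = a * a ^ (r - 1) := by
      rw [← Real.rpow_one_add' ha.le (by linarith)]; congr 1; ring
    rw [this]
    exact mul_lt_mul_of_pos_left (Real.rpow_lt_rpow_of_neg ha (by linarith) (by linarith)) ha
  have h2 := h1 s t hs ht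
  have h3 := h1 t s ht hs
  rw [add_comm t s] at h3
  have h4 : (s + t) ^ r = s * (s + t) ^ (r - 1) + t * (s + t) ^ (r - 1) := by
    rw [← add_mul, ← Real.rpow_one_add' (by positivity) (by linarith)]; congr 1; ring
  linarith

/-- the Clarkson defect -/
noncomputable def dfc (P : ℝ) (a b : ℂ) : ℝ := ‖a + b‖ ^ P + ‖a - b‖ ^ P - 2 * ‖a‖ ^ P - 2 * ‖b‖ ^ P

theorem norm_rpow_sq (P : ℝ) (a : ℂ) : ‖a‖ ^ P = (‖a‖ ^ 2) ^ (P / 2) := by
  rw [← Real.rpow_natCast, ← Real.rpow_mul (norm_nonneg _)]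
  congr 1
  push_cast; ring

theorem dfc_gt (P : ℝ) (hP : 2 < P) (a b : ℂ) : 0 ≤ dfc P a b ∧ (dfc P a b = 0 → a = 0 ∨ b = 0) := by
  have hpar : ‖a + b‖ ^ 2 + ‖a - b‖ ^ 2 = 2 * (‖a‖ ^ 2 + ‖b‖ ^ 2) := parallelogram_law_with_norm ℝ a b
  have hconv := (convexOn_rpow (show 1 ≤ P / 2 by linarith)).2
    (Set.mem_Ici.2 (show 0 ≤ ‖a + b‖ ^ 2 by positivity)) (Set.mem_Ici.2 (show 0 ≤ ‖a - b‖ ^ 2 by positivity))
    (show (0:ℝ) ≤ 1 / 2 by norm_num) (show (0:ℝ) ≤ 1 / 2 by norm_num) (show (1 / 2 : ℝ) + 1 / 2 = 1 by norm_num)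
  simp only [smul_eq_mul] at hconv
  have h1 : 1 / 2 * ‖a + b‖ ^ 2 + 1 / 2 * ‖a - b‖ ^ 2 = ‖a‖ ^ 2 + ‖b‖ ^ 2 := by linarith
  rw [h1, ← norm_rpow_sq, ← norm_rpow_sq] at hconv
  by_cases ha : a = 0
  · refine ⟨?_, fun _ => Or.inl ha⟩
    rw [dfc, ha, zero_add, zero_sub, norm_neg, norm_zero, Real.zero_rpow (by linarith)]
    linarith
  by_cases hb : b = 0
  · refine ⟨?_, fun _ => Or.inr hb⟩
    rw [dfc, hb, add_zero, sub_zero, norm_zero, Real.zero_rpow (by linarith)]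
    linarith
  have ha' : 0 < ‖a‖ ^ 2 := by positivity
  have hb' : 0 < ‖b‖ ^ 2 := by positivity
  have h2 := rpow_add_lt (show 1 < P / 2 by linarith) ha' hb'
  rw [← norm_rpow_sq, ← norm_rpow_sq] at h2
  have h3 : 0 < dfc P a b := by rw [dfc]; linarith
  exact ⟨h3.le, fun h => absurd h h3.ne'⟩

theorem dfc_lt (P : ℝ) (hP1 : 1 ≤ P) (hP : P < 2) (a b : ℂ) : dfc P a b ≤ 0 ∧ (dfc P a b = 0 → a = 0 ∨ b = 0) := by
  have hpar : ‖a + b‖ ^ 2 + ‖a - b‖ ^ 2 = 2 * (‖a‖ ^ 2 + ‖b‖ ^ 2) := parallelogram_law_with_norm ℝ a b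
  have hconv := (Real.concaveOn_rpow (show 0 ≤ P / 2 by linarith) (show P / 2 ≤ 1 by linarith)).2
    (Set.mem_Ici.2 (show 0 ≤ ‖a + b‖ ^ 2 by positivity)) (Set.mem_Ici.2 (show 0 ≤ ‖a - b‖ ^ 2 by positivity))
    (show (0:ℝ) ≤ 1 / 2 by norm_num) (show (0:ℝ) ≤ 1 / 2 by norm_num) (show (1 / 2 : ℝ) + 1 / 2 = 1 by norm_num)
  simp only [smul_eq_mul] at hconv
  have h1 : 1 / 2 * ‖a + b‖ ^ 2 + 1 / 2 * ‖a - b‖ ^ 2 = ‖a‖ ^ 2 + ‖b‖ ^ 2 := by linarith
  rw [h1, ← norm_rpow_sq, ← norm_rpow_sq] at hconv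
  by_cases ha : a = 0
  · refine ⟨?_, fun _ => Or.inl ha⟩
    rw [dfc, ha, zero_add, zero_sub, norm_neg, norm_zero, Real.zero_rpow (by linarith)]
    linarith
  by_cases hb : b = 0
  · refine ⟨?_, fun _ => Or.inr hb⟩
    rw [dfc, hb, add_zero, sub_zero, norm_zero, Real.zero_rpow (by linarith)]
    linarith
  have ha' : 0 < ‖a‖ ^ 2 := by positivity
  have hb' : 0 < ‖b‖ ^ 2 := by positivity
  have h2 := lt_rpow_add (show 0 < P / 2 by linarith) (show P / 2 < 1 by linarith) ha' hb'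
  rw [← norm_rpow_sq, ← norm_rpow_sq] at h2
  have h3 : dfc P a b < 0 := by rw [dfc]; linarith
  exact ⟨h3.le, fun h => absurd h h3.ne⟩

theorem disj_of_abs (a b : ℂ) (h1 : ‖a + b‖ = ‖a - b‖) (h2 : ‖a + Complex.I * b‖ = ‖a - Complex.I * b‖) : a = 0 ∨ b = 0 := by
  have h1' : ‖a + b‖ ^ 2 = ‖a - b‖ ^ 2 := by rw [h1]
  have h2' : ‖a + Complex.I * b‖ ^ 2 = ‖a - Complex.I * b‖ ^ 2 := by rw [h2]
  rw [← Complex.normSq_eq_norm_sq, ← Complex.normSq_eq_norm_sq, Complex.normSq_apply, Complex.normSq_apply] at h1' h2'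
  simp only [Complex.add_re, Complex.add_im, Complex.sub_re, Complex.sub_im, Complex.mul_re, Complex.mul_im,
    Complex.I_re, Complex.I_im, zero_mul, one_mul, zero_sub, add_zero, zero_add] at h1' h2'
  have h3 : a.re * b.re + a.im * b.im = 0 := by nlinarith
  have h4 : a.im * b.re - a.re * b.im = 0 := by nlinarith
  have h5 : Complex.normSq a * Complex.normSq b = 0 := by
    rw [Complex.normSq_apply, Complex.normSq_apply]
    have : (a.re * a.re + a.im * a.im) * (b.re * b.re + b.im * b.im) =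
      (a.re * b.re + a.im * b.im) ^ 2 + (a.im * b.re - a.re * b.im) ^ 2 := by ring
    rw [this, h3, h4]; ring
  rcases mul_eq_zero.1 h5 with h | h
  · exact Or.inl (Complex.normSq_eq_zero.1 h)
  · exact Or.inr (Complex.normSq_eq_zero.1 h)

end scalar

variable {Ω : Type} [MeasurableSpace Ω] {μ : Measure Ω} {p : ℝ≥0∞} [Fact (1 ≤ p)]

theorem one_le_toReal (hp : p ≠ ∞) : 1 ≤ p.toReal := by
  have h1 : (1 : ℝ≥0∞) ≤ p := Fact.out
  have := ENNReal.toReal_mono hp h1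
  simpa using this

theorem integrable_normP (hp : p ≠ ∞) (f : Lp ℂ p μ) : Integrable (fun x => ‖f x‖ ^ p.toReal) μ := by
  have h0 : p ≠ 0 := by
    have h1 : (1 : ℝ≥0∞) ≤ p := Fact.out
    exact (lt_of_lt_of_le zero_lt_one h1).ne'
  exact (Lp.memLp f).integrable_norm_rpow h0 hp

theorem normP (hp : p ≠ ∞) (f : Lp ℂ p μ) : ∫ x, ‖f x‖ ^ p.toReal ∂μ = ‖f‖ ^ p.toReal := by
  have h0 : p ≠ 0 := by
    have h1 : (1 : ℝ≥0∞) ≤ p := Fact.out
    exact (lt_of_lt_of_le zero_lt_one h1).ne'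
  have hP := one_le_toReal (p := p) hp
  have hint : 0 ≤ ∫ x, ‖f x‖ ^ p.toReal ∂μ := integral_nonneg fun x => by positivity
  rw [Lp.norm_def, (Lp.memLp f).eLpNorm_eq_integral_rpow_norm h0 hp, ENNReal.toReal_ofReal (by positivity),
    ← Real.rpow_mul hint, inv_mul_cancel₀ (by linarith), Real.rpow_one]

/-- almost everywhere disjoint -/
def Dsj (f g : Lp ℂ p μ) : Prop := ∀ᵐ x ∂μ, f x = 0 ∨ g x = 0

theorem Dsj.symm {f g : Lp ℂ p μ} (h : Dsj f g) : Dsj g f := by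
  filter_upwards [h] with x hx using hx.symm

theorem Dsj.norm_add (hp : p ≠ ∞) {f g : Lp ℂ p μ} (h : Dsj f g) :
    ‖f + g‖ ^ p.toReal = ‖f‖ ^ p.toReal + ‖g‖ ^ p.toReal := by
  have hP := one_le_toReal (p := p) hp
  rw [← normP hp, ← normP hp, ← normP hp, ← integral_add (integrable_normP hp f) (integrable_normP hp g)]
  apply integral_congr_ae
  filter_upwards [h, Lp.coeFn_add f g] with x hx hadd
  rw [hadd, Pi.add_apply]
  rcases hx with hx | hx
  · rw [hx, zero_add, norm_zero, Real.zero_rpow (by linarith), zero_add]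
  · rw [hx, add_zero, norm_zero, Real.zero_rpow (by linarith), add_zero]

theorem Dsj.neg {f g : Lp ℂ p μ} (h : Dsj f g) : Dsj f (-g) := by
  filter_upwards [h, Lp.coeFn_neg g] with x hx hneg
  rw [hneg, Pi.neg_apply, neg_eq_zero]
  exact hx

theorem Dsj.clarkson (hp : p ≠ ∞) {f g : Lp ℂ p μ} (h : Dsj f g) :
    ‖f + g‖ ^ p.toReal + ‖f - g‖ ^ p.toReal = 2 * ‖f‖ ^ p.toReal + 2 * ‖g‖ ^ p.toReal := by
  rw [sub_eq_add_neg, h.norm_add hp, h.neg.norm_add hp, norm_neg]; ring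

theorem dsj_of_clarkson (hp : p ≠ ∞) (hp2 : p.toReal ≠ 2) {f g : Lp ℂ p μ}
    (h : ‖f + g‖ ^ p.toReal + ‖f - g‖ ^ p.toReal = 2 * ‖f‖ ^ p.toReal + 2 * ‖g‖ ^ p.toReal) : Dsj f g := by
  have hP := one_le_toReal (p := p) hp
  have hae : (fun x => ‖(f + g) x‖ ^ p.toReal + ‖(f - g) x‖ ^ p.toReal - 2 * ‖f x‖ ^ p.toReal - 2 * ‖g x‖ ^ p.toReal)
      =ᵐ[μ] fun x => dfc p.toReal (f x) (g x) := by
    filter_upwards [Lp.coeFn_add f g, Lp.coeFn_sub f g] with x h1 h2
    rw [h1, h2, Pi.add_apply, Pi.sub_apply, dfc]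
  have i1 := integrable_normP hp (f + g)
  have i2 := integrable_normP hp (f - g)
  have i3 : Integrable (fun x => 2 * ‖f x‖ ^ p.toReal) μ := (integrable_normP hp f).const_mul 2
  have i4 : Integrable (fun x => 2 * ‖g x‖ ^ p.toReal) μ := (integrable_normP hp g).const_mul 2
  have i12 : Integrable (fun x => ‖(f + g) x‖ ^ p.toReal + ‖(f - g) x‖ ^ p.toReal) μ := i1.add i2
  have i123 : Integrable (fun x => ‖(f + g) x‖ ^ p.toReal + ‖(f - g) x‖ ^ p.toReal - 2 * ‖f x‖ ^ p.toReal) μ := i12.sub i3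
  have hint : Integrable (fun x => ‖(f + g) x‖ ^ p.toReal + ‖(f - g) x‖ ^ p.toReal - 2 * ‖f x‖ ^ p.toReal - 2 * ‖g x‖ ^ p.toReal) μ :=
    i123.sub i4
  have hzero : ∫ x, dfc p.toReal (f x) (g x) ∂μ = 0 := by
    rw [← integral_congr_ae hae, integral_sub i123 i4, integral_sub i12 i3, integral_add i1 i2,
      integral_const_mul, integral_const_mul, normP hp, normP hp, normP hp, normP hp]
    linarith
  have hint' := hint.congr hae
  rcases lt_or_gt_of_ne hp2 with hlt | hgt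
  · have h1 : ∫ x, -dfc p.toReal (f x) (g x) ∂μ = 0 := by rw [integral_neg, hzero, neg_zero]
    have hneg : Integrable (fun x => -dfc p.toReal (f x) (g x)) μ := hint'.neg
    have h2 := (integral_eq_zero_iff_of_nonneg (f := fun x => -dfc p.toReal (f x) (g x)) (fun x => by
      change 0 ≤ -dfc p.toReal (f x) (g x)
      linarith [(dfc_lt p.toReal hP hlt (f x) (g x)).1]) hneg).1 h1
    filter_upwards [h2] with x hx
    change -dfc p.toReal (f x) (g x) = 0 at hx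
    exact (dfc_lt p.toReal hP hlt (f x) (g x)).2 (by linarith)
  · have h2 := (integral_eq_zero_iff_of_nonneg (fun x => (dfc_gt p.toReal hgt (f x) (g x)).1) hint').1 hzero
    filter_upwards [h2] with x hx
    exact (dfc_gt p.toReal hgt (f x) (g x)).2 hx

/-- isometries preserve disjointness -/
theorem Dsj.map (hp : p ≠ ∞) (hp2 : p.toReal ≠ 2) (U : Lp ℂ p μ ≃ₗᵢ[ℂ] Lp ℂ p μ) {f g : Lp ℂ p μ} (h : Dsj f g) :
    Dsj (U f) (U g) := by
  apply dsj_of_clarkson hp hp2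
  rw [← map_add, ← map_sub, U.norm_map, U.norm_map, U.norm_map, U.norm_map]
  exact h.clarkson hp

/-- truncation to a measurable set -/
noncomputable def ind (B : Set Ω) (hB : MeasurableSet B) (f : Lp ℂ p μ) : Lp ℂ p μ :=
  ((Lp.memLp f).indicator hB).toLp

theorem ind_coe (B : Set Ω) (hB : MeasurableSet B) (f : Lp ℂ p μ) : ∀ᵐ x ∂μ, ind B hB f x = B.indicator f x :=
  ((Lp.memLp f).indicator hB).coeFn_toLp

theorem ind_add (B : Set Ω) (hB : MeasurableSet B) (f : Lp ℂ p μ) : ind B hB f + ind Bᶜ hB.compl f = f := by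
  apply Lp.ext
  filter_upwards [Lp.coeFn_add (ind B hB f) (ind Bᶜ hB.compl f), ind_coe B hB f, ind_coe Bᶜ hB.compl f] with x h1 h2 h3
  rw [h1, Pi.add_apply, h2, h3]
  by_cases hx : x ∈ B
  · simp [hx]
  · simp [hx]

/-- `T` does not enlarge supports -/
def Loc (T : Lp ℂ p μ → Lp ℂ p μ) : Prop := ∀ f k : Lp ℂ p μ, Dsj f k → Dsj (T f) k

theorem measurable_supp (k : Lp ℂ p μ) : MeasurableSet {x | k x ≠ 0} :=
  (Lp.stronglyMeasurable k).measurable (measurableSet_singleton (0:ℂ)).compl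

theorem loc_of_close (hp : p ≠ ∞) (hp2 : p.toReal ≠ 2) (U : Lp ℂ p μ ≃ₗᵢ[ℂ] Lp ℂ p μ)
    (hU : ∀ f, ‖U f - f‖ ≤ ‖f‖) : Loc (p := p) (μ := μ) U := by
  intro f k hfk
  have hP := one_le_toReal (p := p) hp
  set B : Set Ω := {x | k x ≠ 0} with hBdef
  have hB : MeasurableSet B := measurable_supp k
  set g1 := ind Bᶜ hB.compl (U f) with hg1
  set g2 := ind B hB (U f) with hg2
  have hg : g2 + g1 = U f := ind_add B hB (U f)
  have hd12 : Dsj g1 g2 := by
    filter_upwards [ind_coe B hB (U f), ind_coe Bᶜ hB.compl (U f)] with x h1 h2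
    by_cases hx : x ∈ B
    · left; rw [hg1, h2]; simp [hx]
    · right; rw [hg2, h1]; simp [hx]
  set f1 := U.symm g1 with hf1
  set f2 := U.symm g2 with hf2
  have hf : f = f2 + f1 := by
    rw [hf1, hf2, ← map_add, hg, LinearIsometryEquiv.symm_apply_apply]
  have hfd : Dsj f1 f2 := hd12.map hp hp2 U.symm
  have hf2g2 : Dsj g2 f2 := by
    filter_upwards [hfd, hfk, Lp.coeFn_add f2 f1, ind_coe B hB (U f)] with x h1 h2 h3 h4
    by_cases hx : f2 x = 0
    · right; exact hx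
    · left
      have h5 : f1 x = 0 := h1.resolve_right hx
      have h6 : f x ≠ 0 := by
        rw [hf, h3, Pi.add_apply, h5, add_zero]; exact hx
      have h7 : k x = 0 := h2.resolve_left h6
      rw [hg2, h4]
      have : x ∉ B := fun h => h h7
      simp [this]
  have h1 := hU f2
  have h2 : U f2 = g2 := by rw [hf2, LinearIsometryEquiv.apply_symm_apply]
  have h3 : ‖g2‖ = ‖f2‖ := by rw [← h2, U.norm_map]
  rw [h2] at h1
  have h4 : ‖g2 - f2‖ ^ p.toReal = ‖g2‖ ^ p.toReal + ‖f2‖ ^ p.toReal := by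
    rw [sub_eq_add_neg, hf2g2.neg.norm_add hp, norm_neg]
  have h5 : ‖g2 - f2‖ ^ p.toReal ≤ ‖f2‖ ^ p.toReal := Real.rpow_le_rpow (norm_nonneg _) h1 (by linarith)
  rw [h4, h3] at h5
  have h6 : ‖f2‖ ^ p.toReal ≤ 0 := by linarith
  have h7 : ‖f2‖ = 0 := by
    by_contra hne
    have : 0 < ‖f2‖ := lt_of_le_of_ne (norm_nonneg _) (Ne.symm hne)
    have := Real.rpow_pos_of_pos this p.toReal
    linarith
  have h8 : g2 = 0 := by rw [← norm_eq_zero, h3, h7]
  have h9 : U f = g1 := by rw [← hg, h8, zero_add]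
  rw [h9]
  filter_upwards [ind_coe Bᶜ hB.compl (U f)] with x h10
  by_cases hx : x ∈ B
  · left; rw [hg1, h10]; simp [hx]
  · right
    by_contra hne
    exact hx hne

/-- local isometries preserve the absolute value -/
theorem loc_abs (hp : p ≠ ∞) (U : Lp ℂ p μ ≃ₗᵢ[ℂ] Lp ℂ p μ) (hU : Loc (p := p) (μ := μ) U) (ξ : Lp ℂ p μ) :
    ∀ᵐ x ∂μ, ‖U ξ x‖ = ‖ξ x‖ := by
  have hP := one_le_toReal (p := p) hp
  have key : ∀ (B : Set Ω) (hB : MeasurableSet B), ind B hB (U ξ) = U (ind B hB ξ) := by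
    intro B hB
    have hsupp : ∀ (B : Set Ω) (hB : MeasurableSet B), ∀ᵐ x ∂μ, x ∉ B → U (ind B hB ξ) x = 0 := by
      intro B hB
      set k := ind Bᶜ hB.compl (U (ind B hB ξ)) with hk
      have h1 : Dsj (ind B hB ξ) k := by
        filter_upwards [ind_coe B hB ξ, ind_coe Bᶜ hB.compl (U (ind B hB ξ))] with x h2 h3
        by_cases hx : x ∈ B
        · right; rw [hk, h3]; simp [hx]
        · left; rw [h2]; simp [hx]
      filter_upwards [hU _ _ h1, ind_coe Bᶜ hB.compl (U (ind B hB ξ))] with x h2 h3 hx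
      rcases h2 with h2 | h2
      · exact h2
      · rw [hk, h3] at h2
        simpa [hx] using h2
    have hsplit : U ξ = U (ind B hB ξ) + U (ind Bᶜ hB.compl ξ) := by
      rw [← map_add, ind_add]
    apply Lp.ext
    filter_upwards [ind_coe B hB (U ξ), hsupp B hB, hsupp Bᶜ hB.compl,
      Lp.coeFn_add (U (ind B hB ξ)) (U (ind Bᶜ hB.compl ξ))] with x h1 h2 h3 h4
    rw [h1]
    by_cases hx : x ∈ B
    · rw [Set.indicator_of_mem hx, hsplit, h4, Pi.add_apply, h3 (by simpa using hx), add_zero]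
    · rw [Set.indicator_of_notMem hx, h2 hx]
  have hsetint : ∀ (B : Set Ω) (hB : MeasurableSet B) (f : Lp ℂ p μ), ∫ x in B, ‖f x‖ ^ p.toReal ∂μ = ‖ind B hB f‖ ^ p.toReal := by
    intro B hB f
    rw [← normP hp, ← integral_indicator hB]
    apply integral_congr_ae
    filter_upwards [ind_coe B hB f] with x hx
    rw [hx]
    by_cases h : x ∈ B
    · simp [h]
    · simp [h, Real.zero_rpow (show p.toReal ≠ 0 by linarith)]
  have h1 := Integrable.ae_eq_of_forall_setIntegral_eq (fun x => ‖U ξ x‖ ^ p.toReal) (fun x => ‖ξ x‖ ^ p.toReal)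
    (integrable_normP hp _) (integrable_normP hp _) (fun B hB _ => by
      rw [hsetint B hB, hsetint B hB, key B hB, U.norm_map])
  filter_upwards [h1] with x hx
  have := congrArg (fun t : ℝ => t ^ (1 / p.toReal)) hx
  beta_reduce at this
  rwa [← Real.rpow_mul (norm_nonneg _), ← Real.rpow_mul (norm_nonneg _), mul_one_div_cancel (by linarith),
    Real.rpow_one, Real.rpow_one] at this

end Pool.Agent.H636R3.Lx
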