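import Mathlib
import Pool.Agent.H636R3.LxLamp
import Pool.Agent.H636R3.LxDefs

/-! Norm estimates in the full crossed product. -/

set_option autoImplicit false
set_option linter.unusedSectionVars false
open scoped Topology ENNReal
open MeasureTheory Filter

namespace Pool.Agent.H636R3.Lx

variable {X : Type} [MetricSpace X] [CompactSpace X]
variable {Ω : Type} [MeasurableSpace Ω] {μ : Measure Ω} {p : ℝ≥0∞} [Fact (1 ≤ p)]

theorem par_of_two (hp : p ≠ ∞) (hp2 : p.toReal = 2) (f g : Lp ℂ p μ) :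
    ‖f + g‖ ^ p.toReal + ‖f - g‖ ^ p.toReal = 2 * ‖f‖ ^ p.toReal + 2 * ‖g‖ ^ p.toReal := by
  have i1 := integrable_normP hp (f + g)
  have i2 := integrable_normP hp (f - g)
  have i3 : Integrable (fun x => 2 * ‖f x‖ ^ p.toReal) μ := (integrable_normP hp f).const_mul 2
  have i4 : Integrable (fun x => 2 * ‖g x‖ ^ p.toReal) μ := (integrable_normP hp g).const_mul 2
  rw [← normP hp, ← normP hp, ← normP hp, ← normP hp, ← integral_const_mul, ← integral_const_mul,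
    ← integral_add i1 i2, ← integral_add i3 i4]
  apply integral_congr_ae
  filter_upwards [Lp.coeFn_add f g, Lp.coeFn_sub f g] with x h1 h2
  rw [h1, h2, Pi.add_apply, Pi.sub_apply, hp2, Real.rpow_two, Real.rpow_two, Real.rpow_two, Real.rpow_two]
  have := parallelogram_law_with_norm ℝ (f x) (g x)
  linarith

/-- `e^{i s}` -/
noncomputable def expo (s : C(X, ℝ)) : C(X, ℂ) := ⟨fun x => Complex.exp (Complex.I * (s x : ℂ)), by fun_prop⟩

theorem expo_apply (s : C(X, ℝ)) (x : X) : expo s x = Complex.exp (Complex.I * (s x : ℂ)) := rfl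

theorem expo_norm (s : C(X, ℝ)) : ‖expo s‖ ≤ 1 := by
  rw [ContinuousMap.norm_le _ zero_le_one]
  intro x
  rw [expo_apply, mul_comm, Complex.norm_exp_ofReal_mul_I]

theorem expo_add (s t : C(X, ℝ)) : expo (s + t) = expo s * expo t := by
  ext x
  rw [ContinuousMap.mul_apply, expo_apply, expo_apply, expo_apply, ← Complex.exp_add, ContinuousMap.add_apply]
  congr 1
  push_cast; ring

theorem expo_zero : expo (0 : C(X, ℝ)) = 1 := by
  ext x
  rw [expo_apply]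
  simp

theorem expo_nsmul (s : C(X, ℝ)) (m : ℕ) : expo (m • s) = expo s ^ m := by
  induction m with
  | zero => rw [zero_smul, expo_zero, pow_zero]
  | succ m ih => rw [succ_nsmul, expo_add, ih, pow_succ]

variable (π : C(X, ℂ) →ₐ[ℂ] (Lp ℂ p μ →L[ℂ] Lp ℂ p μ)) (hπ : ∀ f, ‖π f‖ ≤ ‖f‖)

include hπ in
theorem pi_expo_norm (s : C(X, ℝ)) (ξ : Lp ℂ p μ) : ‖π (expo s) ξ‖ = ‖ξ‖ := by
  have h1 : ∀ (s : C(X, ℝ)) (ξ : Lp ℂ p μ), ‖π (expo s) ξ‖ ≤ ‖ξ‖ := by
    intro s ξ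
    refine ((π (expo s)).le_opNorm ξ).trans ?_
    calc ‖π (expo s)‖ * ‖ξ‖ ≤ 1 * ‖ξ‖ := mul_le_mul_of_nonneg_right ((hπ _).trans (expo_norm s)) (norm_nonneg _)
      _ = _ := one_mul _
  apply le_antisymm (h1 s ξ)
  have h2 : ξ = π (expo (-s)) (π (expo s) ξ) := by
    change ξ = (π (expo (-s)) * π (expo s)) ξ
    rw [← map_mul, ← expo_add, neg_add_cancel, expo_zero, map_one]; rfl
  nth_rewrite 1 [h2]
  exact h1 _ _

/-- `π (e^{is})` as an isometry -/
noncomputable def piIso (s : C(X, ℝ)) : Lp ℂ p μ ≃ₗᵢ[ℂ] Lp ℂ p μ where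
  toLinearEquiv := LinearEquiv.ofLinear (π (expo s)).toLinearMap (π (expo (-s))).toLinearMap
    (by
      ext1 ξ
      change (π (expo s) * π (expo (-s))) ξ = ξ
      rw [← map_mul, ← expo_add, add_neg_cancel, expo_zero, map_one]; rfl)
    (by
      ext1 ξ
      change (π (expo (-s)) * π (expo s)) ξ = ξ
      rw [← map_mul, ← expo_add, neg_add_cancel, expo_zero, map_one]; rfl)
  norm_map' ξ := pi_expo_norm π hπ s ξ

theorem piIso_apply (s : C(X, ℝ)) (ξ : Lp ℂ p μ) : piIso π hπ s ξ = π (expo s) ξ := rfl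

theorem piIso_loc (hp : p ≠ ∞) (hp2 : p.toReal ≠ 2) (s : C(X, ℝ)) : Loc (p := p) (μ := μ) (piIso π hπ s) := by
  obtain ⟨m, hm⟩ := exists_nat_ge (‖s‖ + 1)
  have hm0 : (0 : ℝ) < m := by linarith [norm_nonneg s]
  set t : C(X, ℝ) := (m : ℝ)⁻¹ • s with ht
  have hts : s = m • t := by
    rw [ht, ← Nat.cast_smul_eq_nsmul ℝ, smul_smul, mul_inv_cancel₀ hm0.ne', one_smul]
  have htn : ∀ x, |t x| ≤ 1 := by
    intro x
    rw [ht, ContinuousMap.smul_apply, smul_eq_mul, abs_mul, abs_of_pos (inv_pos.2 hm0), inv_mul_le_iff₀ hm0, mul_one]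
    have h1 := s.norm_coe_le_norm x
    rw [Real.norm_eq_abs] at h1
    linarith
  have hloc : Loc (p := p) (μ := μ) (piIso π hπ t) := by
    apply loc_of_close hp hp2
    intro ξ
    have h1 : piIso π hπ t ξ - ξ = π (expo t - 1) ξ := by
      rw [map_sub, map_one]; rfl
    rw [h1]
    refine ((π _).le_opNorm ξ).trans ?_
    have h2 : ‖expo t - 1‖ ≤ 1 := by
      rw [ContinuousMap.norm_le _ zero_le_one]
      intro x
      rw [ContinuousMap.sub_apply, expo_apply, ContinuousMap.one_apply]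
      exact (Real.norm_exp_I_mul_ofReal_sub_one_le).trans (htn x)
    calc ‖π (expo t - 1)‖ * ‖ξ‖ ≤ 1 * ‖ξ‖ := mul_le_mul_of_nonneg_right ((hπ _).trans h2) (norm_nonneg _)
      _ = _ := one_mul _
  have hpow : ∀ k : ℕ, Loc (p := p) (μ := μ) (piIso π hπ (k • t)) := by
    intro k
    induction k with
    | zero =>
      intro f g hfg
      rw [piIso_apply, zero_smul, expo_zero, map_one]
      exact hfg
    | succ k ih =>
      intro f g hfg
      have h1 : piIso π hπ ((k + 1) • t) f = piIso π hπ t (piIso π hπ (k • t) f) := by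
        rw [piIso_apply, piIso_apply, piIso_apply, add_smul, one_smul, add_comm, expo_add, map_mul]; rfl
      rw [h1]
      exact hloc _ _ (ih _ _ hfg)
  have := hpow m
  rwa [← hts] at this

/-- `a` lives on `K` -/
def LivesOn (K : Set X) (a : Lp ℂ p μ) : Prop := ∀ (w : C(X, ℂ)) (c : ℂ), (∀ x ∈ K, w x = c) → π w a = c • a

theorem livesOn_of (K : Set X) (f : C(X, ℂ)) (hf : ∀ x ∉ K, f x = 0) (ζ : Lp ℂ p μ) : LivesOn π K (π f ζ) := by
  intro w c hw
  change (π w * π f) ζ = c • π f ζ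
  have h1 : w * f = c • f := by
    ext x
    rw [ContinuousMap.mul_apply, ContinuousMap.smul_apply, smul_eq_mul]
    by_cases hx : x ∈ K
    · rw [hw x hx]
    · rw [hf x hx, mul_zero, mul_zero]
  rw [← map_mul, h1, map_smul]; rfl

theorem LivesOn.sum {ι : Type} (F : Finset ι) (K : ι → Set X) (a : ι → Lp ℂ p μ) (h : ∀ i ∈ F, LivesOn π (K i) (a i)) :
    LivesOn π (⋃ i ∈ F, K i) (∑ i ∈ F, a i) := by
  intro w c hw
  rw [map_sum, Finset.smul_sum]
  refine Finset.sum_congr rfl fun i hi => h i hi w c fun x hx => hw x ?_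
  exact Set.mem_biUnion hi hx

include hπ in
theorem ortho (hp : p ≠ ∞) (K1 K2 : Set X) (h1 : IsClosed K1) (h2 : IsClosed K2) (hd : Disjoint K1 K2) (a b : Lp ℂ p μ)
    (ha : LivesOn π K1 a) (hb : LivesOn π K2 b) : ‖a + b‖ ^ p.toReal = ‖a‖ ^ p.toReal + ‖b‖ ^ p.toReal := by
  obtain ⟨χ, hχ1, hχ2, -⟩ := exists_continuous_zero_one_of_isClosed h1 h2 hd
  have key : ∀ β : ℝ, piIso π hπ (β • χ) (a + b) = a + Complex.exp (Complex.I * β) • b := by
    intro β
    rw [map_add, piIso_apply, piIso_apply]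
    have e1 := ha (expo (β • χ)) 1 (fun x hx => by
      rw [expo_apply, ContinuousMap.smul_apply, hχ1 hx]; simp)
    have e2 := hb (expo (β • χ)) (Complex.exp (Complex.I * β)) (fun x hx => by
      rw [expo_apply, ContinuousMap.smul_apply, hχ2 hx]; simp)
    rw [e1, e2, one_smul]
  have eπ : Complex.exp (Complex.I * (Real.pi : ℝ)) = -1 := by rw [mul_comm, Complex.exp_pi_mul_I]
  have eh : Complex.exp (Complex.I * ((Real.pi / 2 : ℝ) : ℂ)) = Complex.I := by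
    rw [mul_comm]; push_cast; exact Complex.exp_pi_div_two_mul_I
  have eh' : Complex.exp (Complex.I * ((-(Real.pi / 2) : ℝ) : ℂ)) = -Complex.I := by
    rw [Complex.ofReal_neg, mul_neg, Complex.exp_neg, eh, Complex.inv_I]
  by_cases hp2 : p.toReal = 2
  · have h3 := key Real.pi
    rw [eπ, neg_one_smul, ← sub_eq_add_neg] at h3
    have h4 : ‖a - b‖ = ‖a + b‖ := by rw [← h3, LinearIsometryEquiv.norm_map]
    have h5 := par_of_two hp hp2 a b
    rw [h4] at h5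
    linarith
  · have habs : ∀ β : ℝ, ∀ᵐ x ∂μ, ‖a x + Complex.exp (Complex.I * β) * b x‖ = ‖a x + b x‖ := by
      intro β
      have h3 := loc_abs hp (piIso π hπ (β • χ)) (piIso_loc π hπ hp hp2 _) (a + b)
      rw [key] at h3
      filter_upwards [h3, Lp.coeFn_add a b, Lp.coeFn_add a (Complex.exp (Complex.I * β) • b),
        Lp.coeFn_smul (Complex.exp (Complex.I * β)) b] with x e1 e2 e3 e4
      rw [e2, e3, Pi.add_apply, Pi.add_apply, e4, Pi.smul_apply, smul_eq_mul] at e1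
      exact e1
    have hdsj : Dsj a b := by
      filter_upwards [habs Real.pi, habs (Real.pi / 2), habs (-(Real.pi / 2))] with x e1 e2 e3
      rw [eπ] at e1
      rw [eh] at e2
      rw [eh'] at e3
      apply disj_of_abs
      · rw [← e1]; congr 1; ring
      · rw [e2, ← e3]; congr 1; ring
    exact hdsj.norm_add hp

include hπ in
theorem sum_norm (hp : p ≠ ∞) {ι : Type} (F : Finset ι) (K : ι → Set X) (hK : ∀ i ∈ F, IsClosed (K i))
    (hd : ∀ i ∈ F, ∀ j ∈ F, i ≠ j → Disjoint (K i) (K j)) (a : ι → Lp ℂ p μ) (ha : ∀ i ∈ F, LivesOn π (K i) (a i)) :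
    ‖∑ i ∈ F, a i‖ ^ p.toReal = ∑ i ∈ F, ‖a i‖ ^ p.toReal := by
  classical
  have hP := one_le_toReal (p := p) hp
  induction F using Finset.induction_on with
  | empty => simp [Real.zero_rpow (show p.toReal ≠ 0 by linarith)]
  | insert j F hj ih =>
    rw [Finset.sum_insert hj, Finset.sum_insert hj, ← ih (fun i hi => hK i (Finset.mem_insert_of_mem hi))
      (fun i hi k hk => hd i (Finset.mem_insert_of_mem hi) k (Finset.mem_insert_of_mem hk))
      (fun i hi => ha i (Finset.mem_insert_of_mem hi))]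
    refine ortho π hπ hp (K j) (⋃ i ∈ F, K i) (hK j (Finset.mem_insert_self _ _))
      (F.finite_toSet.isClosed_biUnion fun i hi => hK i (Finset.mem_insert_of_mem hi)) ?_ _ _
      (ha j (Finset.mem_insert_self _ _)) (LivesOn.sum π F K a fun i hi => ha i (Finset.mem_insert_of_mem hi))
    rw [Set.disjoint_iUnion₂_right]
    intro i hi
    exact hd j (Finset.mem_insert_self _ _) i (Finset.mem_insert_of_mem hi) (fun h => hj (h ▸ hi))

section cov
variable {h : X ≃ₜ X} (ρ : CovRep h (Lp ℂ p μ))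

theorem int_mono (n : ℤ) (f : C(X, ℂ)) (ξ : Lp ℂ p μ) :
    ρ.int (mono h n f) ξ = ρ.π f ((ρ.v ^ n : Lp ℂ p μ ≃ₗᵢ[ℂ] Lp ℂ p μ) ξ) := by
  rw [ρ.int_apply, mono, SkewMonoidAlgebra.sum_single_index]
  · rfl
  · rw [map_zero, zero_mul]

theorem alpha_vanish (h : X ≃ₜ X) (C : Set X) (g : C(X, ℂ)) (hg : ∀ x ∉ C, g x = 0) (n : ℤ) :
    ∀ x ∉ (h ^ n) '' C, alpha h n g x = 0 := by
  intro x hx
  rw [alpha_apply]
  apply hg
  intro h1
  apply hx
  refine ⟨_, h1, ?_⟩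
  rw [← hpow_add, add_neg_cancel, hpow_zero]

theorem alpha_norm (h : X ≃ₜ X) (g : C(X, ℂ)) (n : ℤ) : ‖alpha h n g‖ ≤ ‖g‖ := by
  rw [ContinuousMap.norm_le _ (norm_nonneg _)]
  exact fun x => g.norm_coe_le_norm _

theorem rep_n1 (hp : p ≠ ∞) (F : Finset ℤ) (ε : ℤ → ℂ) (hε : ∀ n, ‖ε n‖ = 1) (C : Set X) (hC : IsClosed C)
    (hd : ∀ m ∈ F, ∀ n ∈ F, m ≠ n → Disjoint ((h ^ m) '' C) ((h ^ n) '' C)) (g : C(X, ℂ)) (hg : ∀ x ∉ C, g x = 0)
    (hg1 : ‖g‖ ≤ 1) : ‖ρ.int (∑ n ∈ F, ε n • (mono h n 1 * mono h 0 g))‖ ≤ (F.card : ℝ) ^ (1 / p.toReal) := by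
  have hP := one_le_toReal (p := p) hp
  refine ContinuousLinearMap.opNorm_le_bound _ (by positivity) fun ξ => ?_
  have h1 : ρ.int (∑ n ∈ F, ε n • (mono h n 1 * mono h 0 g)) ξ =
      ∑ n ∈ F, ρ.π (ε n • alpha h n g) ((ρ.v ^ n : Lp ℂ p μ ≃ₗᵢ[ℂ] Lp ℂ p μ) ξ) := by
    rw [map_sum, sum_apply]
    refine Finset.sum_congr rfl fun n _ => ?_
    rw [map_smul, smul_apply, mono_mul, add_zero, one_mul, int_mono, map_smul]; rfl
  rw [h1]
  have h2 := sum_norm ρ.π ρ.contr hp F (fun n => (h ^ n) '' C) (fun n _ => (h ^ n).isClosedMap _ hC) hd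
    (fun n => ρ.π (ε n • alpha h n g) ((ρ.v ^ n : Lp ℂ p μ ≃ₗᵢ[ℂ] Lp ℂ p μ) ξ)) (fun n _ => by
      apply livesOn_of
      intro x hx
      rw [ContinuousMap.smul_apply, alpha_vanish h C g hg n x hx, smul_zero])
  have h3 : ∀ n, ‖ρ.π (ε n • alpha h n g) ((ρ.v ^ n : Lp ℂ p μ ≃ₗᵢ[ℂ] Lp ℂ p μ) ξ)‖ ≤ ‖ξ‖ := by
    intro n
    refine ((ρ.π _).le_opNorm _).trans ?_
    rw [LinearIsometryEquiv.norm_map]
    have : ‖ε n • alpha h n g‖ ≤ 1 := by
      rw [norm_smul, hε, one_mul]; exact (alpha_norm h g n).trans hg1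
    calc ‖ρ.π (ε n • alpha h n g)‖ * ‖ξ‖ ≤ 1 * ‖ξ‖ := mul_le_mul_of_nonneg_right ((ρ.contr _).trans this) (norm_nonneg _)
      _ = _ := one_mul _
  have h4 : ‖∑ n ∈ F, ρ.π (ε n • alpha h n g) ((ρ.v ^ n : Lp ℂ p μ ≃ₗᵢ[ℂ] Lp ℂ p μ) ξ)‖ ^ p.toReal ≤
      ((F.card : ℝ) ^ (1 / p.toReal) * ‖ξ‖) ^ p.toReal := by
    rw [h2, Real.mul_rpow (by positivity) (norm_nonneg _), ← Real.rpow_mul (by positivity),
      one_div_mul_cancel (by linarith), Real.rpow_one]
    calc _ ≤ ∑ n ∈ F, ‖ξ‖ ^ p.toReal := Finset.sum_le_sum fun n _ => Real.rpow_le_rpow (norm_nonneg _) (h3 n) (by linarith)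
      _ = _ := by rw [Finset.sum_const, nsmul_eq_mul]
  exact (Real.rpow_le_rpow_iff (norm_nonneg _) (by positivity) (by linarith)).1 h4

theorem rep_n2 (hp : p ≠ ∞) (F : Finset ℤ) (ε : ℤ → ℂ) (hε : ∀ n, ‖ε n‖ = 1) (C : Set X) (hC : IsClosed C)
    (hd : ∀ m ∈ F, ∀ n ∈ F, m ≠ n → Disjoint ((h ^ m) '' C) ((h ^ n) '' C)) (g : C(X, ℂ)) (hg : ∀ x ∉ C, g x = 0)
    (hg1 : ‖g‖ ≤ 1) : ‖ρ.int (∑ n ∈ F, ε n • (mono h 0 g * mono h (-n) 1))‖ ≤ (F.card : ℝ) ^ (1 - 1 / p.toReal) := by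
  have hP := one_le_toReal (p := p) hp
  refine ContinuousLinearMap.opNorm_le_bound _ (by positivity) fun ξ => ?_
  have h1 : ρ.int (∑ n ∈ F, ε n • (mono h 0 g * mono h (-n) 1)) ξ =
      ∑ n ∈ F, ε n • (ρ.v ^ (-n) : Lp ℂ p μ ≃ₗᵢ[ℂ] Lp ℂ p μ) (ρ.π (alpha h n g) ξ) := by
    rw [map_sum, sum_apply]
    refine Finset.sum_congr rfl fun n _ => ?_
    rw [map_smul, smul_apply, mono_mul, zero_add, int_mono, ρ.cov_zpow, alpha_alpha, neg_add_cancel, alpha_zero,
      mul_one, alpha_zero]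
  rw [h1]
  have h2 := sum_norm ρ.π ρ.contr hp F (fun n => (h ^ n) '' C) (fun n _ => (h ^ n).isClosedMap _ hC) hd
    (fun n => ρ.π (alpha h n g) ξ) (fun n _ => livesOn_of _ _ _ (alpha_vanish h C g hg n) _)
  have h3 : ‖∑ n ∈ F, ρ.π (alpha h n g) ξ‖ ≤ ‖ξ‖ := by
    have h4 : ∑ n ∈ F, ρ.π (alpha h n g) ξ = ρ.π (∑ n ∈ F, alpha h n g) ξ := by
      rw [map_sum, sum_apply]
    rw [h4]
    refine ((ρ.π _).le_opNorm _).trans ?_
    have h5 : ‖∑ n ∈ F, alpha h n g‖ ≤ 1 := by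
      apply norm_sum_disjoint
      · intro n _; exact (alpha_norm h g n).trans hg1
      · intro m hm n hn hmn x
        by_cases hx : x ∈ (h ^ m) '' C
        · right
          exact alpha_vanish h C g hg n x fun h6 => Set.disjoint_left.1 (hd m hm n hn hmn) hx h6
        · left; exact alpha_vanish h C g hg m x hx
    calc _ ≤ 1 * ‖ξ‖ := mul_le_mul_of_nonneg_right ((ρ.contr _).trans h5) (norm_nonneg _)
      _ = _ := one_mul _
  have h4 : (∑ n ∈ F, ‖ρ.π (alpha h n g) ξ‖) ^ p.toReal ≤ ((F.card : ℝ) ^ (1 - 1 / p.toReal) * ‖ξ‖) ^ p.toReal := by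
    rw [Real.mul_rpow (by positivity) (norm_nonneg _), ← Real.rpow_mul (by positivity)]
    have h5 := Real.rpow_sum_le_const_mul_sum_rpow_of_nonneg (s := F) (f := fun n => ‖ρ.π (alpha h n g) ξ‖) hP
      (fun n _ => norm_nonneg _)
    have h6 : (1 - 1 / p.toReal) * p.toReal = p.toReal - 1 := by
      field_simp
    rw [h6]
    refine h5.trans ?_
    apply mul_le_mul_of_nonneg_left _ (by positivity)
    rw [← h2]
    exact Real.rpow_le_rpow (norm_nonneg _) h3 (by linarith)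
  have h5 := (Real.rpow_le_rpow_iff (Finset.sum_nonneg fun _ _ => norm_nonneg _) (by positivity) (by linarith)).1 h4
  refine le_trans ((norm_sum_le _ _).trans (le_of_eq ?_)) h5
  refine Finset.sum_congr rfl fun n _ => ?_
  rw [norm_smul, hε, one_mul, LinearIsometryEquiv.norm_map]

end cov

end Pool.Agent.H636R3.Lx
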