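import Pool.Agent.H636R3.LxFejer
import Pool.Agent.H636R3.LxGood2
import Pool.Agent.H636R3.LxSource
import Pool.Agent.H636R3.LxContra

/-! No nonzero continuous homomorphism between `L^p` crossed products for different exponents. -/

set_option autoImplicit false
set_option linter.unusedSectionVars false
open scoped Topology ENNReal
open MeasureTheory Filter

namespace Pool.Agent.H636R3.Lx

variable {X : Type} [MetricSpace X] [CompactSpace X] {h : X ≃ₜ X}

section extension
variable {E : Type} [NormedAddCommGroup E] [NormedSpace ℂ E] {N : CNorm h}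

/-- a representation as a ring homomorphism on `Sy N` -/
noncomputable def syHom (N : CNorm h) (ρ : CovRep h E) : Sy N →+* (E →L[ℂ] E) where
  toFun a := ρ.int a
  map_one' := map_one ρ.int
  map_mul' a b := map_mul ρ.int a b
  map_zero' := map_zero ρ.int
  map_add' a b := map_add ρ.int a b

theorem syHom_cont (ρ : CovRep h E) (hρ : ∀ a, ‖ρ.int a‖ ≤ N.toFun a) : Continuous (syHom N ρ) := by
  have h1 : LipschitzWith 1 (syHom N ρ) := by
    apply LipschitzWith.of_dist_le_mul
    intro a b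
    rw [dist_eq_norm, dist_eq_norm, ← map_sub, NNReal.coe_one, one_mul]
    exact hρ _
  exact h1.continuous

/-- the extension of a representation to the completion -/
noncomputable def extHom [CompleteSpace E] (ρ : CovRep h E) (hρ : ∀ a, ‖ρ.int a‖ ≤ N.toFun a) :
    UniformSpace.Completion (Sy N) →+* (E →L[ℂ] E) :=
  UniformSpace.Completion.extensionHom (syHom N ρ) (syHom_cont ρ hρ)

theorem extHom_cont [CompleteSpace E] (ρ : CovRep h E) (hρ : ∀ a, ‖ρ.int a‖ ≤ N.toFun a) :
    Continuous (extHom ρ hρ) := UniformSpace.Completion.continuous_extension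

theorem extHom_coe [CompleteSpace E] (ρ : CovRep h E) (hρ : ∀ a, ‖ρ.int a‖ ≤ N.toFun a) (a : Alg h) :
    extHom ρ hρ (toSy N a : UniformSpace.Completion (Sy N)) = ρ.int a :=
  UniformSpace.Completion.extensionHom_coe _ _ _

theorem extHom_norm [CompleteSpace E] (ρ : CovRep h E) (hρ : ∀ a, ‖ρ.int a‖ ≤ N.toFun a)
    (b : UniformSpace.Completion (Sy N)) : ‖extHom ρ hρ b‖ ≤ ‖b‖ := by
  induction b using UniformSpace.Completion.induction_on with
  | hp => exact isClosed_le (extHom_cont ρ hρ).norm continuous_norm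
  | ih a =>
    rw [UniformSpace.Completion.norm_coe]
    have := extHom_coe ρ hρ a
    change ‖extHom ρ hρ (toSy N a : UniformSpace.Completion (Sy N))‖ ≤ _
    rw [this]
    exact hρ a

theorem extHom_smul [CompleteSpace E] (ρ : CovRep h E) (hρ : ∀ a, ‖ρ.int a‖ ≤ N.toFun a) (c : ℂ)
    (b : UniformSpace.Completion (Sy N)) : extHom ρ hρ (c • b) = c • extHom ρ hρ b := by
  induction b using UniformSpace.Completion.induction_on with
  | hp => exact isClosed_eq ((extHom_cont ρ hρ).comp (continuous_const_smul c)) ((extHom_cont ρ hρ).const_smul c)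
  | ih a =>
    rw [← UniformSpace.Completion.coe_smul]
    have h1 := extHom_coe ρ hρ a
    have h2 : extHom ρ hρ ((c • a : Sy N) : UniformSpace.Completion (Sy N)) = ρ.int (c • (a : Alg h)) :=
      extHom_coe ρ hρ (c • (a : Alg h))
    change extHom ρ hρ _ = c • extHom ρ hρ (toSy N a : UniformSpace.Completion (Sy N))
    rw [h2, h1]
    exact map_smul ρ.int c (a : Alg h)

theorem coe_sum' (N : CNorm h) {I : Type} (S : Finset I) (b : I → Sy N) :
    ((∑ j ∈ S, b j : Sy N) : UniformSpace.Completion (Sy N)) = ∑ j ∈ S, (b j : UniformSpace.Completion (Sy N)) := by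
  classical
  induction S using Finset.induction_on with
  | empty => rw [Finset.sum_empty, Finset.sum_empty, UniformSpace.Completion.coe_zero]
  | insert i T hi ih => rw [Finset.sum_insert hi, Finset.sum_insert hi, UniformSpace.Completion.coe_add, ih]

end extension

theorem fullN_le {p : ℝ≥0∞} [Fact (1 ≤ p)] (a : Alg h) (C : ℝ) (hC : 0 ≤ C)
    (H : ∀ (Ω : Type) (_ : MeasurableSpace Ω) (μ : Measure Ω) (_ : SigmaFinite μ) (ρ : CovRep h (Lp ℂ p μ)),
      ‖ρ.int a‖ ≤ C) : (fullN p h).toFun a ≤ C := by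
  rw [fullN, supN_apply]
  apply Real.sSup_le _ hC
  rintro r ⟨N, hN, rfl⟩
  obtain ⟨Ω, _, μ, _, ρ, rfl⟩ := hN
  exact H Ω _ μ inferInstance ρ

section sys
variable {p : ℝ≥0∞} [Fact (1 ≤ p)] {E : Type} [NormedAddCommGroup E] [NormedSpace ℂ E]

/-- a bounded homomorphism of the full `L^p` crossed product gives a `Sys` -/
noncomputable def mkSys (hp : p ≠ ∞) (ψ : FullCP p h →ₙₐ[ℂ] (E →L[ℂ] E)) (K : ℝ) (K0 : 0 < K)
    (hK : ∀ a, ‖ψ a‖ ≤ K * ‖a‖) : Sys h p.toReal E where
  Φ :=
    { toFun := fun f => ψ ((toSy (fullN p h) (mono h 0 f) : Sy (fullN p h)) : FullCP p h)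
      map_smul' := fun c f => by
        rw [MonoidHom.id_apply, ← map_smul, ← UniformSpace.Completion.coe_smul]
        congr 2
        exact (SkewMonoidAlgebra.smul_single c _ f).symm
      map_zero' := by
        rw [show toSy (fullN p h) (mono h 0 0) = 0 from SkewMonoidAlgebra.single_zero _,
          UniformSpace.Completion.coe_zero, map_zero]
      map_add' := fun f g => by
        rw [← map_add, ← UniformSpace.Completion.coe_add]
        congr 2
        exact SkewMonoidAlgebra.single_add _ f g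
      map_mul' := fun f g => by
        rw [← map_mul, ← UniformSpace.Completion.coe_mul]
        congr 2
        change mono h 0 (f * g) = mono h 0 f * mono h 0 g
        rw [mono_mul, alpha_zero, add_zero] }
  K := K
  K0 := K0
  hK f := by
    refine (hK _).trans (mul_le_mul_of_nonneg_left ?_ K0.le)
    rw [UniformSpace.Completion.norm_coe]
    exact supN_mono _ _ 0 f
  U n := ψ ((toSy (fullN p h) (mono h n 1) : Sy (fullN p h)) : FullCP p h)
  U0 := rfl
  Uadd m n := by
    rw [← map_mul, ← UniformSpace.Completion.coe_mul]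
    congr 2
    change mono h m 1 * mono h n 1 = mono h (m + n) 1
    rw [mono_mul, one_mul]; rfl
  cov n f := by
    change ψ _ * ψ _ = ψ _ * ψ _
    rw [← map_mul, ← map_mul, ← UniformSpace.Completion.coe_mul, ← UniformSpace.Completion.coe_mul]
    congr 2
    change mono h n 1 * mono h 0 f = mono h 0 (alpha h n f) * mono h n 1
    rw [mono_mul, mono_mul, one_mul, add_zero, zero_add, alpha_zero, mul_one]
  n1 F ε hε C hC hd g hg hg1 := by
    have h1 : ∑ n ∈ F, ε n • (ψ ((toSy (fullN p h) (mono h n 1) : Sy (fullN p h)) : FullCP p h) *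
        ψ ((toSy (fullN p h) (mono h 0 g) : Sy (fullN p h)) : FullCP p h)) =
        ψ ((toSy (fullN p h) (∑ n ∈ F, ε n • (mono h n 1 * mono h 0 g)) : Sy (fullN p h)) : FullCP p h) := by
      have h2 : ((toSy (fullN p h) (∑ n ∈ F, ε n • (mono h n 1 * mono h 0 g)) : Sy (fullN p h)) : FullCP p h) =
          ∑ n ∈ F, ε n • (((toSy (fullN p h) (mono h n 1) : Sy (fullN p h)) : FullCP p h) *
            ((toSy (fullN p h) (mono h 0 g) : Sy (fullN p h)) : FullCP p h)) := by
        have h3 : toSy (fullN p h) (∑ n ∈ F, ε n • (mono h n 1 * mono h 0 g)) =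
            ∑ n ∈ F, ε n • (toSy (fullN p h) (mono h n 1) * toSy (fullN p h) (mono h 0 g)) := rfl
        rw [h3, coe_sum']
        refine Finset.sum_congr rfl fun n _ => ?_
        rw [UniformSpace.Completion.coe_smul, UniformSpace.Completion.coe_mul]
      rw [h2, map_sum]
      refine Finset.sum_congr rfl fun n _ => ?_
      rw [map_smul, map_mul]
    refine (congrArg norm h1).trans_le ((hK _).trans (mul_le_mul_of_nonneg_left ?_ K0.le))
    rw [UniformSpace.Completion.norm_coe]
    apply fullN_le _ _ (by positivity)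
    intro Ω _ μ _ ρ
    exact rep_n1 ρ hp F ε hε C hC hd g hg hg1
  n2 F ε hε C hC hd g hg hg1 := by
    have h1 : ∑ n ∈ F, ε n • (ψ ((toSy (fullN p h) (mono h 0 g) : Sy (fullN p h)) : FullCP p h) *
        ψ ((toSy (fullN p h) (mono h (-n) 1) : Sy (fullN p h)) : FullCP p h)) =
        ψ ((toSy (fullN p h) (∑ n ∈ F, ε n • (mono h 0 g * mono h (-n) 1)) : Sy (fullN p h)) : FullCP p h) := by
      have h2 : ((toSy (fullN p h) (∑ n ∈ F, ε n • (mono h 0 g * mono h (-n) 1)) : Sy (fullN p h)) : FullCP p h) =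
          ∑ n ∈ F, ε n • (((toSy (fullN p h) (mono h 0 g) : Sy (fullN p h)) : FullCP p h) *
            ((toSy (fullN p h) (mono h (-n) 1) : Sy (fullN p h)) : FullCP p h)) := by
        have h3 : toSy (fullN p h) (∑ n ∈ F, ε n • (mono h 0 g * mono h (-n) 1)) =
            ∑ n ∈ F, ε n • (toSy (fullN p h) (mono h 0 g) * toSy (fullN p h) (mono h (-n) 1)) := rfl
        rw [h3, coe_sum']
        refine Finset.sum_congr rfl fun n _ => ?_
        rw [UniformSpace.Completion.coe_smul, UniformSpace.Completion.coe_mul]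
      rw [h2, map_sum]
      refine Finset.sum_congr rfl fun n _ => ?_
      rw [map_smul, map_mul]
    refine (congrArg norm h1).trans_le ((hK _).trans (mul_le_mul_of_nonneg_left ?_ K0.le))
    rw [UniformSpace.Completion.norm_coe]
    apply fullN_le _ _ (by positivity)
    intro Ω _ μ _ ρ
    exact rep_n2 ρ hp F ε hε C hC hd g hg hg1

end sys

theorem aperiodic_of_minimal [Infinite X] (hm : ∀ x : X, Dense (Set.range fun n : ℤ => (h ^ n) x)) (x : X) (n : ℤ)
    (hn : n ≠ 0) : (h ^ n) x ≠ x := by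
  classical
  intro hx
  have h1 : ∀ j : ℤ, (h ^ (n * j)) x = x := by
    intro j
    induction j using Int.induction_on with
    | zero => rw [mul_zero, hpow_zero]
    | succ j ih => rw [mul_add, mul_one, hpow_add, hx, ih]
    | pred j ih =>
      have h2 : (h ^ (n * (-(j : ℤ) - 1))) ((h ^ n) x) = x := by
        rw [← hpow_add, show n * (-(j : ℤ) - 1) + n = n * (-(j : ℤ)) by ring, ih]
      rwa [hx] at h2
  have h3 : (Set.range fun n : ℤ => (h ^ n) x) ⊆ ↑((Finset.Ico 0 |n|).image fun k => (h ^ k) x) := by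
    rintro _ ⟨k, rfl⟩
    rw [Finset.coe_image]
    refine ⟨k % n, ?_, ?_⟩
    · rw [Finset.mem_coe, Finset.mem_Ico]
      exact ⟨Int.emod_nonneg _ hn, Int.emod_lt_abs _ hn⟩
    · have h4 : (h ^ k) x = (h ^ (k % n)) x := by
        conv_lhs => rw [← Int.emod_add_mul_ediv k n, hpow_add, h1]
      exact h4.symm
  have h5 : (Set.range fun n : ℤ => (h ^ n) x).Finite := (Finset.finite_toSet _).subset h3
  have h6 : (Set.range fun n : ℤ => (h ^ n) x) = Set.univ := by
    rw [← h5.isClosed.closure_eq]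
    exact (hm x).closure_eq
  rw [h6] at h5
  exact Set.infinite_univ h5

theorem main {X₁ X₂ : Type} [MetricSpace X₁] [CompactSpace X₁] [MetricSpace X₂] [CompactSpace X₂]
    (h₁ : X₁ ≃ₜ X₁) (h₂ : X₂ ≃ₜ X₂) (hper : ∀ (x : X₁) (n : ℤ), n ≠ 0 → (h₁ ^ n) x ≠ x)
    (p₁ p₂ : ℝ≥0∞) [Fact (1 ≤ p₁)] [Fact (1 ≤ p₂)] (t₁ : p₁ ≠ ∞) (t₂ : p₂ ≠ ∞) (hne : p₁ ≠ p₂)
    (N : CNorm h₂) (G : Good p₂ N) (φ : FullCP p₁ h₁ →ₙₐ[ℂ] UniformSpace.Completion (Sy N)) (hφ : Continuous φ) :
    φ = 0 := by
  classical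
  have hp₁ : 1 ≤ p₁.toReal := by
    rw [← ENNReal.toReal_one]
    exact (ENNReal.toReal_le_toReal ENNReal.one_ne_top t₁).2 Fact.out
  have hp₂ : 1 ≤ p₂.toReal := by
    rw [← ENNReal.toReal_one]
    exact (ENNReal.toReal_le_toReal ENNReal.one_ne_top t₂).2 Fact.out
  have hne' : p₁.toReal ≠ p₂.toReal := fun h => hne ((ENNReal.toReal_eq_toReal_iff' t₁ t₂).1 h)
  obtain ⟨K, K0, hK⟩ : ∃ K : ℝ, 0 < K ∧ ∀ a, ‖φ a‖ ≤ K * ‖a‖ := by
    let T : FullCP p₁ h₁ →L[ℂ] UniformSpace.Completion (Sy N) :=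
      { toFun := φ
        map_add' := map_add φ
        map_smul' := map_smul φ
        cont := hφ }
    refine ⟨‖T‖ + 1, by positivity, fun a => ?_⟩
    have h1 : ‖T a‖ ≤ ‖T‖ * ‖a‖ := T.le_opNorm a
    have h2 : φ a = T a := rfl
    rw [h2]
    nlinarith [norm_nonneg a]
  -- the image of the unit vanishes under all the representations
  have key : ∀ x : X₂, extHom (lam h₂ p₂ x) (G.lam_le x) (φ 1) = 0 := by
    intro x
    let ψ : FullCP p₁ h₁ →ₙₐ[ℂ] (lp (fun _ : ℤ => ℂ) p₂ →L[ℂ] lp (fun _ : ℤ => ℂ) p₂) :=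
      { toFun := fun a => extHom (lam h₂ p₂ x) (G.lam_le x) (φ a)
        map_smul' := fun c a => by rw [map_smul, extHom_smul]; rfl
        map_zero' := by rw [map_zero, map_zero]
        map_add' := fun a b => by rw [map_add, map_add]
        map_mul' := fun a b => by rw [map_mul, map_mul] }
    have hψ : ∀ a, ‖ψ a‖ ≤ K * ‖a‖ := fun a => (extHom_norm (lam h₂ p₂ x) (G.lam_le x) (φ a)).trans (hK a)
    have h1 : (mkSys t₁ ψ K K0 hψ).Φ 1 = 0 := by
      by_cases h2 : p₂.toReal = 2
      · have L : EllQ 2 (lp (fun _ : ℤ => ℂ) p₂) := by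
          rw [← h2]; exact ellLp p₂ t₂
        exact Sys.contra2 _ L hper hp₁ (by rw [← h2]; exact hne')
      · exact Sys.contra _ (ellLp p₂ t₂) hper hp₁ hp₂ h2 hne'
    exact h1
  have he : φ 1 = 0 := by
    apply G.inj
    intro a n x
    rw [← lam_coeff p₂ x a n]
    have h1 : ‖(lam h₂ p₂ x).int a (lp.single p₂ (-n) 1) 0‖ ≤ ‖(lam h₂ p₂ x).int a (lp.single p₂ (-n) 1)‖ :=
      lp.norm_apply_le_norm (zero_lt_one.trans_le Fact.out).ne' _ _
    have h2 : ‖(lp.single p₂ (-n) 1 : lp (fun _ : ℤ => ℂ) p₂)‖ = 1 := by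
      rw [lp.norm_single (zero_lt_one.trans_le Fact.out), norm_one]
    have h3 : ‖(lam h₂ p₂ x).int a‖ ≤ ‖φ 1 - (toSy N a : UniformSpace.Completion (Sy N))‖ := by
      have h4 := extHom_norm (lam h₂ p₂ x) (G.lam_le x) (φ 1 - (toSy N a : UniformSpace.Completion (Sy N)))
      rwa [map_sub, key, extHom_coe, zero_sub, norm_neg] at h4
    calc _ ≤ ‖(lam h₂ p₂ x).int a (lp.single p₂ (-n) 1)‖ := h1
      _ ≤ ‖(lam h₂ p₂ x).int a‖ * ‖(lp.single p₂ (-n) 1 : lp (fun _ : ℤ => ℂ) p₂)‖ := ContinuousLinearMap.le_opNorm _ _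
      _ ≤ _ := by rw [h2, mul_one]; exact h3
  ext a
  rw [← one_mul a, map_mul, he, zero_mul]; rfl

end Pool.Agent.H636R3.Lx
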