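import Pool.Agent.H636R3.LxStmt
import Pool.Agent.H636R3.LxMain

/-! From the definitions in `LxStmt` to the ones used in the proof. -/

set_option autoImplicit false
set_option linter.unusedSectionVars false
open scoped Topology ENNReal
open MeasureTheory Filter

namespace Pool.Agent.H636R3.LpCross

open Pool.Agent.H636R3

variable {X : Type} [MetricSpace X] [CompactSpace X] {h : X ≃ₜ X}

theorem alpha_eq (h : X ≃ₜ X) (n : ℤ) (f : C(X, ℂ)) : alpha h n f = Lx.alpha h n f := by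
  ext x; rfl

section rep
variable {E : Type} [NormedAddCommGroup E] [NormedSpace ℂ E]

/-- a `Rep` as a `CovRep` -/
noncomputable def Rep.toCov (ρ : Rep h E) : Lx.CovRep h E where
  π := ρ.π
  contr := ρ.contr
  v := ρ.v
  cov f ξ := by rw [ρ.cov, alpha_eq]

/-- a `CovRep` as a `Rep` -/
noncomputable def ofCov (ρ : Lx.CovRep h E) : Rep h E where
  π := ρ.π
  contr := ρ.contr
  v := ρ.v
  cov f ξ := by rw [ρ.cov, alpha_eq]

theorem toCov_ofCov (ρ : Lx.CovRep h E) : (ofCov ρ).toCov = ρ := rfl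

/-- a finitely supported function as an element of `Alg h` -/
noncomputable def emb (h : X ≃ₜ X) (a : ℤ →₀ C(X, ℂ)) : Lx.Alg h := a.sum fun n f => Lx.mono h n f

theorem int_mono_op (ρ : Lx.CovRep h E) (n : ℤ) (f : C(X, ℂ)) :
    ρ.int (Lx.mono h n f) = ρ.π f * ((ρ.v ^ n : E ≃ₗᵢ[ℂ] E).toContinuousLinearEquiv : E →L[ℂ] E) := by
  ext ξ
  rw [Lx.int_mono']; rfl

theorem nrm_eq (ρ : Rep h E) (a : ℤ →₀ C(X, ℂ)) : ρ.nrm a = ‖ρ.toCov.int (emb h a)‖ := by
  rw [Rep.nrm, emb, Finsupp.sum, Finsupp.sum, map_sum]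
  congr 1
  refine Finset.sum_congr rfl fun n _ => ?_
  rw [int_mono_op]; rfl

end rep

theorem emb_single (n : ℤ) (f : C(X, ℂ)) : emb h (Finsupp.single n f) = Lx.mono h n f := by
  rw [emb, Finsupp.sum_single_index]
  exact SkewMonoidAlgebra.single_zero _

theorem emb_add (a b : ℤ →₀ C(X, ℂ)) : emb h (a + b) = emb h a + emb h b := by
  classical
  rw [emb, Finsupp.sum_add_index']
  · rfl
  · intro n; exact SkewMonoidAlgebra.single_zero _
  · intro n f g; exact SkewMonoidAlgebra.single_add _ f g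

theorem emb_zero : emb h (0 : ℤ →₀ C(X, ℂ)) = 0 := Finsupp.sum_zero_index

theorem emb_sum {I : Type} (S : Finset I) (b : I → ℤ →₀ C(X, ℂ)) : emb h (∑ j ∈ S, b j) = ∑ j ∈ S, emb h (b j) := by
  classical
  induction S using Finset.induction_on with
  | empty => rw [Finset.sum_empty, Finset.sum_empty, emb_zero]
  | insert i T hi ih => rw [Finset.sum_insert hi, Finset.sum_insert hi, emb_add, ih]

theorem emb_surj (b : Lx.Alg h) : ∃ a, emb h a = b := by
  refine ⟨∑ n ∈ b.support, Finsupp.single (Lx.ti n) (b.coeff n), ?_⟩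
  rw [emb_sum]
  conv_rhs => rw [Lx.eq_sum_mono b b.support le_rfl]
  exact Finset.sum_congr rfl fun n _ => emb_single _ _

theorem fullNorm_eq (p : ℝ≥0∞) [Fact (1 ≤ p)] (a : ℤ →₀ C(X, ℂ)) :
    fullNorm h p a = (Lx.fullN p h).toFun (emb h a) := by
  rw [fullNorm, Lx.fullN, Lx.supN_apply]
  congr 1
  ext r
  constructor
  · rintro ⟨Ω, m, μ, hs, ρ, rfl⟩
    exact ⟨fun b => ‖ρ.toCov.int b‖, ⟨Ω, m, μ, hs, ρ.toCov, rfl⟩, nrm_eq ρ a⟩
  · rintro ⟨N, ⟨Ω, m, μ, hs, ρ, rfl⟩, rfl⟩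
    exact ⟨Ω, m, μ, hs, ofCov ρ, (nrm_eq (ofCov ρ) a).symm⟩

theorem regular_int {p : ℝ≥0∞} [Fact (1 ≤ p)] {F : Type} [NormedAddCommGroup F] [NormedSpace ℂ F]
    (π₀ : C(X, ℂ) →ₐ[ℂ] (F →L[ℂ] F)) (hπ₀ : ∀ f, ‖π₀ f‖ ≤ ‖f‖) (ρ : Rep h (lp (fun _ : ℤ => F) p))
    (hρ : IsRegular (fun k ξ => ξ k) π₀ ρ) (b : Lx.Alg h) : ρ.toCov.int b = (Lx.regRep h p π₀ hπ₀).int b := by
  have h1 : ρ.toCov.π = (Lx.regRep h p π₀ hπ₀).π := by
    ext f ξ k
    exact hρ.1 f ξ k
  have h2 : ρ.toCov.v = (Lx.regRep h p π₀ hπ₀).v := by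
    ext ξ k
    exact hρ.2 ξ k
  rw [Lx.CovRep.int_apply, Lx.CovRep.int_apply, h1, h2]

theorem redNorm_eq (p : ℝ≥0∞) [Fact (1 ≤ p)] (a : ℤ →₀ C(X, ℂ)) :
    redNorm h p a = (Lx.redN h p).toFun (emb h a) := by
  rw [redNorm, Lx.redN, Lx.supN_apply]
  congr 1
  ext r
  constructor
  · rintro ⟨Ω, m, μ, hs, π₀, ρ, hπ₀, hρ, rfl⟩
    refine ⟨fun b => ‖(Lx.regRep h p π₀ hπ₀).int b‖, ⟨Ω, m, μ, hs, π₀, hπ₀, rfl⟩, ?_⟩
    rw [nrm_eq, regular_int π₀ hπ₀ ρ hρ]
  · rintro ⟨N, ⟨Ω, m, μ, hs, π₀, hπ₀, rfl⟩, rfl⟩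
    refine ⟨Ω, m, μ, hs, π₀, ofCov (Lx.regRep h p π₀ hπ₀), hπ₀, ⟨fun f ξ k => rfl, fun ξ k => rfl⟩, ?_⟩
    rw [nrm_eq]; rfl

theorem conv_single (n m : ℤ) (f g : C(X, ℂ)) :
    conv h (Finsupp.single n f) (Finsupp.single m g) = Finsupp.single (n + m) (f * Lx.alpha h n g) := by
  classical
  rw [conv, Finsupp.sum_single_index, Finsupp.sum_single_index]
  · rw [alpha_eq]
  · rw [alpha_eq, show Lx.alpha h n (0 : C(X, ℂ)) = 0 from rfl, mul_zero, Finsupp.single_zero]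
  · rw [Finsupp.sum_single_index]
    · rw [zero_mul, Finsupp.single_zero]
    · rw [zero_mul, Finsupp.single_zero]

section model
variable {A : Type} [NormedRing A] [NormedAlgebra ℂ A] {ι : (ℤ →₀ C(X, ℂ)) →ₗ[ℂ] A} {N : (ℤ →₀ C(X, ℂ)) → ℝ}

theorem iota_mul (H : IsCompletion h N ι) (n m : ℤ) (f g : C(X, ℂ)) :
    ι (Finsupp.single n f) * ι (Finsupp.single m g) = ι (Finsupp.single (n + m) (f * Lx.alpha h n g)) := by
  rw [← H.mul, conv_single]

/-- the coefficients in `A` -/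
noncomputable def f0 (H : IsCompletion h N ι) : C(X, ℂ) →ₐ[ℂ] A where
  toFun f := ι (Finsupp.single 0 f)
  map_one' := H.one
  map_mul' f g := by rw [iota_mul H, Lx.alpha_zero, add_zero]
  map_zero' := by rw [Finsupp.single_zero, map_zero]
  map_add' f g := by rw [Finsupp.single_add, map_add]
  commutes' c := by
    rw [Algebra.algebraMap_eq_smul_one, Algebra.algebraMap_eq_smul_one, ← Finsupp.smul_single, map_smul, H.one]

/-- the unitary in `A` -/
noncomputable def g0 (H : IsCompletion h N ι) : Lx.ZZ h →* A where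
  toFun n := ι (Finsupp.single (Lx.ti n) 1)
  map_one' := H.one
  map_mul' m n := by rw [iota_mul H, one_mul]; rfl

/-- the map `Alg h → A` -/
noncomputable def toA (H : IsCompletion h N ι) : Lx.Alg h →ₐ[ℂ] A :=
  SkewMonoidAlgebra.liftNCAlgHom (f0 H) (g0 H) (by
    intro f n
    change ι (Finsupp.single 0 (Lx.alpha h (Lx.ti n) f)) * ι (Finsupp.single (Lx.ti n) 1) =
      ι (Finsupp.single (Lx.ti n) 1) * ι (Finsupp.single 0 f)
    rw [iota_mul H, iota_mul H, Lx.alpha_zero, mul_one, one_mul, zero_add, add_zero])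

theorem toA_mono (H : IsCompletion h N ι) (n : ℤ) (f : C(X, ℂ)) : toA H (Lx.mono h n f) = ι (Finsupp.single n f) := by
  have h1 : toA H (Lx.mono h n f) = f0 H f * g0 H (Lx.zz h n) := by
    change (Lx.mono h n f).sum (fun n f => f0 H f * g0 H n) = _
    rw [Lx.mono, SkewMonoidAlgebra.sum_single_index]
    rw [map_zero, zero_mul]
  rw [h1]
  change ι (Finsupp.single 0 f) * ι (Finsupp.single n 1) = _
  rw [iota_mul H, Lx.alpha_zero, mul_one, zero_add]

theorem toA_emb (H : IsCompletion h N ι) (a : ℤ →₀ C(X, ℂ)) : toA H (emb h a) = ι a := by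
  conv_rhs => rw [← Finsupp.sum_single a]
  rw [emb, Finsupp.sum, Finsupp.sum, map_sum, map_sum]
  exact Finset.sum_congr rfl fun n _ => toA_mono H _ _

variable {N' : Lx.CNorm h}

theorem toA_norm (H : IsCompletion h N ι) (hN : ∀ a, N a = N'.toFun (emb h a)) (b : Lx.Alg h) :
    ‖toA H b‖ = N'.toFun b := by
  obtain ⟨a, rfl⟩ := emb_surj b
  rw [toA_emb, H.norm, hN]

/-- `toA` on `Sy N'` -/
noncomputable def syA (H : IsCompletion h N ι) (N' : Lx.CNorm h) : Lx.Sy N' →+* A where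
  toFun a := toA H a
  map_one' := map_one (toA H)
  map_mul' a b := map_mul (toA H) a b
  map_zero' := map_zero (toA H)
  map_add' a b := map_add (toA H) a b

theorem exists_model (H : IsCompletion h N ι) (hN : ∀ a, N a = N'.toFun (emb h a)) :
    ∃ J : UniformSpace.Completion (Lx.Sy N') →+* A, (∀ b, ‖J b‖ = ‖b‖) ∧ (∀ (c : ℂ) b, J (c • b) = c • J b) ∧
      Function.Surjective J := by
  haveI := H.complete
  have hcont : Continuous (syA H N') := by
    have h1 : LipschitzWith 1 (syA H N') := by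
      apply LipschitzWith.of_dist_le_mul
      intro a b
      rw [dist_eq_norm, dist_eq_norm, ← map_sub, NNReal.coe_one, one_mul]
      exact (toA_norm H hN _).le
    exact h1.continuous
  let J : UniformSpace.Completion (Lx.Sy N') →+* A := UniformSpace.Completion.extensionHom (syA H N') hcont
  have Jc : Continuous J := UniformSpace.Completion.continuous_extension
  have Jcoe : ∀ a : Lx.Alg h, J (Lx.toSy N' a : UniformSpace.Completion (Lx.Sy N')) = toA H a :=
    fun a => UniformSpace.Completion.extensionHom_coe _ _ _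
  have Jn : ∀ b, ‖J b‖ = ‖b‖ := by
    intro b
    induction b using UniformSpace.Completion.induction_on with
    | hp => exact isClosed_eq Jc.norm continuous_norm
    | ih a =>
      rw [UniformSpace.Completion.norm_coe]
      have h1 := Jcoe a
      change ‖J (Lx.toSy N' a : UniformSpace.Completion (Lx.Sy N'))‖ = _
      rw [h1]
      exact toA_norm H hN a
  have Js : ∀ (c : ℂ) b, J (c • b) = c • J b := by
    intro c b
    induction b using UniformSpace.Completion.induction_on with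
    | hp => exact isClosed_eq (Jc.comp (continuous_const_smul c)) (Jc.const_smul c)
    | ih a =>
      rw [← UniformSpace.Completion.coe_smul]
      have h1 := Jcoe a
      have h2 : J ((c • a : Lx.Sy N') : UniformSpace.Completion (Lx.Sy N')) = toA H (c • (a : Lx.Alg h)) :=
        Jcoe (c • (a : Lx.Alg h))
      change J _ = c • J (Lx.toSy N' a : UniformSpace.Completion (Lx.Sy N'))
      rw [h2, h1]
      exact map_smul (toA H) c (a : Lx.Alg h)
  refine ⟨J, Jn, Js, ?_⟩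
  have hiso : Isometry J := AddMonoidHomClass.isometry_of_norm J Jn
  have hclosed : IsClosed (Set.range J) := hiso.isClosedEmbedding.isClosed_range
  have hdense : Dense (Set.range J) := by
    refine H.dense.mono ?_
    rintro _ ⟨a, rfl⟩
    exact ⟨(Lx.toSy N' (emb h a) : UniformSpace.Completion (Lx.Sy N')), by rw [Jcoe, toA_emb]⟩
  intro y
  have : y ∈ closure (Set.range J) := hdense y
  rwa [hclosed.closure_eq] at this

end model

theorem transfer {X₁ X₂ : Type} [MetricSpace X₁] [CompactSpace X₁] [MetricSpace X₂] [CompactSpace X₂]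
    {h₁ : X₁ ≃ₜ X₁} {h₂ : X₂ ≃ₜ X₂} (N₁ : Lx.CNorm h₁) (N₂ : Lx.CNorm h₂)
    (hmain : ∀ φ : UniformSpace.Completion (Lx.Sy N₁) →ₙₐ[ℂ] UniformSpace.Completion (Lx.Sy N₂), Continuous φ → φ = 0)
    {A₁ A₂ : Type} [NormedRing A₁] [NormedAlgebra ℂ A₁] [NormedRing A₂] [NormedAlgebra ℂ A₂]
    (J₁ : UniformSpace.Completion (Lx.Sy N₁) →+* A₁) (n₁ : ∀ b, ‖J₁ b‖ = ‖b‖)
    (s₁ : ∀ (c : ℂ) b, J₁ (c • b) = c • J₁ b) (j₁ : Function.Surjective J₁)
    (J₂ : UniformSpace.Completion (Lx.Sy N₂) →+* A₂) (n₂ : ∀ b, ‖J₂ b‖ = ‖b‖)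
    (s₂ : ∀ (c : ℂ) b, J₂ (c • b) = c • J₂ b) (j₂ : Function.Surjective J₂)
    (φ : A₁ →ₙₐ[ℂ] A₂) (hφ : Continuous φ) : φ = 0 := by
  have i₂ : Function.Injective J₂ := (AddMonoidHomClass.isometry_of_norm J₂ n₂).injective
  let Q : UniformSpace.Completion (Lx.Sy N₂) ≃+* A₂ := RingEquiv.ofBijective J₂ ⟨i₂, j₂⟩
  have hQ : ∀ a, J₂ (Q.symm a) = a := fun a => Q.apply_symm_apply a
  have hQn : ∀ a, ‖Q.symm a‖ = ‖a‖ := fun a => by rw [← n₂, hQ]
  have hQc : Continuous Q.symm := (AddMonoidHomClass.isometry_of_norm Q.symm hQn).continuous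
  have hQs : ∀ (c : ℂ) a, Q.symm (c • a) = c • Q.symm a := fun c a => i₂ (by rw [hQ, s₂, hQ])
  have hJ₁c : Continuous J₁ := (AddMonoidHomClass.isometry_of_norm J₁ n₁).continuous
  let ψ : UniformSpace.Completion (Lx.Sy N₁) →ₙₐ[ℂ] UniformSpace.Completion (Lx.Sy N₂) :=
    { toFun := fun a => Q.symm (φ (J₁ a))
      map_smul' := fun c a => by rw [s₁, map_smul, hQs]; rfl
      map_zero' := by rw [map_zero, map_zero, map_zero]
      map_add' := fun a b => by rw [map_add, map_add, map_add]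
      map_mul' := fun a b => by rw [map_mul, map_mul, map_mul] }
  have hψ : Continuous ψ := hQc.comp (hφ.comp hJ₁c)
  have h0 := hmain ψ hψ
  ext a
  obtain ⟨b, rfl⟩ := j₁ a
  have h1 : ψ b = 0 := by rw [h0]; rfl
  have h2 : J₂ (ψ b) = φ (J₁ b) := hQ _
  rw [h1, map_zero] at h2
  rw [← h2]; rfl

end Pool.Agent.H636R3.LpCross
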