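import Pool.Agent.H636R3.LxGood

/-! Fejér means: an element of the completion all of whose coefficients vanish is zero. -/

set_option autoImplicit false
set_option linter.unusedSectionVars false
open scoped Topology ENNReal
open MeasureTheory Filter

namespace Pool.Agent.H636R3.Lx

/-- Fejér weights -/
noncomputable def fej (M : ℕ) (n : ℤ) : ℂ :=
  ((((Finset.Ico (0:ℤ) M).filter fun i => i + n ∈ Finset.Ico (0:ℤ) M).card : ℝ) / M : ℝ)

theorem fej_card_le (M : ℕ) (n : ℤ) : ((Finset.Ico (0:ℤ) M).filter fun i => i + n ∈ Finset.Ico (0:ℤ) M).card ≤ M := by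
  refine (Finset.card_filter_le _ _).trans ?_
  rw [Int.card_Ico]; simp

theorem le_fej_card (M : ℕ) (n : ℤ) :
    (M : ℤ) - |n| ≤ ((Finset.Ico (0:ℤ) M).filter fun i => i + n ∈ Finset.Ico (0:ℤ) M).card := by
  have h1 : Finset.Ico (max 0 (-n)) (min (M : ℤ) (M - n)) ⊆
      (Finset.Ico (0:ℤ) M).filter fun i => i + n ∈ Finset.Ico (0:ℤ) M := by
    intro i hi
    rw [Finset.mem_filter, Finset.mem_Ico, Finset.mem_Ico]
    rw [Finset.mem_Ico] at hi
    omega
  have h2 := Finset.card_le_card h1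
  rw [Int.card_Ico] at h2
  have h3 : (M : ℤ) - |n| ≤ ((min (M : ℤ) (M - n) - max 0 (-n)).toNat : ℤ) := by
    rcases abs_cases n with ⟨h4, h5⟩ | ⟨h4, h5⟩ <;> omega
  exact h3.trans (by exact_mod_cast h2)

theorem fej_norm_le (M : ℕ) (n : ℤ) : ‖fej M n‖ ≤ 1 := by
  rw [fej, Complex.norm_real, Real.norm_of_nonneg (by positivity)]
  rcases Nat.eq_zero_or_pos M with h | h
  · subst h; simp
  · rw [div_le_one (by exact_mod_cast h)]
    exact_mod_cast fej_card_le M n

theorem fej_zero_of_le (M : ℕ) (n : ℤ) (hn : (M : ℤ) ≤ |n|) : fej M n = 0 := by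
  have h1 : (Finset.Ico (0:ℤ) M).filter (fun i => i + n ∈ Finset.Ico (0:ℤ) M) = ∅ := by
    apply Finset.filter_false_of_mem
    intro i hi hi'
    rw [Finset.mem_Ico] at hi hi'
    rcases abs_cases n with ⟨h4, h5⟩ | ⟨h4, h5⟩ <;> omega
  rw [fej, h1]; simp

theorem fej_tendsto (n : ℤ) : Tendsto (fun M : ℕ => ‖1 - fej M n‖) atTop (𝓝 0) := by
  have h1 : Tendsto (fun M : ℕ => (|n| : ℝ) / M) atTop (𝓝 0) := tendsto_const_div_atTop_nhds_zero_nat _
  refine squeeze_zero' (Eventually.of_forall fun M => norm_nonneg _) ?_ h1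
  filter_upwards [eventually_gt_atTop 0] with M hM
  have hM' : (0 : ℝ) < M := by exact_mod_cast hM
  rw [fej, show (1 : ℂ) = ((1 : ℝ) : ℂ) by norm_cast, ← Complex.ofReal_sub, Complex.norm_real, Real.norm_eq_abs]
  have h2 : ((((Finset.Ico (0:ℤ) M).filter fun i => i + n ∈ Finset.Ico (0:ℤ) M).card : ℕ) : ℝ) ≤ M := by
    exact_mod_cast fej_card_le M n
  have h3 : (M : ℝ) - |(n : ℝ)| ≤ (((Finset.Ico (0:ℤ) M).filter fun i => i + n ∈ Finset.Ico (0:ℤ) M).card : ℕ) := by
    exact_mod_cast le_fej_card M n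
  rw [abs_of_nonneg]
  · rw [sub_le_iff_le_add, ← add_div, le_div_iff₀ hM']
    linarith
  · rw [sub_nonneg, div_le_one hM']
    exact h2

theorem root_sum (R : ℕ) (ζ : ℂ) (hζ : IsPrimitiveRoot ζ R) (m : ℤ) :
    ∑ j ∈ Finset.range R, (ζ ^ j) ^ m = if (R : ℤ) ∣ m then (R : ℂ) else 0 := by
  have h1 : ∀ j : ℕ, (ζ ^ j) ^ m = (ζ ^ m) ^ j := by
    intro j
    rw [← zpow_natCast, ← zpow_natCast, ← zpow_mul, ← zpow_mul, mul_comm]
  simp_rw [h1]
  split_ifs with h
  · rw [(hζ.zpow_eq_one_iff_dvd m).2 h]; simp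
  · rw [geom_sum_eq (fun h2 => h ((hζ.zpow_eq_one_iff_dvd m).1 h2)), ← h1, hζ.pow_eq_one, one_zpow, sub_self, zero_div]

/-- the (nonnegative) values of the Fejér kernel at the roots of unity, normalised -/
noncomputable def kap (R M : ℕ) (ζ : ℂ) (j : ℕ) : ℝ :=
  (1 / (R * M : ℝ)) * ‖∑ i ∈ Finset.Ico (0:ℤ) M, (ζ ^ j) ^ i‖ ^ 2

theorem kap_sum (R M : ℕ) (hM : 0 < M) (hR : 0 < R) (ζ : ℂ) (hζ : IsPrimitiveRoot ζ R) (n : ℤ) (hn : |n| + M ≤ R) :
    ∑ j ∈ Finset.range R, (kap R M ζ j : ℂ) * (ζ ^ j) ^ n = fej M n := by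
  have hζ1 : ‖ζ‖ = 1 := hζ.norm'_eq_one hR.ne'
  have hζ0 : ζ ≠ 0 := by rintro rfl; simp at hζ1
  have hM' : (M : ℂ) ≠ 0 := by exact_mod_cast hM.ne'
  have hR' : (R : ℂ) ≠ 0 := by exact_mod_cast hR.ne'
  have h1 : ∀ j : ℕ, (kap R M ζ j : ℂ) * (ζ ^ j) ^ n =
      ∑ i ∈ Finset.Ico (0:ℤ) M, ∑ i' ∈ Finset.Ico (0:ℤ) M, (1 / (R * M : ℂ)) * (ζ ^ j) ^ (i - i' + n) := by
    intro j
    have hu : ‖ζ ^ j‖ = 1 := by rw [norm_pow, hζ1, one_pow]
    have hu0 : ζ ^ j ≠ 0 := pow_ne_zero _ hζ0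
    have h2 : ((‖∑ i ∈ Finset.Ico (0:ℤ) M, (ζ ^ j) ^ i‖ ^ 2 : ℝ) : ℂ) =
        ∑ i ∈ Finset.Ico (0:ℤ) M, ∑ i' ∈ Finset.Ico (0:ℤ) M, (ζ ^ j) ^ (i - i') := by
      rw [Complex.ofReal_pow, ← Complex.mul_conj', map_sum, Finset.sum_mul_sum]
      refine Finset.sum_congr rfl fun i _ => Finset.sum_congr rfl fun i' _ => ?_
      rw [map_zpow₀, ← Complex.inv_eq_conj hu, inv_zpow, zpow_sub₀ hu0, div_eq_mul_inv]
    rw [kap, Complex.ofReal_mul, h2, Finset.mul_sum, Finset.sum_mul]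
    refine Finset.sum_congr rfl fun i _ => ?_
    rw [Finset.mul_sum, Finset.sum_mul]
    refine Finset.sum_congr rfl fun i' _ => ?_
    rw [zpow_add₀ hu0]
    push_cast
    ring
  simp_rw [h1]
  rw [Finset.sum_comm]
  have h3 : ∀ i ∈ Finset.Ico (0:ℤ) M, ∑ j ∈ Finset.range R, ∑ i' ∈ Finset.Ico (0:ℤ) M,
      (1 / (R * M : ℂ)) * (ζ ^ j) ^ (i - i' + n) = if i + n ∈ Finset.Ico (0:ℤ) M then 1 / (M : ℂ) else 0 := by
    intro i hi
    rw [Finset.sum_comm]
    have h4 : ∀ i' ∈ Finset.Ico (0:ℤ) M, ∑ j ∈ Finset.range R, (1 / (R * M : ℂ)) * (ζ ^ j) ^ (i - i' + n) =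
        if i + n = i' then 1 / (M : ℂ) else 0 := by
      intro i' hi'
      rw [← Finset.mul_sum, root_sum R ζ hζ]
      rw [Finset.mem_Ico] at hi hi'
      by_cases h5 : i + n = i'
      · rw [if_pos h5, if_pos (by rw [← h5]; ring_nf; exact dvd_zero _)]
        field_simp
      · rw [if_neg h5, if_neg, mul_zero]
        intro h6
        apply h5
        have h7 : |i - i' + n| < R := by
          have h8 : |i - i'| < M := by rw [abs_lt]; omega
          calc |i - i' + n| ≤ |i - i'| + |n| := abs_add_le _ _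
            _ < R := by omega
        have h9 := Int.eq_zero_of_abs_lt_dvd h6 h7
        omega
    rw [Finset.sum_congr rfl h4, Finset.sum_ite_eq]
  rw [Finset.sum_congr rfl h3, ← Finset.sum_filter, Finset.sum_const, fej, nsmul_eq_mul]
  push_cast
  ring

variable {X : Type} [MetricSpace X] [CompactSpace X] {h : X ≃ₜ X}

theorem cn_sum (N : CNorm h) {I : Type} (S : Finset I) (b : I → Alg h) :
    N.toFun (∑ j ∈ S, b j) ≤ ∑ j ∈ S, N.toFun (b j) := by
  classical
  induction S using Finset.induction_on with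
  | empty => rw [Finset.sum_empty, Finset.sum_empty]; exact N.map_zero'.le
  | insert i T hi ih =>
    rw [Finset.sum_insert hi, Finset.sum_insert hi]
    exact (N.add_le' _ _).trans (add_le_add le_rfl ih)

theorem cn_nonneg (N : CNorm h) (a : Alg h) : 0 ≤ N.toFun a := norm_nonneg (toSy N a)

theorem fejer_le (N : CNorm h) (hg : ∀ z : ℂ, ‖z‖ = 1 → ∀ a : Alg h, N.toFun (mulW (fun n => z ^ n) a) ≤ N.toFun a)
    (M : ℕ) (hM : 0 < M) (a : Alg h) : N.toFun (mulW (fej M) a) ≤ N.toFun a := by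
  classical
  obtain ⟨D, hD⟩ : ∃ D : ℕ, ∀ n ∈ a.support, |ti n| ≤ D := by
    refine ⟨∑ n ∈ a.support, (ti n).natAbs, fun n hn => ?_⟩
    rw [Int.abs_eq_natAbs]
    exact_mod_cast Finset.single_le_sum (f := fun n : ZZ h => (ti n).natAbs) (fun _ _ => Nat.zero_le _) hn
  set R : ℕ := D + M with hR
  have hR0 : 0 < R := by omega
  set ζ : ℂ := Complex.exp (2 * Real.pi * Complex.I / R) with hζd
  have hζ : IsPrimitiveRoot ζ R := Complex.isPrimitiveRoot_exp R hR0.ne'
  have hζ1 : ‖ζ‖ = 1 := hζ.norm'_eq_one hR0.ne'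
  have h1 : mulW (fej M) a = ∑ j ∈ Finset.range R, (kap R M ζ j : ℂ) • mulW (fun n => (ζ ^ j) ^ n) a := by
    apply mulW_sum
    intro n hn
    apply kap_sum R M hM hR0 ζ hζ
    have := hD n hn
    rw [hR]; push_cast; linarith
  have h2 : ∑ j ∈ Finset.range R, kap R M ζ j = 1 := by
    have h3 := kap_sum R M hM hR0 ζ hζ 0 (by rw [abs_zero, hR]; push_cast; linarith)
    have h4 : fej M 0 = 1 := by
      have h5 : (Finset.Ico (0:ℤ) M).filter (fun i => i + 0 ∈ Finset.Ico (0:ℤ) M) = Finset.Ico (0:ℤ) M := by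
        apply Finset.filter_true_of_mem
        intro i hi
        rwa [add_zero]
      rw [fej, h5, Int.card_Ico]
      have : (M : ℝ) ≠ 0 := by exact_mod_cast hM.ne'
      simp [this]
    rw [h4] at h3
    simp only [zpow_zero, mul_one] at h3
    exact_mod_cast h3
  rw [h1]
  refine (cn_sum N _ _).trans ?_
  calc ∑ j ∈ Finset.range R, N.toFun ((kap R M ζ j : ℂ) • mulW (fun n => (ζ ^ j) ^ n) a)
      ≤ ∑ j ∈ Finset.range R, kap R M ζ j * N.toFun a := by
        refine Finset.sum_le_sum fun j _ => ?_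
        refine (N.smul_le' _ _).trans ?_
        have hk : 0 ≤ kap R M ζ j := by unfold kap; positivity
        rw [Complex.norm_real, Real.norm_of_nonneg hk]
        exact mul_le_mul_of_nonneg_left (hg _ (by rw [norm_pow, hζ1, one_pow]) a) hk
    _ = N.toFun a := by rw [← Finset.sum_mul, h2, one_mul]

theorem fejer_approx (N : CNorm h) (hm : ∀ (n : ℤ) (f : C(X, ℂ)), N.toFun (mono h n f) ≤ ‖f‖) (a : Alg h) (ε : ℝ)
    (hε : 0 < ε) : ∃ M : ℕ, 0 < M ∧ N.toFun (a - mulW (fej M) a) < ε := by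
  have h1 : ∀ M : ℕ, N.toFun (a - mulW (fej M) a) ≤ ∑ n ∈ a.support, ‖1 - fej M (ti n)‖ * ‖a.coeff n‖ := by
    intro M
    have h2 : a - mulW (fej M) a = mulW (fun n => 1 - fej M n) a := by
      apply SkewMonoidAlgebra.ext
      intro n
      rw [mulW_coeff, SkewMonoidAlgebra.coeff_sub, Finsupp.sub_apply, mulW_coeff, sub_smul, one_smul]
    rw [h2, eq_sum_mono (mulW (fun n => 1 - fej M n) a) a.support (support_mulW _ a)]
    refine (cn_sum N _ _).trans (Finset.sum_le_sum fun n _ => ?_)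
    refine (hm _ _).trans ?_
    rw [mulW_coeff, norm_smul]
  have h2 : Tendsto (fun M : ℕ => ∑ n ∈ a.support, ‖1 - fej M (ti n)‖ * ‖a.coeff n‖) atTop (𝓝 0) := by
    have h3 : Tendsto (fun M : ℕ => ∑ n ∈ a.support, ‖1 - fej M (ti n)‖ * ‖a.coeff n‖) atTop
        (𝓝 (∑ n ∈ a.support, 0 * ‖a.coeff n‖)) :=
      tendsto_finsetSum _ fun n _ => (fej_tendsto (ti n)).mul_const _
    simpa using h3
  obtain ⟨M, hM1, hM2⟩ := ((h2.eventually (gt_mem_nhds hε)).and (eventually_gt_atTop 0)).exists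
  exact ⟨M, hM2, (h1 M).trans_lt hM1⟩

theorem Good.inj {q : ℝ≥0∞} [Fact (1 ≤ q)] {N : CNorm h} (G : Good q N) (b : UniformSpace.Completion (Sy N))
    (H : ∀ (a : Alg h) (n : ℤ) (x : X), ‖a.coeff (zz h n) x‖ ≤ ‖b - (toSy N a : UniformSpace.Completion (Sy N))‖) :
    b = 0 := by
  classical
  have key : ∀ ε : ℝ, 0 < ε → ‖b‖ ≤ 5 * ε := by
    intro ε hε
    have dense : ∀ δ : ℝ, 0 < δ → ∃ a : Alg h, ‖b - (toSy N a : UniformSpace.Completion (Sy N))‖ < δ := by
      intro δ hδ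
      obtain ⟨c, hc⟩ := (UniformSpace.Completion.denseRange_coe (α := Sy N)).exists_mem_open
        (Metric.isOpen_ball (x := b) (ε := δ)) ⟨b, Metric.mem_ball_self hδ⟩
      refine ⟨c, ?_⟩
      rw [← dist_eq_norm, dist_comm]
      exact hc
    obtain ⟨a, ha⟩ := dense ε hε
    obtain ⟨M, hM, haM⟩ := fejer_approx N G.mono_le a ε hε
    have hM' : (0 : ℝ) < M := by exact_mod_cast hM
    obtain ⟨a', ha'⟩ := dense (min ε (ε / (2 * M))) (lt_min hε (by positivity))
    have ha1 : ‖b - (toSy N a' : UniformSpace.Completion (Sy N))‖ < ε := ha'.trans_le (min_le_left _ _)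
    have ha2 : ‖b - (toSy N a' : UniformSpace.Completion (Sy N))‖ < ε / (2 * M) := ha'.trans_le (min_le_right _ _)
    have h1 : N.toFun (mulW (fej M) a') ≤ ε := by
      set S : Finset (ZZ h) := (Finset.Ioo (-(M : ℤ)) M).image (zz h) with hS
      have hsub : (mulW (fej M) a').support ⊆ S := by
        intro n hn
        rw [SkewMonoidAlgebra.mem_support_iff, mulW_coeff] at hn
        rw [hS, Finset.mem_image]
        refine ⟨ti n, ?_, rfl⟩
        rw [Finset.mem_Ioo, ← abs_lt]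
        by_contra h2
        push Not at h2
        exact hn (by rw [fej_zero_of_le M (ti n) h2, zero_smul])
      have hcard : (S.card : ℝ) ≤ 2 * M := by
        have h2 : S.card ≤ 2 * M := by
          refine Finset.card_image_le.trans ?_
          rw [Int.card_Ioo]; omega
        exact_mod_cast h2
      rw [eq_sum_mono (mulW (fej M) a') S hsub]
      calc N.toFun (∑ n ∈ S, mono h (ti n) ((mulW (fej M) a').coeff n))
          ≤ ∑ n ∈ S, N.toFun (mono h (ti n) ((mulW (fej M) a').coeff n)) := cn_sum N _ _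
        _ ≤ ∑ n ∈ S, ε / (2 * M) := by
          refine Finset.sum_le_sum fun n _ => ?_
          refine (G.mono_le _ _).trans ?_
          rw [mulW_coeff, norm_smul]
          have h3 : ‖a'.coeff n‖ ≤ ε / (2 * M) := by
            rw [ContinuousMap.norm_le _ (by positivity)]
            intro x
            exact (H a' (ti n) x).trans ha2.le
          calc ‖fej M (ti n)‖ * ‖a'.coeff n‖ ≤ 1 * (ε / (2 * M)) :=
                mul_le_mul (fej_norm_le _ _) h3 (norm_nonneg _) zero_le_one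
            _ = _ := one_mul _
        _ = S.card * (ε / (2 * M)) := by rw [Finset.sum_const, nsmul_eq_mul]
        _ ≤ (2 * M) * (ε / (2 * M)) := mul_le_mul_of_nonneg_right hcard (by positivity)
        _ = ε := by field_simp
    have h2 : N.toFun (mulW (fej M) a - mulW (fej M) a') ≤ 2 * ε := by
      rw [← mulW_sub]
      refine (fejer_le N G.gauge M hM (a - a')).trans ?_
      have h3 : N.toFun (a - a') = ‖(toSy N a : UniformSpace.Completion (Sy N)) - (toSy N a' : UniformSpace.Completion (Sy N))‖ := by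
        rw [← UniformSpace.Completion.coe_sub, UniformSpace.Completion.norm_coe]; rfl
      rw [h3]
      calc ‖(toSy N a : UniformSpace.Completion (Sy N)) - (toSy N a' : UniformSpace.Completion (Sy N))‖
          = ‖(b - (toSy N a' : UniformSpace.Completion (Sy N))) - (b - (toSy N a : UniformSpace.Completion (Sy N)))‖ := by
            congr 1; abel
        _ ≤ ‖b - (toSy N a' : UniformSpace.Completion (Sy N))‖ + ‖b - (toSy N a : UniformSpace.Completion (Sy N))‖ := norm_sub_le _ _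
        _ ≤ 2 * ε := by linarith
    have h3 : N.toFun a ≤ 4 * ε := by
      have h4 : a = (a - mulW (fej M) a) + ((mulW (fej M) a - mulW (fej M) a') + mulW (fej M) a') := by abel
      rw [h4]
      refine (N.add_le' _ _).trans ?_
      have h5 := N.add_le' (mulW (fej M) a - mulW (fej M) a') (mulW (fej M) a')
      change N.toFun _ + N.toFun _ ≤ _
      change N.toFun _ ≤ N.toFun _ + N.toFun _ at h5
      linarith
    have h4 : ‖(toSy N a : UniformSpace.Completion (Sy N))‖ = N.toFun a := by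
      rw [UniformSpace.Completion.norm_coe]; rfl
    calc ‖b‖ = ‖(b - (toSy N a : UniformSpace.Completion (Sy N))) + (toSy N a : UniformSpace.Completion (Sy N))‖ := by
          rw [sub_add_cancel]
      _ ≤ ‖b - (toSy N a : UniformSpace.Completion (Sy N))‖ + ‖(toSy N a : UniformSpace.Completion (Sy N))‖ := norm_add_le _ _
      _ ≤ 5 * ε := by rw [h4]; linarith
  rw [← norm_eq_zero]
  apply le_antisymm _ (norm_nonneg _)
  apply le_of_forall_pos_le_add
  intro ε hε
  have := key (ε / 5) (by positivity)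
  linarith

end Pool.Agent.H636R3.Lx
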