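import Pool.Agent.H636R3.LxReg
import Pool.Agent.H636R3.LxEll

/-! Properties of the full and reduced norms used in the main argument. -/

set_option autoImplicit false
set_option linter.unusedSectionVars false
open scoped Topology ENNReal
open MeasureTheory

namespace Pool.Agent.H636R3.Lx

variable {X : Type} [MetricSpace X] [CompactSpace X] {h : X ≃ₜ X}

/-- multiply the `n`-th coefficient by `w n` -/
noncomputable def mulW (w : ℤ → ℂ) (a : Alg h) : Alg h :=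
  ⟨Finsupp.onFinset a.support (fun n => w (ti n) • a.coeff n) (by
    intro n hn
    rw [SkewMonoidAlgebra.mem_support_iff]
    intro h0
    exact hn (by rw [h0, smul_zero]))⟩

theorem mulW_coeff (w : ℤ → ℂ) (a : Alg h) (n : ZZ h) : (mulW w a).coeff n = w (ti n) • a.coeff n := rfl

theorem mulW_add (w : ℤ → ℂ) (a b : Alg h) : mulW w (a + b) = mulW w a + mulW w b := by
  ext n x
  rw [mulW_coeff, SkewMonoidAlgebra.coeff_add, SkewMonoidAlgebra.coeff_add, Finsupp.add_apply, Finsupp.add_apply,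
    mulW_coeff, mulW_coeff, smul_add]

theorem mulW_sub (w : ℤ → ℂ) (a b : Alg h) : mulW w (a - b) = mulW w a - mulW w b := by
  ext n x
  rw [mulW_coeff, SkewMonoidAlgebra.coeff_sub, SkewMonoidAlgebra.coeff_sub, Finsupp.sub_apply, Finsupp.sub_apply,
    mulW_coeff, mulW_coeff, smul_sub]

theorem mulW_sum {I : Type} (S : Finset I) (κ : I → ℂ) (w : I → ℤ → ℂ) (W : ℤ → ℂ) (a : Alg h)
    (hW : ∀ n ∈ a.support, ∑ j ∈ S, κ j * w j (ti n) = W (ti n)) : mulW W a = ∑ j ∈ S, κ j • mulW (w j) a := by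
  classical
  have key : ∀ (T : Finset I) (n : ZZ h), (∑ j ∈ T, κ j • mulW (w j) a).coeff n = (∑ j ∈ T, κ j * w j (ti n)) • a.coeff n := by
    intro T n
    induction T using Finset.induction_on with
    | empty => simp
    | insert i T hi ih =>
      rw [Finset.sum_insert hi, Finset.sum_insert hi, SkewMonoidAlgebra.coeff_add, Finsupp.add_apply, ih,
        SkewMonoidAlgebra.coeff_smul, Finsupp.smul_apply, mulW_coeff, smul_smul, add_smul]
  apply SkewMonoidAlgebra.ext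
  intro n
  rw [key, mulW_coeff]
  by_cases hn : n ∈ a.support
  · rw [hW n hn]
  · rw [SkewMonoidAlgebra.notMem_support_iff.1 hn, smul_zero, smul_zero]

theorem eq_sum_mono (a : Alg h) (S : Finset (ZZ h)) (hS : a.support ⊆ S) :
    a = ∑ n ∈ S, mono h (ti n) (a.coeff n) := by
  classical
  have h1 : a = ∑ n ∈ a.support, mono h (ti n) (a.coeff n) := by
    have := (SkewMonoidAlgebra.sum_single a).symm
    rw [SkewMonoidAlgebra.sum_def'] at this
    exact this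
  rw [← Finset.sum_subset hS (f := fun n => mono h (ti n) (a.coeff n))]
  · exact h1
  · intro n _ hn
    rw [SkewMonoidAlgebra.notMem_support_iff.1 hn]
    exact SkewMonoidAlgebra.single_zero _

section
variable {E : Type} [NormedAddCommGroup E] [NormedSpace ℂ E]

theorem int_mono' (ρ : CovRep h E) (n : ℤ) (f : C(X, ℂ)) (ξ : E) :
    ρ.int (mono h n f) ξ = ρ.π f ((ρ.v ^ n : E ≃ₗᵢ[ℂ] E) ξ) := by
  rw [ρ.int_apply, mono, SkewMonoidAlgebra.sum_single_index]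
  · rfl
  · rw [map_zero, zero_mul]

theorem int_sum (ρ : CovRep h E) (a : Alg h) (S : Finset (ZZ h)) (hS : a.support ⊆ S) (ξ : E) :
    ρ.int a ξ = ∑ n ∈ S, ρ.π (a.coeff n) ((ρ.v ^ ti n : E ≃ₗᵢ[ℂ] E) ξ) := by
  conv_lhs => rw [eq_sum_mono a S hS]
  rw [map_sum, sum_apply]
  exact Finset.sum_congr rfl fun n _ => int_mono' ρ _ _ ξ

theorem support_mulW (w : ℤ → ℂ) (a : Alg h) : (mulW w a).support ⊆ a.support := by
  intro n hn
  rw [SkewMonoidAlgebra.mem_support_iff] at hn ⊢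
  intro h0
  exact hn (by rw [mulW_coeff, h0, smul_zero])

/-- scalar multiplication by a number of modulus one -/
noncomputable def smulIso (E : Type) [NormedAddCommGroup E] [NormedSpace ℂ E] (z : ℂ) (hz : ‖z‖ = 1) : E ≃ₗᵢ[ℂ] E where
  toLinearEquiv := LinearEquiv.smulOfNeZero ℂ E z (by rintro rfl; simp at hz)
  norm_map' ξ := by
    change ‖z • ξ‖ = ‖ξ‖
    rw [norm_smul, hz, one_mul]

theorem smulIso_symm (z : ℂ) (hz : ‖z‖ = 1) (ξ : E) : (smulIso E z hz).symm ξ = z⁻¹ • ξ := rfl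

/-- twist a representation by a character of `ℤ` -/
noncomputable def CovRep.twist (ρ : CovRep h E) (z : ℂ) (hz : ‖z‖ = 1) : CovRep h E where
  π := ρ.π
  contr := ρ.contr
  v := ρ.v.trans (smulIso E z hz)
  cov f ξ := by
    have hz0 : z ≠ 0 := by rintro rfl; simp at hz
    change z • ρ.v (ρ.π f (ρ.v.symm (z⁻¹ • ξ))) = _
    rw [map_smul, map_smul, map_smul, smul_smul, mul_inv_cancel₀ hz0, one_smul, ρ.cov]

theorem twist_zpow (ρ : CovRep h E) (z : ℂ) (hz : ‖z‖ = 1) (n : ℤ) (ξ : E) :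
    ((ρ.twist z hz).v ^ n : E ≃ₗᵢ[ℂ] E) ξ = z ^ n • (ρ.v ^ n : E ≃ₗᵢ[ℂ] E) ξ := by
  have hz0 : z ≠ 0 := by rintro rfl; simp at hz
  induction n using Int.induction_on with
  | zero => rw [zpow_zero, zpow_zero, zpow_zero, one_smul]
  | succ n ih =>
    rw [add_comm, zpow_add, zpow_add, zpow_one, zpow_one, zpow_add₀ hz0, zpow_one]
    change z • ρ.v (((ρ.twist z hz).v ^ (n : ℤ) : E ≃ₗᵢ[ℂ] E) ξ) = (z * z ^ (n : ℤ)) • ρ.v ((ρ.v ^ (n : ℤ) : E ≃ₗᵢ[ℂ] E) ξ)
    rw [ih, map_smul, smul_smul]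
  | pred n ih =>
    rw [show (-(n : ℤ) - 1) = -1 + -(n : ℤ) by ring, zpow_add, zpow_add, zpow_neg_one, zpow_neg_one, zpow_add₀ hz0,
      zpow_neg_one]
    change ρ.v.symm (z⁻¹ • ((ρ.twist z hz).v ^ (-(n : ℤ)) : E ≃ₗᵢ[ℂ] E) ξ) =
      (z⁻¹ * z ^ (-(n : ℤ))) • ρ.v.symm ((ρ.v ^ (-(n : ℤ)) : E ≃ₗᵢ[ℂ] E) ξ)
    rw [ih, map_smul, map_smul, smul_smul]

theorem int_twist (ρ : CovRep h E) (z : ℂ) (hz : ‖z‖ = 1) (a : Alg h) :
    (ρ.twist z hz).int a = ρ.int (mulW (fun n => z ^ n) a) := by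
  ext ξ
  rw [int_sum _ _ a.support le_rfl, int_sum _ _ a.support (support_mulW _ a)]
  refine Finset.sum_congr rfl fun n _ => ?_
  rw [twist_zpow, mulW_coeff, map_smul, map_smul]; rfl

theorem l1_mono (n : ℤ) (f : C(X, ℂ)) : l1 (mono h n f) = ‖f‖ := by
  rw [l1, mono, SkewMonoidAlgebra.sum_single_index]
  exact norm_zero

theorem supN_mono (T : Set (Alg h → ℝ)) (hT : ∀ N ∈ T, IsRepNorm h N) (n : ℤ) (f : C(X, ℂ)) :
    (supN T hT).toFun (mono h n f) ≤ ‖f‖ := by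
  rw [supN_apply]
  apply Real.sSup_le _ (norm_nonneg _)
  rintro r ⟨N, hN, rfl⟩
  obtain ⟨E, _, _, ρ, rfl⟩ := hT N hN
  exact (ρ.int_norm_le _).trans (l1_mono n f).le

theorem intertwine {E' : Type} [NormedAddCommGroup E'] [NormedSpace ℂ E'] (ρ : CovRep h E) (ρ' : CovRep h E')
    (J : E →ₗᵢ[ℂ] E') (hπ : ∀ f ξ, J (ρ.π f ξ) = ρ'.π f (J ξ)) (hv : ∀ ξ, J (ρ.v ξ) = ρ'.v (J ξ)) (a : Alg h) :
    ‖ρ.int a‖ ≤ ‖ρ'.int a‖ := by
  have hv' : ∀ ξ, J (ρ.v.symm ξ) = ρ'.v.symm (J ξ) := by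
    intro ξ
    rw [LinearIsometryEquiv.eq_symm_apply, ← hv, LinearIsometryEquiv.apply_symm_apply]
  have h1 : ∀ (n : ℤ) (ξ : E), J ((ρ.v ^ n : E ≃ₗᵢ[ℂ] E) ξ) = (ρ'.v ^ n : E' ≃ₗᵢ[ℂ] E') (J ξ) := by
    intro n
    induction n using Int.induction_on with
    | zero => intro ξ; rw [zpow_zero, zpow_zero]; rfl
    | succ n ih =>
      intro ξ
      rw [add_comm, zpow_add, zpow_add, zpow_one, zpow_one]
      change J (ρ.v ((ρ.v ^ (n : ℤ) : E ≃ₗᵢ[ℂ] E) ξ)) = ρ'.v ((ρ'.v ^ (n : ℤ) : E' ≃ₗᵢ[ℂ] E') (J ξ))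
      rw [hv, ih]
    | pred n ih =>
      intro ξ
      rw [show (-(n : ℤ) - 1) = -1 + -(n : ℤ) by ring, zpow_add, zpow_add, zpow_neg_one, zpow_neg_one]
      change J (ρ.v.symm ((ρ.v ^ (-(n : ℤ)) : E ≃ₗᵢ[ℂ] E) ξ)) = ρ'.v.symm ((ρ'.v ^ (-(n : ℤ)) : E' ≃ₗᵢ[ℂ] E') (J ξ))
      rw [hv', ih]
  have h2 : ∀ ξ, J (ρ.int a ξ) = ρ'.int a (J ξ) := by
    intro ξ
    rw [int_sum _ _ a.support le_rfl, int_sum _ _ a.support le_rfl, map_sum]
    refine Finset.sum_congr rfl fun n _ => ?_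
    rw [hπ, h1]
  refine ContinuousLinearMap.opNorm_le_bound _ (norm_nonneg _) fun ξ => ?_
  rw [← J.norm_map (ρ.int a ξ), h2, ← J.norm_map ξ]
  exact (ρ'.int a).le_opNorm _

end

/-! the representation by evaluation at a point -/

section
variable {F : Type} [NormedAddCommGroup F] [NormedSpace ℂ F]

/-- `f ↦ f(x) · id` -/
noncomputable def evF (F : Type) [NormedAddCommGroup F] [NormedSpace ℂ F] (x : X) : C(X, ℂ) →ₐ[ℂ] (F →L[ℂ] F) where
  toFun f := f x • (1 : F →L[ℂ] F)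
  map_one' := by rw [ContinuousMap.one_apply, one_smul]
  map_mul' f g := by
    rw [ContinuousMap.mul_apply, smul_mul_smul_comm, one_mul]
  map_zero' := by rw [ContinuousMap.zero_apply, zero_smul]
  map_add' f g := by rw [ContinuousMap.add_apply, add_smul]
  commutes' c := by
    rw [Algebra.algebraMap_eq_smul_one (A := C(X, ℂ)), ContinuousMap.smul_apply, ContinuousMap.one_apply,
      smul_eq_mul, mul_one, Algebra.algebraMap_eq_smul_one]

theorem evF_apply (x : X) (f : C(X, ℂ)) (ξ : F) : evF F x f ξ = f x • ξ := rfl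

theorem evF_contr (x : X) (f : C(X, ℂ)) : ‖evF F x f‖ ≤ ‖f‖ := by
  refine ContinuousLinearMap.opNorm_le_bound _ (norm_nonneg _) fun ξ => ?_
  rw [evF_apply, norm_smul]
  exact mul_le_mul_of_nonneg_right (f.norm_coe_le_norm x) (norm_nonneg _)

end

variable (h) in
/-- the regular representation on `ℓ^q(ℤ)` given by the orbit of `x` -/
noncomputable def lam (q : ℝ≥0∞) [Fact (1 ≤ q)] (x : X) : CovRep h (lp (fun _ : ℤ => ℂ) q) :=
  regRep h q (evF ℂ x) (evF_contr x)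

theorem lam_coeff (q : ℝ≥0∞) [Fact (1 ≤ q)] (x : X) (a : Alg h) (n : ℤ) :
    (lam h q x).int a (lp.single q (-n) 1) 0 = a.coeff (zz h n) x := by
  classical
  rw [int_sum _ _ (insert (zz h n) a.support) (Finset.subset_insert _ _)]
  have h1 : ∀ m : ZZ h, (lam h q x).π (a.coeff m) (((lam h q x).v ^ ti m : lp (fun _ : ℤ => ℂ) q ≃ₗᵢ[ℂ] lp (fun _ : ℤ => ℂ) q)
      (lp.single q (-n) 1)) 0 = if m = zz h n then a.coeff m x else 0 := by
    intro m
    change evF ℂ x (alpha h (-0) (a.coeff m)) ((shift ^ ti m : lp (fun _ : ℤ => ℂ) q ≃ₗᵢ[ℂ] lp (fun _ : ℤ => ℂ) q)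
      (lp.single q (-n) 1) 0) = _
    rw [shift_zpow, neg_zero, alpha_zero, evF_apply, lp.single_apply, zero_sub]
    split_ifs with hm
    · have hmn : ti m = n := by rw [hm]; rfl
      rw [hmn, Pi.single_eq_same, smul_eq_mul, mul_one]
    · rw [Pi.single_eq_of_ne, smul_zero]
      intro h2
      apply hm
      have : ti m = n := by omega
      rw [← this]; rfl
  have h2 : ∀ (S : Finset (ZZ h)) (g : ZZ h → lp (fun _ : ℤ => ℂ) q), (∑ m ∈ S, g m) 0 = ∑ m ∈ S, g m 0 := by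
    intro S g
    rw [lp.coeFn_sum, Finset.sum_apply]
  rw [h2]
  simp_rw [h1]
  rw [Finset.sum_ite_eq' , if_pos (Finset.mem_insert_self _ _)]

/-- `ℓ^q(ℤ)` as a space of sequences -/
noncomputable def ellLp (q : ℝ≥0∞) [Fact (1 ≤ q)] (hq : q ≠ ∞) : EllQ q.toReal (lp (fun _ : ℤ => ℂ) q) where
  c k := lp.evalₗ (𝕜 := ℂ) (fun _ : ℤ => ℂ) q k
  hnorm ξ := lp.hasSum_norm (ENNReal.toReal_pos (zero_lt_one.trans_le Fact.out).ne' hq) ξ
  trunc S ξ := by
    classical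
    refine ⟨∑ k ∈ S, lp.single q k (ξ k), fun k => ?_⟩
    rw [lp.evalₗ_apply, lp.coeFn_sum, Finset.sum_apply]
    simp_rw [lp.single_apply]
    by_cases hk : k ∈ S
    · rw [if_pos hk, Finset.sum_eq_single k]
      · rw [Pi.single_eq_same]; rfl
      · intro j _ hj
        exact Pi.single_eq_of_ne (Ne.symm hj) _
      · intro h; exact absurd hk h
    · rw [if_neg hk]
      apply Finset.sum_eq_zero
      intro j hj
      apply Pi.single_eq_of_ne
      rintro rfl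
      exact hk hj

/-- what is needed from a norm on `C_c(ℤ, C(X), α)` -/
structure Good (q : ℝ≥0∞) [Fact (1 ≤ q)] (N : CNorm h) : Prop where
  gauge : ∀ z : ℂ, ‖z‖ = 1 → ∀ a : Alg h, N.toFun (mulW (fun n => z ^ n) a) ≤ N.toFun a
  mono_le : ∀ (n : ℤ) (f : C(X, ℂ)), N.toFun (mono h n f) ≤ ‖f‖
  lam_le : ∀ (x : X) (a : Alg h), ‖(lam h q x).int a‖ ≤ N.toFun a

end Pool.Agent.H636R3.Lx
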