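import Pool.Agent.H636R3.LxDefs

/-! Regular representations and the reduced `L^p` crossed product. -/

set_option autoImplicit false
set_option linter.unusedSectionVars false
open scoped Topology ENNReal
open MeasureTheory

namespace Pool.Agent.H636R3.Lx

section lpops
variable {p : ℝ≥0∞} [hp1 : Fact (1 ≤ p)] {F : Type} [NormedAddCommGroup F] [NormedSpace ℂ F]

theorem memlp_shift (ξ : ℤ → F) (m : ℤ) (hξ : Memℓp ξ p) : Memℓp (fun k => ξ (k - m)) p := by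
  rcases p.trichotomy with h | h | h
  · have := hp1.out
    rw [h] at this
    exact absurd this (by simp)
  · subst h
    rw [memℓp_infty_iff] at hξ ⊢
    refine hξ.mono ?_
    rintro _ ⟨k, rfl⟩
    exact ⟨k - m, rfl⟩
  · rw [memℓp_gen_iff h] at hξ ⊢
    exact (Equiv.subRight m).summable_iff.2 hξ

theorem norm_shift (ξ η : lp (fun _ : ℤ => F) p) (m : ℤ) (h : ∀ k, η k = ξ (k - m)) : ‖η‖ = ‖ξ‖ := by
  rcases p.trichotomy with h1 | h1 | h1
  · have := hp1.out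
    rw [h1] at this
    exact absurd this (by simp)
  · subst h1
    rw [lp.norm_eq_ciSup, lp.norm_eq_ciSup]
    simp_rw [h]
    exact (Equiv.subRight m).iSup_comp (g := fun k => ‖ξ k‖)
  · rw [lp.norm_eq_tsum_rpow h1, lp.norm_eq_tsum_rpow h1]
    simp_rw [h]
    congr 1
    exact (Equiv.subRight m).tsum_eq (fun k => ‖ξ k‖ ^ p.toReal)

/-- the bilateral shift `(v ξ) k = ξ (k - 1)` on `ℓ^p(ℤ, F)` -/
noncomputable def shift : lp (fun _ : ℤ => F) p ≃ₗᵢ[ℂ] lp (fun _ : ℤ => F) p where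
  toFun ξ := ⟨fun k => ξ (k - 1), memlp_shift (fun k => ξ k) 1 (lp.memℓp ξ)⟩
  invFun ξ := ⟨fun k => ξ (k - (-1)), memlp_shift (fun k => ξ k) (-1) (lp.memℓp ξ)⟩
  map_add' ξ η := rfl
  map_smul' c ξ := rfl
  left_inv ξ := by
    apply lp.ext
    funext k
    change ξ (k - (-1) - 1) = ξ k
    rw [show k - (-1) - 1 = k by ring]
  right_inv ξ := by
    apply lp.ext
    funext k
    change ξ (k - 1 - (-1)) = ξ k
    rw [show k - 1 - (-1) = k by ring]
  norm_map' ξ := norm_shift ξ _ 1 fun k => rfl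

@[simp] theorem shift_apply (ξ : lp (fun _ : ℤ => F) p) (k : ℤ) : shift ξ k = ξ (k - 1) := rfl
@[simp] theorem shift_symm_apply (ξ : lp (fun _ : ℤ => F) p) (k : ℤ) : shift.symm ξ k = ξ (k - (-1)) := rfl

theorem shift_zpow (n : ℤ) (ξ : lp (fun _ : ℤ => F) p) (k : ℤ) :
    (shift ^ n : lp (fun _ : ℤ => F) p ≃ₗᵢ[ℂ] lp (fun _ : ℤ => F) p) ξ k = ξ (k - n) := by
  induction n using Int.induction_on generalizing k with
  | zero => rw [zpow_zero, sub_zero]; rfl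
  | succ n ih =>
    rw [add_comm, zpow_add, zpow_one]
    change (shift ^ (n : ℤ) : lp (fun _ : ℤ => F) p ≃ₗᵢ[ℂ] lp (fun _ : ℤ => F) p) ξ (k - 1) = _
    rw [ih, sub_sub]
  | pred n ih =>
    rw [show (-(n : ℤ) - 1) = -1 + -(n : ℤ) by ring, zpow_add, zpow_neg_one]
    change (shift ^ (-(n : ℤ)) : lp (fun _ : ℤ => F) p ≃ₗᵢ[ℂ] lp (fun _ : ℤ => F) p) ξ (k - (-1)) = _
    rw [ih, sub_sub]

theorem memlp_diag (T : ℤ → (F →L[ℂ] F)) (C : ℝ) (hT : ∀ k, ‖T k‖ ≤ C) (ξ : lp (fun _ : ℤ => F) p) :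
    Memℓp (fun k => T k (ξ k)) p := by
  have h0 : 0 ≤ C := (norm_nonneg _).trans (hT 0)
  refine Memℓp.mono' (g := fun k => ((C : ℂ) • ξ) k) (lp.memℓp ((C : ℂ) • ξ)) fun k => ?_
  refine ((T k).le_opNorm _).trans ?_
  change _ ≤ ‖(C : ℂ) • ξ k‖
  rw [norm_smul, Complex.norm_real, Real.norm_of_nonneg h0]
  exact mul_le_mul_of_nonneg_right (hT k) (norm_nonneg _)

/-- the diagonal operator `(T ξ) k = T k (ξ k)` on `ℓ^p(ℤ, F)` -/
noncomputable def diag (T : ℤ → (F →L[ℂ] F)) (C : ℝ) (hT : ∀ k, ‖T k‖ ≤ C) :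
    lp (fun _ : ℤ => F) p →L[ℂ] lp (fun _ : ℤ => F) p :=
  LinearMap.mkContinuous
    { toFun := fun ξ => ⟨fun k => T k (ξ k), memlp_diag T C hT ξ⟩
      map_add' := fun ξ η => by
        apply lp.ext
        funext k
        exact map_add (T k) _ _
      map_smul' := fun c ξ => by
        apply lp.ext
        funext k
        exact map_smul (T k) _ _ } C (fun ξ => by
      have h0 : 0 ≤ C := (norm_nonneg _).trans (hT 0)
      have h1 : ‖(⟨fun k => T k (ξ k), memlp_diag T C hT ξ⟩ : lp (fun _ : ℤ => F) p)‖ ≤ ‖(C : ℂ) • ξ‖ := by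
        refine lp.norm_mono (zero_lt_one.trans_le hp1.out).ne' fun k => ?_
        refine ((T k).le_opNorm _).trans ?_
        change _ ≤ ‖(C : ℂ) • ξ k‖
        rw [norm_smul, Complex.norm_real, Real.norm_of_nonneg h0]
        exact mul_le_mul_of_nonneg_right (hT k) (norm_nonneg _)
      rw [norm_smul, Complex.norm_real, Real.norm_of_nonneg h0] at h1
      exact h1)

@[simp] theorem diag_apply (T : ℤ → (F →L[ℂ] F)) (C : ℝ) (hT : ∀ k, ‖T k‖ ≤ C) (ξ : lp (fun _ : ℤ => F) p) (k : ℤ) :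
    diag T C hT ξ k = T k (ξ k) := rfl

theorem diag_norm (T : ℤ → (F →L[ℂ] F)) (C : ℝ) (hT : ∀ k, ‖T k‖ ≤ C) :
    ‖(diag T C hT : lp (fun _ : ℤ => F) p →L[ℂ] lp (fun _ : ℤ => F) p)‖ ≤ C :=
  LinearMap.mkContinuous_norm_le _ ((norm_nonneg _).trans (hT 0)) _

end lpops

variable {X : Type} [MetricSpace X] [CompactSpace X] (h : X ≃ₜ X)

theorem alpha_norm_le (n : ℤ) (f : C(X, ℂ)) : ‖alpha h n f‖ ≤ ‖f‖ := by
  rw [ContinuousMap.norm_le _ (norm_nonneg _)]
  exact fun x => f.norm_coe_le_norm _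

theorem alpha_one (n : ℤ) : alpha h n (1 : C(X, ℂ)) = 1 := rfl
theorem alpha_mul (n : ℤ) (f g : C(X, ℂ)) : alpha h n (f * g) = alpha h n f * alpha h n g := rfl
theorem alpha_add (n : ℤ) (f g : C(X, ℂ)) : alpha h n (f + g) = alpha h n f + alpha h n g := rfl
theorem alpha_algebraMap (n : ℤ) (c : ℂ) : alpha h n (algebraMap ℂ C(X, ℂ) c) = algebraMap ℂ C(X, ℂ) c := rfl

section reg
variable (p : ℝ≥0∞) [hp1 : Fact (1 ≤ p)] {F : Type} [NormedAddCommGroup F] [NormedSpace ℂ F]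

/-- The regular covariant representation on `ℓ^p(ℤ, F)` attached to a unital contractive
homomorphism `π₀` from `C(X)` to the bounded operators on `F`:
`(π f ξ) k = π₀ (α^{-k} f) (ξ k)` and `(v ξ) k = ξ (k - 1)`. -/
noncomputable def regRep (π₀ : C(X, ℂ) →ₐ[ℂ] (F →L[ℂ] F)) (hπ₀ : ∀ f, ‖π₀ f‖ ≤ ‖f‖) :
    CovRep h (lp (fun _ : ℤ => F) p) where
  π :=
    { toFun := fun f => diag (fun k => π₀ (alpha h (-k) f)) ‖f‖ fun k => (hπ₀ _).trans (alpha_norm_le h _ f)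
      map_one' := by
        ext ξ k
        change π₀ (alpha h (-k) 1) (ξ k) = ξ k
        rw [alpha_one, map_one]; rfl
      map_mul' := fun f g => by
        ext ξ k
        change π₀ (alpha h (-k) (f * g)) (ξ k) = π₀ (alpha h (-k) f) (π₀ (alpha h (-k) g) (ξ k))
        rw [alpha_mul, map_mul]; rfl
      map_zero' := by
        ext ξ k
        change π₀ (alpha h (-k) 0) (ξ k) = 0
        rw [show alpha h (-k) (0 : C(X, ℂ)) = 0 from rfl, map_zero]; rfl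
      map_add' := fun f g => by
        ext ξ k
        change π₀ (alpha h (-k) (f + g)) (ξ k) = π₀ (alpha h (-k) f) (ξ k) + π₀ (alpha h (-k) g) (ξ k)
        rw [alpha_add, map_add]; rfl
      commutes' := fun c => by
        ext ξ k
        change π₀ (alpha h (-k) (algebraMap ℂ C(X, ℂ) c)) (ξ k) = c • ξ k
        rw [alpha_algebraMap, AlgHomClass.commutes]; rfl }
  contr f := diag_norm _ _ fun k => (hπ₀ _).trans (alpha_norm_le h _ f)
  v := shift
  cov f ξ := by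
    apply lp.ext
    funext k
    change π₀ (alpha h (-(k - 1)) f) (ξ (k - 1 - (-1))) = π₀ (alpha h (-k) (alpha h 1 f)) (ξ k)
    rw [alpha_alpha, show (-(k - 1) : ℤ) = -k + 1 by ring, show (k - 1 - (-1) : ℤ) = k by ring]

theorem regRep_π (π₀ : C(X, ℂ) →ₐ[ℂ] (F →L[ℂ] F)) (hπ₀ : ∀ f, ‖π₀ f‖ ≤ ‖f‖) (f : C(X, ℂ))
    (ξ : lp (fun _ : ℤ => F) p) (k : ℤ) : (regRep h p π₀ hπ₀).π f ξ k = π₀ (alpha h (-k) f) (ξ k) := rfl

/-- The seminorms `a ↦ ‖∑ π(a n) v^n‖` for the regular representations `(π, v)` attached to unital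
contractive representations `π₀` of `C(X)` on `L^p` spaces of `σ`-finite measures. -/
def redT : Set (Alg h → ℝ) :=
  {N | ∃ (Ω : Type) (_ : MeasurableSpace Ω) (μ : Measure Ω) (_ : SigmaFinite μ)
    (π₀ : C(X, ℂ) →ₐ[ℂ] (Lp ℂ p μ →L[ℂ] Lp ℂ p μ)) (hπ₀ : ∀ f, ‖π₀ f‖ ≤ ‖f‖),
    N = fun a => ‖(regRep h p π₀ hπ₀).int a‖}

theorem redT_isRepNorm : ∀ N ∈ redT h p, IsRepNorm h N := by
  rintro N ⟨Ω, _, μ, _, π₀, hπ₀, rfl⟩
  exact ⟨_, _, _, regRep h p π₀ hπ₀, rfl⟩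

/-- The norm of the reduced `L^p` crossed product. -/
noncomputable def redN : CNorm h := supN (redT h p) (redT_isRepNorm h p)

/-- The reduced `L^p` crossed product `F_r^p(ℤ, X, h)`. -/
abbrev RedCP : Type := UniformSpace.Completion (Sy (redN h p))

end reg

end Pool.Agent.H636R3.Lx
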