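import Pool.Agent.H636R3.LxStmt
import Pool.Agent.H636R3.LxBridge

/-!
# MP_5d4768_an, Q1 (answered: there is no such homomorphism)

Let `p₁ ≠ p₂` in `[1, ∞)`, let `h₁` be a minimal homeomorphism of an infinite compact metric space
`X₁` and `h₂` a homeomorphism of a compact metric space `X₂` (minimal or not, `X₂` infinite or not).
Every continuous homomorphism of complex algebras from the full `L^{p₁}` crossed product
`F^{p₁}(ℤ, X₁, h₁)` to `F^{p₂}(ℤ, X₂, h₂)` or to `F_r^{p₂}(ℤ, X₂, h₂)` is zero.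

The definitions are in `Pool/Agent/H636R3/LxStmt.lean`. The Banach algebra `F^p(ℤ, X, h)` enters as a
Banach algebra `A` with a homomorphism `ι` of `C_c(ℤ, C(X), α)` that has dense range and satisfies
`‖ι a‖ = fullNorm h p a`; likewise `F_r^p(ℤ, X, h)` with `redNorm h p`.
-/

set_option autoImplicit false

open scoped ENNReal
open Pool.Agent.H636R3
open Pool.Agent.H636R3.LpCross

namespace Pool.Agent.H636R3.LxResult

/-- **Q1.** No nonzero continuous homomorphism exists, into the full or into the reduced `L^{p₂}`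
crossed product. -/
theorem result {X₁ X₂ : Type} [MetricSpace X₁] [CompactSpace X₁] [Infinite X₁]
    [MetricSpace X₂] [CompactSpace X₂] (h₁ : X₁ ≃ₜ X₁) (h₂ : X₂ ≃ₜ X₂)
    (hmin : ∀ x : X₁, Dense (Set.range fun n : ℤ => (h₁ ^ n) x))
    (p₁ p₂ : ℝ≥0∞) [Fact (1 ≤ p₁)] [Fact (1 ≤ p₂)] (t₁ : p₁ ≠ ∞) (t₂ : p₂ ≠ ∞) (hne : p₁ ≠ p₂)
    (A₁ A₂ : Type) [NormedRing A₁] [NormedAlgebra ℂ A₁] [NormedRing A₂] [NormedAlgebra ℂ A₂]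
    (ι₁ : (ℤ →₀ C(X₁, ℂ)) →ₗ[ℂ] A₁) (ι₂ : (ℤ →₀ C(X₂, ℂ)) →ₗ[ℂ] A₂)
    (H₁ : IsCompletion h₁ (fullNorm h₁ p₁) ι₁)
    (H₂ : IsCompletion h₂ (fullNorm h₂ p₂) ι₂ ∨ IsCompletion h₂ (redNorm h₂ p₂) ι₂)
    (φ : A₁ →ₙₐ[ℂ] A₂) (hφ : Continuous φ) : φ = 0 := by
  obtain ⟨J₁, n₁, s₁, j₁⟩ := exists_model H₁ (fun a => fullNorm_eq p₁ a)
  rcases H₂ with H₂ | H₂
  · obtain ⟨J₂, n₂, s₂, j₂⟩ := exists_model H₂ (fun a => fullNorm_eq p₂ a)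
    exact transfer (Lx.fullN p₁ h₁) (Lx.fullN p₂ h₂)
      (fun ψ hψ => Lx.main h₁ h₂ (Lx.aperiodic_of_minimal hmin) p₁ p₂ t₁ t₂ hne _ (Lx.good_full p₂ t₂) ψ hψ)
      J₁ n₁ s₁ j₁ J₂ n₂ s₂ j₂ φ hφ
  · obtain ⟨J₂, n₂, s₂, j₂⟩ := exists_model H₂ (fun a => redNorm_eq p₂ a)
    exact transfer (Lx.fullN p₁ h₁) (Lx.redN h₂ p₂)
      (fun ψ hψ => Lx.main h₁ h₂ (Lx.aperiodic_of_minimal hmin) p₁ p₂ t₁ t₂ hne _ (Lx.good_red p₂) ψ hψ)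
      J₁ n₁ s₁ j₁ J₂ n₂ s₂ j₂ φ hφ

end Pool.Agent.H636R3.LxResult
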