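import Mathlib

/-! `L^p` crossed products of a compact metric space by a homeomorphism: the definitions used in the
statement. -/

set_option autoImplicit false
open scoped ENNReal
open MeasureTheory

namespace Pool.Agent.H636R3.LpCross

variable {X : Type} [MetricSpace X] [CompactSpace X]

/-- `α^n (f) = f ∘ h⁻ⁿ` -/
noncomputable def alpha (h : X ≃ₜ X) (n : ℤ) (f : C(X, ℂ)) : C(X, ℂ) :=
  f.comp (h ^ (-n) : X ≃ₜ X)

/-- The product of `C_c(ℤ, C(X), α)`: `(a b)(n) = ∑ k, a k * α^k (b (n - k))`, that is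
`(f u^k)(g u^m) = f α^k(g) u^(k+m)`. -/
noncomputable def conv (h : X ≃ₜ X) (a b : ℤ →₀ C(X, ℂ)) : ℤ →₀ C(X, ℂ) :=
  a.sum fun k f => b.sum fun m g => Finsupp.single (k + m) (f * alpha h k g)

/-- A contractive covariant representation of `(C(X), ℤ, α)` on the Banach space `E`: a unital
contractive homomorphism `π` from `C(X)` to the bounded operators on `E` (for a compact space
`X`, nondegenerate means unital) and an invertible isometry `v` with `v π(f) v⁻¹ = π(f ∘ h⁻¹)`. -/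
structure Rep (h : X ≃ₜ X) (E : Type) [NormedAddCommGroup E] [NormedSpace ℂ E] where
  π : C(X, ℂ) →ₐ[ℂ] (E →L[ℂ] E)
  contr : ∀ f, ‖π f‖ ≤ ‖f‖
  v : E ≃ₗᵢ[ℂ] E
  cov : ∀ (f : C(X, ℂ)) (ξ : E), v (π f (v.symm ξ)) = π (alpha h 1 f) ξ

/-- The operator norm of `∑ π(a n) v^n`. -/
noncomputable def Rep.nrm {h : X ≃ₜ X} {E : Type} [NormedAddCommGroup E] [NormedSpace ℂ E] (ρ : Rep h E)
    (a : ℤ →₀ C(X, ℂ)) : ℝ :=
  ‖a.sum fun n f => ρ.π f * (((ρ.v ^ n : E ≃ₗᵢ[ℂ] E).toContinuousLinearEquiv : E →L[ℂ] E) : E →L[ℂ] E)‖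

/-- The values `‖∑ π(a n) v^n‖` for all contractive covariant representations on `L^p(μ)`. -/
def fullVals (h : X ≃ₜ X) (p : ℝ≥0∞) [Fact (1 ≤ p)] (a : ℤ →₀ C(X, ℂ)) (Ω : Type) [MeasurableSpace Ω]
    (μ : Measure Ω) : Set ℝ :=
  {r | ∃ ρ : Rep h (Lp ℂ p μ), r = ρ.nrm a}

/-- The norm of the full `L^p` crossed product. -/
noncomputable def fullNorm (h : X ≃ₜ X) (p : ℝ≥0∞) [Fact (1 ≤ p)] (a : ℤ →₀ C(X, ℂ)) : ℝ :=
  sSup {r | ∃ (Ω : Type) (_ : MeasurableSpace Ω) (μ : Measure Ω), SigmaFinite μ ∧ r ∈ fullVals h p a Ω μ}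

/-- `ρ`, on a space `E` with coordinates `c k ξ ∈ F` (`k ∈ ℤ`), is the regular representation given by
`π₀`: the `k`-th coordinate of `π(f) ξ` is `π₀ (α^{-k} f)` applied to the `k`-th coordinate of `ξ`, and the
`k`-th coordinate of `v ξ` is the `(k - 1)`-st coordinate of `ξ`. -/
def IsRegular {h : X ≃ₜ X} {E F : Type} [NormedAddCommGroup E] [NormedSpace ℂ E] [NormedAddCommGroup F]
    [NormedSpace ℂ F] (c : ℤ → E → F) (π₀ : C(X, ℂ) →ₐ[ℂ] (F →L[ℂ] F)) (ρ : Rep h E) : Prop :=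
  (∀ (f : C(X, ℂ)) (ξ : E) (k : ℤ), c k (ρ.π f ξ) = π₀ (alpha h (-k) f) (c k ξ)) ∧
    ∀ (ξ : E) (k : ℤ), c k (ρ.v ξ) = c (k - 1) ξ

/-- The values `‖∑ π(a n) v^n‖` for the regular representations on `ℓ^p(ℤ, F)` given by the unital
contractive homomorphisms `π₀` from `C(X)` to the bounded operators on `F`. -/
def redVals (h : X ≃ₜ X) (p : ℝ≥0∞) [Fact (1 ≤ p)] (a : ℤ →₀ C(X, ℂ)) (F : Type) [NormedAddCommGroup F]
    [NormedSpace ℂ F] : Set ℝ :=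
  {r | ∃ (π₀ : C(X, ℂ) →ₐ[ℂ] (F →L[ℂ] F)) (ρ : Rep h (lp (fun _ : ℤ => F) p)),
    (∀ f, ‖π₀ f‖ ≤ ‖f‖) ∧ IsRegular (fun k ξ => ξ k) π₀ ρ ∧ r = ρ.nrm a}

/-- The norm of the reduced `L^p` crossed product. -/
noncomputable def redNorm (h : X ≃ₜ X) (p : ℝ≥0∞) [Fact (1 ≤ p)] (a : ℤ →₀ C(X, ℂ)) : ℝ :=
  sSup {r | ∃ (Ω : Type) (_ : MeasurableSpace Ω) (μ : Measure Ω), SigmaFinite μ ∧ r ∈ redVals h p a (Lp ℂ p μ)}

/-- The Banach algebra `A` (with `ι`) is the completion of `C_c(ℤ, C(X), α)` in the norm `N`. -/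
structure IsCompletion (h : X ≃ₜ X) (N : (ℤ →₀ C(X, ℂ)) → ℝ) {A : Type} [NormedRing A] [NormedAlgebra ℂ A]
    (ι : (ℤ →₀ C(X, ℂ)) →ₗ[ℂ] A) : Prop where
  complete : CompleteSpace A
  dense : DenseRange ι
  norm : ∀ a, ‖ι a‖ = N a
  one : ι (Finsupp.single 0 1) = 1
  mul : ∀ a b, ι (conv h a b) = ι a * ι b

end Pool.Agent.H636R3.LpCross
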