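import Pool.Agent.H39R3.PS.Defs
import Pool.Agent.H476R2.Pal.F1
import Pool.Agent.H181R5.PB_T9
import Pool.Agent.H503R2.PalS4

set_option autoImplicit false

namespace Pool.Agent.H636R3.PalFi

open Finset Filter Topology Pool.Agent.Helper112 Pool.Agent.H39R3.PB Pool.Agent.H39R3.PS
open Pool.Agent.H476R2.Pal (PZ VZ sift rem Rem weight_sum count_pos)
open Pool.Agent.H181R5.PBT9

lemma pv_dig {b : ℕ} (hb : 2 ≤ b) (L : ℕ) (hL : 1 ≤ L) (m : Fin L → Fin b) :
    (Nat.digits b (pv b L m)).reverse = Nat.digits b (pv b L m) ∧ b ^ (2 * L) < pv b L m ∧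
      pv b L m < b ^ (2 * L + 1) := by
  have e : pvl b 1 L m = pv b L m := by
    have h := pvl_pv (b := b) (le_refl 1) L m
    simpa using h
  have hd := digits_pvl hb (le_refl 1) (by omega : 1 < b) L hL m
  refine ⟨?_, ?_, ?_⟩
  · rw [← e, hd, lst_reverse]
  · unfold pv; omega
  · have h := Nat.lt_base_pow_length_digits (b := b) (m := pv b L m) (by omega)
    rw [← e, hd, lst_length] at h
    rw [← e]; exact h

lemma pv_cop {b : ℕ} (L : ℕ) (hL : 1 ≤ L) (m : Fin L → Fin b) :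
    (pv b L m).Coprime b := by
  have h1 : b ∣ b ^ (2 * L) := dvd_pow_self b (by omega)
  have h2 : b ∣ ∑ c : Fin L, (m c : ℕ) * fr b L c := by
    apply dvd_sum
    intro c _
    apply Dvd.dvd.mul_left
    have hc := c.2
    unfold fr
    split_ifs
    · exact dvd_pow_self b (by omega)
    · exact dvd_add (dvd_pow_self b (by omega)) (dvd_pow_self b (by omega))
  obtain ⟨k, hk⟩ := dvd_add h1 h2
  have e : pv b L m = b * k + 1 := by
    unfold pv; omega
  rw [e]
  simp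

lemma pv_inj {b : ℕ} (hb : 2 ≤ b) (L : ℕ) (hL : 1 ≤ L) : Function.Injective (pv b L) := by
  intro m m' h
  have e : ∀ m : Fin L → Fin b, pvl b 1 L m = pv b L m := by
    intro m
    have h := pvl_pv (b := b) (le_refl 1) L m
    simpa using h
  have hm1 : ((1, m) : ℕ × (Fin L → Fin b)) ∈ {x : ℕ × (Fin L → Fin b) | x.1 < b} := by
    show 1 < b
    omega
  have hm2 : ((1, m') : ℕ × (Fin L → Fin b)) ∈ {x : ℕ × (Fin L → Fin b) | x.1 < b} := by
    show 1 < b
    omega
  have h1 := pvl_inj hb L hL hm1 hm2 (by show pvl b 1 L m = pvl b 1 L m'; rw [e, e, h])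
  exact congrArg Prod.snd h1

lemma Db_pos {b : ℕ} (hb : 2 ≤ b) (L : ℕ) : 0 < Db b L := by
  have : (0 : ℝ) < b := by exact_mod_cast (by omega : 0 < b)
  unfold Db; positivity

lemma log_Db {b : ℕ} (hb : 2 ≤ b) (L : ℕ) :
    Real.log (Db b L) = (1 / 2 - 1 / 400 : ℝ) * L * Real.log b := by
  have : (0 : ℝ) < b := by exact_mod_cast (by omega : 0 < b)
  unfold Db; rw [Real.log_rpow this]

lemma tendsto_zb {b : ℕ} (hb : 2 ≤ b) : Tendsto (fun L : ℕ => zb b L) atTop atTop := by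
  have hb1 : (1 : ℝ) < b := by exact_mod_cast (by omega : 1 < b)
  have h1 : Tendsto (fun L : ℕ => (b : ℝ) ^ ((1 / 2 - 1 / 400 : ℝ) / 8 * (L : ℝ))) atTop atTop := by
    apply (tendsto_rpow_atTop_of_base_gt_one (b : ℝ) hb1).comp
    exact (tendsto_natCast_atTop_atTop).const_mul_atTop (by norm_num)
  have h2 : Tendsto (fun L : ℕ => Db b L ^ (1 / 8 : ℝ)) atTop atTop := by
    refine h1.congr fun L => ?_
    unfold Db
    rw [← Real.rpow_mul (by linarith)]
    congr 1; ring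
  exact tendsto_nat_ceil_atTop.comp h2

lemma logzb_le {b : ℕ} (hb : 2 ≤ b) {L : ℕ} (hL : 1 ≤ L) :
    Real.log (zb b L : ℝ) ≤ (1 + Real.log b) * L := by
  have hb1 : (1 : ℝ) < b := by exact_mod_cast (by omega : 1 < b)
  have hL' : (1 : ℝ) ≤ L := by exact_mod_cast hL
  have hD1 : 1 ≤ Db b L := by
    unfold Db
    apply Real.one_le_rpow hb1.le
    positivity
  have h0 : 1 ≤ Db b L ^ (1 / 8 : ℝ) := Real.one_le_rpow hD1 (by norm_num)
  have h1 : (zb b L : ℝ) ≤ 2 * Db b L ^ (1 / 8 : ℝ) := by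
    have := Nat.ceil_lt_add_one (show 0 ≤ Db b L ^ (1 / 8 : ℝ) by linarith)
    unfold zb
    linarith
  have h2 : (0 : ℝ) < (zb b L : ℝ) := by
    have := Nat.le_ceil (Db b L ^ (1 / 8 : ℝ))
    unfold zb
    linarith
  have hlb : 0 < Real.log b := Real.log_pos hb1
  have h5 : Real.log 2 ≤ 1 := by linarith [Real.log_two_lt_d9]
  have hDp := Db_pos hb L
  calc Real.log (zb b L : ℝ) ≤ Real.log (2 * Db b L ^ (1 / 8 : ℝ)) := Real.log_le_log h2 h1
    _ = Real.log 2 + 1 / 8 * ((1 / 2 - 1 / 400 : ℝ) * L * Real.log b) := by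
        rw [Real.log_mul (by norm_num) (by positivity), Real.log_rpow hDp, log_Db hb]
    _ ≤ (1 + Real.log b) * L := by
        have h6 : 0 ≤ (L : ℝ) * Real.log b := by positivity
        nlinarith

open Classical in
theorem taskFi : TaskFi := by
  intro hGo b hb4 hb2 hS hQ
  have hb : 2 ≤ b := by omega
  have hb1 : (1 : ℝ) < b := by exact_mod_cast (by omega : 1 < b)
  have hb0 : (0 : ℝ) < b := by linarith
  have hlb : 0 < Real.log b := Real.log_pos hb1
  obtain ⟨κ, hκ, hS⟩ := hS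
  have hV := Pool.Agent.H503R2.PalS4.V_lim
  set K : ℝ := 5 / 2 * Real.exp (-Real.eulerMascheroniConstant) with hK
  have hK0 : 0 < K := by positivity
  set c0 : ℝ := κ * K / (32 * (1 + Real.log b)) with hc0
  have hc0pos : 0 < c0 := by positivity
  refine ⟨c0, hc0pos, ?_⟩
  have e1 : ∀ᶠ L : ℕ in atTop, K / 2 < VZ (zb b L) * Real.log (zb b L : ℝ) :=
    (hV.comp (tendsto_zb hb)).eventually_const_lt (by linarith)
  have e2 : ∀ᶠ L : ℕ in atTop, b < zb b L := (tendsto_zb hb).eventually_gt_atTop b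
  have e4 := hQ (1 / 400) (by norm_num) 3
  have e5 : ∀ᶠ L : ℕ in atTop, (max 1000 (3 / c0) : ℝ) ≤ L :=
    tendsto_natCast_atTop_atTop.eventually_ge_atTop _
  filter_upwards [e1, e2, hS, e4, e5] with L h1 h2 h3 h4 h5
  obtain ⟨hlow', hup'⟩ := h3
  have hL1000 : (1000 : ℝ) ≤ L := (le_max_left _ _).trans h5
  have hLK : 3 / c0 ≤ L := (le_max_right _ _).trans h5
  have hL : 1000 ≤ L := by exact_mod_cast hL1000
  have hL1 : 1 ≤ L := by omega
  have hL0 : (0 : ℝ) < L := by linarith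
  set z := zb b L with hz
  have hlz := logzb_le hb hL1
  rw [← hz] at hlz
  have hVpos : 0 < VZ z := by
    unfold VZ
    apply prod_pos
    intro p hp
    rw [mem_filter] at hp
    have : (1 : ℝ) < p := by exact_mod_cast hp.2.1.one_lt
    have : 1 / (p : ℝ) < 1 := by rw [div_lt_one (by linarith)]; exact this
    linarith
  have hVL : K / (2 * (1 + Real.log b) * L) ≤ VZ z := by
    rw [div_le_iff₀ (by positivity)]
    have h6 : VZ z * Real.log (z : ℝ) ≤ VZ z * ((1 + Real.log b) * L) :=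
      mul_le_mul_of_nonneg_left hlz hVpos.le
    linarith
  set X : ℝ := (b : ℝ) ^ L with hX
  have hX0 : 0 < X := by positivity
  set P := (range ⌈Db b L ^ (999 / 1000 : ℝ)⌉₊).filter
    (fun p : ℕ => p.Prime ∧ ¬ p ∣ 10 ∧ Db b L ^ (1 / 8 : ℝ) ≤ p) with hP
  set c : ℕ → ℝ := fun p => 1 - Real.log p / (999 / 1000 * Real.log (Db b L)) with hc
  set w : (Fin L → Fin b) → ℝ := fun m => 1 - 11 / 20 * ∑ p ∈ P.filter (fun p => p ∣ pv b L m), c p
    with hw
  have hws := weight_sum (S1 b L) (pv b L) z P c (11 / 20)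
  have hDp := Db_pos hb L
  have hlD0 : 0 < Real.log (Db b L) := by
    rw [log_Db hb]
    positivity
  have hcnn : ∀ p ∈ P, 0 ≤ c p := by
    intro p hp
    rw [hP, mem_filter, mem_range] at hp
    have h6 : (p : ℝ) < Db b L ^ (999 / 1000 : ℝ) := Nat.lt_ceil.1 hp.1
    have h7 : Real.log p ≤ 999 / 1000 * Real.log (Db b L) := by
      rw [← Real.log_rpow hDp]
      exact Real.log_le_log (by exact_mod_cast hp.2.1.pos) h6.le
    simp only [hc]
    rw [sub_nonneg, div_le_one (by positivity)]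
    exact h7
  set T := (S1 b L).filter (fun m => (pv b L m).Coprime (PZ z)) with hT
  set B := (univ : Finset (Fin L → Fin b)).filter (fun m => ∃ p : ℕ, p.Coprime (2 * b) ∧
      (b : ℝ) ^ ((L : ℝ) / 50) ≤ p ∧ (p : ℝ) ≤ (b : ℝ) ^ ((1 / 2 - 1 / 400 : ℝ) * L) ∧ p ^ 2 ∣ pv b L m) with hB
  have hcp := count_pos T B w (by
    intro m _
    have : 0 ≤ ∑ p ∈ P.filter (fun p => p ∣ pv b L m), c p :=
      sum_nonneg fun p hp => hcnn p (mem_filter.1 hp).1
    simp only [hw]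
    linarith)
  have hsumT : ∑ m ∈ T, w m = sift (S1 b L) (pv b L) 1 z -
      11 / 20 * ∑ p ∈ P, c p * sift (S1 b L) (pv b L) p z := hws
  have hmain : κ * X * VZ z / 8 ≤ ∑ m ∈ T, w m + 2 * (X / (L : ℝ) ^ 3) := by
    rw [hsumT]
    have h8 : 0 ≤ X / (L : ℝ) ^ 3 := by positivity
    have hup'' : ∑ p ∈ P, c p * sift (S1 b L) (pv b L) p z ≤
        3 / 2 * κ * X * VZ z + X / (L : ℝ) ^ 3 := hup'
    have hlow'' : 95 / 100 * κ * X * VZ z - X / (L : ℝ) ^ 3 ≤ sift (S1 b L) (pv b L) 1 z := hlow'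
    generalize X / (L : ℝ) ^ 3 = r at *
    linarith
  have hcard : ((T.filter (fun i => 0 < w i)) \ B).card ≤
      ((range (b ^ (2 * L + 1))).filter (fun n => b ^ (2 * L) ≤ n ∧
      (Nat.digits b n).reverse = Nat.digits b n ∧ n.primeFactorsList.length ≤ 5 ∧
      ∀ p ∈ n.primeFactorsList, (b : ℝ) ^ ((L : ℝ) / 17) < p)).card := by
    apply card_le_card_of_injOn (pv b L)
    · intro m hm
      rw [mem_coe, Finset.mem_sdiff, mem_filter, hT, mem_filter] at hm
      obtain ⟨⟨⟨hm1, hs⟩, hwm⟩, hmB⟩ := hm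
      obtain ⟨hd1, hd2, hd3⟩ := pv_dig hb L hL1 m
      have hm10 : (pv b L m).Coprime 10 := by
        unfold S1 at hm1
        exact (mem_filter.1 hm1).2
      have hg := hGo b hb4 hb2 L (pv b L m) hL h2 hd2 hd3
        (Nat.Coprime.mul_right hm10 (pv_cop L hL1 m)) hs (by
        intro p hp1 hp2 hp3 hp4
        apply hmB
        rw [hB, mem_filter]
        exact ⟨mem_univ _, p, hp1, hp2, hp3, hp4⟩) hwm
      rw [mem_coe, mem_filter, mem_range]
      exact ⟨hd3, hd2.le, hd1, hg.1, hg.2⟩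
    · intro a _ b' _ hab
      exact pv_inj hb L hL1 hab
  have hcard' : (((T.filter (fun i => 0 < w i)) \ B).card : ℝ) ≤
      (((range (b ^ (2 * L + 1))).filter (fun n => b ^ (2 * L) ≤ n ∧
      (Nat.digits b n).reverse = Nat.digits b n ∧ n.primeFactorsList.length ≤ 5 ∧
      ∀ p ∈ n.primeFactorsList, (b : ℝ) ^ ((L : ℝ) / 17) < p)).card : ℝ) := by exact_mod_cast hcard
  refine le_trans ?_ (hcp.trans (by convert hcard'))
  have hBc : (B.card : ℝ) ≤ X / (L : ℝ) ^ 3 := h4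
  have h10 : κ * X * (K / (2 * (1 + Real.log b) * L)) / 8 ≤ κ * X * VZ z / 8 := by gcongr
  have h11 : X / (L : ℝ) ^ 3 * 3 ≤ c0 * X / L := by
    rw [div_mul_eq_mul_div, div_le_div_iff₀ (by positivity) (by positivity)]
    have h12 : 3 ≤ c0 * L := by rwa [div_le_iff₀ hc0pos, mul_comm] at hLK
    have h13 : 3 ≤ c0 * L ^ 2 := by nlinarith
    calc X * 3 * L = X * L * 3 := by ring
      _ ≤ X * L * (c0 * L ^ 2) := by gcongr
      _ = _ := by ring
  have h14 : κ * X * (K / (2 * (1 + Real.log b) * L)) / 8 = 2 * (c0 * X / L) := by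
    rw [hc0]
    have : 1 + Real.log b ≠ 0 := by positivity
    field_simp
    ring
  have hXe : c0 * X / L = c0 * (b : ℝ) ^ L / L := rfl
  rw [← hXe]
  linarith

end Pool.Agent.H636R3.PalFi
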