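import Mathlib

set_option autoImplicit false

open Matrix

namespace Pool.Agent.H636R3.Quat

/-- The real quaternions. -/
abbrev H := Quaternion ℝ

/-- The coefficients `A 0, …, A ℓ` have the required symmetries: `A k` is hermitian for even `k` and
skewhermitian for odd `k`. -/
def SymCoeff {n : ℕ} (ℓ : ℕ) (A : ℕ → Matrix (Fin n) (Fin n) H) : Prop :=
  ∀ k, k ≤ ℓ → (Even k → (A k)ᴴ = A k) ∧ (Odd k → (A k)ᴴ = -A k)

/-- `x` is a solution of `A_ℓ x^(ℓ) + … + A_1 x' + A_0 x = 0`: it is `ℓ` times continuously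
differentiable and satisfies the equation at every time. -/
def IsSolution {n : ℕ} (ℓ : ℕ) (A : ℕ → Matrix (Fin n) (Fin n) H) (x : ℝ → Fin n → H) : Prop :=
  ContDiff ℝ ℓ x ∧ ∀ t, ∑ k ∈ Finset.range (ℓ + 1), A k *ᵥ (iteratedDeriv k x t) = 0

/-- The system is bounded: every solution is bounded on the whole real line. -/
def IsBoundedSystem {n : ℕ} (ℓ : ℕ) (A : ℕ → Matrix (Fin n) (Fin n) H) : Prop :=
  ∀ x, IsSolution ℓ A x → ∃ c : ℝ, ∀ t, ‖x t‖ ≤ c

/-- The system is stably bounded: all systems with the same symmetries and nearby coefficients are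
bounded. -/
def IsStablyBounded {n : ℕ} (ℓ : ℕ) (A : ℕ → Matrix (Fin n) (Fin n) H) : Prop :=
  ∃ ε : ℝ, 0 < ε ∧ ∀ A' : ℕ → Matrix (Fin n) (Fin n) H, SymCoeff ℓ A' →
    (∀ k, k ≤ ℓ → ∀ a b, ‖A' k a b - A k a b‖ < ε) → IsBoundedSystem ℓ A'

/-- The companion matrix, indexed by pairs (block index, index inside the block): identity blocks on
the block superdiagonal and last block row `(-A_ℓ⁻¹ A_0, …, -A_ℓ⁻¹ A_{ℓ-1})`. -/
noncomputable def companion {n : ℕ} (ℓ : ℕ) (A : ℕ → Matrix (Fin n) (Fin n) H) :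
    Matrix (Fin ℓ × Fin n) (Fin ℓ × Fin n) H :=
  fun p q => if (p.1 : ℕ) + 1 < ℓ then
      (if (q.1 : ℕ) = (p.1 : ℕ) + 1 ∧ p.2 = q.2 then 1 else 0)
    else (-(Ring.inverse (A ℓ) * A q.1)) p.2 q.2

/-- The matrix `G`; with block indices counted from `0`, its `(i, j)` block is
`(-1)^i A_{i+j+1}` if `i + j + 1 ≤ ℓ` and `0` otherwise. -/
noncomputable def gmat {n : ℕ} (ℓ : ℕ) (A : ℕ → Matrix (Fin n) (Fin n) H) :
    Matrix (Fin ℓ × Fin n) (Fin ℓ × Fin n) H :=
  fun p q => if (p.1 : ℕ) + (q.1 : ℕ) + 1 ≤ ℓ then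
      ((-1 : ℝ) ^ (p.1 : ℕ) • A ((p.1 : ℕ) + (q.1 : ℕ) + 1)) p.2 q.2 else 0

/-- `l` is an eigenvalue of `C`: `C v = v l` for some nonzero vector `v`. -/
def IsEigenvalue {ι : Type} [Fintype ι] (C : Matrix ι ι H) (l : H) : Prop :=
  ∃ v : ι → H, v ≠ 0 ∧ C *ᵥ v = fun i => v i * l

open Classical in
/-- The value at the matrix `C` of the real polynomial `p_l`, where `p_l(t) = t - l` for real `l` and
`p_l(t) = t^2 - 2 Re(l) t + |l|^2` otherwise. -/
noncomputable def rootPoly {ι : Type} [Fintype ι] [DecidableEq ι] (C : Matrix ι ι H) (l : H) :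
    Matrix ι ι H :=
  if l = (l.re : H) then C - l.re • 1 else C ^ 2 - (2 * l.re) • C + (‖l‖ ^ 2) • 1

/-- The root subspace of `C` for the similarity class of `l`: the kernel of `p_l(C)^(size)`. -/
def rootSubspace {ι : Type} [Fintype ι] [DecidableEq ι] (C : Matrix ι ι H) (l : H) :
    Set (ι → H) :=
  {v | (rootPoly C l) ^ (Fintype.card ι) *ᵥ v = 0}

/-- `v* K v > 0` (a positive real number) for every nonzero `v` in `S`. -/
def IsPositiveOn {ι : Type} [Fintype ι] (K : Matrix ι ι H) (S : Set (ι → H)) : Prop :=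
  ∀ v ∈ S, v ≠ 0 → ∃ r : ℝ, 0 < r ∧ star v ⬝ᵥ (K *ᵥ v) = (r : H)

/-- `v* K v < 0` (a negative real number) for every nonzero `v` in `S`. -/
def IsNegativeOn {ι : Type} [Fintype ι] (K : Matrix ι ι H) (S : Set (ι → H)) : Prop :=
  ∀ v ∈ S, v ≠ 0 → ∃ r : ℝ, r < 0 ∧ star v ⬝ᵥ (K *ᵥ v) = (r : H)

/-! ### chains of derivatives -/

section chain

variable {F : Type*} [NormedAddCommGroup F] [NormedSpace ℝ F]

lemma contDiff_chain (f : ℕ → ℝ → F) (h : ∀ k t, HasDerivAt (f k) (f (k + 1) t) t) (N k : ℕ) :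
    ContDiff ℝ N (f k) := by
  induction N generalizing k with
  | zero =>
    rw [Nat.cast_zero, contDiff_zero]
    exact continuous_iff_continuousAt.2 (fun t => (h k t).continuousAt)
  | succ N ih =>
    rw [Nat.cast_succ, contDiff_succ_iff_deriv]
    refine ⟨fun t => (h k t).differentiableAt, fun hN => ?_, ?_⟩
    · exact absurd hN (by norm_cast)
    · have : deriv (f k) = f (k + 1) := funext (fun t => (h k t).deriv)
      rw [this]
      exact ih (k + 1)

lemma iteratedDeriv_chain (f : ℕ → ℝ → F) (h : ∀ k t, HasDerivAt (f k) (f (k + 1) t) t) (k : ℕ) :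
    iteratedDeriv k (f 0) = f k := by
  induction k with
  | zero => simp
  | succ k ih =>
    rw [iteratedDeriv_succ, ih]
    exact funext (fun t => (h k t).deriv)

end chain

/-! ### exponential solutions -/

lemma hasDerivAt_pow_exp (v : H) (l : H) (k : ℕ) (t : ℝ) :
    HasDerivAt (fun s : ℝ => v * (l ^ k * NormedSpace.exp (s • l)))
      (v * (l ^ (k + 1) * NormedSpace.exp (t • l))) t := by
  have h1 := (hasDerivAt_exp_smul_const (𝕂 := ℝ) l t).const_mul (v * l ^ k)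
  have h2 : Commute l (NormedSpace.exp (t • l)) :=
    ((Commute.refl l).smul_right t).exp_right
  have e1 : (fun s : ℝ => v * (l ^ k * NormedSpace.exp (s • l)))
      = (fun s : ℝ => v * l ^ k * NormedSpace.exp (s • l)) := by
    funext s; rw [mul_assoc]
  have e2 : v * (l ^ (k + 1) * NormedSpace.exp (t • l))
      = v * l ^ k * (NormedSpace.exp (t • l) * l) := by
    rw [← h2.eq, pow_succ]; simp only [mul_assoc]
  rw [e1, e2]
  exact h1

lemma mulVec_rmul {ι κ : Type*} [Fintype ι] (C : Matrix κ ι H) (v : ι → H) (l : H) :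
    C *ᵥ (fun i => v i * l) = fun i => (C *ᵥ v) i * l := by
  funext i
  simp only [Matrix.mulVec, dotProduct, Finset.sum_mul, mul_assoc]

/-- `v e^{t l}` is a solution if `∑ A_k v l^k = 0`. -/
lemma isSolution_exp {n ℓ : ℕ} {A : ℕ → Matrix (Fin n) (Fin n) H} {v : Fin n → H} {l : H}
    (h : ∑ k ∈ Finset.range (ℓ + 1), A k *ᵥ (fun a => v a * l ^ k) = 0) :
    IsSolution ℓ A (fun t a => v a * NormedSpace.exp (t • l)) := by
  set f : ℕ → ℝ → Fin n → H := fun k t a => v a * (l ^ k * NormedSpace.exp (t • l)) with hf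
  have hder : ∀ k t, HasDerivAt (f k) (f (k + 1) t) t := by
    intro k t
    rw [hasDerivAt_pi]
    intro a
    exact hasDerivAt_pow_exp (v a) l k t
  have hf0 : (fun t a => v a * NormedSpace.exp (t • l)) = f 0 := by
    funext t a; simp [hf]
  rw [hf0]
  refine ⟨contDiff_chain f hder ℓ 0, fun t => ?_⟩
  rw [← Finset.sum_congr rfl (fun k _ => by rw [iteratedDeriv_chain f hder k])]
  have h2 : ∀ k, A k *ᵥ (f k t) = fun a => (A k *ᵥ (fun a => v a * l ^ k)) a
      * NormedSpace.exp (t • l) := by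
    intro k
    rw [← mulVec_rmul]
    congr 1
    funext a
    simp [hf, mul_assoc]
  rw [Finset.sum_congr rfl (fun k _ => h2 k)]
  funext a
  rw [Finset.sum_apply, ← Finset.sum_mul]
  have h3 := congrFun h a
  rw [Finset.sum_apply] at h3
  rw [h3]
  simp

lemma unbounded_exp {n ℓ : ℕ} {A : ℕ → Matrix (Fin n) (Fin n) H} {v : Fin n → H} {l : H}
    (hv : v ≠ 0) (hl : l.re ≠ 0)
    (h : ∑ k ∈ Finset.range (ℓ + 1), A k *ᵥ (fun a => v a * l ^ k) = 0) :
    ¬ IsBoundedSystem ℓ A := by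
  intro hb
  obtain ⟨c, hc⟩ := hb _ (isSolution_exp h)
  obtain ⟨a, ha⟩ := Function.ne_iff.1 hv
  have ha' : 0 < ‖v a‖ := norm_pos_iff.2 ha
  -- choose the time
  set t : ℝ := (c / ‖v a‖) / l.re with ht
  have h1 : ‖v a * NormedSpace.exp (t • l)‖ ≤ c :=
    (norm_le_pi_norm (fun a => v a * NormedSpace.exp (t • l)) a).trans (hc t)
  rw [norm_mul, Quaternion.norm_exp] at h1
  have h2 : (t • l).re = c / ‖v a‖ := by
    rw [Quaternion.re_smul, smul_eq_mul, ht]
    field_simp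
  rw [h2, ← Real.exp_eq_exp_ℝ, Real.norm_of_nonneg (Real.exp_pos _).le] at h1
  have h3 := Real.add_one_le_exp (c / ‖v a‖)
  have h4 : ‖v a‖ * (c / ‖v a‖ + 1) ≤ c := (mul_le_mul_of_nonneg_left h3 ha'.le).trans h1
  have h5 : ‖v a‖ * (c / ‖v a‖ + 1) = c + ‖v a‖ := by field_simp
  linarith

end Pool.Agent.H636R3.Quat
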