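import Pool.Agent.H636R3.QStruct

set_option autoImplicit false

open Matrix Filter Topology

namespace Pool.Agent.H636R3.Quat

/-! ### solutions coming from the first order system -/

section firstOrder

variable {n L : ℕ} {A : ℕ → Matrix (Fin n) (Fin n) H}

lemma hasDerivAt_mulVec {ι κ : Type*} [Fintype ι] [Fintype κ] (D : Matrix κ ι H) {y : ℝ → ι → H}
    {y' : ι → H} {t : ℝ} (h : ∀ q, HasDerivAt (fun s => y s q) (y' q) t) (p : κ) :
    HasDerivAt (fun s => (D *ᵥ y s) p) ((D *ᵥ y') p) t := by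
  simp only [Matrix.mulVec, dotProduct]
  apply HasDerivAt.fun_sum
  intro q _
  exact (h q).const_mul (D p q)

lemma isSolution_first (hinv : IsUnit (A (L + 1))) {y : ℝ → Fin (L + 1) × Fin n → H}
    (hy : ∀ t q, HasDerivAt (fun s => y s q) ((companion (L + 1) A *ᵥ y t) q) t) :
    IsSolution (L + 1) A (fun t a => y t (⟨0, by omega⟩, a)) := by
  set C := companion (L + 1) A with hC
  set f : ℕ → ℝ → Fin n → H := fun k t a => (C ^ k *ᵥ y t) (⟨0, by omega⟩, a) with hf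
  have hder : ∀ k t, HasDerivAt (f k) (f (k + 1) t) t := by
    intro k t
    rw [hasDerivAt_pi]
    intro a
    have h1 := hasDerivAt_mulVec (C ^ k) (hy t) (⟨0, by omega⟩, a)
    rw [Matrix.mulVec_mulVec, ← pow_succ] at h1
    exact h1
  have hf0 : (fun t a => y t (⟨0, by omega⟩, a)) = f 0 := by
    funext t a; simp [hf]
  rw [hf0]
  refine ⟨contDiff_chain f hder (L + 1) 0, fun t => ?_⟩
  rw [← Finset.sum_congr rfl (fun k _ => by rw [iteratedDeriv_chain f hder k])]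
  rw [Finset.sum_range_succ]
  have h1 : ∀ k : Fin (L + 1), f k t = fun b => y t (k, b) := by
    intro k
    funext b
    exact comp_first (y t) k k.2 b
  have h2 : f (L + 1) t = fun a => (C *ᵥ y t) (⟨L, by omega⟩, a) := by
    funext a
    show (C ^ (L + 1) *ᵥ y t) (⟨0, by omega⟩, a) = _
    rw [pow_succ, ← Matrix.mulVec_mulVec]
    exact comp_first (C *ᵥ y t) L (by omega) a
  rw [h2, comp_last hinv (y t), ← Fin.sum_univ_eq_sum_range (fun k => A k *ᵥ f k t)]
  rw [Finset.sum_congr rfl (fun k _ => by rw [h1 k])]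
  exact add_neg_cancel _

/-- the explicit solution of `y' = C y` for `(C² + μ²)² W = 0` -/
lemma hasDerivAt_explicit {ι : Type*} [Fintype ι] (C : Matrix ι ι H) {μ : ℝ} (hμ : 0 < μ)
    (W Z : ι → H) (hW : C *ᵥ (C *ᵥ W) = Z - (μ ^ 2) • W) (hZ : C *ᵥ (C *ᵥ Z) = -((μ ^ 2) • Z))
    (t : ℝ) (q : ι) :
    HasDerivAt (fun s : ℝ => (Real.cos (μ * s) • W + (Real.sin (μ * s) / μ) • (C *ᵥ W)
        + (s * Real.sin (μ * s) / (2 * μ)) • Z
        + (-(s * Real.cos (μ * s)) / (2 * μ ^ 2) + Real.sin (μ * s) / (2 * μ ^ 3)) • (C *ᵥ Z)) q)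
      ((C *ᵥ (Real.cos (μ * t) • W + (Real.sin (μ * t) / μ) • (C *ᵥ W)
        + (t * Real.sin (μ * t) / (2 * μ)) • Z
        + (-(t * Real.cos (μ * t)) / (2 * μ ^ 2) + Real.sin (μ * t) / (2 * μ ^ 3)) • (C *ᵥ Z))) q)
      t := by
  have hs : HasDerivAt (fun s : ℝ => Real.sin (μ * s)) (μ * Real.cos (μ * t)) t := by
    have := (Real.hasDerivAt_sin (μ * t)).comp t ((hasDerivAt_id t).const_mul μ)
    simpa [mul_comm, Function.comp_def] using this
  have hc : HasDerivAt (fun s : ℝ => Real.cos (μ * s)) (-(μ * Real.sin (μ * t))) t := by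
    have := (Real.hasDerivAt_cos (μ * t)).comp t ((hasDerivAt_id t).const_mul μ)
    simpa [mul_comm, Function.comp_def] using this
  have h2 : HasDerivAt (fun s : ℝ => Real.sin (μ * s) / μ) (Real.cos (μ * t)) t := by
    have := hs.div_const μ
    rwa [mul_div_cancel_left₀ _ hμ.ne'] at this
  have h3 : HasDerivAt (fun s : ℝ => s * Real.sin (μ * s) / (2 * μ))
      (Real.sin (μ * t) / (2 * μ) + t * Real.cos (μ * t) / 2) t := by
    have h0 : HasDerivAt (fun s : ℝ => s * Real.sin (μ * s))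
        (1 * Real.sin (μ * t) + t * (μ * Real.cos (μ * t))) t := (hasDerivAt_id t).mul hs
    refine (h0.div_const (2 * μ)).congr_deriv ?_
    field_simp
  have h4 : HasDerivAt (fun s : ℝ => -(s * Real.cos (μ * s)) / (2 * μ ^ 2)
      + Real.sin (μ * s) / (2 * μ ^ 3)) (t * Real.sin (μ * t) / (2 * μ)) t := by
    have h0 : HasDerivAt (fun s : ℝ => s * Real.cos (μ * s))
        (1 * Real.cos (μ * t) + t * (-(μ * Real.sin (μ * t)))) t := (hasDerivAt_id t).mul hc
    have h1 : HasDerivAt (fun s : ℝ => -(s * Real.cos (μ * s)))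
        (-(1 * Real.cos (μ * t) + t * (-(μ * Real.sin (μ * t))))) t := h0.neg
    refine ((h1.div_const (2 * μ ^ 2)).add (hs.div_const (2 * μ ^ 3))).congr_deriv ?_
    field_simp
    ring
  have e1 := (((hc.smul_const (W q)).add (h2.smul_const ((C *ᵥ W) q))).add
    (h3.smul_const (Z q))).add (h4.smul_const ((C *ᵥ Z) q))
  have e2 : (C *ᵥ (Real.cos (μ * t) • W + (Real.sin (μ * t) / μ) • (C *ᵥ W)
        + (t * Real.sin (μ * t) / (2 * μ)) • Z
        + (-(t * Real.cos (μ * t)) / (2 * μ ^ 2) + Real.sin (μ * t) / (2 * μ ^ 3)) • (C *ᵥ Z))) q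
      = (-(μ * Real.sin (μ * t))) • W q + Real.cos (μ * t) • (C *ᵥ W) q
        + (Real.sin (μ * t) / (2 * μ) + t * Real.cos (μ * t) / 2) • Z q
        + (t * Real.sin (μ * t) / (2 * μ)) • (C *ᵥ Z) q := by
    rw [Matrix.mulVec_add, Matrix.mulVec_add, Matrix.mulVec_add, Matrix.mulVec_smul,
      Matrix.mulVec_smul, Matrix.mulVec_smul, Matrix.mulVec_smul, hW, hZ]
    simp only [Pi.add_apply, Pi.smul_apply, Pi.sub_apply, Pi.neg_apply]
    rw [smul_sub, smul_neg, smul_smul, smul_smul]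
    have f1 : Real.sin (μ * t) / μ * μ ^ 2 = μ * Real.sin (μ * t) := by field_simp
    have f2 : (-(t * Real.cos (μ * t)) / (2 * μ ^ 2) + Real.sin (μ * t) / (2 * μ ^ 3)) * μ ^ 2
        = -(t * Real.cos (μ * t)) / 2 + Real.sin (μ * t) / (2 * μ) := by field_simp
    rw [f1, f2]
    have f3 : Real.sin (μ * t) / μ = Real.sin (μ * t) / (2 * μ) + Real.sin (μ * t) / (2 * μ) := by
      field_simp; ring
    rw [f3]
    module
  rw [e2]
  exact e1

/-- bounded systems have semisimple purely imaginary eigenvalues -/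
lemma kernel_sq (hinv : IsUnit (A (L + 1))) (hb : IsBoundedSystem (L + 1) A) {μ : ℝ} (hμ : 0 < μ)
    (W : Fin (L + 1) × Fin n → H)
    (hNN : (companion (L + 1) A ^ 2 + (μ ^ 2) • 1) *ᵥ
      ((companion (L + 1) A ^ 2 + (μ ^ 2) • 1) *ᵥ W) = 0) :
    (companion (L + 1) A ^ 2 + (μ ^ 2) • 1) *ᵥ W = 0 := by
  set C := companion (L + 1) A with hC
  set Z := (C ^ 2 + (μ ^ 2) • 1) *ᵥ W with hZdef
  have hexp : ∀ V : Fin (L + 1) × Fin n → H, (C ^ 2 + (μ ^ 2) • 1) *ᵥ V
      = C *ᵥ (C *ᵥ V) + (μ ^ 2) • V := by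
    intro V
    rw [Matrix.add_mulVec, sq C, ← Matrix.mulVec_mulVec, Matrix.smul_mulVec, Matrix.one_mulVec]
  have hW : C *ᵥ (C *ᵥ W) = Z - (μ ^ 2) • W := by
    rw [hZdef, hexp]; abel
  have hZ : C *ᵥ (C *ᵥ Z) = -((μ ^ 2) • Z) := by
    rw [hexp] at hNN
    exact eq_neg_of_add_eq_zero_left hNN
  set y : ℝ → Fin (L + 1) × Fin n → H := fun s => Real.cos (μ * s) • W
        + (Real.sin (μ * s) / μ) • (C *ᵥ W)
        + (s * Real.sin (μ * s) / (2 * μ)) • Z
        + (-(s * Real.cos (μ * s)) / (2 * μ ^ 2) + Real.sin (μ * s) / (2 * μ ^ 3)) • (C *ᵥ Z) with hy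
  obtain ⟨c, hc⟩ := hb _ (isSolution_first hinv (y := y)
    (fun t q => hasDerivAt_explicit C hμ W Z hW hZ t q))
  have hca : ∀ t a, ‖y t (⟨0, by omega⟩, a)‖ ≤ c := fun t a =>
    (norm_le_pi_norm (fun a => y t (⟨0, by omega⟩, a)) a).trans (hc t)
  have hpi := Real.pi_pos
  -- growth lemma
  have hgrow : ∀ (u : H) (c1 d : ℝ), 0 < d → (∀ m : ℕ, (m : ℝ) * d * ‖u‖ ≤ c1) → u = 0 := by
    intro u c1 d hd h
    by_contra hu
    have hu' : 0 < ‖u‖ := norm_pos_iff.2 hu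
    obtain ⟨m, hm⟩ := exists_nat_gt (c1 / (d * ‖u‖))
    rw [div_lt_iff₀ (by positivity)] at hm
    have := h m
    nlinarith
  have hCZ0 : ∀ a, (C *ᵥ Z) (⟨0, by omega⟩, a) = 0 := by
    intro a
    apply hgrow _ (c + ‖W (⟨0, by omega⟩, a)‖) (Real.pi / μ ^ 3) (by positivity)
    intro m
    have h1 := hca (2 * Real.pi * m / μ) a
    have hcos : Real.cos (μ * (2 * Real.pi * m / μ)) = 1 := by
      have : μ * (2 * Real.pi * m / μ) = (m : ℝ) * (2 * Real.pi) := by field_simp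
      rw [this]; exact Real.cos_nat_mul_two_pi m
    have hsin : Real.sin (μ * (2 * Real.pi * m / μ)) = 0 := by
      have : μ * (2 * Real.pi * m / μ) = ((2 * m : ℕ) : ℝ) * Real.pi := by push_cast; field_simp
      rw [this]; exact Real.sin_nat_mul_pi _
    simp only [hy, hcos, hsin, Pi.add_apply, Pi.smul_apply, Pi.zero_apply, mul_zero, zero_div,
      zero_smul, add_zero, one_smul, mul_one] at h1
    have h2 : ‖(-(2 * Real.pi * m / μ) / (2 * μ ^ 2)) • (C *ᵥ Z) (⟨0, by omega⟩, a)‖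
        ≤ c + ‖W (⟨0, by omega⟩, a)‖ := by
      calc ‖(-(2 * Real.pi * m / μ) / (2 * μ ^ 2)) • (C *ᵥ Z) (⟨0, by omega⟩, a)‖
          = ‖(W (⟨0, by omega⟩, a) + (-(2 * Real.pi * m / μ) / (2 * μ ^ 2))
              • (C *ᵥ Z) (⟨0, by omega⟩, a)) - W (⟨0, by omega⟩, a)‖ := by congr 1; abel
        _ ≤ _ := (norm_sub_le _ _).trans (by linarith)
    rw [norm_smul, Real.norm_eq_abs] at h2
    have h3 : |(-(2 * Real.pi * m / μ) / (2 * μ ^ 2))| = m * (Real.pi / μ ^ 3) := by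
      rw [neg_div, abs_neg, abs_of_nonneg (by positivity)]
      field_simp
    rw [h3] at h2
    exact h2
  have hZ0 : ∀ a, Z (⟨0, by omega⟩, a) = 0 := by
    intro a
    apply hgrow _ (c + ‖(1 / μ) • (C *ᵥ W) (⟨0, by omega⟩, a)‖) (Real.pi / μ ^ 2) (by positivity)
    intro m
    have h1 := hca ((Real.pi / 2 + m * (2 * Real.pi)) / μ) a
    have harg : μ * ((Real.pi / 2 + m * (2 * Real.pi)) / μ) = Real.pi / 2 + m * (2 * Real.pi) := by
      field_simp
    have hcos : Real.cos (μ * ((Real.pi / 2 + m * (2 * Real.pi)) / μ)) = 0 := by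
      rw [harg, Real.cos_add_nat_mul_two_pi, Real.cos_pi_div_two]
    have hsin : Real.sin (μ * ((Real.pi / 2 + m * (2 * Real.pi)) / μ)) = 1 := by
      rw [harg, Real.sin_add_nat_mul_two_pi, Real.sin_pi_div_two]
    simp only [hy, hcos, hsin, Pi.add_apply, Pi.smul_apply, Pi.zero_apply, mul_zero, neg_zero,
      zero_div, zero_smul, zero_add, mul_one, hCZ0, smul_zero, add_zero] at h1
    set τ := (Real.pi / 2 + m * (2 * Real.pi)) / μ with hτ
    have h2 : ‖(τ / (2 * μ)) • Z (⟨0, by omega⟩, a)‖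
        ≤ c + ‖(1 / μ) • (C *ᵥ W) (⟨0, by omega⟩, a)‖ := by
      calc ‖(τ / (2 * μ)) • Z (⟨0, by omega⟩, a)‖
          = ‖((1 / μ) • (C *ᵥ W) (⟨0, by omega⟩, a) + (τ / (2 * μ)) • Z (⟨0, by omega⟩, a))
              - (1 / μ) • (C *ᵥ W) (⟨0, by omega⟩, a)‖ := by congr 1; abel
        _ ≤ _ := (norm_sub_le _ _).trans (by linarith)
    rw [norm_smul, Real.norm_eq_abs] at h2
    have h3 : (m : ℝ) * (Real.pi / μ ^ 2) ≤ |τ / (2 * μ)| := by
      rw [abs_of_nonneg (by positivity), hτ]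
      have : (Real.pi / 2 + m * (2 * Real.pi)) / μ / (2 * μ)
          = Real.pi / (4 * μ ^ 2) + m * (Real.pi / μ ^ 2) := by field_simp; ring
      rw [this]
      have : 0 ≤ Real.pi / (4 * μ ^ 2) := by positivity
      linarith
    exact (mul_le_mul_of_nonneg_right h3 (norm_nonneg _)).trans h2
  -- all blocks vanish
  have hall : ∀ k, ∀ a, (C ^ k *ᵥ Z) (⟨0, by omega⟩, a) = 0 ∧
      (C ^ (k + 1) *ᵥ Z) (⟨0, by omega⟩, a) = 0 := by
    intro k
    induction k with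
    | zero => intro a; simpa using ⟨hZ0 a, hCZ0 a⟩
    | succ k ih =>
      intro a
      refine ⟨(ih a).2, ?_⟩
      have h1 : C ^ (k + 1 + 1) *ᵥ Z = -((μ ^ 2) • (C ^ k *ᵥ Z)) := by
        rw [show k + 1 + 1 = k + 2 by ring, pow_add, ← Matrix.mulVec_mulVec, sq C,
          ← Matrix.mulVec_mulVec, hZ, Matrix.mulVec_neg, Matrix.mulVec_smul]
      rw [h1, Pi.neg_apply, Pi.smul_apply, (ih a).1, smul_zero, neg_zero]
  funext ⟨⟨k, hk⟩, a⟩
  rw [Pi.zero_apply, ← comp_first Z k hk a]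
  exact (hall k a).1

end firstOrder

end Pool.Agent.H636R3.Quat
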