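import Pool.Agent.H636R3.QKernel

set_option autoImplicit false

open Matrix Filter Topology

namespace Pool.Agent.H636R3.Quat

/-- `μ i` -/
def om (μ : ℝ) : H := ⟨0, μ, 0, 0⟩
/-- `j` -/
def jj : H := ⟨0, 0, 1, 0⟩

lemma om_sq (μ : ℝ) : om μ * om μ = ((-(μ ^ 2) : ℝ) : H) := by
  ext <;> simp [om, sq]

lemma jj_sq : jj * jj = ((-1 : ℝ) : H) := by
  ext <;> simp [jj] <;> rfl

lemma om_jj (μ : ℝ) : jj * om μ = -(om μ * jj) := by
  ext <;> simp [om, jj]

lemma om_re (μ : ℝ) : (om μ).re = 0 := rfl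

lemma om_ne {μ : ℝ} (hμ : 0 < μ) : om μ ≠ 0 := by
  intro h
  have := congrArg QuaternionAlgebra.imI h
  exact hμ.ne' this

lemma star_om (μ : ℝ) : star (om μ) = -(om μ) := Quaternion.star_eq_neg.2 rfl

lemma star_jj : star jj = -jj := Quaternion.star_eq_neg.2 rfl

lemma comm_om {μ : ℝ} (hμ : 0 < μ) {z : H} (h : z * om μ = om μ * z) : z.imJ = 0 ∧ z.imK = 0 := by
  have h1 := congrArg QuaternionAlgebra.imJ h
  have h2 := congrArg QuaternionAlgebra.imK h
  have h1' : z.imK * μ = -(μ * z.imK) := by simpa [om] using h1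
  have h2' : -(z.imJ * μ) = μ * z.imJ := by simpa [om] using h2
  constructor
  · have : z.imJ * μ = 0 := by linarith
    rcases mul_eq_zero.1 this with h | h
    · exact h
    · exact absurd h hμ.ne'
  · have : z.imK * μ = 0 := by linarith
    rcases mul_eq_zero.1 this with h | h
    · exact h
    · exact absurd h hμ.ne'

lemma re_mul_comm (x y : H) : (x * y).re = (y * x).re := by
  rw [Quaternion.re_mul, Quaternion.re_mul]; ring

lemma star_rmul_dot {ι : Type*} [Fintype ι] (u v : ι → H) (l : H) :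
    star (fun i => u i * l) ⬝ᵥ v = star l * (star u ⬝ᵥ v) := by
  simp only [dotProduct, Finset.mul_sum, Pi.star_apply, star_mul, mul_assoc]

section main

variable {n L : ℕ} {A : ℕ → Matrix (Fin n) (Fin n) H}

/-- the quadratic form -/
noncomputable def qf (A : ℕ → Matrix (Fin n) (Fin n) H) (V : Fin (L + 1) × Fin n → H) : ℝ :=
  (star V ⬝ᵥ ((gmat (L + 1) A * companion (L + 1) A) *ᵥ V)).re

lemma z_comm (hA : SymCoeff (L + 1) A) (hinv : IsUnit (A (L + 1))) {μ : ℝ} (hμ : 0 < μ)
    {a b : Fin (L + 1) × Fin n → H} (ha : companion (L + 1) A *ᵥ a = fun p => a p * om μ)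
    (hb : companion (L + 1) A *ᵥ b = fun p => b p * om μ) :
    (star a ⬝ᵥ ((gmat (L + 1) A * companion (L + 1) A) *ᵥ b)).imJ = 0 ∧
    (star a ⬝ᵥ ((gmat (L + 1) A * companion (L + 1) A) *ᵥ b)).imK = 0 := by
  set G := gmat (L + 1) A with hG
  set C := companion (L + 1) A with hC
  set y := star a ⬝ᵥ (G *ᵥ b) with hy
  have h1 : star a ⬝ᵥ ((G * C) *ᵥ b) = y * om μ := by
    rw [← Matrix.mulVec_mulVec, hb, mulVec_rmul, dot_rmul]
  have h2 : star a ⬝ᵥ ((G * C) *ᵥ b) = om μ * y := by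
    have h3 : star a ⬝ᵥ ((G * C) *ᵥ b) = star ((G * C) *ᵥ a) ⬝ᵥ b := by
      rw [Matrix.dotProduct_mulVec, Matrix.star_mulVec, gc_herm hA hinv]
    rw [h3, ← Matrix.mulVec_mulVec, ha, mulVec_rmul, star_rmul_dot, star_om, Matrix.star_mulVec,
      gmat_skew hA, ← Matrix.dotProduct_mulVec, Matrix.neg_mulVec, dotProduct_neg, neg_mul_neg]
  apply comm_om hμ
  rw [h1]
  have h4 : y * om μ = om μ * y := by rw [← h1, h2]
  calc y * om μ * om μ = om μ * y * om μ := by rw [h4]
    _ = om μ * (y * om μ) := by rw [mul_assoc]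

lemma decompose {ι : Type*} [Fintype ι] (C : Matrix ι ι H) {μ : ℝ} (hμ : 0 < μ) (V : ι → H)
    (hV : C *ᵥ (C *ᵥ V) = -((μ ^ 2) • V)) :
    ∃ a b : ι → H, C *ᵥ a = (fun p => a p * om μ) ∧ C *ᵥ b = (fun p => b p * om μ) ∧
      V = a + fun p => b p * jj := by
  have hμ2 : μ ^ 2 ≠ 0 := by positivity
  set a : ι → H := fun p => (1 / 2 : ℝ) • (V p - (1 / μ ^ 2) • ((C *ᵥ V) p * om μ)) with ha
  set d : ι → H := fun p => (1 / 2 : ℝ) • (V p + (1 / μ ^ 2) • ((C *ᵥ V) p * om μ)) with hd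
  have hCa : C *ᵥ a = fun p => (1 / 2 : ℝ) • ((C *ᵥ V) p + V p * om μ) := by
    have h1 : a = (1 / 2 : ℝ) • (V - (1 / μ ^ 2) • (fun p => (C *ᵥ V) p * om μ)) := by
      funext p; rfl
    rw [h1, Matrix.mulVec_smul, Matrix.mulVec_sub, Matrix.mulVec_smul, mulVec_rmul, hV]
    funext p
    simp only [Pi.smul_apply, Pi.sub_apply, Pi.neg_apply, neg_mul, smul_neg, sub_neg_eq_add,
      smul_mul_assoc, smul_smul]
    rw [one_div_mul_cancel hμ2, one_smul]
  have hCd : C *ᵥ d = fun p => (1 / 2 : ℝ) • ((C *ᵥ V) p - V p * om μ) := by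
    have h1 : d = (1 / 2 : ℝ) • (V + (1 / μ ^ 2) • (fun p => (C *ᵥ V) p * om μ)) := by
      funext p; rfl
    rw [h1, Matrix.mulVec_smul, Matrix.mulVec_add, Matrix.mulVec_smul, mulVec_rmul, hV]
    funext p
    simp only [Pi.smul_apply, Pi.add_apply, Pi.neg_apply, neg_mul, smul_neg,
      smul_mul_assoc, smul_smul]
    rw [one_div_mul_cancel hμ2, one_smul, ← sub_eq_add_neg]
  have hoo : ∀ x : H, x * om μ * om μ = -((μ ^ 2) • x) := by
    intro x
    rw [mul_assoc, om_sq, ← Quaternion.coe_commutes, Quaternion.coe_mul_eq_smul, neg_smul]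
  have hjj : ∀ x : H, x * jj * jj = -x := by
    intro x
    rw [mul_assoc, jj_sq, ← Quaternion.coe_commutes, Quaternion.coe_mul_eq_smul, neg_smul, one_smul]
  have hda : ∀ p, d p * om μ = -((C *ᵥ d) p) := by
    intro p
    rw [hCd]
    simp only [hd]
    rw [smul_mul_assoc, add_mul, smul_mul_assoc, hoo, smul_neg, smul_smul,
      one_div_mul_cancel hμ2, one_smul, ← smul_neg]
    congr 1
    abel
  refine ⟨a, fun p => -(d p * jj), ?_, ?_, ?_⟩
  · rw [hCa]
    funext p
    simp only [ha]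
    rw [smul_mul_assoc, sub_mul, smul_mul_assoc, hoo, smul_neg, smul_smul,
      one_div_mul_cancel hμ2, one_smul]
    congr 1
    abel
  · have h1 : (fun p => -(d p * jj)) = -(fun p => d p * jj) := by funext p; rfl
    rw [h1, Matrix.mulVec_neg, mulVec_rmul]
    funext p
    simp only [Pi.neg_apply]
    have h2 : (C *ᵥ d) p = -(d p * om μ) := by rw [hda, neg_neg]
    rw [h2, neg_mul, neg_neg, neg_mul, mul_assoc (d p) jj, om_jj, mul_neg, neg_neg, mul_assoc]
  · funext p
    simp only [Pi.add_apply, neg_mul, hjj, neg_neg, ha, hd]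
    rw [← smul_add]
    have : V p - (1 / μ ^ 2) • ((C *ᵥ V) p * om μ) + (V p + (1 / μ ^ 2) • ((C *ᵥ V) p * om μ))
        = (2 : ℝ) • V p := by rw [two_smul]; abel
    rw [this, smul_smul]
    norm_num

lemma qf_decompose (hA : SymCoeff (L + 1) A) (hinv : IsUnit (A (L + 1))) {μ : ℝ} (hμ : 0 < μ)
    {a b : Fin (L + 1) × Fin n → H} (ha : companion (L + 1) A *ᵥ a = fun p => a p * om μ)
    (hb : companion (L + 1) A *ᵥ b = fun p => b p * om μ) :
    qf A (a + fun p => b p * jj) = qf A a + qf A b := by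
  unfold qf
  set K := gmat (L + 1) A * companion (L + 1) A with hK
  rw [Matrix.mulVec_add, mulVec_rmul, star_add, add_dotProduct, dotProduct_add, dotProduct_add,
    star_rmul_dot, star_rmul_dot, dot_rmul, dot_rmul]
  have h1 := z_comm hA hinv hμ ha hb
  have h2 := z_comm hA hinv hμ hb ha
  rw [← hK] at h1 h2
  simp only [Quaternion.re_add]
  have e1 : (star a ⬝ᵥ K *ᵥ b * jj).re = 0 := by
    rw [Quaternion.re_mul]; simp [jj, h1.1]
  have e2 : (star jj * (star b ⬝ᵥ K *ᵥ a)).re = 0 := by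
    rw [star_jj, neg_mul, Quaternion.re_neg, Quaternion.re_mul]; simp [jj, h2.1]
  have e3 : (star jj * (star b ⬝ᵥ K *ᵥ b * jj)).re = (star b ⬝ᵥ K *ᵥ b).re := by
    rw [re_mul_comm, mul_assoc, star_jj, mul_neg, jj_sq, ← Quaternion.coe_neg, neg_neg,
      Quaternion.coe_one, mul_one]
  rw [e1, e2, e3]
  ring

/-- the structure of eigenvectors of the companion matrix -/
lemma eigvec_block {l : H} {c : Fin (L + 1) × Fin n → H}
    (hc : companion (L + 1) A *ᵥ c = fun p => c p * l) (k : ℕ) (hk : k < L + 1) (a : Fin n) :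
    c (⟨k, hk⟩, a) = c (⟨0, by omega⟩, a) * l ^ k := by
  induction k with
  | zero => simp
  | succ k ih =>
    have h1 := comp_row (A := A) c k hk a
    rw [hc] at h1
    have h2 : c (⟨k, by omega⟩, a) * l = c (⟨k + 1, hk⟩, a) := h1
    rw [← h2, ih (by omega), pow_succ, mul_assoc]

lemma eigvec_eq (hinv : IsUnit (A (L + 1))) {l : H} {c : Fin (L + 1) × Fin n → H}
    (hc : companion (L + 1) A *ᵥ c = fun p => c p * l) :
    ∑ k ∈ Finset.range (L + 1 + 1), A k *ᵥ (fun a => c (⟨0, by omega⟩, a) * l ^ k) = 0 := by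
  rw [Finset.sum_range_succ]
  have h1 := comp_last hinv c
  have h2 : (fun a => (companion (L + 1) A *ᵥ c) (⟨L, by omega⟩, a))
      = fun a => c (⟨0, by omega⟩, a) * l ^ (L + 1) := by
    funext a
    rw [hc]
    simp only []
    rw [eigvec_block hc L (by omega) a, pow_succ, mul_assoc]
  rw [h2] at h1
  rw [h1]
  have h3 : ∑ k ∈ Finset.range (L + 1), A k *ᵥ (fun a => c (⟨0, by omega⟩, a) * l ^ k)
      = ∑ k : Fin (L + 1), A k *ᵥ (fun b => c (k, b)) := by
    rw [← Fin.sum_univ_eq_sum_range (fun k => A k *ᵥ (fun a => c (⟨0, by omega⟩, a) * l ^ k))]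
    apply Finset.sum_congr rfl
    intro k _
    congr 1
    funext b
    exact (eigvec_block hc k k.2 b).symm
  rw [h3]
  exact add_neg_cancel _

lemma eigvec_ne {l : H} {c : Fin (L + 1) × Fin n → H}
    (hc : companion (L + 1) A *ᵥ c = fun p => c p * l) (hc0 : c ≠ 0) :
    (fun a => c (⟨0, by omega⟩, a)) ≠ 0 := by
  intro h
  apply hc0
  funext ⟨⟨k, hk⟩, a⟩
  rw [eigvec_block hc k hk a]
  have := congrFun h a
  simp only [Pi.zero_apply] at this
  rw [this, zero_mul, Pi.zero_apply]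

/-- the form on an eigenvector -/
lemma qf_eigvec {μ : ℝ} {c : Fin (L + 1) × Fin n → H}
    (hc : companion (L + 1) A *ᵥ c = fun p => c p * om μ) :
    qf A c = ∑ k ∈ Finset.range (L + 1 + 1),
      (k : ℝ) * (wv A (fun a => c (⟨0, by omega⟩, a)) k * om μ ^ k).re := by
  set v : Fin n → H := fun a => c (⟨0, by omega⟩, a) with hv
  set f : ℕ → ℝ := fun k => (wv A v k * om μ ^ k).re with hf
  have h1 : qf A c = (star c ⬝ᵥ (gmat (L + 1) A *ᵥ c) * om μ).re := by
    unfold qf
    rw [← Matrix.mulVec_mulVec, hc, mulVec_rmul, dot_rmul]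
  have hcb : ∀ (k : Fin (L + 1)) (a : Fin n), c (k, a) = v a * om μ ^ (k : ℕ) :=
    fun k a => eigvec_block hc k k.2 a
  have hst : ∀ m : ℕ, star (om μ ^ m) = (-1 : ℝ) ^ m • om μ ^ m := by
    intro m
    rw [star_pow, star_om, neg_pow]
    rcases Nat.even_or_odd m with h | h
    · rw [h.neg_one_pow, h.neg_one_pow, one_mul, one_smul]
    · rw [h.neg_one_pow, h.neg_one_pow, neg_one_mul, neg_smul, one_smul]
  -- the block (i, j)
  have hblock : ∀ i j : Fin (L + 1), (∑ a, ∑ b, star (c (i, a)) *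
      (gmat (L + 1) A (i, a) (j, b) * c (j, b)) * om μ).re
      = if (j : ℕ) < L + 1 - (i : ℕ) then f ((i : ℕ) + (j : ℕ) + 1) else 0 := by
    intro i j
    by_cases hij : (j : ℕ) < L + 1 - (i : ℕ)
    · rw [if_pos hij]
      have h2 : ∀ a b, star (c (i, a)) * (gmat (L + 1) A (i, a) (j, b) * c (j, b)) * om μ
          = om μ ^ (i : ℕ) * (star (v a) * (A ((i : ℕ) + (j : ℕ) + 1) a b * v b))
            * om μ ^ ((j : ℕ) + 1) := by
        intro a b
        rw [hcb, hcb, star_mul, hst]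
        unfold gmat
        rw [if_pos (by simp only []; omega), Matrix.smul_apply]
        simp only [smul_mul_assoc, mul_smul_comm, smul_smul]
        rw [← pow_add, ← two_mul, pow_mul]
        simp only [neg_one_sq, one_pow, one_smul, pow_succ, mul_assoc]
      simp only [h2]
      have h3 : ∑ a, ∑ b, om μ ^ (i : ℕ) * (star (v a) * (A ((i : ℕ) + (j : ℕ) + 1) a b * v b))
            * om μ ^ ((j : ℕ) + 1)
          = om μ ^ (i : ℕ) * wv A v ((i : ℕ) + (j : ℕ) + 1) * om μ ^ ((j : ℕ) + 1) := by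
        unfold wv
        simp only [Matrix.mulVec, dotProduct, Finset.mul_sum, Finset.sum_mul, Pi.star_apply]
      rw [h3, mul_assoc, re_mul_comm, mul_assoc, ← pow_add, hf]
      simp only []
      congr 3
      omega
    · rw [if_neg hij]
      have h2 : ∀ a b, star (c (i, a)) * (gmat (L + 1) A (i, a) (j, b) * c (j, b)) * om μ = 0 := by
        intro a b
        unfold gmat
        rw [if_neg (by simp only []; omega), zero_mul, mul_zero, zero_mul]
      simp only [h2, Finset.sum_const_zero]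
      rfl
  have h4 : star c ⬝ᵥ (gmat (L + 1) A *ᵥ c) * om μ = ∑ i : Fin (L + 1), ∑ j : Fin (L + 1),
      ∑ a, ∑ b, star (c (i, a)) * (gmat (L + 1) A (i, a) (j, b) * c (j, b)) * om μ := by
    simp only [Matrix.mulVec, dotProduct, Fintype.sum_prod_type, Finset.mul_sum, Finset.sum_mul,
      Pi.star_apply]
    apply Finset.sum_congr rfl
    intro i _
    rw [Finset.sum_comm]
  rw [h1, h4, re_sum]
  have h5 : ∀ i : Fin (L + 1), (∑ j : Fin (L + 1),
      ∑ a, ∑ b, star (c (i, a)) * (gmat (L + 1) A (i, a) (j, b) * c (j, b)) * om μ).re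
      = ∑ j ∈ Finset.range (L + 1 - (i : ℕ)), f ((i : ℕ) + j + 1) := by
    intro i
    rw [re_sum, Finset.sum_congr rfl (fun j _ => hblock i j)]
    rw [Fin.sum_univ_eq_sum_range (fun j => if j < L + 1 - (i : ℕ) then f ((i : ℕ) + j + 1) else 0),
      ← Finset.sum_filter]
    apply Finset.sum_congr _ (fun _ _ => rfl)
    ext j
    simp only [Finset.mem_filter, Finset.mem_range]
    omega
  rw [Finset.sum_congr rfl (fun i _ => h5 i)]
  rw [Fin.sum_univ_eq_sum_range (fun i => ∑ j ∈ Finset.range (L + 1 - i), f (i + j + 1)),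
    ← Finset.sum_range_diag_flip (L + 1) (fun i j => f (i + j + 1)),
    Finset.sum_range_succ' (fun k : ℕ => (k : ℝ) * (wv A v k * om μ ^ k).re) (L + 1),
    Nat.cast_zero, zero_mul, add_zero]
  apply Finset.sum_congr rfl
  intro m _
  have h6 : ∀ k ∈ Finset.range (m + 1), f (k + (m - k) + 1) = f (m + 1) := by
    intro k hk
    rw [Finset.mem_range] at hk
    congr 1
    omega
  rw [Finset.sum_congr rfl h6, Finset.sum_const, Finset.card_range, nsmul_eq_mul]

/-- in a stably bounded system there is no neutral eigenvector -/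
lemma no_neutral (hA : SymCoeff (L + 1) A) (hinv : IsUnit (A (L + 1)))
    (hst : IsStablyBounded (L + 1) A) {μ : ℝ} (hμ : 0 < μ) {c : Fin (L + 1) × Fin n → H}
    (hc : companion (L + 1) A *ᵥ c = fun p => c p * om μ) (hc0 : c ≠ 0) : qf A c ≠ 0 := by
  intro hq
  rw [qf_eigvec hc] at hq
  exact not_stable_of_neutral (by omega) hA (eigvec_ne hc hc0) (om_ne hμ) (om_re μ)
    (eigvec_eq hinv hc) hq hst

lemma qf_path (c d : Fin (L + 1) × Fin n → H) :
    Continuous (fun s : ℝ => qf A ((1 - s) • c + s • d)) := by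
  unfold qf
  have : Continuous (fun s : ℝ => star ((1 - s) • c + s • d) ⬝ᵥ
      ((gmat (L + 1) A * companion (L + 1) A) *ᵥ ((1 - s) • c + s • d))) := by
    simp only [Matrix.mulVec, dotProduct, Pi.star_apply, Pi.add_apply, Pi.smul_apply]
    fun_prop
  exact Quaternion.continuous_re.comp this

lemma qf_smul (r : ℝ) (c : Fin (L + 1) × Fin n → H) : qf A (r • c) = r ^ 2 * qf A c := by
  unfold qf
  have h1 : star (r • c) = r • star c := by
    funext p
    rw [Pi.star_apply, Pi.smul_apply, Pi.smul_apply, Pi.star_apply, Quaternion.star_smul]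
  rw [Matrix.mulVec_smul, h1, smul_dotProduct, dotProduct_smul, smul_smul,
    Quaternion.re_smul, smul_eq_mul, sq]

/-- the form is definite on the eigenvectors -/
lemma definite_eig (hA : SymCoeff (L + 1) A) (hinv : IsUnit (A (L + 1)))
    (hst : IsStablyBounded (L + 1) A) {μ : ℝ} (hμ : 0 < μ) {c d : Fin (L + 1) × Fin n → H}
    (hc : companion (L + 1) A *ᵥ c = fun p => c p * om μ) (hc0 : c ≠ 0)
    (hd : companion (L + 1) A *ᵥ d = fun p => d p * om μ)
    (hqc : qf A c < 0) (hqd : 0 < qf A d) : False := by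
  have hcont := qf_path (A := A) c d
  obtain ⟨s, hs, hqs⟩ := intermediate_value_Icc (zero_le_one (α := ℝ)) hcont.continuousOn
    (show (0 : ℝ) ∈ Set.Icc _ _ from ⟨by simpa using hqc.le, by simpa using hqd.le⟩)
  have heig : companion (L + 1) A *ᵥ ((1 - s) • c + s • d)
      = fun p => ((1 - s) • c + s • d) p * om μ := by
    rw [Matrix.mulVec_add, Matrix.mulVec_smul, Matrix.mulVec_smul, hc, hd]
    funext p
    simp only [Pi.add_apply, Pi.smul_apply, add_mul, smul_mul_assoc]
  by_cases h0 : (1 - s) • c + s • d = 0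
  · -- then `d` is a multiple of `c`
    have hs0 : s ≠ 0 := by
      rintro rfl
      rw [sub_zero, one_smul, zero_smul, add_zero] at h0
      exact hc0 h0
    have h1 : d = (-((1 - s) / s)) • c := by
      have h2 : s • d = -((1 - s) • c) := eq_neg_of_add_eq_zero_right h0
      have h3 : d = s⁻¹ • (s • d) := by rw [smul_smul, inv_mul_cancel₀ hs0, one_smul]
      rw [h3, h2, smul_neg, smul_smul, ← neg_smul]
      congr 1
      field_simp
    rw [h1, qf_smul] at hqd
    nlinarith [sq_nonneg (-((1 - s) / s))]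
  · exact no_neutral hA hinv hst hμ heig h0 hqs

end main

end Pool.Agent.H636R3.Quat
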