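import Pool.Agent.H636R3.QPerturb

set_option autoImplicit false

open Matrix Filter Topology

namespace Pool.Agent.H636R3.Quat

lemma SymCoeff.entry {n ℓ : ℕ} {A : ℕ → Matrix (Fin n) (Fin n) H} (hA : SymCoeff ℓ A) {k : ℕ}
    (hk : k ≤ ℓ) (a b : Fin n) : star (A k b a) = (-1 : ℝ) ^ k • A k a b := by
  rcases Nat.even_or_odd k with h | h
  · have h1 := (hA k hk).1 h
    rw [h.neg_one_pow, one_smul, ← Matrix.conjTranspose_apply, h1]
  · have h1 := (hA k hk).2 h
    rw [h.neg_one_pow, neg_smul, one_smul, ← Matrix.conjTranspose_apply, h1, Matrix.neg_apply]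

lemma gmat_skew {n ℓ : ℕ} {A : ℕ → Matrix (Fin n) (Fin n) H} (hA : SymCoeff ℓ A) :
    (gmat ℓ A)ᴴ = -gmat ℓ A := by
  ext1 p q
  rw [Matrix.conjTranspose_apply, Matrix.neg_apply]
  unfold gmat
  have hcomm : (q.1 : ℕ) + (p.1 : ℕ) = (p.1 : ℕ) + (q.1 : ℕ) := add_comm _ _
  rw [hcomm]
  split_ifs with h
  · rw [Matrix.smul_apply, Matrix.smul_apply, Quaternion.star_smul, hA.entry h, smul_smul,
      ← pow_add, ← neg_smul]
    congr 1
    have : (-1 : ℝ) ^ ((q.1 : ℕ) + ((p.1 : ℕ) + (q.1 : ℕ) + 1))
        = (-1) ^ (2 * (q.1 : ℕ)) * ((-1) ^ (p.1 : ℕ) * (-1)) := by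
      rw [← pow_succ, ← pow_add]; congr 1; ring
    rw [this, pow_mul]
    norm_num
  · rw [star_zero, neg_zero]

section comp

variable {n L : ℕ} {A : ℕ → Matrix (Fin n) (Fin n) H}

lemma comp_row (Y : Fin (L + 1) × Fin n → H) (k : ℕ) (hk : k + 1 < L + 1) (a : Fin n) :
    (companion (L + 1) A *ᵥ Y) (⟨k, by omega⟩, a) = Y (⟨k + 1, hk⟩, a) := by
  rw [Matrix.mulVec, dotProduct, Finset.sum_eq_single (⟨k + 1, hk⟩, a)]
  · unfold companion
    simp [hk]
  · intro q _ hq
    unfold companion
    simp only [hk, if_true]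
    rw [if_neg, zero_mul]
    rintro ⟨h1, h2⟩
    apply hq
    exact Prod.ext (Fin.ext h1) h2.symm
  · intro h; exact absurd (Finset.mem_univ _) h

lemma comp_last (hinv : IsUnit (A (L + 1))) (Y : Fin (L + 1) × Fin n → H) :
    A (L + 1) *ᵥ (fun a => (companion (L + 1) A *ᵥ Y) (⟨L, by omega⟩, a))
      = -∑ k : Fin (L + 1), A k *ᵥ (fun b => Y (k, b)) := by
  have h1 : (fun a => (companion (L + 1) A *ᵥ Y) (⟨L, by omega⟩, a))
      = -∑ k : Fin (L + 1), (Ring.inverse (A (L + 1)) * A k) *ᵥ (fun b => Y (k, b)) := by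
    funext a
    rw [Matrix.mulVec, dotProduct, Fintype.sum_prod_type, Pi.neg_apply, Finset.sum_apply,
      ← Finset.sum_neg_distrib]
    apply Finset.sum_congr rfl
    intro k _
    rw [Matrix.mulVec, dotProduct, ← Finset.sum_neg_distrib]
    apply Finset.sum_congr rfl
    intro b _
    unfold companion
    simp
  rw [h1, Matrix.mulVec_neg, Matrix.mulVec_sum]
  congr 1
  apply Finset.sum_congr rfl
  intro k _
  rw [Matrix.mulVec_mulVec, ← mul_assoc, Ring.mul_inverse_cancel _ hinv, one_mul]

lemma comp_first (Y : Fin (L + 1) × Fin n → H) (k : ℕ) (hk : k < L + 1) (a : Fin n) :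
    ((companion (L + 1) A) ^ k *ᵥ Y) (⟨0, by omega⟩, a) = Y (⟨k, hk⟩, a) := by
  induction k generalizing Y with
  | zero => simp
  | succ k ih =>
    rw [pow_succ, ← Matrix.mulVec_mulVec, ih _ (by omega), comp_row Y k hk a]

/-- entries of `G C` -/
lemma gc_apply (hinv : IsUnit (A (L + 1))) (p q : Fin (L + 1) × Fin n) :
    (gmat (L + 1) A * companion (L + 1) A) p q
      = (if h : 0 < (q.1 : ℕ) then gmat (L + 1) A p (⟨(q.1 : ℕ) - 1, by omega⟩, q.2) else 0)
        + (if (p.1 : ℕ) = 0 then -(A q.1) p.2 q.2 else 0) := by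
  rw [Matrix.mul_apply, Fintype.sum_prod_type, Fin.sum_univ_castSucc]
  congr 1
  · -- the superdiagonal part
    have h1 : ∀ j : Fin L, ∑ c : Fin n, gmat (L + 1) A p (Fin.castSucc j, c)
          * companion (L + 1) A (Fin.castSucc j, c) q
        = if (q.1 : ℕ) = (j : ℕ) + 1 then gmat (L + 1) A p (Fin.castSucc j, q.2) else 0 := by
      intro j
      have hj : ((Fin.castSucc j : Fin (L + 1)) : ℕ) + 1 < L + 1 := by
        have := j.2; simp only [Fin.val_castSucc]; omega
      rw [Finset.sum_eq_single q.2]
      · unfold companion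
        simp only [hj, if_true, and_true]
        simp only [Fin.val_castSucc]
        split_ifs
        · rw [mul_one]
        · rw [mul_zero]
      · intro c _ hc
        unfold companion
        simp only [hj, if_true]
        rw [if_neg (fun h => hc h.2), mul_zero]
      · intro h; exact absurd (Finset.mem_univ _) h
    rw [Finset.sum_congr rfl (fun j _ => h1 j)]
    split_ifs with h
    · rw [Finset.sum_eq_single (⟨(q.1 : ℕ) - 1, by have := q.1.2; omega⟩ : Fin L)]
      · rw [if_pos (by simp only []; omega)]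
        rfl
      · intro j _ hj
        rw [if_neg]
        intro h2
        apply hj
        apply Fin.ext
        simp only []
        omega
      · intro h; exact absurd (Finset.mem_univ _) h
    · apply Finset.sum_eq_zero
      intro j _
      rw [if_neg (by omega)]
  · -- the last block
    have hlast : ∀ c, companion (L + 1) A (Fin.last L, c) q
        = (-(Ring.inverse (A (L + 1)) * A q.1)) c q.2 := by
      intro c; unfold companion; simp
    split_ifs with h
    · have hg : ∀ c, gmat (L + 1) A p (Fin.last L, c) = A (L + 1) p.2 c := by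
        intro c; unfold gmat; simp [h]
      have h2 : ∑ c, gmat (L + 1) A p (Fin.last L, c) * companion (L + 1) A (Fin.last L, c) q
          = (A (L + 1) * (-(Ring.inverse (A (L + 1)) * A q.1))) p.2 q.2 := by
        rw [Matrix.mul_apply]
        apply Finset.sum_congr rfl
        intro c _
        rw [hg, hlast]
      rw [h2, mul_neg, ← mul_assoc, Ring.mul_inverse_cancel _ hinv, one_mul]
      rfl
    · apply Finset.sum_eq_zero
      intro c _
      have hg : gmat (L + 1) A p (Fin.last L, c) = 0 := by
        unfold gmat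
        rw [if_neg]
        simp only [Fin.val_last]
        omega
      rw [hg, zero_mul]

lemma gc_herm (hA : SymCoeff (L + 1) A) (hinv : IsUnit (A (L + 1))) :
    (gmat (L + 1) A * companion (L + 1) A)ᴴ = gmat (L + 1) A * companion (L + 1) A := by
  ext1 p q
  rw [Matrix.conjTranspose_apply, gc_apply hinv, gc_apply hinv]
  obtain ⟨⟨i, hi⟩, a⟩ := p
  obtain ⟨⟨k, hk⟩, b⟩ := q
  simp only []
  rcases Nat.eq_zero_or_pos i with hi0 | hi0
  · subst hi0
    rcases Nat.eq_zero_or_pos k with hk0 | hk0
    · subst hk0
      have h1 := hA.entry (Nat.zero_le _) a b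
      simp only [lt_irrefl, dite_false, if_true, zero_add]
      have h2 : star (-(A 0 b a)) = -(A 0 a b) := by rw [star_neg, h1, pow_zero, one_smul]
      exact h2
    · have hk1 : k ≠ 0 := by omega
      simp only [lt_irrefl, dite_false, if_true, hk1, if_false, hk0, dite_true, add_zero,
        star_zero]
      unfold gmat
      simp only [zero_add, pow_zero, one_smul]
      have h3 : k - 1 + 1 = k := by omega
      rw [h3, if_pos (by omega)]
      have h4 : (0 : H) = A k a b + -(A k a b) := by rw [add_neg_cancel]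
      exact h4
  · have hi1 : i ≠ 0 := by omega
    rcases Nat.eq_zero_or_pos k with hk0 | hk0
    · subst hk0
      simp only [lt_irrefl, dite_false, if_true, hi1, if_false, hi0, dite_true, add_zero]
      unfold gmat
      simp only [zero_add, pow_zero, one_smul]
      have h3 : i - 1 + 1 = i := by omega
      rw [h3, if_pos (by omega)]
      have h4 : star (A i b a + -(A i b a)) = 0 := by rw [add_neg_cancel, star_zero]
      exact h4
    · have hk1 : k ≠ 0 := by omega
      simp only [hi0, hk0, dite_true, hi1, hk1, if_false, add_zero]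
      unfold gmat
      simp only []
      have e1 : k + (i - 1) + 1 = i + k := by omega
      have e2 : i + (k - 1) + 1 = i + k := by omega
      rw [e1, e2]
      split_ifs with h
      · rw [Matrix.smul_apply, Matrix.smul_apply, Quaternion.star_smul, hA.entry h, smul_smul,
          ← pow_add]
        congr 1
        rw [show k + (i + k) = 2 * k + i by ring, pow_add, pow_mul]
        norm_num
      · rw [star_zero]

end comp

end Pool.Agent.H636R3.Quat
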