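import Pool.Agent.H972ST.Stmts

set_option autoImplicit false

namespace Pool.Agent.H636R3.STFixM

open Pool.Agent.H972ST

section step

variable {α : Type} (h : α → ℕ) (w : ℕ)

def AA (k : ℕ) : Set α := {a | h a ≤ k}
def BB (k : ℕ) : Set (ℤ × α) := {q | w * q.1.natAbs + h q.2 ≤ k}

theorem BB_finite (hw : 0 < w) (hA : ∀ k, (AA h k).Finite) (k : ℕ) : (BB h w k).Finite := by
  apply Set.Finite.subset ((Set.finite_Icc (-(k : ℤ)) k).prod (hA k))
  rintro ⟨u, a⟩ hq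
  have hq' : w * u.natAbs + h a ≤ k := hq
  have h1 : 1 * u.natAbs ≤ w * u.natAbs := Nat.mul_le_mul_right _ hw
  refine ⟨⟨?_, ?_⟩, ?_⟩
  · show -(k : ℤ) ≤ u
    omega
  · show u ≤ (k : ℤ)
    omega
  · show h a ≤ k
    omega

theorem zero_part (k : ℕ) : ({q : ℤ × α | q.1 = 0 ∧ q ∈ BB h w k}).ncard = (AA h k).ncard := by
  have e : {q : ℤ × α | q.1 = 0 ∧ q ∈ BB h w k} = (fun a => ((0 : ℤ), a)) '' AA h k := by
    ext ⟨u, a⟩
    constructor
    · rintro ⟨h1, h2⟩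
      have h1' : u = 0 := h1
      subst h1'
      refine ⟨a, ?_, rfl⟩
      have h2' : w * (0 : ℤ).natAbs + h a ≤ k := h2
      show h a ≤ k
      simpa using h2'
    · rintro ⟨b, hb, hab⟩
      have h1 : (0 : ℤ) = u := congrArg Prod.fst hab
      have h2 : b = a := congrArg Prod.snd hab
      subst h1; subst h2
      refine ⟨rfl, ?_⟩
      show w * (0 : ℤ).natAbs + h b ≤ k
      have : h b ≤ k := hb
      simpa using this
  rw [e, Set.ncard_image_of_injective]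
  intro a b hab
  exact congrArg Prod.snd hab

theorem step (hw : 0 < w) (hA : ∀ k, (AA h k).Finite) (k : ℕ) :
    (BB h w (k + w)).ncard = (BB h w k).ncard + (AA h (k + w)).ncard + (AA h k).ncard := by
  have hfin := BB_finite h w hw hA
  have eB : BB h w (k + w) = {q : ℤ × α | q.1 = 0 ∧ q ∈ BB h w (k + w)} ∪
      ({q : ℤ × α | 1 ≤ q.1 ∧ q ∈ BB h w (k + w)} ∪ {q : ℤ × α | q.1 ≤ -1 ∧ q ∈ BB h w (k + w)}) := by
    ext q
    constructor
    · intro hq
      rcases lt_trichotomy q.1 0 with h1 | h1 | h1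
      · right; right; exact ⟨by omega, hq⟩
      · left; exact ⟨h1, hq⟩
      · right; left; exact ⟨by omega, hq⟩
    · rintro (hq | hq | hq)
      · exact hq.2
      · exact hq.2
      · exact hq.2
  have eP : {q : ℤ × α | 1 ≤ q.1 ∧ q ∈ BB h w (k + w)} =
      (fun q : ℤ × α => (q.1 + 1, q.2)) '' {q : ℤ × α | 0 ≤ q.1 ∧ q ∈ BB h w k} := by
    ext ⟨u, a⟩
    constructor
    · rintro ⟨h1, h2⟩
      have h1' : 1 ≤ u := h1
      have h2' : w * u.natAbs + h a ≤ k + w := h2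
      refine ⟨(u - 1, a), ⟨by show 0 ≤ u - 1; omega, ?_⟩, by simp⟩
      show w * (u - 1).natAbs + h a ≤ k
      have e : u.natAbs = (u - 1).natAbs + 1 := by omega
      rw [e, Nat.mul_add, Nat.mul_one] at h2'
      omega
    · rintro ⟨⟨u', a'⟩, ⟨h1, h2⟩, hab⟩
      have e1 : u' + 1 = u := congrArg Prod.fst hab
      have e2 : a' = a := congrArg Prod.snd hab
      subst e1; subst e2
      have h1' : 0 ≤ u' := h1
      have h2' : w * u'.natAbs + h a' ≤ k := h2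
      refine ⟨by show 1 ≤ u' + 1; omega, ?_⟩
      show w * (u' + 1).natAbs + h a' ≤ k + w
      have e : (u' + 1).natAbs = u'.natAbs + 1 := by omega
      rw [e, Nat.mul_add, Nat.mul_one]
      omega
  have eQ : {q : ℤ × α | q.1 ≤ -1 ∧ q ∈ BB h w (k + w)} =
      (fun q : ℤ × α => (q.1 - 1, q.2)) '' {q : ℤ × α | q.1 ≤ 0 ∧ q ∈ BB h w k} := by
    ext ⟨u, a⟩
    constructor
    · rintro ⟨h1, h2⟩
      have h1' : u ≤ -1 := h1
      have h2' : w * u.natAbs + h a ≤ k + w := h2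
      refine ⟨(u + 1, a), ⟨by show u + 1 ≤ 0; omega, ?_⟩, by simp⟩
      show w * (u + 1).natAbs + h a ≤ k
      have e : u.natAbs = (u + 1).natAbs + 1 := by omega
      rw [e, Nat.mul_add, Nat.mul_one] at h2'
      omega
    · rintro ⟨⟨u', a'⟩, ⟨h1, h2⟩, hab⟩
      have e1 : u' - 1 = u := congrArg Prod.fst hab
      have e2 : a' = a := congrArg Prod.snd hab
      subst e1; subst e2
      have h1' : u' ≤ 0 := h1
      have h2' : w * u'.natAbs + h a' ≤ k := h2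
      refine ⟨by show u' - 1 ≤ -1; omega, ?_⟩
      show w * (u' - 1).natAbs + h a' ≤ k + w
      have e : (u' - 1).natAbs = u'.natAbs + 1 := by omega
      rw [e, Nat.mul_add, Nat.mul_one]
      omega
  have hPf : ({q : ℤ × α | 0 ≤ q.1 ∧ q ∈ BB h w k}).Finite := (hfin k).subset fun q hq => hq.2
  have hQf : ({q : ℤ × α | q.1 ≤ 0 ∧ q ∈ BB h w k}).Finite := (hfin k).subset fun q hq => hq.2
  have hU : {q : ℤ × α | 0 ≤ q.1 ∧ q ∈ BB h w k} ∪ {q : ℤ × α | q.1 ≤ 0 ∧ q ∈ BB h w k} =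
      BB h w k := by
    ext q
    constructor
    · rintro (hq | hq)
      · exact hq.2
      · exact hq.2
    · intro hq
      rcases le_total 0 q.1 with h1 | h1
      · left; exact ⟨h1, hq⟩
      · right; exact ⟨h1, hq⟩
  have hI : {q : ℤ × α | 0 ≤ q.1 ∧ q ∈ BB h w k} ∩ {q : ℤ × α | q.1 ≤ 0 ∧ q ∈ BB h w k} =
      {q : ℤ × α | q.1 = 0 ∧ q ∈ BB h w k} := by
    ext q
    constructor
    · rintro ⟨h1, h2⟩
      exact ⟨le_antisymm h2.1 h1.1, h1.2⟩
    · rintro ⟨h1, h2⟩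
      exact ⟨⟨h1.ge, h2⟩, ⟨h1.le, h2⟩⟩
  have h1 := Set.ncard_union_add_ncard_inter _ _ hPf hQf
  rw [hU, hI, zero_part] at h1
  have hPn : ({q : ℤ × α | 1 ≤ q.1 ∧ q ∈ BB h w (k + w)}).ncard =
      ({q : ℤ × α | 0 ≤ q.1 ∧ q ∈ BB h w k}).ncard := by
    rw [eP, Set.ncard_image_of_injective]
    rintro ⟨a, b⟩ ⟨c, d⟩ hab
    have e1 : a + 1 = c + 1 := congrArg Prod.fst hab
    have e2 : b = d := congrArg Prod.snd hab
    exact Prod.ext (by show a = c; omega) e2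
  have hQn : ({q : ℤ × α | q.1 ≤ -1 ∧ q ∈ BB h w (k + w)}).ncard =
      ({q : ℤ × α | q.1 ≤ 0 ∧ q ∈ BB h w k}).ncard := by
    rw [eQ, Set.ncard_image_of_injective]
    rintro ⟨a, b⟩ ⟨c, d⟩ hab
    have e1 : a - 1 = c - 1 := congrArg Prod.fst hab
    have e2 : b = d := congrArg Prod.snd hab
    exact Prod.ext (by show a = c; omega) e2
  have hd1 : Disjoint {q : ℤ × α | 1 ≤ q.1 ∧ q ∈ BB h w (k + w)}
      {q : ℤ × α | q.1 ≤ -1 ∧ q ∈ BB h w (k + w)} := by
    rw [Set.disjoint_left]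
    rintro q hq1 hq2
    have a1 := hq1.1
    have a2 := hq2.1
    omega
  have hd2 : Disjoint {q : ℤ × α | q.1 = 0 ∧ q ∈ BB h w (k + w)}
      ({q : ℤ × α | 1 ≤ q.1 ∧ q ∈ BB h w (k + w)} ∪
        {q : ℤ × α | q.1 ≤ -1 ∧ q ∈ BB h w (k + w)}) := by
    rw [Set.disjoint_left]
    rintro q hq1 hq2
    have a1 := hq1.1
    rcases hq2 with hq2 | hq2
    · have a2 := hq2.1
      omega
    · have a2 := hq2.1
      omega
  rw [eB, Set.ncard_union_eq hd2 ((hfin (k + w)).subset fun q hq => hq.2)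
    ((hfin (k + w)).subset fun q hq => by rcases hq with hq | hq <;> exact hq.2),
    Set.ncard_union_eq hd1 ((hfin (k + w)).subset fun q hq => hq.2)
    ((hfin (k + w)).subset fun q hq => hq.2), zero_part, hPn, hQn]
  omega

theorem small (k : ℕ) (hk : k < w) : (BB h w k).ncard = (AA h k).ncard := by
  rw [← zero_part h w k]
  congr 1
  ext q
  constructor
  · intro hq
    refine ⟨?_, hq⟩
    have hq' : w * q.1.natAbs + h q.2 ≤ k := hq
    by_contra hne
    have h1 : 1 ≤ q.1.natAbs := by omega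
    have h2 : w * 1 ≤ w * q.1.natAbs := Nat.mul_le_mul_left _ h1
    omega
  · intro hq
    exact hq.2

end step

def h0 : Unit → ℕ := fun _ => 0
def h1 : ℤ × Unit → ℕ := fun q => 1 * q.1.natAbs + h0 q.2
def h2 : ℤ × ℤ × Unit → ℕ := fun q => 1 * q.1.natAbs + h1 q.2
def h3 : ℤ × ℤ × ℤ × Unit → ℕ := fun q => 2 * q.1.natAbs + h2 q.2
def h4 : ℤ × ℤ × ℤ × ℤ × Unit → ℕ := fun q => 2 * q.1.natAbs + h3 q.2

theorem f0 (k : ℕ) : (AA h0 k).Finite := Set.toFinite _
theorem f1 (k : ℕ) : (AA h1 k).Finite := BB_finite h0 1 one_pos f0 k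
theorem f2 (k : ℕ) : (AA h2 k).Finite := BB_finite h1 1 one_pos f1 k
theorem f3 (k : ℕ) : (AA h3 k).Finite := BB_finite h2 2 two_pos f2 k

theorem c0 (k : ℕ) : (AA h0 k).ncard = 1 := by
  have : AA h0 k = {()} := by
    ext a
    simp [AA, h0]
  rw [this, Set.ncard_singleton]

theorem c1 (k : ℕ) : (AA h1 k).ncard = 2 * k + 1 := by
  induction k with
  | zero =>
    have := small h0 1 0 one_pos
    rw [c0] at this
    exact this
  | succ k ih =>
    have := step h0 1 one_pos f0 k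
    rw [c0, c0] at this
    change (AA h1 (k + 1)).ncard = (AA h1 k).ncard + 1 + 1 at this
    rw [this, ih]
    ring

theorem c2 (k : ℕ) : (AA h2 k).ncard = 2 * k ^ 2 + 2 * k + 1 := by
  induction k with
  | zero =>
    have := small h1 1 0 one_pos
    rw [c1] at this
    exact this
  | succ k ih =>
    have := step h1 1 one_pos f1 k
    rw [c1, c1] at this
    change (AA h2 (k + 1)).ncard = (AA h2 k).ncard + _ + _ at this
    rw [this, ih]
    ring

theorem c3 (k : ℕ) : ((AA h3 k).ncard : ℚ) = 1 + 7/3 * k + k ^ 2 + 2/3 * k ^ 3 := by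
  induction k using Nat.strong_induction_on with
  | _ k ih =>
    rcases Nat.lt_or_ge k 2 with hk | hk
    · have := small h2 2 k hk
      rw [c2] at this
      change (AA h3 k).ncard = _ at this
      rw [this]
      interval_cases k <;> norm_num
    · obtain ⟨j, rfl⟩ : ∃ j, k = j + 2 := ⟨k - 2, by omega⟩
      have := step h2 2 two_pos f2 j
      rw [c2, c2] at this
      change (AA h3 (j + 2)).ncard = (AA h3 j).ncard + _ + _ at this
      rw [this]
      push_cast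
      rw [ih j (by omega)]
      ring

theorem c4 (k : ℕ) : ((AA h4 k).ncard : ℚ) =
    1 + 5/3 * k + 11/6 * k ^ 2 + 1/3 * k ^ 3 + 1/6 * k ^ 4 := by
  induction k using Nat.strong_induction_on with
  | _ k ih =>
    rcases Nat.lt_or_ge k 2 with hk | hk
    · have := small h3 2 k hk
      change (AA h4 k).ncard = _ at this
      rw [this, c3]
      interval_cases k <;> norm_num
    · obtain ⟨j, rfl⟩ : ∃ j, k = j + 2 := ⟨k - 2, by omega⟩
      have := step h3 2 two_pos f3 j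
      change (AA h4 (j + 2)).ncard = (AA h4 j).ncard + _ + _ at this
      rw [this]
      push_cast
      rw [ih j (by omega), c3, c3]
      push_cast
      ring

def φ (q : ℤ × ℤ × ℤ × ℤ × Unit) : Fin 8 → ℤ :=
  ![2 * q.1, 2 * q.2.1, q.2.2.1, q.2.2.2.1, -2 * q.1 - 2 * q.2.1, q.1, q.2.1, q.1 + q.2.1]

theorem mat2 : mat (.a 2) = !![ 1,  0,  0,  0,  0,  0,  0,  0;
      0,  1,  0,  0,  0,  0,  0,  0;
      0,  0, 1,  0,  0,  0,  0,  0;
      0,  0,  0, 1,  0,  0,  0,  0;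
      -2, -2,  0,  0, -1, 0,  0,  0;
      1,  0,  0,  0,  0,  -1,  0,  0;
      0,  1,  0,  0,  0,  0,  -1, 0;
      1,  1,  0,  0,  0,  0,  0,  -1] := by
  have : mat (.a 2) = MI * MI := by
    show MI ^ (ZMod.val (2 : ZMod (2 * 2))) = MI * MI
    rw [show ZMod.val (2 : ZMod (2 * 2)) = 2 from rfl, pow_two]
  rw [this]
  decide

theorem mulVec_eq (x : Fin 8 → ℤ) : (mat (.a 2)).mulVec x =
    ![x 0, x 1, x 2, x 3, -2 * x 0 - 2 * x 1 - x 4, x 0 - x 5, x 1 - x 6, x 0 + x 1 - x 7] := by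
  rw [mat2]
  funext i
  fin_cases i <;> simp [Matrix.mulVec, dotProduct, Fin.sum_univ_succ] <;> ring


theorem fwd (m : ℕ) (x : Fin 8 → ℤ) (hx : InZ m x) (hf : (mat (.a 2)).mulVec x = x) :
    x ∈ φ '' AA h4 m := by
  rw [mulVec_eq] at hf
  have e4 : -2 * x 0 - 2 * x 1 - x 4 = x 4 := congrFun hf 4
  have e5 : x 0 - x 5 = x 5 := congrFun hf 5
  have e6 : x 1 - x 6 = x 6 := congrFun hf 6
  have e7 : x 0 + x 1 - x 7 = x 7 := congrFun hf 7
  have h1 := hx.1
  have b0 : x 0 = 2 * x 5 := by linarith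
  have b1 : x 1 = 2 * x 6 := by linarith
  have b4 : x 4 = -2 * x 5 - 2 * x 6 := by linarith
  have b7 : x 7 = x 5 + x 6 := by linarith
  refine ⟨(x 5, x 6, x 2, x 3, ()), ?_, ?_⟩
  · show 2 * (x 5).natAbs + (2 * (x 6).natAbs + (1 * (x 2).natAbs + (1 * (x 3).natAbs + 0))) ≤ m
    rw [b0, b1, abs_mul, abs_mul] at h1
    have t2 : |(2 : ℤ)| = 2 := rfl
    rw [t2] at h1
    zify
    linarith
  · funext i
    fin_cases i
    · exact b0.symm
    · exact b1.symm
    · rfl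
    · rfl
    · exact b4.symm
    · rfl
    · rfl
    · exact b7.symm

theorem bwd1 (m : ℕ) (u v c d : ℤ) (hq : 2 * |u| + (2 * |v| + (|c| + |d|)) ≤ (m : ℤ)) :
    InZ m (φ (u, v, c, d, ())) := by
  have x0 : φ (u, v, c, d, ()) 0 = 2 * u := rfl
  have x1 : φ (u, v, c, d, ()) 1 = 2 * v := rfl
  have x2 : φ (u, v, c, d, ()) 2 = c := rfl
  have x3 : φ (u, v, c, d, ()) 3 = d := rfl
  have x4 : φ (u, v, c, d, ()) 4 = -2 * u - 2 * v := rfl
  have x5 : φ (u, v, c, d, ()) 5 = u := rfl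
  have x6 : φ (u, v, c, d, ()) 6 = v := rfl
  have x7 : φ (u, v, c, d, ()) 7 = u + v := rfl
  have hy1 : y1 (φ (u, v, c, d, ())) = 0 := by
    unfold y1; rw [x4, x0, x1]; ring
  have hy2 : y2 (φ (u, v, c, d, ())) = 0 := by
    unfold y2; rw [x4, x5, x1]; ring
  have hy3 : y3 (φ (u, v, c, d, ())) = 0 := by
    unfold y3; rw [x4, x6, x0]; ring
  have hy4 : y4 (φ (u, v, c, d, ())) = 0 := by
    unfold y4; rw [x4, x7]; ring
  unfold InZ
  rw [hy1, hy2, hy3, hy4, x0, x1, x2, x3, abs_mul, abs_mul]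
  have hu := abs_nonneg u
  have hv := abs_nonneg v
  have hc := abs_nonneg c
  have hd := abs_nonneg d
  have t2 : |(2 : ℤ)| = 2 := rfl
  have t0 : |(0 : ℤ)| = 0 := rfl
  rw [t2, t0]
  refine ⟨?_, ?_, ?_, ?_, ?_, ?_, ?_⟩ <;> linarith

theorem bwd2 (u v c d : ℤ) : (mat (.a 2)).mulVec (φ (u, v, c, d, ())) = φ (u, v, c, d, ()) := by
  have x0 : φ (u, v, c, d, ()) 0 = 2 * u := rfl
  have x1 : φ (u, v, c, d, ()) 1 = 2 * v := rfl
  have x2 : φ (u, v, c, d, ()) 2 = c := rfl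
  have x3 : φ (u, v, c, d, ()) 3 = d := rfl
  have x4 : φ (u, v, c, d, ()) 4 = -2 * u - 2 * v := rfl
  have x5 : φ (u, v, c, d, ()) 5 = u := rfl
  have x6 : φ (u, v, c, d, ()) 6 = v := rfl
  have x7 : φ (u, v, c, d, ()) 7 = u + v := rfl
  have e4 : -2 * (2 * u) - 2 * (2 * v) - (-2 * u - 2 * v) = -2 * u - 2 * v := by ring
  have e5 : 2 * u - u = u := by ring
  have e6 : 2 * v - v = v := by ring
  have e7 : 2 * u + 2 * v - (u + v) = u + v := by ring
  have hd : φ (u, v, c, d, ()) = ![2 * u, 2 * v, c, d, -2 * u - 2 * v, u, v, u + v] := rfl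
  rw [mulVec_eq, x0, x1, x2, x3, x4, x5, x6, x7, e4, e5, e6, e7, hd]

theorem φ_inj : Function.Injective φ := by
  rintro ⟨u, v, c, d, t⟩ ⟨u', v', c', d', t'⟩ hab
  have a0 : u = u' := congrFun hab 5
  have a1 : v = v' := congrFun hab 6
  have a2 : c = c' := congrFun hab 2
  have a3 : d = d' := congrFun hab 3
  subst a0; subst a1; subst a2; subst a3
  rfl

theorem setEq (m : ℕ) : {x : Fin 8 → ℤ | InZ m x ∧ (mat (.a 2)).mulVec x = x} = φ '' AA h4 m := by
  apply Set.Subset.antisymm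
  · rintro x ⟨hx, hf⟩
    exact fwd m x hx hf
  · rintro x ⟨⟨u, v, c, d, t⟩, hq, hxe⟩
    have hq' : 2 * u.natAbs + (2 * v.natAbs + (1 * c.natAbs + (1 * d.natAbs + 0))) ≤ m := hq
    have hq2 : 2 * |u| + (2 * |v| + (|c| + |d|)) ≤ (m : ℤ) := by
      zify at hq'
      linarith
    rw [← hxe]
    exact ⟨bwd1 m u v c d hq2, bwd2 u v c d⟩

theorem cardEq (m : ℕ) : {x : Fin 8 → ℤ | InZ m x ∧ (mat (.a 2)).mulVec x = x}.ncard =
    (AA h4 m).ncard := by
  rw [setEq m]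
  exact Set.ncard_image_of_injective _ φ_inj

theorem tFixM : TFixM := by
  intro m
  exact (congrArg (Nat.cast : ℕ → ℚ) (cardEq m)).trans (c4 m)

end Pool.Agent.H636R3.STFixM
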