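import Mathlib

set_option autoImplicit false

open Set Filter Topology Metric
open scoped RealInnerProductSpace

namespace Pool.Agent.H636R3.UniqueMax

variable {E : Type*} [NormedAddCommGroup E] [InnerProductSpace ℝ E] [FiniteDimensional ℝ E]

/-- `x` is a maximum point of `y ↦ ⟪e, φ y⟫`. -/
def IsMx (φ : ℝ → E) (e : E) (x : ℝ) : Prop := ∀ y, ⟪e, φ y⟫ ≤ ⟪e, φ x⟫

lemma IsMx.add {φ : ℝ → E} {e e' : E} {x : ℝ} {s t : ℝ} (hs : 0 ≤ s) (ht : 0 ≤ t)
    (h : IsMx φ e x) (h' : IsMx φ e' x) : IsMx φ (s • e + t • e') x := by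
  intro y
  simp only [inner_add_left, inner_smul_left, RCLike.conj_to_real]
  exact add_le_add (mul_le_mul_of_nonneg_left (h y) hs) (mul_le_mul_of_nonneg_left (h' y) ht)

section main

variable (φ : ℝ → E) (hφ : Continuous φ) (m : E → ℝ)
  (hm : ∀ e, e ≠ 0 → IsMx φ e (m e))
  (hu : ∀ e, e ≠ 0 → ∀ x, IsMx φ e x → x = m e)
  (C : ℝ) (hC : ∀ x, ‖φ x‖ ≤ C)

include hm hu in
lemma iff_mx {e : E} (he : e ≠ 0) (x : ℝ) : IsMx φ e x ↔ x = m e :=
  ⟨hu e he x, fun h => h ▸ hm e he⟩

include hφ hm hu in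
/-- closed graph -/
lemma closed_graph {e : ℕ → E} {e0 : E} {x0 : ℝ} (he : ∀ n, e n ≠ 0) (he0 : e0 ≠ 0)
    (hlim : Tendsto e atTop (𝓝 e0)) (hx : Tendsto (fun n => m (e n)) atTop (𝓝 x0)) :
    m e0 = x0 := by
  symm
  apply hu e0 he0
  intro y
  have h1 : Tendsto (fun n => ⟪e n, φ y⟫) atTop (𝓝 ⟪e0, φ y⟫) :=
    hlim.inner tendsto_const_nhds
  have h2 : Tendsto (fun n => ⟪e n, φ (m (e n))⟫) atTop (𝓝 ⟪e0, φ x0⟫) :=
    hlim.inner ((hφ.tendsto x0).comp hx)
  exact le_of_tendsto_of_tendsto' h1 h2 (fun n => hm (e n) (he n) y)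

include hm hu hC in
/-- the relation `m ℓ = m a` is closed -/
lemma closed_rel {l a : ℕ → E} {l0 a0 : E} (hl : ∀ n, l n ≠ 0) (ha : ∀ n, a n ≠ 0)
    (hl0 : l0 ≠ 0) (ha0 : a0 ≠ 0)
    (hlim : Tendsto l atTop (𝓝 l0)) (halim : Tendsto a atTop (𝓝 a0))
    (heq : ∀ n, m (l n) = m (a n)) : m l0 = m a0 := by
  -- extract a convergent subsequence of `φ (m (l n))`
  have hcomp : IsCompact (closedBall (0 : E) C) := isCompact_closedBall 0 C
  obtain ⟨q, -, ψ, hψ, hq⟩ := hcomp.tendsto_subseq (x := fun n => φ (m (l n)))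
    (fun n => by simpa using hC _)
  have hl1 : Tendsto (fun n => l (ψ n)) atTop (𝓝 l0) := hlim.comp hψ.tendsto_atTop
  have ha1 : Tendsto (fun n => a (ψ n)) atTop (𝓝 a0) := halim.comp hψ.tendsto_atTop
  have hq' : Tendsto (fun n => φ (m (l (ψ n)))) atTop (𝓝 q) := hq
  have hql : ∀ y, ⟪l0, φ y⟫ ≤ ⟪l0, q⟫ := by
    intro y
    exact le_of_tendsto_of_tendsto' (hl1.inner tendsto_const_nhds) (hl1.inner hq')
      (fun n => hm _ (hl _) y)
  have hqa : ∀ y, ⟪a0, φ y⟫ ≤ ⟪a0, q⟫ := by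
    intro y
    refine le_of_tendsto_of_tendsto' (ha1.inner tendsto_const_nhds) (ha1.inner hq')
      (fun n => ?_)
    rw [heq]
    exact hm _ (ha _) y
  by_cases hsum : l0 + a0 = 0
  · exfalso
    have ha' : a0 = -l0 := by rw [eq_neg_iff_add_eq_zero, add_comm]; exact hsum
    have hconst : ∀ y, ⟪l0, φ y⟫ = ⟪l0, q⟫ := by
      intro y
      apply le_antisymm (hql y)
      have := hqa y
      rw [ha', inner_neg_left, inner_neg_left] at this
      linarith
    have h0 : (0 : ℝ) = m l0 := hu l0 hl0 0 (fun y => by rw [hconst y, hconst 0])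
    have h1 : (1 : ℝ) = m l0 := hu l0 hl0 1 (fun y => by rw [hconst y, hconst 1])
    linarith
  · set x' := m (l0 + a0) with hx'
    have h1 : ⟪l0 + a0, q⟫ ≤ ⟪l0 + a0, φ x'⟫ := by
      refine le_of_tendsto' (tendsto_const_nhds.inner hq') (fun n => ?_)
      exact hm _ hsum _
    rw [inner_add_left, inner_add_left] at h1
    have h2 := hql x'
    have h3 := hqa x'
    have e1 : ⟪l0, φ x'⟫ = ⟪l0, q⟫ := by linarith
    have e2 : ⟪a0, φ x'⟫ = ⟪a0, q⟫ := by linarith
    have k1 : x' = m l0 := hu l0 hl0 x' (fun y => by rw [e1]; exact hql y)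
    have k2 : x' = m a0 := hu a0 ha0 x' (fun y => by rw [e2]; exact hqa y)
    rw [← k1, ← k2]

include hφ hm hu in
/-- `m` is continuous on open sets on which it is bounded -/
lemma continuousOn_of_bdd {W : Set E} (hW : IsOpen W) {T : ℝ}
    (hWT : ∀ e ∈ W, e ≠ 0 ∧ |m e| ≤ T) : ContinuousOn m W := by
  intro e0 he0
  apply ContinuousAt.continuousWithinAt
  rw [ContinuousAt, tendsto_iff_seq_tendsto]
  intro e he
  apply tendsto_of_subseq_tendsto
  intro ns hns
  have hev : ∀ᶠ k in atTop, e (ns k) ∈ W := (he.comp hns).eventually (hW.mem_nhds he0)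
  obtain ⟨N, hN⟩ := eventually_atTop.1 hev
  have hcomp : IsCompact (Icc (-T) T) := isCompact_Icc
  obtain ⟨x0, -, ψ, hψ, hx⟩ := hcomp.tendsto_subseq (x := fun k => m (e (ns (N + k))))
    (fun k => abs_le.1 (hWT _ (hN _ (by omega))).2)
  refine ⟨fun k => N + ψ k, ?_⟩
  have : m e0 = x0 := by
    apply closed_graph φ hφ m hm hu (e := fun k => e (ns (N + ψ k)))
      (fun k => (hWT _ (hN _ (by omega))).1) (hWT _ he0).1
    · exact (he.comp hns).comp (tendsto_atTop_mono (fun k => by omega) hψ.tendsto_atTop)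
    · exact hx
  rw [this]
  exact hx

include hφ hm hu in
/-- the topological obstruction in dimension at least three -/
lemma obstruction (hdim : 3 ≤ Module.finrank ℝ E) {W : Set E} (hW : IsOpen W) {T : ℝ}
    (hWT : ∀ e ∈ W, e ≠ 0 ∧ |m e| ≤ T) {k0 : E} (hk0 : k0 ≠ 0)
    (hWk : ∀ e, e ≠ 0 → m e = m k0 → e ∈ W) : False := by
  have hmc := continuousOn_of_bdd φ hφ m hm hu hW hWT
  set x0 := m k0 with hx0
  -- the vector c
  set y1 : ℝ := x0 + 1 with hy1
  set c : E := φ x0 - φ y1 with hc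
  have hcpos : ∀ e, e ≠ 0 → m e = x0 → 0 < ⟪e, c⟫ := by
    intro e he hme
    have h1 := hm e he y1
    rw [hme] at h1
    rw [hc, inner_sub_right, sub_pos]
    rcases h1.lt_or_eq with h | h
    · exact h
    · exfalso
      have : y1 = m e := hu e he y1 (fun y => by rw [h, ← hme]; exact hm e he y)
      rw [hme, hy1] at this
      linarith
  have hc0 : c ≠ 0 := by
    intro h
    have := hcpos k0 hk0 rfl
    rw [h, inner_zero_right] at this
    exact lt_irrefl _ this
  have hkc : 0 < ⟪k0, c⟫ := hcpos k0 hk0 rfl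
  -- directions
  let F : Submodule ℝ E := (ℝ ∙ c)ᗮ
  have hF : ∀ u : F, ⟪(u : E), c⟫ = 0 := by
    intro u
    have := (Submodule.mem_orthogonal_singleton_iff_inner_left (𝕜 := ℝ)).1 u.2
    exact this
  have hFdim : 1 < Module.rank ℝ F := by
    have h1 := Submodule.finrank_add_finrank_orthogonal (ℝ ∙ c)
    rw [finrank_span_singleton hc0] at h1
    have h2 : 2 ≤ Module.finrank ℝ F := by show 2 ≤ Module.finrank ℝ (ℝ ∙ c)ᗮ; omega
    rw [← Module.finrank_eq_rank ℝ F]
    exact_mod_cast h2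
  have hne : ∀ (u : F) (s : ℝ), k0 + s • (u : E) ≠ 0 := by
    intro u s h
    have h1 : ⟪k0 + s • (u : E), c⟫ = ⟪k0, c⟫ := by
      rw [inner_add_left, inner_smul_left, hF u]; simp
    rw [h, inner_zero_left] at h1
    linarith
  -- convexity of the level cones
  have hconv : ∀ (u : F) (s t y : ℝ), 0 ≤ s → s ≤ t → 0 < t → y = m k0 → m (k0 + t • (u : E)) = y →
      m (k0 + s • (u : E)) = y := by
    intro u s t y hs hst ht hy hmt
    symm
    apply hu _ (hne u s)
    have h1 : IsMx φ k0 y := hy ▸ hm k0 hk0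
    have h2 : IsMx φ (k0 + t • (u : E)) y := hmt ▸ hm _ (hne u t)
    have h3 := IsMx.add (s := 1 - s / t) (t := s / t) (by
      rw [sub_nonneg, div_le_one ht]; exact hst) (by positivity) h1 h2
    convert h3 using 1
    rw [smul_add, smul_smul, div_mul_cancel₀ _ ht.ne', sub_smul, one_smul]
    abel
  -- the good part of a ray
  let J : F → ℝ → Prop := fun u s => 0 < s ∧ ∀ s' ∈ Icc (0 : ℝ) s, k0 + s' • (u : E) ∈ W
  have hJopen : ∀ (P : ℝ → Prop), IsOpen {x | P x} →
      IsOpen {u : F | ∃ s, J u s ∧ P (m (k0 + s • (u : E)))} := by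
    intro P hP
    rw [isOpen_iff_mem_nhds]
    rintro u ⟨s, ⟨hs0, hsW⟩, hPs⟩
    -- tube lemma
    have hcont : Continuous (fun p : F × ℝ => k0 + p.2 • (p.1 : E)) := by fun_prop
    have hopen : IsOpen ((fun p : F × ℝ => k0 + p.2 • (p.1 : E)) ⁻¹' W) := hW.preimage hcont
    have hsub : ({u} : Set F) ×ˢ Icc (0 : ℝ) s ⊆ (fun p : F × ℝ => k0 + p.2 • (p.1 : E)) ⁻¹' W := by
      rintro ⟨v, t⟩ ⟨hv, ht⟩
      rw [mem_singleton_iff] at hv
      subst hv
      exact hsW t ht
    obtain ⟨A, B, hA, hB, huA, hIB, hAB⟩ :=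
      generalized_tube_lemma (isCompact_singleton (x := u)) (isCompact_Icc (a := (0 : ℝ)) (b := s))
        hopen hsub
    have hA' : A ∈ 𝓝 u := hA.mem_nhds (huA rfl)
    have hca : ContinuousAt (fun v : F => m (k0 + s • (v : E))) u := by
      have h1 : ContinuousAt m (k0 + s • (u : E)) :=
        hmc.continuousAt (hW.mem_nhds (hsW s ⟨hs0.le, le_rfl⟩))
      exact ContinuousAt.comp (g := m) (f := fun v : F => k0 + s • (v : E)) h1 (by fun_prop)
    have hP' : ∀ᶠ v : F in 𝓝 u, P (m (k0 + s • (v : E))) := hca.eventually (hP.mem_nhds hPs)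
    filter_upwards [hA', hP'] with v hv1 hv2
    refine ⟨s, ⟨hs0, fun s' hs' => ?_⟩, hv2⟩
    have h9 : (v, s') ∈ A ×ˢ B := ⟨hv1, hIB hs'⟩
    exact hAB h9
  -- every ray leaves the cone inside W
  have hcover : ∀ u : F, u ≠ 0 → ∃ s, J u s ∧ m (k0 + s • (u : E)) ≠ x0 := by
    intro u hu0
    have hu0' : (u : E) ≠ 0 := fun h => hu0 (Subtype.ext h)
    -- the set of s with m = x0
    set A : Set ℝ := {s | 0 ≤ s ∧ m (k0 + s • (u : E)) = x0} with hA
    have h0A : (0 : ℝ) ∈ A := ⟨le_rfl, by simp [hx0]⟩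
    have hAcl : ∀ (s : ℕ → ℝ) (s0 : ℝ), (∀ n, s n ∈ A) → Tendsto s atTop (𝓝 s0) → s0 ∈ A := by
      intro s s0 hs hlim
      refine ⟨ge_of_tendsto' hlim (fun n => (hs n).1), ?_⟩
      apply closed_graph φ hφ m hm hu (e := fun n => k0 + s n • (u : E)) (fun n => hne u _) (hne u _)
      · exact tendsto_const_nhds.add (hlim.smul_const _)
      · have : (fun n => m (k0 + s n • (u : E))) = fun _ => x0 := funext (fun n => (hs n).2)
        rw [this]
        exact tendsto_const_nhds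
    have hAbdd : BddAbove A := by
      by_contra hnb
      rw [not_bddAbove_iff] at hnb
      have hex : ∀ n : ℕ, ∃ s ∈ A, (n : ℝ) + 1 < s := fun n => hnb _
      choose s hsA hsn using hex
      -- u is in the cone
      have hlim : Tendsto (fun n => (s n)⁻¹ • k0 + (u : E)) atTop (𝓝 ((0 : ℝ) • k0 + (u : E))) := by
        apply Tendsto.add_const
        apply Tendsto.smul_const
        apply tendsto_inv_atTop_zero.comp
        apply tendsto_atTop_mono (fun n => (hsn n).le)
        exact tendsto_atTop_add_const_right _ _ tendsto_natCast_atTop_atTop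
      rw [zero_smul, zero_add] at hlim
      have hspos : ∀ n, 0 < s n := fun n => by
        have := hsn n
        have h2 : (0 : ℝ) ≤ n := Nat.cast_nonneg n
        linarith
      have hmx : ∀ n, IsMx φ ((s n)⁻¹ • k0 + (u : E)) x0 := by
        intro n
        have h1 : IsMx φ (k0 + s n • (u : E)) x0 := by
          have := hm _ (hne u (s n))
          rwa [(hsA n).2] at this
        have h2 := IsMx.add (s := (s n)⁻¹) (t := 0) (inv_nonneg.2 (hspos n).le) le_rfl h1 h1
        rwa [zero_smul, add_zero, smul_add, smul_smul, inv_mul_cancel₀ (hspos n).ne', one_smul] at h2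
      have hux : IsMx φ (u : E) x0 := by
        intro y
        exact le_of_tendsto_of_tendsto' (hlim.inner tendsto_const_nhds)
          (hlim.inner tendsto_const_nhds) (fun n => hmx n y)
      have := hcpos (u : E) hu0' (hu _ hu0' _ hux).symm
      rw [hF u] at this
      exact lt_irrefl _ this
    set ρ := sSup A with hρ
    have hρA : ρ ∈ A := by
      obtain ⟨s, hs1, hs2, hs3⟩ := exists_seq_tendsto_sSup (S := A) ⟨0, h0A⟩ hAbdd
      exact hAcl s ρ (fun n => hs3 n) hs2
    have hρW : k0 + ρ • (u : E) ∈ W := hWk _ (hne u ρ) hρA.2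
    have hcont : Continuous (fun s : ℝ => k0 + s • (u : E)) := by fun_prop
    have hnb : ∀ᶠ s in 𝓝 ρ, k0 + s • (u : E) ∈ W := hcont.continuousAt.eventually (hW.mem_nhds hρW)
    obtain ⟨η, hη, hball⟩ := Metric.eventually_nhds_iff.1 hnb
    refine ⟨ρ + η / 2, ⟨?_, ?_⟩, ?_⟩
    · have := hρA.1; linarith
    · intro s' hs'
      rcases le_or_gt s' ρ with h | h
      · apply hWk _ (hne u s')
        rcases hρA.1.eq_or_lt with h0 | h0
        · have : s' = 0 := le_antisymm (h0 ▸ h) hs'.1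
          rw [this, zero_smul, add_zero]
        · exact hconv u s' ρ x0 hs'.1 h h0 rfl hρA.2
      · apply hball
        rw [Real.dist_eq, abs_of_pos (by linarith)]
        have := hs'.2
        linarith
    · intro h
      have h1 : ρ + η / 2 ∈ A := ⟨by have := hρA.1; linarith, h⟩
      have h2 := le_csSup hAbdd h1
      linarith
  -- continuity of m along a good ray
  have hray : ∀ (u : F) (s : ℝ), J u s →
      ContinuousOn (fun t : ℝ => m (k0 + t • (u : E))) (Icc 0 s) := by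
    intro u s hJ
    exact hmc.comp (by fun_prop) (fun t ht => hJ.2 t ht)
  -- Upper and lower sets
  set Up : Set F := {u : F | ∃ s, J u s ∧ x0 < m (k0 + s • (u : E))} with hUp
  set Lo : Set F := {u : F | ∃ s, J u s ∧ m (k0 + s • (u : E)) < x0} with hLo
  have hUpO : IsOpen Up := hJopen (fun x => x0 < x) isOpen_Ioi
  have hLoO : IsOpen Lo := hJopen (fun x => x < x0) isOpen_Iio
  have hdisj : ∀ u : F, u ∈ Up → u ∈ Lo → False := by
    rintro u ⟨s1, hJ1, h1⟩ ⟨s2, hJ2, h2⟩
    rcases le_total s1 s2 with h | h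
    · -- IVT on [s1, s2]
      have hc2 : ContinuousOn (fun t : ℝ => m (k0 + t • (u : E))) (Icc s1 s2) :=
        (hray u s2 hJ2).mono (Icc_subset_Icc hJ1.1.le le_rfl)
      obtain ⟨t, ht, hteq⟩ := intermediate_value_Icc' h hc2 ⟨h2.le, h1.le⟩
      have := hconv u s1 t x0 hJ1.1.le ht.1 (lt_of_lt_of_le hJ1.1 ht.1) rfl hteq
      linarith
    · have hc2 : ContinuousOn (fun t : ℝ => m (k0 + t • (u : E))) (Icc s2 s1) :=
        (hray u s1 hJ1).mono (Icc_subset_Icc hJ2.1.le le_rfl)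
      obtain ⟨t, ht, hteq⟩ := intermediate_value_Icc h hc2 ⟨h2.le, h1.le⟩
      have := hconv u s2 t x0 hJ2.1.le ht.1 (lt_of_lt_of_le hJ2.1 ht.1) rfl hteq
      linarith
  have hpre : IsPreconnected ({0}ᶜ : Set F) :=
    (isConnected_compl_singleton_of_one_lt_rank hFdim 0).isPreconnected
  have hnonempty : ({0}ᶜ : Set F).Nonempty :=
    (isConnected_compl_singleton_of_one_lt_rank hFdim 0).nonempty
  have hcov : ({0}ᶜ : Set F) ⊆ Up ∪ Lo := by
    intro u hu0
    obtain ⟨s, hJ, hs⟩ := hcover u hu0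
    rcases lt_or_gt_of_ne hs with h | h
    · exact Or.inr ⟨s, hJ, h⟩
    · exact Or.inl ⟨s, hJ, h⟩
  -- opposite directions have opposite signs
  have hopp : ∀ u : F, u ∈ Up → -u ∈ Up → False := by
    rintro u ⟨s1, hJ1, h1⟩ ⟨s2, hJ2, h2⟩
    set y := min (m (k0 + s1 • (u : E))) (m (k0 + s2 • ((-u : F) : E))) with hy
    have hyx : x0 < y := lt_min h1 h2
    have e0 : m (k0 + (0 : ℝ) • (u : E)) = x0 := by simp [hx0]
    have e0' : m (k0 + (0 : ℝ) • ((-u : F) : E)) = x0 := by simp [hx0]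
    obtain ⟨t1, ht1, heq1⟩ := intermediate_value_Icc hJ1.1.le (hray u s1 hJ1)
      (show y ∈ Icc _ _ from ⟨by rw [e0]; exact hyx.le, min_le_left _ _⟩)
    obtain ⟨t2, ht2, heq2⟩ := intermediate_value_Icc hJ2.1.le (hray (-u) s2 hJ2)
      (show y ∈ Icc _ _ from ⟨by rw [e0']; exact hyx.le, min_le_right _ _⟩)
    have ht1p : 0 < t1 := by
      rcases ht1.1.eq_or_lt with h | h
      · exfalso; rw [← h] at heq1; simp only [] at heq1; rw [e0] at heq1; linarith
      · exact h
    have ht2p : 0 < t2 := by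
      rcases ht2.1.eq_or_lt with h | h
      · exfalso; rw [← h] at heq2; simp only [] at heq2; rw [e0'] at heq2; linarith
      · exact h
    have hm1 : IsMx φ (k0 + t1 • (u : E)) y := by
      have := hm _ (hne u t1); simp only [] at heq1; rwa [heq1] at this
    have hm2 : IsMx φ (k0 + t2 • ((-u : F) : E)) y := by
      have := hm _ (hne (-u) t2); simp only [] at heq2; rwa [heq2] at this
    have h3 := IsMx.add (s := t2 / (t1 + t2)) (t := t1 / (t1 + t2)) (by positivity) (by positivity)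
      hm1 hm2
    have hk : (t2 / (t1 + t2)) • (k0 + t1 • (u : E)) + (t1 / (t1 + t2)) • (k0 + t2 • ((-u : F) : E))
        = k0 := by
      have hne' : t1 + t2 ≠ 0 := by positivity
      have : ((-u : F) : E) = -(u : E) := rfl
      rw [this, smul_add, smul_add, smul_neg, smul_neg, smul_smul, smul_smul]
      have h5 : t2 / (t1 + t2) * t1 = t1 / (t1 + t2) * t2 := by ring
      rw [h5]
      have h6 : (t2 / (t1 + t2)) • k0 + (t1 / (t1 + t2)) • k0 = k0 := by
        rw [← add_smul, ← add_div, add_comm t2 t1, div_self hne', one_smul]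
      calc _ = (t2 / (t1 + t2)) • k0 + (t1 / (t1 + t2)) • k0 := by abel
        _ = k0 := h6
    rw [hk] at h3
    have := hu k0 hk0 y h3
    linarith
  have hopp' : ∀ u : F, u ∈ Lo → -u ∈ Lo → False := by
    rintro u ⟨s1, hJ1, h1⟩ ⟨s2, hJ2, h2⟩
    set y := max (m (k0 + s1 • (u : E))) (m (k0 + s2 • ((-u : F) : E))) with hy
    have hyx : y < x0 := max_lt h1 h2
    have e0 : m (k0 + (0 : ℝ) • (u : E)) = x0 := by simp [hx0]
    have e0' : m (k0 + (0 : ℝ) • ((-u : F) : E)) = x0 := by simp [hx0]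
    obtain ⟨t1, ht1, heq1⟩ := intermediate_value_Icc' hJ1.1.le (hray u s1 hJ1)
      (show y ∈ Icc _ _ from ⟨le_max_left _ _, by rw [e0]; exact hyx.le⟩)
    obtain ⟨t2, ht2, heq2⟩ := intermediate_value_Icc' hJ2.1.le (hray (-u) s2 hJ2)
      (show y ∈ Icc _ _ from ⟨le_max_right _ _, by rw [e0']; exact hyx.le⟩)
    have ht1p : 0 < t1 := by
      rcases ht1.1.eq_or_lt with h | h
      · exfalso; rw [← h] at heq1; simp only [] at heq1; rw [e0] at heq1; linarith
      · exact h
    have ht2p : 0 < t2 := by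
      rcases ht2.1.eq_or_lt with h | h
      · exfalso; rw [← h] at heq2; simp only [] at heq2; rw [e0'] at heq2; linarith
      · exact h
    have hm1 : IsMx φ (k0 + t1 • (u : E)) y := by
      have := hm _ (hne u t1); simp only [] at heq1; rwa [heq1] at this
    have hm2 : IsMx φ (k0 + t2 • ((-u : F) : E)) y := by
      have := hm _ (hne (-u) t2); simp only [] at heq2; rwa [heq2] at this
    have h3 := IsMx.add (s := t2 / (t1 + t2)) (t := t1 / (t1 + t2)) (by positivity) (by positivity)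
      hm1 hm2
    have hk : (t2 / (t1 + t2)) • (k0 + t1 • (u : E)) + (t1 / (t1 + t2)) • (k0 + t2 • ((-u : F) : E))
        = k0 := by
      have hne' : t1 + t2 ≠ 0 := by positivity
      have : ((-u : F) : E) = -(u : E) := rfl
      rw [this, smul_add, smul_add, smul_neg, smul_neg, smul_smul, smul_smul]
      have h5 : t2 / (t1 + t2) * t1 = t1 / (t1 + t2) * t2 := by ring
      rw [h5]
      have h6 : (t2 / (t1 + t2)) • k0 + (t1 / (t1 + t2)) • k0 = k0 := by
        rw [← add_smul, ← add_div, add_comm t2 t1, div_self hne', one_smul]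
      calc _ = (t2 / (t1 + t2)) • k0 + (t1 / (t1 + t2)) • k0 := by abel
        _ = k0 := h6
    rw [hk] at h3
    have := hu k0 hk0 y h3
    linarith
  -- conclusion
  obtain ⟨u0, hu0⟩ := hnonempty
  have hnu0 : -u0 ∈ ({0}ᶜ : Set F) := by
    intro h; exact hu0 (neg_eq_zero.1 h)
  by_cases hUne : (({0}ᶜ : Set F) ∩ Up).Nonempty
  · by_cases hLne : (({0}ᶜ : Set F) ∩ Lo).Nonempty
    · obtain ⟨v, -, hv1, hv2⟩ := hpre Up Lo hUpO hLoO hcov hUne hLne
      exact hdisj v hv1 hv2
    · have hall : ∀ v ∈ ({0}ᶜ : Set F), v ∈ Up := by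
        intro v hv
        rcases hcov hv with h | h
        · exact h
        · exact absurd ⟨v, hv, h⟩ hLne
      exact hopp u0 (hall u0 hu0) (hall _ hnu0)
  · have hall : ∀ v ∈ ({0}ᶜ : Set F), v ∈ Lo := by
      intro v hv
      rcases hcov hv with h | h
      · exact absurd ⟨v, hv, h⟩ hUne
      · exact h
    exact hopp' u0 (hall u0 hu0) (hall _ hnu0)

include hφ hm hu hC in
theorem no_three (hdim : 3 ≤ Module.finrank ℝ E) : False := by
  classical
  have hnt : Nontrivial E := Module.nontrivial_of_finrank_pos (R := ℝ) (by omega)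
  set S : Set E := sphere (0 : E) 1 with hS
  have hSne : ∀ e ∈ S, e ≠ 0 := by
    rintro e he rfl
    simp [hS] at he
  have hScomp : IsCompact S := isCompact_sphere 0 1
  have hSnonempty : S.Nonempty := by
    rw [hS]; exact NormedSpace.sphere_nonempty.2 zero_le_one
  -- the classes are closed
  have hclass : ∀ x : ℝ, IsClosed {e ∈ S | m e = x} := by
    intro x
    have : {e ∈ S | m e = x} = S ∩ ⋂ y : ℝ, {e : E | ⟪e, φ y⟫ ≤ ⟪e, φ x⟫} := by
      ext e
      rw [mem_inter_iff, mem_iInter]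
      constructor
      · rintro ⟨h1, h2⟩
        exact ⟨h1, fun y => (iff_mx φ m hm hu (hSne e h1) x).2 h2.symm y⟩
      · rintro ⟨h1, h2⟩
        exact ⟨h1, ((iff_mx φ m hm hu (hSne e h1) x).1 h2).symm⟩
    rw [this]
    apply isClosed_sphere.inter
    apply isClosed_iInter
    intro y
    exact isClosed_le (by fun_prop) (by fun_prop)
  -- minimal closed set
  set 𝒮 : Set (Set E) := {F | IsClosed F ∧ F ⊆ S ∧ ∀ e ∈ S, ∃ a ∈ F, m a = m e} with h𝒮
  have hS𝒮 : S ∈ 𝒮 := ⟨isClosed_sphere, subset_rfl, fun e he => ⟨e, he, rfl⟩⟩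
  obtain ⟨F, -, hFmin⟩ := zorn_superset_nonempty 𝒮 (by
    intro c hc hchain hcne
    refine ⟨⋂₀ c, ⟨?_, ?_, ?_⟩, fun s hs => sInter_subset_of_mem hs⟩
    · exact isClosed_sInter (fun s hs => (hc hs).1)
    · obtain ⟨s, hs⟩ := hcne
      exact (sInter_subset_of_mem hs).trans (hc hs).2.1
    · intro e he
      have hne : (⋂ s : c, ((s : Set E) ∩ {a ∈ S | m a = m e})).Nonempty := by
        have : Nonempty c := hcne.to_subtype
        apply IsCompact.nonempty_iInter_of_directed_nonempty_isCompact_isClosed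
        · intro s t
          rcases hchain.total s.2 t.2 with h | h
          · exact ⟨s, subset_rfl, inter_subset_inter_left _ h⟩
          · exact ⟨t, inter_subset_inter_left _ h, subset_rfl⟩
        · intro s
          obtain ⟨a, ha, hae⟩ := (hc s.2).2.2 e he
          exact ⟨a, ha, (hc s.2).2.1 ha, hae⟩
        · intro s
          exact hScomp.of_isClosed_subset ((hc s.2).1.inter (hclass _))
            (inter_subset_left.trans (hc s.2).2.1)
        · intro s
          exact (hc s.2).1.inter (hclass _)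
      obtain ⟨a, ha⟩ := hne
      rw [mem_iInter] at ha
      obtain ⟨s, hs⟩ := hcne
      refine ⟨a, fun t ht => (ha ⟨t, ht⟩).1, (ha ⟨s, hs⟩).2.2⟩) S hS𝒮
  obtain ⟨hFcl, hFS, hFmeet⟩ := hFmin.1
  -- homogeneity
  have hhom : ∀ e : E, e ≠ 0 → ∀ r : ℝ, 0 < r → m (r • e) = m e := by
    intro e he r hr
    symm
    apply hu _ (smul_ne_zero hr.ne' he)
    have h1 := IsMx.add (s := r) (t := 0) hr.le le_rfl (hm e he) (hm e he)
    rwa [zero_smul, add_zero] at h1
  -- the sets where `m` is bounded by `T`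
  have hAT : ∀ T : ℝ, IsClosed {e | e ∈ S ∧ |m e| ≤ T} := by
    intro T
    apply IsSeqClosed.isClosed
    intro e e0 he hlim
    have he0S : e0 ∈ S := isClosed_sphere.isSeqClosed (fun n => (he n).1) hlim
    refine ⟨he0S, ?_⟩
    obtain ⟨x0, hx0, ψ, hψ, hx⟩ := (isCompact_Icc (a := -T) (b := T)).tendsto_subseq
      (x := fun k => m (e k)) (fun k => abs_le.1 (he k).2)
    have := closed_graph φ hφ m hm hu (e := fun k => e (ψ k)) (fun k => hSne _ (he _).1)
      (hSne _ he0S) (hlim.comp hψ.tendsto_atTop) hx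
    rw [this]
    exact abs_le.2 hx0
  obtain ⟨e1, he1⟩ := hSnonempty
  obtain ⟨a1, ha1, -⟩ := hFmeet e1 he1
  have hFcomp : IsCompact F := hScomp.of_isClosed_subset hFcl hFS
  have : CompactSpace F := isCompact_iff_compactSpace.1 hFcomp
  have : Nonempty F := ⟨⟨a1, ha1⟩⟩
  obtain ⟨T, ⟨a, ha⟩⟩ := nonempty_interior_of_iUnion_of_closed (X := F) (ι := ℕ)
    (f := fun T => {a : F | |m (a : E)| ≤ (T : ℝ)}) (by
      intro T
      have h1 : {a : F | |m (a : E)| ≤ (T : ℝ)} = Subtype.val ⁻¹' {e | e ∈ S ∧ |m e| ≤ (T : ℝ)} := by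
        ext a
        constructor
        · intro h; exact ⟨hFS a.2, h⟩
        · intro h; exact h.2
      rw [h1]
      exact (hAT T).preimage continuous_subtype_val) (by
      ext a
      simp only [mem_iUnion, mem_univ, iff_true]
      obtain ⟨T, hT⟩ := exists_nat_ge |m (a : E)|
      exact ⟨T, hT⟩)
  obtain ⟨U, hUo, hU⟩ := isOpen_induced_iff.1
    (isOpen_interior (s := {a : F | |m (a : E)| ≤ (T : ℝ)}))
  have haU : (a : E) ∈ U := by
    have : a ∈ Subtype.val ⁻¹' U := by rw [hU]; exact ha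
    exact this
  have hFU : ∀ b ∈ F, b ∈ U → |m b| ≤ T := by
    intro b hb hbU
    have : (⟨b, hb⟩ : F) ∈ Subtype.val ⁻¹' U := hbU
    rw [hU] at this
    have h2 : (⟨b, hb⟩ : F) ∈ {a : F | |m (a : E)| ≤ (T : ℝ)} := interior_subset this
    exact h2
  -- minimality
  have hFU' : ¬ (F \ U ∈ 𝒮) := by
    intro h
    have h1 : F ⊆ F \ U := hFmin.2 h sdiff_subset
    exact (h1 a.2).2 haU
  have hFUcl : IsClosed (F \ U) := hFcl.sdiff hUo
  have hex : ∃ k0 ∈ S, ∀ b ∈ F \ U, m b ≠ m k0 := by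
    by_contra hcon
    push Not at hcon
    exact hFU' ⟨hFUcl, sdiff_subset.trans hFS, hcon⟩
  obtain ⟨k0, hk0S, hk0⟩ := hex
  set B : Set E := {e | e ∈ S ∧ (T : ℝ) < |m e|} with hB
  -- the open set
  set W : Set E := {e : E | e ≠ 0} ∩ (fun e : E => ‖e‖⁻¹ • e) ⁻¹' (closure B)ᶜ with hW
  have hWo : IsOpen W := by
    apply ContinuousOn.isOpen_inter_preimage _ isOpen_ne isClosed_closure.isOpen_compl
    apply ContinuousOn.smul
    · apply ContinuousOn.inv₀ continuous_norm.continuousOn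
      intro e he
      exact norm_ne_zero_iff.2 he
    · exact continuousOn_id
  have hnorm : ∀ e : E, e ≠ 0 → ‖e‖⁻¹ • e ∈ S := by
    intro e he
    rw [hS, mem_sphere_zero_iff_norm, norm_smul, norm_inv, norm_norm,
      inv_mul_cancel₀ (norm_ne_zero_iff.2 he)]
  have hWT : ∀ e ∈ W, e ≠ 0 ∧ |m e| ≤ (T : ℝ) := by
    rintro e ⟨he, hecl⟩
    refine ⟨he, ?_⟩
    by_contra hcon
    push Not at hcon
    apply hecl
    apply subset_closure
    refine ⟨hnorm e he, ?_⟩
    rw [hhom e he _ (inv_pos.2 (norm_pos_iff.2 he))]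
    exact hcon
  refine obstruction φ hφ m hm hu hdim hWo hWT (hSne k0 hk0S) ?_
  intro e he hme
  refine ⟨he, ?_⟩
  intro hcl
  set l0 : E := ‖e‖⁻¹ • e with hl0
  have hml0 : m l0 = m k0 := by
    rw [hl0, hhom e he _ (inv_pos.2 (norm_pos_iff.2 he)), hme]
  obtain ⟨l, hlB, hlim⟩ := mem_closure_iff_seq_limit.1 hcl
  have hch : ∀ n, ∃ b ∈ F, m b = m (l n) := fun n => hFmeet (l n) (hlB n).1
  choose b hbF hbm using hch
  have hbU : ∀ n, b n ∈ F \ U := by
    intro n
    refine ⟨hbF n, fun hn => ?_⟩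
    have h1 := hFU (b n) (hbF n) hn
    rw [hbm n] at h1
    exact absurd h1 (not_le.2 (hlB n).2)
  have hcompFU : IsCompact (F \ U) := hScomp.of_isClosed_subset hFUcl (sdiff_subset.trans hFS)
  obtain ⟨b0, hb0, ψ, hψ, hb⟩ := hcompFU.tendsto_subseq hbU
  have := closed_rel φ m hm hu C hC (l := fun n => l (ψ n)) (a := fun n => b (ψ n))
    (fun n => hSne _ (hlB _).1) (fun n => hSne _ (hFS (hbF _))) (hSne _ (hnorm e he))
    (hSne _ (hFS hb0.1)) (hlim.comp hψ.tendsto_atTop) hb (fun n => (hbm _).symm)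
  exact hk0 b0 hb0 (by rw [← this, hml0])

end main

end Pool.Agent.H636R3.UniqueMax
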