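import Pool.Agent.H636R3.UniqueMax

set_option autoImplicit false


namespace Pool.Agent.H636R3.UniqueMaxKnown

open Pool.Agent.H636R3.UniqueMax in
/-- The negation of the preceding statement: There exist n > 2 and an n-dimensional real vector subspace of continuous functions ℝ → ℝ in which every nonzero function attains its global maximum at exactly one point. -/
theorem result :
    ¬ (∃ n : ℕ, 2 < n ∧ ∃ V : Submodule ℝ (ContinuousMap ℝ ℝ),
      Module.finrank ℝ V = n ∧
      ∀ f ∈ V, f ≠ 0 → ∃! x : ℝ, ∀ y : ℝ, f y ≤ f x) := by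
  rintro ⟨n, hn, V, hV, hmax⟩
  have hfin : Module.Finite ℝ V := Module.finite_of_finrank_pos (by omega)
  let b : Module.Basis (Fin n) ℝ V := Module.finBasisOfFinrankEq ℝ V hV
  -- the curve
  let φ : ℝ → EuclideanSpace ℝ (Fin n) :=
    fun x => WithLp.toLp 2 (fun i => ((b i : ContinuousMap ℝ ℝ) x))
  have hφ : Continuous φ := by
    apply (PiLp.continuous_toLp 2 _).comp
    exact continuous_pi (fun i => (b i : ContinuousMap ℝ ℝ).continuous)
  -- the function attached to a vector
  let g : EuclideanSpace ℝ (Fin n) → V := fun e => ∑ i, e i • b i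
  have hg : ∀ e x, inner ℝ e (φ x) = (g e : ContinuousMap ℝ ℝ) x := by
    intro e x
    simp only [g, φ, PiLp.inner_apply, Submodule.coe_sum, Submodule.coe_smul]
    rw [ContinuousMap.sum_apply]
    apply Finset.sum_congr rfl
    intro i _
    simp [mul_comm]
  have hg0 : ∀ e, e ≠ 0 → (g e : ContinuousMap ℝ ℝ) ≠ 0 := by
    intro e he h
    apply he
    have h1 : g e = 0 := Subtype.ext h
    have h2 := (Fintype.linearIndependent_iff.1 b.linearIndependent) (fun i => e i) h1
    ext i
    exact h2 i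
  have hex : ∀ e : EuclideanSpace ℝ (Fin n), ∃ x : ℝ, e ≠ 0 →
      (IsMx φ e x ∧ ∀ x', IsMx φ e x' → x' = x) := by
    intro e
    by_cases he : e = 0
    · exact ⟨0, fun h => absurd he h⟩
    · obtain ⟨x, hx, hx'⟩ := hmax _ (g e).2 (hg0 e he)
      refine ⟨x, fun _ => ⟨fun y => ?_, fun x' hx'' => ?_⟩⟩
      · rw [hg, hg]; exact hx y
      · apply hx'
        intro y
        have := hx'' y
        rwa [hg, hg] at this
  choose m hm using hex
  -- boundedness
  have hbd : ∀ i, ∃ C, ∀ x, |(b i : ContinuousMap ℝ ℝ) x| ≤ C := by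
    intro i
    have hne : (b i : ContinuousMap ℝ ℝ) ≠ 0 := by
      intro h
      exact b.ne_zero i (Subtype.ext h)
    obtain ⟨x1, h1, -⟩ := hmax _ (b i).2 hne
    obtain ⟨x2, h2, -⟩ := hmax (-(b i : ContinuousMap ℝ ℝ)) (V.neg_mem (b i).2) (neg_ne_zero.2 hne)
    refine ⟨max ((b i : ContinuousMap ℝ ℝ) x1) (-((b i : ContinuousMap ℝ ℝ) x2)), fun x => ?_⟩
    rw [abs_le]
    constructor
    · have h3 := h2 x
      simp only [ContinuousMap.neg_apply] at h3
      have h4 := le_max_right ((b i : ContinuousMap ℝ ℝ) x1) (-((b i : ContinuousMap ℝ ℝ) x2))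
      linarith
    · exact (h1 x).trans (le_max_left _ _)
  choose C hC using hbd
  have hbound : ∀ x, ‖φ x‖ ≤ √(∑ i, (C i) ^ 2) := by
    intro x
    rw [EuclideanSpace.norm_eq]
    apply Real.sqrt_le_sqrt
    apply Finset.sum_le_sum
    intro i _
    have h1 : ‖(φ x) i‖ = |(b i : ContinuousMap ℝ ℝ) x| := rfl
    rw [h1]
    exact pow_le_pow_left₀ (abs_nonneg _) (hC i x) 2
  exact no_three φ hφ m (fun e he => (hm e he).1) (fun e he x hx => (hm e he).2 x hx) _ hbound
    (by rw [finrank_euclideanSpace_fin]; omega)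

end Pool.Agent.H636R3.UniqueMaxKnown
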